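import Mathlib
set_option autoImplicit false

/-! The additive energy of the circle with a singular weight. -/

namespace Pool.Agent.P8H98.HG

open MeasureTheory Set
open scoped ENNReal NNReal

/-- first coordinate of `w₁ + w₂ - w₃ - w₄`, `w = e^{2iθ}` -/
noncomputable def V1 (z : (ℝ × ℝ) × (ℝ × ℝ)) : ℝ :=
  Real.cos (2 * z.1.1) + Real.cos (2 * z.1.2) - Real.cos (2 * z.2.1) - Real.cos (2 * z.2.2)

/-- second coordinate -/
noncomputable def V2 (z : (ℝ × ℝ) × (ℝ × ℝ)) : ℝ :=
  Real.sin (2 * z.1.1) + Real.sin (2 * z.1.2) - Real.sin (2 * z.2.1) - Real.sin (2 * z.2.2)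

lemma sin_lower {x : ℝ} (hx : |x| ≤ Real.pi / 2) : 2 / Real.pi * |x| ≤ |Real.sin x| := by
  have h1 := Real.mul_le_sin (abs_nonneg x) hx
  rcases abs_cases x with ⟨h, _⟩ | ⟨h, _⟩
  · rw [h] at h1 ⊢
    exact h1.trans (le_abs_self _)
  · rw [h] at h1 ⊢
    rw [Real.sin_neg] at h1
    exact h1.trans (neg_le_abs _)

lemma V_lower (z : (ℝ × ℝ) × (ℝ × ℝ))
    (h1 : |z.1.1 - z.1.2| ≤ Real.pi / 4) (h2 : |z.2.1 - z.2.2| ≤ Real.pi / 4)
    (h3 : |z.1.1 + z.1.2 - z.2.1 - z.2.2| ≤ Real.pi / 2) :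
    1 / 4 * (|z.1.1 - z.1.2 + z.2.1 - z.2.2| * |z.1.1 - z.1.2 - z.2.1 + z.2.2| *
      |z.1.1 + z.1.2 - z.2.1 - z.2.2|) ≤ V1 z ^ 2 + V2 z ^ 2 := by
  obtain ⟨⟨a, b⟩, ⟨c, d⟩⟩ := z
  simp only at h1 h2 h3 ⊢
  unfold V1 V2
  simp only
  set m := a - b with hm
  set m' := c - d with hm'
  set x := a + b - c - d with hx
  have hpi := Real.pi_pos
  have hpi2 : Real.pi ^ 2 < 10 := by
    have := Real.pi_lt_d2
    nlinarith
  -- the identity
  have e1 : Real.cos (2 * a) + Real.cos (2 * b) = 2 * Real.cos (a + b) * Real.cos m := by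
    have := Real.cos_add_cos (2 * a) (2 * b)
    rw [this, hm]
    ring_nf
  have e2 : Real.cos (2 * c) + Real.cos (2 * d) = 2 * Real.cos (c + d) * Real.cos m' := by
    have := Real.cos_add_cos (2 * c) (2 * d)
    rw [this, hm']
    ring_nf
  have e3 : Real.sin (2 * a) + Real.sin (2 * b) = 2 * Real.sin (a + b) * Real.cos m := by
    have h := Real.sin_sub_sin (2 * a) (-(2 * b))
    rw [Real.sin_neg] at h
    rw [show Real.sin (2 * a) + Real.sin (2 * b) = Real.sin (2 * a) - -Real.sin (2 * b) by ring, h,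
      hm]
    ring_nf
  have e4 : Real.sin (2 * c) + Real.sin (2 * d) = 2 * Real.sin (c + d) * Real.cos m' := by
    have h := Real.sin_sub_sin (2 * c) (-(2 * d))
    rw [Real.sin_neg] at h
    rw [show Real.sin (2 * c) + Real.sin (2 * d) = Real.sin (2 * c) - -Real.sin (2 * d) by ring, h,
      hm']
    ring_nf
  have e5 : Real.cos x = Real.cos (a + b) * Real.cos (c + d) + Real.sin (a + b) * Real.sin (c + d)
      := by
    rw [← Real.cos_sub, hx]
    ring_nf
  have key : (Real.cos (2 * a) + Real.cos (2 * b) - Real.cos (2 * c) - Real.cos (2 * d)) ^ 2 +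
      (Real.sin (2 * a) + Real.sin (2 * b) - Real.sin (2 * c) - Real.sin (2 * d)) ^ 2 =
      4 * ((Real.cos m - Real.cos m') ^ 2 + 2 * (Real.cos m * Real.cos m') * (1 - Real.cos x)) := by
    have f1 : Real.cos (2 * a) + Real.cos (2 * b) - Real.cos (2 * c) - Real.cos (2 * d) =
        2 * Real.cos (a + b) * Real.cos m - 2 * Real.cos (c + d) * Real.cos m' := by
      linarith
    have f2 : Real.sin (2 * a) + Real.sin (2 * b) - Real.sin (2 * c) - Real.sin (2 * d) =
        2 * Real.sin (a + b) * Real.cos m - 2 * Real.sin (c + d) * Real.cos m' := by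
      linarith
    rw [f1, f2, e5]
    have g1 := Real.sin_sq_add_cos_sq (a + b)
    have g2 := Real.sin_sq_add_cos_sq (c + d)
    linear_combination 4 * Real.cos m ^ 2 * g1 + 4 * Real.cos m' ^ 2 * g2
  rw [key]
  -- bounds
  have hc : ∀ y : ℝ, |y| ≤ Real.pi / 4 → Real.sqrt 2 / 2 ≤ Real.cos y := by
    intro y hy
    rw [← Real.cos_pi_div_four, ← Real.cos_abs y]
    exact Real.cos_le_cos_of_nonneg_of_le_pi (abs_nonneg _) (by linarith) hy
  have hs2 : Real.sqrt 2 * Real.sqrt 2 = 2 := Real.mul_self_sqrt (by norm_num)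
  have hcc : 1 / 2 ≤ Real.cos m * Real.cos m' := by
    have h5 : Real.sqrt 2 / 2 * (Real.sqrt 2 / 2) ≤ Real.cos m * Real.cos m' :=
      mul_le_mul (hc m h1) (hc m' h2) (by positivity)
        (le_trans (by positivity) (hc m h1))
    nlinarith
  have hx1 : x ^ 2 / 5 ≤ 1 - Real.cos x := by
    have h5 : Real.cos x = 1 - 2 * Real.sin (x / 2) ^ 2 := by
      have := Real.cos_sq' (x / 2)
      have h6 := Real.cos_two_mul (x / 2)
      rw [show 2 * (x / 2) = x by ring] at h6
      rw [h6, this]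
      ring
    have h6 : |x / 2| ≤ Real.pi / 2 := by
      rw [abs_div, abs_two]
      linarith
    have h7 := sin_lower h6
    rw [abs_div, abs_two] at h7
    have h8 : 2 / Real.pi * (|x| / 2) = |x| / Real.pi := by field_simp
    rw [h8] at h7
    have h9 : (|x| / Real.pi) ^ 2 ≤ Real.sin (x / 2) ^ 2 := by
      rw [← sq_abs (Real.sin (x / 2))]
      exact pow_le_pow_left₀ (by positivity) h7 2
    rw [div_pow, sq_abs] at h9
    have h10 : x ^ 2 / 10 ≤ x ^ 2 / Real.pi ^ 2 := by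
      apply div_le_div_of_nonneg_left (sq_nonneg x) (by positivity) hpi2.le
    rw [h5]
    linarith
  have hA : |m + m'| * |m - m'| / 5 ≤ |Real.cos m - Real.cos m'| := by
    rw [Real.cos_sub_cos, abs_mul, abs_mul, abs_neg, abs_two]
    have h5 : |(m + m') / 2| ≤ Real.pi / 2 := by
      rw [abs_div, abs_two]
      have := abs_add_le m m'
      linarith
    have h6 : |(m - m') / 2| ≤ Real.pi / 2 := by
      rw [abs_div, abs_two]
      have := abs_sub m m'
      linarith
    have h7 := sin_lower h5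
    have h8 := sin_lower h6
    rw [abs_div, abs_two] at h7 h8
    have h9 : 2 / Real.pi * (|m + m'| / 2) = |m + m'| / Real.pi := by field_simp
    have h10 : 2 / Real.pi * (|m - m'| / 2) = |m - m'| / Real.pi := by field_simp
    rw [h9] at h7
    rw [h10] at h8
    have h11 : |m + m'| / Real.pi * (|m - m'| / Real.pi) ≤
        |Real.sin ((m + m') / 2)| * |Real.sin ((m - m') / 2)| :=
      mul_le_mul h7 h8 (by positivity) (abs_nonneg _)
    have h12 : |m + m'| * |m - m'| / 10 ≤ |m + m'| / Real.pi * (|m - m'| / Real.pi) := by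
      rw [div_mul_div_comm]
      apply div_le_div_of_nonneg_left (by positivity) (by positivity)
      nlinarith
    linarith
  have hf1 : a - b + c - d = m + m' := by
    rw [hm, hm']
    ring
  have hf2 : a - b - c + d = m - m' := by
    rw [hm, hm']
    ring
  rw [show m + c - d = m + m' by rw [hm']; ring, show m - c + d = m - m' by rw [hm']; ring]
  set P := |m + m'| * |m - m'| with hP
  have hP0 : 0 ≤ P := by positivity
  have hA2 : P ^ 2 / 25 ≤ (Real.cos m - Real.cos m') ^ 2 := by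
    rw [← sq_abs (Real.cos m - Real.cos m')]
    have := pow_le_pow_left₀ (by positivity) hA 2
    rw [div_pow] at this
    linarith
  have hx2 : x ^ 2 = |x| ^ 2 := (sq_abs x).symm
  have h13 : 0 ≤ 1 - Real.cos x := by
    have := Real.cos_le_one x
    linarith
  have h14 : |x| ^ 2 / 5 ≤ 2 * (Real.cos m * Real.cos m') * (1 - Real.cos x) := by
    have h15 := mul_le_mul_of_nonneg_right hcc h13
    rw [hx2] at hx1
    linarith
  have h16 : 0 ≤ P * |x| := mul_nonneg hP0 (abs_nonneg x)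
  have h17 : 0 ≤ (2 * P / 5 - |x| / 2) ^ 2 := sq_nonneg _
  have h18 : (2 * P / 5 - |x| / 2) ^ 2 = 4 * P ^ 2 / 25 - 2 / 5 * (P * |x|) + |x| ^ 2 / 4 := by ring
  have h19 : 0 ≤ |x| ^ 2 := sq_nonneg _
  linarith

/-- the singular weight -/
noncomputable def fs (β : ℝ) (x : ℝ) : ℝ≥0∞ :=
  (Icc (-2 : ℝ) 2).indicator (fun x => ENNReal.ofReal |x| ^ (-β)) x

lemma fs_meas (β : ℝ) : Measurable (fs β) := by
  unfold fs
  apply Measurable.indicator _ measurableSet_Icc
  fun_prop

lemma fs_two {β : ℝ} (hβ : 0 ≤ β) (x : ℝ) : fs β (2 * x) ≤ fs β x := by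
  unfold fs
  by_cases h : 2 * x ∈ Icc (-2 : ℝ) 2
  · have h' : x ∈ Icc (-2 : ℝ) 2 := ⟨by linarith [h.1], by linarith [h.2]⟩
    rw [indicator_of_mem h, indicator_of_mem h', ENNReal.rpow_neg, ENNReal.rpow_neg]
    apply ENNReal.inv_le_inv.2
    apply ENNReal.rpow_le_rpow _ hβ
    apply ENNReal.ofReal_le_ofReal
    rw [abs_mul, abs_two]
    linarith [abs_nonneg x]
  · rw [indicator_of_notMem h]
    exact zero_le

lemma fs_neg (β x : ℝ) : fs β (-x) = fs β x := by
  unfold fs
  by_cases h : x ∈ Icc (-2 : ℝ) 2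
  · have h' : -x ∈ Icc (-2 : ℝ) 2 := ⟨by linarith [h.2], by linarith [h.1]⟩
    rw [indicator_of_mem h, indicator_of_mem h', abs_neg]
  · have h' : -x ∉ Icc (-2 : ℝ) 2 := fun h2 => h ⟨by linarith [h2.2], by linarith [h2.1]⟩
    rw [indicator_of_notMem h, indicator_of_notMem h']

lemma fs_fin {β : ℝ} (hβ : β < 1) : ∫⁻ x, fs β x < ⊤ := by
  have h1 : IntervalIntegrable (fun x : ℝ => x ^ (-β)) volume 0 2 :=
    intervalIntegral.intervalIntegrable_rpow' (by linarith)
  rw [intervalIntegrable_iff_integrableOn_Ioc_of_le (by norm_num)] at h1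
  have h2 : ∫⁻ x in Ioc (0 : ℝ) 2, fs β x < ⊤ := by
    have h3 : ∫⁻ x in Ioc (0 : ℝ) 2, fs β x = ∫⁻ x in Ioc (0 : ℝ) 2, ‖x ^ (-β)‖ₑ := by
      apply setLIntegral_congr_fun measurableSet_Ioc
      intro x hx
      simp only
      unfold fs
      rw [indicator_of_mem (show x ∈ Icc (-2 : ℝ) 2 from ⟨by linarith [hx.1], hx.2⟩),
        abs_of_pos hx.1, ENNReal.ofReal_rpow_of_pos hx.1, ← ofReal_norm,
        Real.norm_of_nonneg (Real.rpow_nonneg hx.1.le _)]
    rw [h3]
    exact h1.2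
  have h4 : ∫⁻ x in Ico (-2 : ℝ) 0, fs β x = ∫⁻ x in Ioc (0 : ℝ) 2, fs β x := by
    rw [← lintegral_indicator measurableSet_Ico, ← lintegral_indicator measurableSet_Ioc,
      ← lintegral_neg_eq_self]
    apply lintegral_congr
    intro x
    by_cases h : x ∈ Ioc (0 : ℝ) 2
    · rw [indicator_of_mem h, indicator_of_mem (show -x ∈ Ico (-2 : ℝ) 0 from
        ⟨by linarith [h.2], by linarith [h.1]⟩), fs_neg]
    · rw [indicator_of_notMem h, indicator_of_notMem]
      intro h2
      exact h ⟨by linarith [h2.2], by linarith [h2.1]⟩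
  have h5 : ∫⁻ x, fs β x ≤ ∫⁻ x in Ico (-2 : ℝ) 0 ∪ Ioc (0 : ℝ) 2, fs β x := by
    rw [← lintegral_indicator (measurableSet_Ico.union measurableSet_Ioc)]
    apply lintegral_mono_ae
    have h0 : ∀ᵐ x : ℝ, x ≠ 0 := by
      rw [ae_iff]
      simp
    filter_upwards [h0] with x hx
    by_cases h : x ∈ Ico (-2 : ℝ) 0 ∪ Ioc (0 : ℝ) 2
    · rw [indicator_of_mem h]
    · rw [indicator_of_notMem h]
      unfold fs
      rw [indicator_of_notMem]
      intro h2
      apply h
      rcases lt_or_gt_of_ne hx with h3 | h3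
      · exact Or.inl ⟨h2.1, h3⟩
      · exact Or.inr ⟨h3, h2.2⟩
  refine h5.trans_lt ((lintegral_union_le _ _ _).trans_lt ?_)
  rw [h4]
  exact ENNReal.add_lt_top.2 ⟨h2, h2⟩

/-- the total mass -/
noncomputable def Fs (β : ℝ) : ℝ≥0∞ := ∫⁻ x, fs β x

lemma fs_sub {β : ℝ} (c : ℝ) : ∫⁻ x, fs β (c - x) = Fs β := by
  unfold Fs
  exact lintegral_sub_left_eq_self (fs β) c

lemma fs_sub2 {β : ℝ} (hβ : 0 ≤ β) (c : ℝ) : ∫⁻ x, fs β (c - 2 * x) ≤ Fs β := by
  calc ∫⁻ x, fs β (c - 2 * x) ≤ ∫⁻ x, fs β (c / 2 - x) := by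
        apply lintegral_mono
        intro x
        have := fs_two hβ (c / 2 - x)
        rwa [show 2 * (c / 2 - x) = c - 2 * x by ring] at this
    _ = Fs β := fs_sub _

lemma triple {β : ℝ} (hβ : 0 ≤ β) (a : ℝ) :
    ∫⁻ b, ∫⁻ c, ∫⁻ d, fs β (a - b + c - d) * fs β (a - b - c + d) * fs β (a + b - c - d) ≤
      Fs β ^ 3 := by
  have hm := fs_meas β
  have e1 : ∀ b c : ℝ, ∫⁻ d, fs β (a - b + c - d) * fs β (a - b - c + d) * fs β (a + b - c - d) =
      ∫⁻ s, fs β (a - b - s) * fs β (a - b + s) * fs β (a + b - s - 2 * c) := by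
    intro b c
    rw [← lintegral_add_right_eq_self _ c]
    apply lintegral_congr
    intro s
    rw [show a - b + c - (s + c) = a - b - s by ring, show a - b - c + (s + c) = a - b + s by ring,
      show a + b - c - (s + c) = a + b - s - 2 * c by ring]
  have e2 : ∀ b : ℝ, ∫⁻ c, ∫⁻ d,
      fs β (a - b + c - d) * fs β (a - b - c + d) * fs β (a + b - c - d) ≤
      (∫⁻ s, fs β (a - b - s) * fs β (a - b + s)) * Fs β := by
    intro b
    simp only [e1]
    rw [lintegral_lintegral_swap (by fun_prop)]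
    calc ∫⁻ s, ∫⁻ c, fs β (a - b - s) * fs β (a - b + s) * fs β (a + b - s - 2 * c)
        = ∫⁻ s, fs β (a - b - s) * fs β (a - b + s) * ∫⁻ c, fs β (a + b - s - 2 * c) := by
          apply lintegral_congr
          intro s
          rw [lintegral_const_mul]
          fun_prop
      _ ≤ ∫⁻ s, fs β (a - b - s) * fs β (a - b + s) * Fs β := by
          apply lintegral_mono
          intro s
          simp only
          gcongr
          exact fs_sub2 hβ _
      _ = _ := by
          rw [lintegral_mul_const]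
          fun_prop
  have e3 : ∀ b : ℝ, ∫⁻ s, fs β (a - b - s) * fs β (a - b + s) =
      ∫⁻ u, fs β u * fs β (2 * a - u - 2 * b) := by
    intro b
    rw [← lintegral_sub_left_eq_self _ (a - b)]
    apply lintegral_congr
    intro s
    rw [show a - b - (a - b - s) = s by ring, show a - b + (a - b - s) = 2 * a - s - 2 * b by ring]
  calc ∫⁻ b, ∫⁻ c, ∫⁻ d, fs β (a - b + c - d) * fs β (a - b - c + d) * fs β (a + b - c - d)
      ≤ ∫⁻ b, (∫⁻ s, fs β (a - b - s) * fs β (a - b + s)) * Fs β := lintegral_mono e2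
    _ = (∫⁻ b, ∫⁻ s, fs β (a - b - s) * fs β (a - b + s)) * Fs β := by
        rw [lintegral_mul_const]
        fun_prop
    _ ≤ (Fs β * Fs β) * Fs β := by
        gcongr
        simp only [e3]
        rw [lintegral_lintegral_swap (by fun_prop)]
        calc ∫⁻ u, ∫⁻ b, fs β u * fs β (2 * a - u - 2 * b)
            = ∫⁻ u, fs β u * ∫⁻ b, fs β (2 * a - u - 2 * b) := by
              apply lintegral_congr
              intro u
              rw [lintegral_const_mul]
              fun_prop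
          _ ≤ ∫⁻ u, fs β u * Fs β := by
              apply lintegral_mono
              intro u
              simp only
              gcongr
              exact fs_sub2 hβ _
          _ = _ := by
              rw [lintegral_mul_const _ hm]
              rfl
    _ = _ := by ring

/-- The measure of angles. -/
noncomputable def mu : Measure ℝ := volume.restrict (Ioc 0 (Real.pi / 4))

instance : IsFiniteMeasure mu := by
  unfold mu
  constructor
  rw [Measure.restrict_apply_univ]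
  exact measure_Ioc_lt_top

lemma mu_univ : mu univ ≤ 1 := by
  unfold mu
  rw [Measure.restrict_apply_univ, Real.volume_Ioc, ENNReal.ofReal_le_one]
  have := Real.pi_lt_four
  linarith

lemma V_meas : Measurable fun z : (ℝ × ℝ) × (ℝ × ℝ) => V1 z ^ 2 + V2 z ^ 2 := by
  unfold V1 V2
  fun_prop

/-- The energy integral. -/
theorem energy {β : ℝ} (hβ : 0 ≤ β) :
    ∫⁻ z, ENNReal.ofReal (V1 z ^ 2 + V2 z ^ 2) ^ (-β) ∂((mu.prod mu).prod (mu.prod mu)) ≤
      4 ^ β * Fs β ^ 3 := by
  have hm := fs_meas β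
  set H : (ℝ × ℝ) × (ℝ × ℝ) → ℝ≥0∞ := fun z => 4 ^ β *
    (fs β (z.1.1 - z.1.2 + z.2.1 - z.2.2) * fs β (z.1.1 - z.1.2 - z.2.1 + z.2.2) *
      fs β (z.1.1 + z.1.2 - z.2.1 - z.2.2)) with hH
  have hHm : Measurable H := by fun_prop
  set I : Set ℝ := Ioc 0 (Real.pi / 4) with hI
  have hIm : MeasurableSet I := measurableSet_Ioc
  have hpr : (mu.prod mu).prod (mu.prod mu) =
      (volume : Measure ((ℝ × ℝ) × (ℝ × ℝ))).restrict ((I ×ˢ I) ×ˢ (I ×ˢ I)) := by
    unfold mu
    rw [Measure.prod_restrict, Measure.prod_restrict]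
    rfl
  have h1 : ∫⁻ z, ENNReal.ofReal (V1 z ^ 2 + V2 z ^ 2) ^ (-β)
      ∂((mu.prod mu).prod (mu.prod mu)) ≤ ∫⁻ z, H z ∂((mu.prod mu).prod (mu.prod mu)) := by
    rw [hpr]
    apply setLIntegral_mono hHm
    rintro ⟨⟨a, b⟩, ⟨c, d⟩⟩ ⟨⟨ha, hb⟩, ⟨hc, hd⟩⟩
    simp only [hI, mem_Ioc] at ha hb hc hd
    have hpi := Real.pi_lt_four
    have k1 : |a - b| ≤ Real.pi / 4 := by
      rw [abs_le]
      constructor <;> linarith
    have k2 : |c - d| ≤ Real.pi / 4 := by
      rw [abs_le]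
      constructor <;> linarith
    have k3 : |a + b - c - d| ≤ Real.pi / 2 := by
      rw [abs_le]
      constructor <;> linarith
    have k4 := V_lower ((a, b), (c, d)) k1 k2 k3
    simp only at k4
    have m1 : a - b + c - d ∈ Icc (-2 : ℝ) 2 := ⟨by linarith, by linarith⟩
    have m2 : a - b - c + d ∈ Icc (-2 : ℝ) 2 := ⟨by linarith, by linarith⟩
    have m3 : a + b - c - d ∈ Icc (-2 : ℝ) 2 := ⟨by linarith, by linarith⟩
    simp only [hH]
    unfold fs
    rw [indicator_of_mem m1, indicator_of_mem m2, indicator_of_mem m3]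
    have k5 : (4 : ℝ≥0∞) ^ β * (ENNReal.ofReal |a - b + c - d| ^ (-β) *
        ENNReal.ofReal |a - b - c + d| ^ (-β) * ENNReal.ofReal |a + b - c - d| ^ (-β)) =
        ENNReal.ofReal (1 / 4 * (|a - b + c - d| * |a - b - c + d| * |a + b - c - d|)) ^ (-β) := by
      rw [ENNReal.ofReal_mul (by norm_num), ENNReal.ofReal_mul (by positivity),
        ENNReal.ofReal_mul (by positivity),
        ENNReal.mul_rpow_of_ne_top ENNReal.ofReal_ne_top (ENNReal.mul_ne_top
          (ENNReal.mul_ne_top ENNReal.ofReal_ne_top ENNReal.ofReal_ne_top) ENNReal.ofReal_ne_top),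
        ENNReal.mul_rpow_of_ne_top (ENNReal.mul_ne_top ENNReal.ofReal_ne_top
          ENNReal.ofReal_ne_top) ENNReal.ofReal_ne_top,
        ENNReal.mul_rpow_of_ne_top ENNReal.ofReal_ne_top ENNReal.ofReal_ne_top]
      congr 1
      rw [one_div, ENNReal.ofReal_inv_of_pos (by norm_num), ENNReal.rpow_neg, ENNReal.inv_rpow,
        inv_inv]
      norm_num
    rw [k5, ENNReal.rpow_neg, ENNReal.rpow_neg]
    apply ENNReal.inv_le_inv.2
    apply ENNReal.rpow_le_rpow _ hβ
    exact ENNReal.ofReal_le_ofReal k4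
  refine h1.trans ?_
  rw [lintegral_prod _ hHm.aemeasurable]
  have h2 : ∀ w : ℝ × ℝ, ∫⁻ w', H (w, w') ∂(mu.prod mu) =
      ∫⁻ c, ∫⁻ d, H (w, (c, d)) ∂mu ∂mu := by
    intro w
    exact lintegral_prod (fun w' => H (w, w')) (hHm.comp measurable_prodMk_left).aemeasurable
  simp only [h2]
  have hHm2 : Measurable fun p : ((ℝ × ℝ) × ℝ) × ℝ => H (p.1.1, (p.1.2, p.2)) :=
    hHm.comp (by fun_prop)
  have hHm3 : Measurable fun p : (ℝ × ℝ) × ℝ => ∫⁻ d, H (p.1, (p.2, d)) ∂mu :=
    hHm2.lintegral_prod_right'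
  have hHm4 : Measurable fun w : ℝ × ℝ => ∫⁻ c, ∫⁻ d, H (w, (c, d)) ∂mu ∂mu :=
    hHm3.lintegral_prod_right'
  rw [lintegral_prod _ hHm4.aemeasurable]
  calc ∫⁻ a, ∫⁻ b, ∫⁻ c, ∫⁻ d, H ((a, b), (c, d)) ∂mu ∂mu ∂mu ∂mu
      ≤ ∫⁻ a, (∫⁻ b, ∫⁻ c, ∫⁻ d, H ((a, b), (c, d))) ∂mu := by
        apply lintegral_mono
        intro a
        simp only
        refine (setLIntegral_le_lintegral _ _).trans ?_
        apply lintegral_mono
        intro b
        simp only
        refine (setLIntegral_le_lintegral _ _).trans ?_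
        apply lintegral_mono
        intro c
        exact setLIntegral_le_lintegral _ _
    _ ≤ ∫⁻ _a, 4 ^ β * Fs β ^ 3 ∂mu := by
        apply lintegral_mono
        intro a
        simp only [hH]
        have h3 : ∀ b c : ℝ, ∫⁻ d, 4 ^ β * (fs β (a - b + c - d) * fs β (a - b - c + d) *
            fs β (a + b - c - d)) = 4 ^ β * ∫⁻ d, (fs β (a - b + c - d) * fs β (a - b - c + d) *
            fs β (a + b - c - d)) := by
          intro b c
          rw [lintegral_const_mul]
          fun_prop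
        simp only [h3]
        have h4 : ∀ b : ℝ, ∫⁻ c, 4 ^ β * ∫⁻ d, (fs β (a - b + c - d) * fs β (a - b - c + d) *
            fs β (a + b - c - d)) = 4 ^ β * ∫⁻ c, ∫⁻ d, (fs β (a - b + c - d) *
              fs β (a - b - c + d) * fs β (a + b - c - d)) := by
          intro b
          rw [lintegral_const_mul]
          fun_prop
        simp only [h4]
        rw [lintegral_const_mul]
        · gcongr
          exact triple hβ a
        · fun_prop
    _ = 4 ^ β * Fs β ^ 3 * mu univ := lintegral_const _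
    _ ≤ 4 ^ β * Fs β ^ 3 * 1 := by
        gcongr
        exact mu_univ
    _ = _ := mul_one _

lemma energy_fin {β : ℝ} (hβ : 0 ≤ β) (hβ1 : β < 1) : (4 : ℝ≥0∞) ^ β * Fs β ^ 3 < ⊤ := by
  apply ENNReal.mul_lt_top
  · exact ENNReal.rpow_lt_top_of_nonneg hβ (by norm_num)
  · exact ENNReal.pow_lt_top (fs_fin hβ1)

end Pool.Agent.P8H98.HG
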