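import Mathlib
set_option autoImplicit false

/-! Complex Gaussian integrals in the plane. -/

namespace Pool.Agent.P8H98.HG

open MeasureTheory Set Complex
open scoped ENNReal NNReal

/-- the quadratic form `α |y|² + β₁ (y₁² - y₂²) + 2 β₂ y₁ y₂` -/
noncomputable def qf (α : ℝ) (β₁ β₂ : ℂ) (y : ℝ × ℝ) : ℂ :=
  α * ((y.1 : ℂ) ^ 2 + (y.2 : ℂ) ^ 2) + β₁ * ((y.1 : ℂ) ^ 2 - (y.2 : ℂ) ^ 2) +
    2 * β₂ * (y.1 * y.2)

/-- its Gaussian integral -/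
noncomputable def GG (α : ℝ) (β₁ β₂ : ℂ) : ℂ := ∫ y : ℝ × ℝ, cexp (-(Real.pi * qf α β₁ β₂ y))

lemma sqrt_props {z : ℂ} (hz : 0 < z.re) :
    (z ^ (1 / 2 : ℂ)) ^ 2 = z ∧ |(z ^ (1 / 2 : ℂ)).im| < (z ^ (1 / 2 : ℂ)).re := by
  have hz0 : z ≠ 0 := by
    rintro rfl
    simp at hz
  have h1 : (z ^ (1 / 2 : ℂ)) ^ 2 = z := by
    rw [← Complex.cpow_nat_mul]
    norm_num
  have h2 : 0 < (z ^ (1 / 2 : ℂ)).re := by
    rw [Complex.cpow_def_of_ne_zero hz0, Complex.exp_re]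
    apply mul_pos (Real.exp_pos _)
    have h3 : (Complex.log z * (1 / 2)).im = z.arg / 2 := by
      rw [Complex.mul_im]
      simp [Complex.log_im]
      ring
    rw [h3]
    apply Real.cos_pos_of_mem_Ioo
    have h4 := Complex.abs_arg_lt_pi_div_two_iff.2 (Or.inl hz)
    rw [abs_lt] at h4
    constructor <;> linarith [Real.pi_pos]
  refine ⟨h1, ?_⟩
  have h3 : ((z ^ (1 / 2 : ℂ)) ^ 2).re = (z ^ (1 / 2 : ℂ)).re ^ 2 - (z ^ (1 / 2 : ℂ)).im ^ 2 := by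
    rw [sq, Complex.mul_re]
    ring
  rw [h1] at h3
  apply abs_lt_of_sq_lt_sq _ h2.le
  linarith

lemma qf_re (α : ℝ) (β₁ β₂ : ℂ) (y : ℝ × ℝ) : (qf α β₁ β₂ y).re =
    α * (y.1 ^ 2 + y.2 ^ 2) + β₁.re * (y.1 ^ 2 - y.2 ^ 2) + 2 * β₂.re * (y.1 * y.2) := by
  unfold qf
  have h1 : (α : ℂ) * ((y.1 : ℂ) ^ 2 + (y.2 : ℂ) ^ 2) + β₁ * ((y.1 : ℂ) ^ 2 - (y.2 : ℂ) ^ 2) +
    2 * β₂ * (y.1 * y.2) = ((α * (y.1 ^ 2 + y.2 ^ 2) : ℝ) : ℂ) +
      β₁ * ((y.1 ^ 2 - y.2 ^ 2 : ℝ) : ℂ) + β₂ * ((2 * (y.1 * y.2) : ℝ) : ℂ) := by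
    push_cast
    ring
  rw [h1, Complex.add_re, Complex.add_re, Complex.re_mul_ofReal, Complex.re_mul_ofReal,
    Complex.ofReal_re]
  ring

lemma qf_lower {α ρ b₁ b₂ : ℝ} (hρ : 0 ≤ ρ) (hb : b₁ ^ 2 + b₂ ^ 2 ≤ ρ ^ 2) (y : ℝ × ℝ) :
    (α - ρ) * (y.1 ^ 2 + y.2 ^ 2) ≤
      α * (y.1 ^ 2 + y.2 ^ 2) + b₁ * (y.1 ^ 2 - y.2 ^ 2) + 2 * b₂ * (y.1 * y.2) := by
  have h1 : (b₁ * (y.1 ^ 2 - y.2 ^ 2) + 2 * b₂ * (y.1 * y.2)) ^ 2 ≤
      (ρ * (y.1 ^ 2 + y.2 ^ 2)) ^ 2 := by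
    have h2 : (b₁ * (y.1 ^ 2 - y.2 ^ 2) + 2 * b₂ * (y.1 * y.2)) ^ 2 +
        (b₁ * (2 * y.1 * y.2) - b₂ * (y.1 ^ 2 - y.2 ^ 2)) ^ 2 =
        (b₁ ^ 2 + b₂ ^ 2) * (y.1 ^ 2 + y.2 ^ 2) ^ 2 := by ring
    have h3 : (b₁ ^ 2 + b₂ ^ 2) * (y.1 ^ 2 + y.2 ^ 2) ^ 2 ≤ ρ ^ 2 * (y.1 ^ 2 + y.2 ^ 2) ^ 2 := by
      gcongr
    nlinarith [sq_nonneg (b₁ * (2 * y.1 * y.2) - b₂ * (y.1 ^ 2 - y.2 ^ 2))]
  have h4 := abs_le_of_sq_le_sq h1 (by positivity)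
  rw [abs_le] at h4
  linarith [h4.1]

lemma gauss_int {l : ℝ} (hl : 0 < l) :
    Integrable fun y : ℝ × ℝ => Real.exp (-(Real.pi * (l * (y.1 ^ 2 + y.2 ^ 2)))) := by
  have h1 : Integrable fun x : ℝ => Real.exp (-(Real.pi * l) * x ^ 2) :=
    integrable_exp_neg_mul_sq (by positivity)
  have h2 := h1.mul_prod h1
  refine h2.congr (ae_of_all _ fun y => ?_)
  simp only
  rw [← Real.exp_add]
  congr 1
  ring

lemma qf_cont (α : ℝ) (β₁ β₂ : ℂ) : Continuous (qf α β₁ β₂) := by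
  unfold qf
  fun_prop

lemma GG_int {α ρ : ℝ} {β₁ β₂ : ℂ} (hρ : 0 ≤ ρ) (hb : β₁.re ^ 2 + β₂.re ^ 2 ≤ ρ ^ 2)
    (hα : ρ < α) : Integrable fun y : ℝ × ℝ => cexp (-(Real.pi * qf α β₁ β₂ y)) := by
  refine (gauss_int (l := α - ρ) (by linarith)).mono' ?_ ?_
  · exact (Complex.continuous_exp.comp
      (continuous_const.mul (qf_cont α β₁ β₂)).neg).aestronglyMeasurable
  · refine ae_of_all _ fun y => ?_
    rw [Complex.norm_exp, Complex.neg_re, Complex.re_ofReal_mul, qf_re]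
    apply Real.exp_le_exp.2
    apply neg_le_neg
    apply mul_le_mul_of_nonneg_left _ Real.pi_pos.le
    exact qf_lower hρ hb y

lemma schur_re {m s : ℂ} {α ρ : ℝ} {β₁ β₂ : ℂ} (hρ : 0 ≤ ρ)
    (hb : β₁.re ^ 2 + β₂.re ^ 2 ≤ ρ ^ 2) (hα : ρ < α) (hm : m = α + β₁)
    (hs : s = (α - β₁) - β₂ ^ 2 / m) : 0 < m.re ∧ 0 < s.re := by
  have hm1 : m.re = α + β₁.re := by
    rw [hm]
    simp
  have h1 : |β₁.re| ≤ ρ := abs_le_of_sq_le_sq (by nlinarith [sq_nonneg β₂.re]) hρ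
  rw [abs_le] at h1
  have hmp : 0 < m.re := by
    rw [hm1]
    linarith [h1.1]
  refine ⟨hmp, ?_⟩
  have hn : 0 < Complex.normSq m := by
    apply Complex.normSq_pos.2
    intro h
    rw [h] at hmp
    simp at hmp
  have hm2 : m.im = β₁.im := by
    rw [hm]
    simp
  have hsr : s.re = (α - β₁.re) -
      ((β₂.re ^ 2 - β₂.im ^ 2) * m.re + 2 * β₂.re * β₂.im * m.im) / Complex.normSq m := by
    rw [hs, Complex.sub_re, Complex.div_re]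
    have e1 : (β₂ ^ 2).re = β₂.re ^ 2 - β₂.im ^ 2 := by
      rw [sq, Complex.mul_re]
      ring
    have e2 : (β₂ ^ 2).im = 2 * β₂.re * β₂.im := by
      rw [sq, Complex.mul_im]
      ring
    rw [e1, e2]
    simp
    ring
  rw [hsr, sub_pos, div_lt_iff₀ hn, Complex.normSq_apply]
  have h2 : β₂.re ^ 2 < m.re * (α - β₁.re) := by
    rw [hm1]
    nlinarith
  have h3 : 0 < α - β₁.re := by linarith [h1.2]
  -- (α - β₁.re) (p² + q²) > (u² - v²) p + 2 u v q,  p = m.re, q = m.im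
  have h4 : β₂.re ^ 2 * m.re < (α - β₁.re) * (m.re * m.re) := by
    nlinarith
  have h5 : β₂.re ^ 2 * m.im ^ 2 ≤ m.re * (α - β₁.re) * m.im ^ 2 := by
    apply mul_le_mul_of_nonneg_right h2.le (sq_nonneg _)
  have h6 : 0 ≤ (β₂.re * m.im - β₂.im * m.re) ^ 2 := sq_nonneg _
  -- multiply the goal by m.re
  have h7 : ((β₂.re ^ 2 - β₂.im ^ 2) * m.re + 2 * β₂.re * β₂.im * m.im) * m.re <
      ((α - β₁.re) * (m.re * m.re + m.im * m.im)) * m.re := by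
    have h8 : β₂.re ^ 2 * m.re * m.re < (α - β₁.re) * (m.re * m.re) * m.re :=
      mul_lt_mul_of_pos_right h4 hmp
    nlinarith
  exact lt_of_mul_lt_mul_right h7 hmp.le

theorem GG_main {α ρ : ℝ} {β₁ β₂ : ℂ} (hρ : 0 ≤ ρ) (hb : β₁.re ^ 2 + β₂.re ^ 2 ≤ ρ ^ 2)
    (hα : ρ < α) : GG α β₁ β₂ ^ 2 * (α ^ 2 - β₁ ^ 2 - β₂ ^ 2) = 1 ∧ 0 < (GG α β₁ β₂).re := by
  set m : ℂ := α + β₁ with hm
  set s : ℂ := (α - β₁) - β₂ ^ 2 / m with hs
  obtain ⟨hm0, hs0⟩ := schur_re hρ hb hα hm hs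
  have hmz : m ≠ 0 := by
    intro h
    rw [h] at hm0
    simp at hm0
  have hsz : s ≠ 0 := by
    intro h
    rw [h] at hs0
    simp at hs0
  have hpi : (Real.pi : ℂ) ≠ 0 := by exact_mod_cast Real.pi_ne_zero
  have hG : GG α β₁ β₂ = (1 / m) ^ (1 / 2 : ℂ) * (1 / s) ^ (1 / 2 : ℂ) := by
    unfold GG
    rw [Measure.volume_eq_prod, integral_prod_symm _
      (by rw [← Measure.volume_eq_prod]; exact GG_int hρ hb hα)]
    have h1 : ∀ y2 : ℝ, ∫ y1 : ℝ, cexp (-(Real.pi * qf α β₁ β₂ (y1, y2))) =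
        (1 / m) ^ (1 / 2 : ℂ) * cexp (-(Real.pi * s) * y2 ^ 2 + 0 * y2 + 0) := by
      intro y2
      have h2 := integral_cexp_quadratic (b := -(Real.pi * m))
        (by rw [Complex.neg_re, Complex.re_ofReal_mul]; nlinarith [Real.pi_pos])
        (-(2 * Real.pi * β₂ * y2)) (-(Real.pi * (α - β₁) * y2 ^ 2))
      have h3 : ∀ y1 : ℝ, cexp (-(Real.pi * qf α β₁ β₂ (y1, y2))) =
          cexp (-(Real.pi * m) * y1 ^ 2 + (-(2 * Real.pi * β₂ * y2)) * y1 +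
            (-(Real.pi * (α - β₁) * y2 ^ 2))) := by
        intro y1
        congr 1
        simp only [qf, hm]
        ring
      simp only [h3]
      rw [h2]
      congr 2
      · rw [neg_neg]
        field_simp
      · rw [hs]
        field_simp
        ring
    simp only [h1]
    rw [integral_const_mul, integral_cexp_quadratic (b := -(Real.pi * s))
      (by rw [Complex.neg_re, Complex.re_ofReal_mul]; nlinarith [Real.pi_pos])]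
    congr 1
    rw [neg_neg]
    simp only [zero_pow, ne_eq, OfNat.ofNat_ne_zero, not_false_eq_true, zero_div, sub_self,
      Complex.exp_zero, mul_one]
    congr 1
    field_simp
  have hm1 : 0 < (1 / m).re := by
    rw [one_div, Complex.inv_re]
    apply div_pos hm0
    exact Complex.normSq_pos.2 hmz
  have hs1 : 0 < (1 / s).re := by
    rw [one_div, Complex.inv_re]
    apply div_pos hs0
    exact Complex.normSq_pos.2 hsz
  obtain ⟨a1, a2⟩ := sqrt_props hm1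
  obtain ⟨b1, b2⟩ := sqrt_props hs1
  constructor
  · rw [hG, mul_pow, a1, b1]
    have : (α : ℂ) ^ 2 - β₁ ^ 2 - β₂ ^ 2 = m * s := by
      rw [hs]
      field_simp
      rw [hm]
      ring
    rw [this]
    field_simp
  · rw [hG, Complex.mul_re]
    set w := (1 / m) ^ (1 / 2 : ℂ)
    set v := (1 / s) ^ (1 / 2 : ℂ)
    have h1 : w.im * v.im ≤ |w.im| * |v.im| := by
      rw [← abs_mul]
      exact le_abs_self _
    have h2 : |w.im| * |v.im| < w.re * v.re := by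
      apply mul_lt_mul'' a2 b2 (abs_nonneg _) (abs_nonneg _)
    linarith

/-- the bounds of the Gaussian integral and of its increments -/
theorem GG_diff {α ρ η D : ℝ} {β₁ β₂ : ℂ} (hρ : 0 ≤ ρ) (hb : β₁.re ^ 2 + β₂.re ^ 2 ≤ ρ ^ 2)
    (hα : ρ < α) (hη : 0 ≤ η) (hD : 0 < D)
    (hA : D ^ 2 ≤ ((α : ℂ) ^ 2 - β₁ ^ 2 - β₂ ^ 2).re) :
    ‖GG α β₁ β₂‖ ≤ 1 / D ∧ ‖GG α β₁ β₂ - GG (α + η) β₁ β₂‖ ≤ 2 / D ∧
      ‖GG α β₁ β₂ - GG (α + η) β₁ β₂‖ ≤ 2 * (2 * α * η + η ^ 2) / D ^ 3 := by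
  have hα0 : 0 ≤ α := by linarith
  set A : ℂ := (α : ℂ) ^ 2 - β₁ ^ 2 - β₂ ^ 2 with hAd
  set B : ℂ := ((α + η : ℝ) : ℂ) ^ 2 - β₁ ^ 2 - β₂ ^ 2 with hBd
  have hBA : B = A + ((2 * α * η + η ^ 2 : ℝ) : ℂ) := by
    rw [hBd, hAd]
    push_cast
    ring
  have hinc : 0 ≤ 2 * α * η + η ^ 2 := by positivity
  have hB : D ^ 2 ≤ B.re := by
    rw [hBA, Complex.add_re, Complex.ofReal_re]
    linarith
  obtain ⟨g1, g2⟩ := GG_main hρ hb hα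
  obtain ⟨g3, g4⟩ := GG_main hρ hb (show ρ < α + η by linarith)
  rw [← hAd] at g1
  rw [← hBd] at g3
  set G := GG α β₁ β₂ with hG
  set G' := GG (α + η) β₁ β₂ with hG'
  have key : ∀ {X Y : ℂ}, D ^ 2 ≤ Y.re → X ^ 2 * Y = 1 → ‖X‖ ≤ 1 / D := by
    intro X Y hY hXY
    have h1 : ‖X‖ ^ 2 * ‖Y‖ = 1 := by
      rw [← norm_pow, ← norm_mul, hXY, norm_one]
    have h2 : D ^ 2 ≤ ‖Y‖ := hY.trans (Complex.re_le_norm Y)
    have h3 : (‖X‖ * D) ^ 2 ≤ 1 ^ 2 := by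
      nlinarith [sq_nonneg ‖X‖]
    rw [le_div_iff₀ hD]
    exact (abs_le_of_sq_le_sq' h3 zero_le_one).2
  have hGn := key hA g1
  have hGn' := key hB g3
  have hGre : ‖G‖ ≤ 2 * G.re := by
    have h1 : G ≠ 0 := by
      intro h
      rw [h] at g2
      simp at g2
    have hA0 : 0 < A.re := lt_of_lt_of_le (by positivity) hA
    have h2 : G ^ 2 = A⁻¹ := eq_inv_of_mul_eq_one_left g1
    have h3 : 0 < (G ^ 2).re := by
      rw [h2, Complex.inv_re]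
      apply div_pos hA0
      apply Complex.normSq_pos.2
      intro h
      rw [h] at hA0
      simp at hA0
    have h4 : (G ^ 2).re = G.re ^ 2 - G.im ^ 2 := by
      rw [sq, Complex.mul_re]
      ring
    have h5 : ‖G‖ ^ 2 = G.re ^ 2 + G.im ^ 2 := by
      rw [← Complex.normSq_eq_norm_sq, Complex.normSq_apply]
      ring
    have h6 : ‖G‖ ^ 2 ≤ (2 * G.re) ^ 2 := by
      nlinarith
    exact (abs_le_of_sq_le_sq' h6 (by linarith)).2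
  refine ⟨hGn, ?_, ?_⟩
  · refine (norm_sub_le _ _).trans ?_
    calc ‖G‖ + ‖G'‖ ≤ 1 / D + 1 / D := add_le_add hGn hGn'
      _ = 2 / D := by ring
  · have h1 : (G - G') * (G + G') = (B - A) * G ^ 2 * G' ^ 2 := by
      linear_combination G ^ 2 * (-g3) + G' ^ 2 * g1
    have h2 : ‖G‖ / 2 ≤ ‖G + G'‖ := by
      have h3 := Complex.re_le_norm (G + G')
      rw [Complex.add_re] at h3
      linarith
    have hGpos : 0 < ‖G‖ := by
      apply norm_pos_iff.2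
      intro h
      rw [h] at g2
      simp at g2
    have h3 : ‖G - G'‖ * ‖G + G'‖ = (2 * α * η + η ^ 2) * ‖G‖ ^ 2 * ‖G'‖ ^ 2 := by
      rw [← norm_mul, h1, norm_mul, norm_mul, norm_pow, norm_pow]
      congr 3
      rw [hBA, add_sub_cancel_left, Complex.norm_real, Real.norm_of_nonneg hinc]
    have h4 : ‖G - G'‖ * (‖G‖ / 2) ≤ (2 * α * η + η ^ 2) * ‖G‖ ^ 2 * ‖G'‖ ^ 2 := by
      rw [← h3]
      gcongr
    have h5 : ‖G - G'‖ ≤ 2 * (2 * α * η + η ^ 2) * (‖G‖ * ‖G'‖ ^ 2) := by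
      have h6 : ‖G - G'‖ * ‖G‖ ≤ 2 * (2 * α * η + η ^ 2) * (‖G‖ * ‖G'‖ ^ 2) * ‖G‖ := by
        nlinarith
      exact le_of_mul_le_mul_right h6 hGpos
    refine h5.trans ?_
    have h6 : ‖G‖ * ‖G'‖ ^ 2 ≤ 1 / D * (1 / D) ^ 2 := by
      gcongr
    calc 2 * (2 * α * η + η ^ 2) * (‖G‖ * ‖G'‖ ^ 2)
        ≤ 2 * (2 * α * η + η ^ 2) * (1 / D * (1 / D) ^ 2) := by gcongr
      _ = _ := by
        field_simp

end Pool.Agent.P8H98.HG
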