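import Mathlib
import Pool.Agent.P8H98.HG.Gauss2
import Pool.Agent.P8H98.HG.Energy
set_option autoImplicit false

/-! The fourth moment of superpositions of complex Gaussians of one linear form. -/

namespace Pool.Agent.P8H98.HG

open MeasureTheory Set Complex
open scoped ENNReal NNReal ComplexConjugate

/-- `y · (cos θ, sin θ)` -/
noncomputable def Pl (y : ℝ × ℝ) (θ : ℝ) : ℝ := y.1 * Real.cos θ + y.2 * Real.sin θ

lemma Pl_sq (y : ℝ × ℝ) (θ : ℝ) : Pl y θ ^ 2 = (y.1 ^ 2 + y.2 ^ 2) / 2 +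
    (y.1 ^ 2 - y.2 ^ 2) / 2 * Real.cos (2 * θ) + y.1 * y.2 * Real.sin (2 * θ) := by
  unfold Pl
  rw [Real.cos_two_mul, Real.sin_two_mul]
  have h := Real.sin_sq_add_cos_sq θ
  linear_combination (y.2 ^ 2) * h

/-- one factor -/
noncomputable def Ke (c : ℂ) (y : ℝ × ℝ) (θ : ℝ) : ℂ := cexp (-(Real.pi * (c * (Pl y θ ^ 2 : ℝ))))

lemma Ke_cont (c : ℂ) : Continuous fun p : (ℝ × ℝ) × ℝ => Ke c p.1 p.2 := by
  unfold Ke Pl
  fun_prop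

lemma Ke_norm {c : ℂ} (hc : 0 ≤ c.re) (y : ℝ × ℝ) (θ : ℝ) : ‖Ke c y θ‖ ≤ 1 := by
  unfold Ke
  rw [Complex.norm_exp, Complex.neg_re, Complex.re_ofReal_mul, Complex.re_mul_ofReal]
  rw [Real.exp_le_one_iff]
  have := Real.pi_pos
  have h2 : 0 ≤ Real.pi * (c.re * Pl y θ ^ 2) := by positivity
  linarith

/-- the superposition -/
noncomputable def UU (c : ℂ) (Ω : ℝ → ℂ) (y : ℝ × ℝ) : ℂ := ∫ θ, Ω θ * Ke c y θ ∂mu

variable {Ω : ℝ → ℂ} {c : ℂ}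

lemma UU_smeas (c : ℂ) (hΩ : Measurable Ω) : StronglyMeasurable (UU c Ω) := by
  have h1 : StronglyMeasurable (Function.uncurry fun (y : ℝ × ℝ) (θ : ℝ) => Ω θ * Ke c y θ) :=
    ((hΩ.comp measurable_snd).mul (Ke_cont c).measurable).stronglyMeasurable
  exact h1.integral_prod_right

lemma UU_norm (hc : 0 ≤ c.re) (hb : ∀ θ, ‖Ω θ‖ ≤ 1) (y : ℝ × ℝ) : ‖UU c Ω y‖ ≤ 1 := by
  unfold UU
  calc ‖∫ θ, Ω θ * Ke c y θ ∂mu‖ ≤ 1 * mu.real univ := by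
        apply norm_integral_le_of_norm_le_const
        refine ae_of_all _ fun θ => ?_
        rw [norm_mul]
        exact mul_le_one₀ (hb θ) (norm_nonneg _) (Ke_norm hc y θ)
    _ ≤ 1 * 1 := by
        gcongr
        unfold Measure.real
        exact ENNReal.toReal_le_of_le_ofReal zero_le_one (by simpa using mu_univ)
    _ = 1 := one_mul 1

/-- two factors -/
noncomputable def K2 (c : ℂ) (Ω : ℝ → ℂ) (y : ℝ × ℝ) (w : ℝ × ℝ) : ℂ :=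
  (Ω w.1 * Ke c y w.1) * (Ω w.2 * Ke c y w.2)

lemma UU_sq (y : ℝ × ℝ) : UU c Ω y ^ 2 = ∫ w, K2 c Ω y w ∂(mu.prod mu) := by
  unfold K2 UU
  rw [sq, ← integral_prod_mul]

lemma UU_four (y : ℝ × ℝ) : ((‖UU c Ω y‖ ^ 4 : ℝ) : ℂ) =
    ∫ z, K2 c Ω y z.1 * conj (K2 c Ω y z.2) ∂((mu.prod mu).prod (mu.prod mu)) := by
  rw [integral_prod_mul (fun w => K2 c Ω y w) (fun w => conj (K2 c Ω y w)), integral_conj,
    ← UU_sq, Complex.mul_conj, Complex.normSq_eq_norm_sq, norm_pow]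
  congr 1
  ring

lemma K2_norm (hc : 0 ≤ c.re) (hb : ∀ θ, ‖Ω θ‖ ≤ 1) (y w : ℝ × ℝ) : ‖K2 c Ω y w‖ ≤ 1 := by
  unfold K2
  rw [norm_mul, norm_mul, norm_mul]
  exact mul_le_one₀ (mul_le_one₀ (hb _) (norm_nonneg _) (Ke_norm hc _ _))
    (by positivity) (mul_le_one₀ (hb _) (norm_nonneg _) (Ke_norm hc _ _))

lemma K2_meas (c : ℂ) (hΩ : Measurable Ω) :
    Measurable fun p : (ℝ × ℝ) × (ℝ × ℝ) => K2 c Ω p.1 p.2 := by
  have a1 : Measurable fun p : (ℝ × ℝ) × (ℝ × ℝ) => p.2.1 := measurable_fst.comp measurable_snd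
  have a2 : Measurable fun p : (ℝ × ℝ) × (ℝ × ℝ) => p.2.2 := measurable_snd.comp measurable_snd
  have a3 : Measurable fun p : (ℝ × ℝ) × (ℝ × ℝ) => (p.1, p.2.1) := measurable_fst.prodMk a1
  have a4 : Measurable fun p : (ℝ × ℝ) × (ℝ × ℝ) => (p.1, p.2.2) := measurable_fst.prodMk a2
  have hk := (Ke_cont c).measurable
  have b1 := hΩ.comp a1
  have b2 := hΩ.comp a2
  have b3 := hk.comp a3
  have b4 := hk.comp a4
  exact (b1.mul b3).mul (b2.mul b4)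

/-- `∑ cos 2θ_j` -/
noncomputable def W1 (z : (ℝ × ℝ) × (ℝ × ℝ)) : ℝ :=
  Real.cos (2 * z.1.1) + Real.cos (2 * z.1.2) + Real.cos (2 * z.2.1) + Real.cos (2 * z.2.2)

/-- `∑ sin 2θ_j` -/
noncomputable def W2 (z : (ℝ × ℝ) × (ℝ × ℝ)) : ℝ :=
  Real.sin (2 * z.1.1) + Real.sin (2 * z.1.2) + Real.sin (2 * z.2.1) + Real.sin (2 * z.2.2)

lemma W_le (z : (ℝ × ℝ) × (ℝ × ℝ)) : W1 z ^ 2 + W2 z ^ 2 ≤ 16 := by
  unfold W1 W2
  set a := 2 * z.1.1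
  set b := 2 * z.1.2
  set c := 2 * z.2.1
  set d := 2 * z.2.2
  have h1 := Real.sin_sq_add_cos_sq a
  have h2 := Real.sin_sq_add_cos_sq b
  have h3 := Real.sin_sq_add_cos_sq c
  have h4 := Real.sin_sq_add_cos_sq d
  have k : ∀ x y z w : ℝ, (x + y + z + w) ^ 2 ≤ 4 * (x ^ 2 + y ^ 2 + z ^ 2 + w ^ 2) := by
    intro x y z w
    nlinarith [sq_nonneg (x - y), sq_nonneg (x - z), sq_nonneg (x - w), sq_nonneg (y - z),
      sq_nonneg (y - w), sq_nonneg (z - w)]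
  have k1 := k (Real.cos a) (Real.cos b) (Real.cos c) (Real.cos d)
  have k2 := k (Real.sin a) (Real.sin b) (Real.sin c) (Real.sin d)
  linarith

/-- the coefficients -/
noncomputable def B1 (c : ℂ) (z : (ℝ × ℝ) × (ℝ × ℝ)) : ℂ :=
  ((c.re * W1 z / 2 : ℝ) : ℂ) + ((c.im * V1 z / 2 : ℝ) : ℂ) * I

/-- the coefficients -/
noncomputable def B2 (c : ℂ) (z : (ℝ × ℝ) × (ℝ × ℝ)) : ℂ :=
  ((c.re * W2 z / 2 : ℝ) : ℂ) + ((c.im * V2 z / 2 : ℝ) : ℂ) * I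

lemma quad_aux (p q : ℝ) (y : ℝ × ℝ) (z : (ℝ × ℝ) × (ℝ × ℝ)) :
    ((p : ℂ) + q * I) * ((Pl y z.1.1 ^ 2 : ℝ) : ℂ) + (p + q * I) * ((Pl y z.1.2 ^ 2 : ℝ) : ℂ) +
      (p - q * I) * ((Pl y z.2.1 ^ 2 : ℝ) : ℂ) + (p - q * I) * ((Pl y z.2.2 ^ 2 : ℝ) : ℂ) =
    qf (2 * p) (((p * W1 z / 2 : ℝ) : ℂ) + ((q * V1 z / 2 : ℝ) : ℂ) * I)
      (((p * W2 z / 2 : ℝ) : ℂ) + ((q * V2 z / 2 : ℝ) : ℂ) * I) y := by
  rw [Pl_sq, Pl_sq, Pl_sq, Pl_sq]
  unfold qf W1 W2 V1 V2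
  push_cast
  ring

lemma quad_eq (c : ℂ) (y : ℝ × ℝ) (z : (ℝ × ℝ) × (ℝ × ℝ)) :
    c * ((Pl y z.1.1 ^ 2 : ℝ) : ℂ) + c * ((Pl y z.1.2 ^ 2 : ℝ) : ℂ) +
      conj c * ((Pl y z.2.1 ^ 2 : ℝ) : ℂ) + conj c * ((Pl y z.2.2 ^ 2 : ℝ) : ℂ) =
    qf (2 * c.re) (B1 c z) (B2 c z) y := by
  have hcc : conj c = (c.re : ℂ) - (c.im : ℂ) * I := by
    apply Complex.ext <;> simp
  have h := quad_aux c.re c.im y z
  rw [Complex.re_add_im] at h
  rw [hcc]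
  exact h

/-- multiplying out the four factors -/
lemma four_eq (a : ℝ) (y : ℝ × ℝ) (z : (ℝ × ℝ) × (ℝ × ℝ)) :
    ((Real.exp (-(Real.pi * (a * (y.1 ^ 2 + y.2 ^ 2)))) : ℝ) : ℂ) *
      (K2 c Ω y z.1 * conj (K2 c Ω y z.2)) =
    (Ω z.1.1 * Ω z.1.2 * conj (Ω z.2.1 * Ω z.2.2)) *
      cexp (-(Real.pi * qf (a + 2 * c.re) (B1 c z) (B2 c z) y)) := by
  have h1 : qf (a + 2 * c.re) (B1 c z) (B2 c z) y =
      ((a * (y.1 ^ 2 + y.2 ^ 2) : ℝ) : ℂ) + qf (2 * c.re) (B1 c z) (B2 c z) y := by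
    unfold qf
    push_cast
    ring
  rw [h1, ← quad_eq]
  unfold K2 Ke
  simp only [map_mul, ← Complex.exp_conj, map_neg, Complex.conj_ofReal]
  rw [show -((Real.pi : ℂ) * (((a * (y.1 ^ 2 + y.2 ^ 2) : ℝ) : ℂ) +
    (c * ((Pl y z.1.1 ^ 2 : ℝ) : ℂ) + c * ((Pl y z.1.2 ^ 2 : ℝ) : ℂ) +
      conj c * ((Pl y z.2.1 ^ 2 : ℝ) : ℂ) + conj c * ((Pl y z.2.2 ^ 2 : ℝ) : ℂ)))) =
    ((-(Real.pi * (a * (y.1 ^ 2 + y.2 ^ 2))) : ℝ) : ℂ) +
    (-((Real.pi : ℂ) * (c * ((Pl y z.1.1 ^ 2 : ℝ) : ℂ)))) +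
    (-((Real.pi : ℂ) * (c * ((Pl y z.1.2 ^ 2 : ℝ) : ℂ)))) +
    (-((Real.pi : ℂ) * (conj c * ((Pl y z.2.1 ^ 2 : ℝ) : ℂ)))) +
    (-((Real.pi : ℂ) * (conj c * ((Pl y z.2.2 ^ 2 : ℝ) : ℂ)))) by push_cast; ring]
  rw [Complex.exp_add, Complex.exp_add, Complex.exp_add, Complex.exp_add, Complex.ofReal_exp]
  ring

/-- the four angles -/
noncomputable abbrev mu4 : Measure ((ℝ × ℝ) × (ℝ × ℝ)) := (mu.prod mu).prod (mu.prod mu)

/-- the coefficient -/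
noncomputable def O4 (Ω : ℝ → ℂ) (z : (ℝ × ℝ) × (ℝ × ℝ)) : ℂ :=
  Ω z.1.1 * Ω z.1.2 * conj (Ω z.2.1 * Ω z.2.2)

lemma O4_norm (hb : ∀ θ, ‖Ω θ‖ ≤ 1) (z : (ℝ × ℝ) × (ℝ × ℝ)) : ‖O4 Ω z‖ ≤ 1 := by
  unfold O4
  rw [norm_mul, norm_mul, RCLike.norm_conj, norm_mul]
  exact mul_le_one₀ (mul_le_one₀ (hb _) (norm_nonneg _) (hb _)) (by positivity)
    (mul_le_one₀ (hb _) (norm_nonneg _) (hb _))

lemma four_int {a : ℝ} (ha : 0 < a) (hc : 0 ≤ c.re) (hΩ : Measurable Ω) (hb : ∀ θ, ‖Ω θ‖ ≤ 1) :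
    Integrable (fun p : (ℝ × ℝ) × ((ℝ × ℝ) × (ℝ × ℝ)) =>
      ((Real.exp (-(Real.pi * (a * (p.1.1 ^ 2 + p.1.2 ^ 2)))) : ℝ) : ℂ) *
      (K2 c Ω p.1 p.2.1 * conj (K2 c Ω p.1 p.2.2))) ((volume : Measure (ℝ × ℝ)).prod mu4) := by
  have h1 := (gauss_int ha).mul_prod (integrable_const (1 : ℝ) (μ := mu4))
  refine h1.mono' ?_ ?_
  · apply Measurable.aestronglyMeasurable
    have a1 : Measurable fun p : (ℝ × ℝ) × ((ℝ × ℝ) × (ℝ × ℝ)) => (p.1, p.2.1) :=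
      measurable_fst.prodMk (measurable_fst.comp measurable_snd)
    have a2 : Measurable fun p : (ℝ × ℝ) × ((ℝ × ℝ) × (ℝ × ℝ)) => (p.1, p.2.2) :=
      measurable_fst.prodMk (measurable_snd.comp measurable_snd)
    have b1 : Measurable fun p : (ℝ × ℝ) × ((ℝ × ℝ) × (ℝ × ℝ)) => K2 c Ω p.1 p.2.1 :=
      (K2_meas c hΩ).comp a1
    have b2 : Measurable fun p : (ℝ × ℝ) × ((ℝ × ℝ) × (ℝ × ℝ)) => conj (K2 c Ω p.1 p.2.2) :=
      (Complex.continuous_conj.measurable).comp ((K2_meas c hΩ).comp a2)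
    have b3 : Measurable fun p : (ℝ × ℝ) × ((ℝ × ℝ) × (ℝ × ℝ)) =>
        ((Real.exp (-(Real.pi * (a * (p.1.1 ^ 2 + p.1.2 ^ 2)))) : ℝ) : ℂ) := by fun_prop
    exact b3.mul (b1.mul b2)
  · refine ae_of_all _ fun p => ?_
    rw [norm_mul, Complex.norm_real, Real.norm_of_nonneg (Real.exp_pos _).le]
    apply mul_le_mul_of_nonneg_left _ (Real.exp_pos _).le
    rw [norm_mul, RCLike.norm_conj]
    exact mul_le_one₀ (K2_norm hc hb _ _) (norm_nonneg _) (K2_norm hc hb _ _)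

/-- The fourth moment with a Gaussian weight. -/
lemma JJ_eq {a : ℝ} (ha : 0 < a) (hc : 0 ≤ c.re) (hΩ : Measurable Ω) (hb : ∀ θ, ‖Ω θ‖ ≤ 1) :
    ((∫ y : ℝ × ℝ, Real.exp (-(Real.pi * (a * (y.1 ^ 2 + y.2 ^ 2)))) * ‖UU c Ω y‖ ^ 4 : ℝ) : ℂ) =
      ∫ z, O4 Ω z * GG (a + 2 * c.re) (B1 c z) (B2 c z) ∂mu4 := by
  rw [← integral_complex_ofReal]
  have h1 : ∀ y : ℝ × ℝ, ((Real.exp (-(Real.pi * (a * (y.1 ^ 2 + y.2 ^ 2)))) *
      ‖UU c Ω y‖ ^ 4 : ℝ) : ℂ) = ∫ z,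
      ((Real.exp (-(Real.pi * (a * (y.1 ^ 2 + y.2 ^ 2)))) : ℝ) : ℂ) *
      (K2 c Ω y z.1 * conj (K2 c Ω y z.2)) ∂mu4 := by
    intro y
    rw [Complex.ofReal_mul, UU_four, ← integral_const_mul]
  simp only [h1]
  rw [integral_integral_swap (four_int ha hc hΩ hb)]
  apply integral_congr_ae
  refine ae_of_all _ fun z => ?_
  simp only [four_eq]
  rw [integral_const_mul]
  rfl

lemma w_int {a : ℝ} (ha : 0 < a) (hc : 0 ≤ c.re) (hΩ : Measurable Ω) (hb : ∀ θ, ‖Ω θ‖ ≤ 1) :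
    Integrable fun y : ℝ × ℝ => Real.exp (-(Real.pi * (a * (y.1 ^ 2 + y.2 ^ 2)))) *
      ‖UU c Ω y‖ ^ 4 := by
  refine (gauss_int ha).mono' ?_ ?_
  · apply Measurable.aestronglyMeasurable
    apply Measurable.mul
    · fun_prop
    · exact (UU_smeas c hΩ).measurable.norm.pow_const 4
  · refine ae_of_all _ fun y => ?_
    rw [norm_mul, Real.norm_of_nonneg (Real.exp_pos _).le, norm_pow, norm_norm]
    have h1 : ‖UU c Ω y‖ ^ 4 ≤ 1 := pow_le_one₀ (norm_nonneg _) (UU_norm hc hb y)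
    have h2 := (Real.exp_pos (-(Real.pi * (a * (y.1 ^ 2 + y.2 ^ 2))))).le
    calc _ ≤ Real.exp (-(Real.pi * (a * (y.1 ^ 2 + y.2 ^ 2)))) * 1 := by gcongr
      _ = _ := mul_one _

lemma GG_meas (α : ℝ) (c : ℂ) : StronglyMeasurable fun z : (ℝ × ℝ) × (ℝ × ℝ) =>
    GG α (B1 c z) (B2 c z) := by
  unfold GG
  have h1 : StronglyMeasurable (Function.uncurry fun (z : (ℝ × ℝ) × (ℝ × ℝ)) (y : ℝ × ℝ) =>
      cexp (-(Real.pi * qf α (B1 c z) (B2 c z) y))) := by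
    apply Continuous.stronglyMeasurable
    unfold Function.uncurry qf B1 B2 W1 W2 V1 V2
    fun_prop
  exact h1.integral_prod_right

lemma B_re (c : ℂ) (hc : 0 ≤ c.re) (z : (ℝ × ℝ) × (ℝ × ℝ)) :
    (B1 c z).re ^ 2 + (B2 c z).re ^ 2 ≤ (2 * c.re) ^ 2 := by
  have h1 : (B1 c z).re = c.re * W1 z / 2 := by
    unfold B1
    simp
  have h2 : (B2 c z).re = c.re * W2 z / 2 := by
    unfold B2
    simp
  rw [h1, h2]
  have h3 := W_le z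
  have h4 : c.re ^ 2 * (W1 z ^ 2 + W2 z ^ 2) ≤ c.re ^ 2 * 16 := by gcongr
  nlinarith

lemma B_det (c : ℂ) (hc : 0 ≤ c.re) {α : ℝ} (hα : 2 * c.re ≤ α) (z : (ℝ × ℝ) × (ℝ × ℝ)) :
    c.im ^ 2 * (V1 z ^ 2 + V2 z ^ 2) / 4 ≤ ((α : ℂ) ^ 2 - B1 c z ^ 2 - B2 c z ^ 2).re := by
  have e1 : ((α : ℂ) ^ 2 - B1 c z ^ 2 - B2 c z ^ 2).re =
      α ^ 2 - (c.re * W1 z / 2) ^ 2 + (c.im * V1 z / 2) ^ 2 - (c.re * W2 z / 2) ^ 2 +
        (c.im * V2 z / 2) ^ 2 := by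
    unfold B1 B2
    rw [sq, sq, sq, Complex.sub_re, Complex.sub_re, Complex.mul_re, Complex.mul_re,
      Complex.mul_re]
    simp
    ring
  rw [e1]
  have h3 := W_le z
  have h4 : c.re ^ 2 * (W1 z ^ 2 + W2 z ^ 2) ≤ c.re ^ 2 * 16 := by gcongr
  nlinarith

/-- a bound for the increments -/
lemma inc_bound {δ D s : ℝ} (hδ : 0 < δ) (hD : 0 < D) (hs : 0 ≤ s) (hs2 : s ≤ 2) {X : ℝ}
    (h1 : X ≤ 2 / D) (h2 : X ≤ 14 * δ ^ 2 / D ^ 3) : X ≤ 14 * δ ^ s * D ^ (-(1 + s)) := by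
  have e1 : 14 * δ ^ s * D ^ (-(1 + s)) = 14 / D * (δ / D) ^ s := by
    rw [Real.div_rpow hδ.le hD.le, Real.rpow_neg hD.le, Real.rpow_add hD, Real.rpow_one]
    field_simp
  rw [e1]
  rcases le_total δ D with h | h
  · refine h2.trans ?_
    have h3 : (δ / D) ^ (2 : ℝ) ≤ (δ / D) ^ s :=
      Real.rpow_le_rpow_of_exponent_ge (by positivity) ((div_le_one hD).2 h) hs2
    have h4 : (δ / D) ^ (2 : ℝ) = (δ / D) ^ 2 := Real.rpow_two _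
    rw [h4] at h3
    calc 14 * δ ^ 2 / D ^ 3 = 14 / D * (δ / D) ^ 2 := by
          field_simp
      _ ≤ _ := by gcongr
  · refine h1.trans ?_
    have h3 : 1 ≤ (δ / D) ^ s := Real.one_le_rpow ((one_le_div hD).2 h) hs
    have h4 : 0 < 1 / D := by positivity
    calc 2 / D ≤ 14 / D * 1 := by
          rw [mul_one]
          gcongr
          norm_num
      _ ≤ _ := by gcongr

/-- the integral of the increments, in real form for one quadruple -/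
lemma GG_inc {κ s : ℝ} (hc : 0 < c.re) (hi : c.im ≠ 0) (hκ : 0 < κ) (hκ2 : κ ≤ c.re)
    (hs : 0 ≤ s) (hs2 : s ≤ 2) (z : (ℝ × ℝ) × (ℝ × ℝ)) :
    ‖GG (κ + 2 * c.re) (B1 c z) (B2 c z) - GG (κ + c.re + 2 * c.re) (B1 c z) (B2 c z)‖ₑ ≤
      ENNReal.ofReal (14 * c.re ^ s * (|c.im| / 2) ^ (-(1 + s))) *
        ENNReal.ofReal (V1 z ^ 2 + V2 z ^ 2) ^ (-((1 + s) / 2)) := by
  set N : ℝ := V1 z ^ 2 + V2 z ^ 2 with hN
  have hN0 : 0 ≤ N := by positivity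
  have him : 0 < |c.im| := abs_pos.2 hi
  have hcoef : 0 < 14 * c.re ^ s * (|c.im| / 2) ^ (-(1 + s)) := by positivity
  rcases hN0.eq_or_lt with h0 | h0
  · rw [← h0, ENNReal.ofReal_zero, ENNReal.zero_rpow_of_neg (by linarith), ENNReal.mul_top]
    · exact le_top
    · rw [ne_eq, ENNReal.ofReal_eq_zero, not_le]
      exact hcoef
  · set D : ℝ := |c.im| / 2 * N ^ (1 / 2 : ℝ) with hD
    have hNp : 0 < N ^ (1 / 2 : ℝ) := Real.rpow_pos_of_pos h0 _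
    have hD0 : 0 < D := by positivity
    have hD2 : D ^ 2 = c.im ^ 2 * N / 4 := by
      have h1 : (N ^ (1 / 2 : ℝ)) ^ 2 = N := by
        rw [← Real.rpow_natCast, ← Real.rpow_mul hN0]
        norm_num
      rw [hD, mul_pow, h1, div_pow, sq_abs]
      ring
    have hA := B_det c hc.le (show 2 * c.re ≤ κ + 2 * c.re by linarith) z
    rw [← hN, ← hD2] at hA
    obtain ⟨-, h2, h3⟩ := GG_diff (α := κ + 2 * c.re) (ρ := 2 * c.re) (η := c.re) (by positivity)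
      (B_re c hc.le z) (by linarith) hc.le hD0 hA
    rw [show κ + 2 * c.re + c.re = κ + c.re + 2 * c.re by ring] at h2 h3
    have h4 : 2 * (2 * (κ + 2 * c.re) * c.re + c.re ^ 2) / D ^ 3 ≤ 14 * c.re ^ 2 / D ^ 3 := by
      apply div_le_div_of_nonneg_right _ (by positivity)
      nlinarith
    have h5 := inc_bound hc hD0 hs hs2 h2 (h3.trans h4)
    have h6 : D ^ (-(1 + s)) = (|c.im| / 2) ^ (-(1 + s)) * N ^ (-((1 + s) / 2)) := by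
      rw [hD, Real.mul_rpow (by positivity) hNp.le, ← Real.rpow_mul hN0]
      congr 2
      ring
    rw [ENNReal.ofReal_rpow_of_pos h0, ← ENNReal.ofReal_mul hcoef.le, ← ofReal_norm]
    apply ENNReal.ofReal_le_ofReal
    rw [h6] at h5
    linarith

lemma GG_triv {κ : ℝ} (hc : 0 < c.re) (hi : c.im ≠ 0) (hκ : 0 < κ)
    (z : (ℝ × ℝ) × (ℝ × ℝ)) :
    ‖GG (κ + 2 * c.re) (B1 c z) (B2 c z)‖ₑ ≤
      ENNReal.ofReal ((|c.im| / 2)⁻¹) * ENNReal.ofReal (V1 z ^ 2 + V2 z ^ 2) ^ (-(1 / 2 : ℝ)) := by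
  set N : ℝ := V1 z ^ 2 + V2 z ^ 2 with hN
  have hN0 : 0 ≤ N := by positivity
  have him : 0 < |c.im| := abs_pos.2 hi
  have hcoef : 0 < (|c.im| / 2)⁻¹ := by positivity
  rcases hN0.eq_or_lt with h0 | h0
  · rw [← h0, ENNReal.ofReal_zero, ENNReal.zero_rpow_of_neg (by norm_num), ENNReal.mul_top]
    · exact le_top
    · rw [ne_eq, ENNReal.ofReal_eq_zero, not_le]
      exact hcoef
  · set D : ℝ := |c.im| / 2 * N ^ (1 / 2 : ℝ) with hD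
    have hNp : 0 < N ^ (1 / 2 : ℝ) := Real.rpow_pos_of_pos h0 _
    have hD0 : 0 < D := by positivity
    have hD2 : D ^ 2 = c.im ^ 2 * N / 4 := by
      have h1 : (N ^ (1 / 2 : ℝ)) ^ 2 = N := by
        rw [← Real.rpow_natCast, ← Real.rpow_mul hN0]
        norm_num
      rw [hD, mul_pow, h1, div_pow, sq_abs]
      ring
    have hA := B_det c hc.le (show 2 * c.re ≤ κ + 2 * c.re by linarith) z
    rw [← hN, ← hD2] at hA
    obtain ⟨h1, -, -⟩ := GG_diff (α := κ + 2 * c.re) (ρ := 2 * c.re) (η := 0) (by positivity)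
      (B_re c hc.le z) (by linarith) le_rfl hD0 hA
    rw [ENNReal.ofReal_rpow_of_pos h0, ← ENNReal.ofReal_mul hcoef.le, ← ofReal_norm]
    apply ENNReal.ofReal_le_ofReal
    refine h1.trans (le_of_eq ?_)
    rw [hD, Real.rpow_neg hN0, one_div, mul_inv]

/-- the weighted fourth moment, with a regularising Gaussian -/
lemma weighted_reg {κ s : ℝ} (hc : 0 < c.re) (hi : c.im ≠ 0) (hκ : 0 < κ) (hκ2 : κ ≤ c.re)
    (hs : 0 ≤ s) (hs2 : s ≤ 2) (hΩ : Measurable Ω) (hb : ∀ θ, ‖Ω θ‖ ≤ 1) :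
    ∫⁻ y : ℝ × ℝ, ENNReal.ofReal ((Real.exp (-(Real.pi * (κ * (y.1 ^ 2 + y.2 ^ 2)))) -
        Real.exp (-(Real.pi * ((κ + c.re) * (y.1 ^ 2 + y.2 ^ 2))))) * ‖UU c Ω y‖ ^ 4) ≤
      ENNReal.ofReal (14 * c.re ^ s * (|c.im| / 2) ^ (-(1 + s))) *
        (4 ^ ((1 + s) / 2) * Fs ((1 + s) / 2) ^ 3) := by
  have hκc : 0 < κ + c.re := by linarith
  have i1 := w_int hκ hc.le hΩ hb
  have i2 := w_int hκc hc.le hΩ hb
  have hnn : ∀ y : ℝ × ℝ, 0 ≤ (Real.exp (-(Real.pi * (κ * (y.1 ^ 2 + y.2 ^ 2)))) -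
        Real.exp (-(Real.pi * ((κ + c.re) * (y.1 ^ 2 + y.2 ^ 2))))) * ‖UU c Ω y‖ ^ 4 := by
    intro y
    apply mul_nonneg _ (by positivity)
    rw [sub_nonneg]
    apply Real.exp_le_exp.2
    have := Real.pi_pos
    apply neg_le_neg
    gcongr
    linarith
  rw [← ofReal_integral_eq_lintegral_ofReal _ (ae_of_all _ hnn)]
  swap
  · refine (i1.sub i2).congr (ae_of_all _ fun y => ?_)
    simp only [Pi.sub_apply]
    ring
  have e1 : ∫ y : ℝ × ℝ, (Real.exp (-(Real.pi * (κ * (y.1 ^ 2 + y.2 ^ 2)))) -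
        Real.exp (-(Real.pi * ((κ + c.re) * (y.1 ^ 2 + y.2 ^ 2))))) * ‖UU c Ω y‖ ^ 4 =
      (∫ y : ℝ × ℝ, Real.exp (-(Real.pi * (κ * (y.1 ^ 2 + y.2 ^ 2)))) * ‖UU c Ω y‖ ^ 4) -
      ∫ y : ℝ × ℝ, Real.exp (-(Real.pi * ((κ + c.re) * (y.1 ^ 2 + y.2 ^ 2)))) * ‖UU c Ω y‖ ^ 4 := by
    rw [← integral_sub i1 i2]
    apply integral_congr_ae
    refine ae_of_all _ fun y => ?_
    simp only
    ring
  set X : ℝ := ∫ y : ℝ × ℝ, (Real.exp (-(Real.pi * (κ * (y.1 ^ 2 + y.2 ^ 2)))) -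
        Real.exp (-(Real.pi * ((κ + c.re) * (y.1 ^ 2 + y.2 ^ 2))))) * ‖UU c Ω y‖ ^ 4 with hX
  have hX0 : 0 ≤ X := integral_nonneg hnn
  have hbd : ∀ {a : ℝ}, 0 < a → Integrable (fun z => O4 Ω z *
      GG (a + 2 * c.re) (B1 c z) (B2 c z)) mu4 := by
    intro a ha
    have hB : ∀ z, ‖GG (a + 2 * c.re) (B1 c z) (B2 c z)‖ ≤ ∫ y : ℝ × ℝ,
        Real.exp (-(Real.pi * (a * (y.1 ^ 2 + y.2 ^ 2)))) := by
      intro z
      unfold GG
      refine norm_integral_le_of_norm_le (gauss_int ha) (ae_of_all _ fun y => ?_)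
      rw [Complex.norm_exp, Complex.neg_re, Complex.re_ofReal_mul, qf_re]
      apply Real.exp_le_exp.2
      apply neg_le_neg
      apply mul_le_mul_of_nonneg_left _ Real.pi_pos.le
      have h1 := qf_lower (α := a + 2 * c.re) (by positivity : 0 ≤ 2 * c.re) (B_re c hc.le z) y
      rwa [add_sub_cancel_right] at h1
    refine Integrable.of_bound (C := ∫ y : ℝ × ℝ,
        Real.exp (-(Real.pi * (a * (y.1 ^ 2 + y.2 ^ 2))))) ?_ (ae_of_all _ fun z => ?_)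
    · apply AEStronglyMeasurable.mul
      · apply Measurable.aestronglyMeasurable
        have a1 := hΩ.comp ((measurable_fst.comp measurable_fst :
          Measurable fun z : (ℝ × ℝ) × (ℝ × ℝ) => z.1.1))
        have a2 := hΩ.comp ((measurable_snd.comp measurable_fst :
          Measurable fun z : (ℝ × ℝ) × (ℝ × ℝ) => z.1.2))
        have a3 := hΩ.comp ((measurable_fst.comp measurable_snd :
          Measurable fun z : (ℝ × ℝ) × (ℝ × ℝ) => z.2.1))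
        have a4 := hΩ.comp ((measurable_snd.comp measurable_snd :
          Measurable fun z : (ℝ × ℝ) × (ℝ × ℝ) => z.2.2))
        exact (a1.mul a2).mul (Complex.continuous_conj.measurable.comp (a3.mul a4))
      · exact (GG_meas _ c).aestronglyMeasurable
    · rw [norm_mul]
      calc _ ≤ 1 * _ := mul_le_mul (O4_norm hb z) (hB z) (norm_nonneg _) zero_le_one
        _ = _ := one_mul _
  have e2 : (X : ℂ) = ∫ z, O4 Ω z * (GG (κ + 2 * c.re) (B1 c z) (B2 c z) -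
      GG (κ + c.re + 2 * c.re) (B1 c z) (B2 c z)) ∂mu4 := by
    rw [e1, Complex.ofReal_sub, JJ_eq hκ hc.le hΩ hb, JJ_eq hκc hc.le hΩ hb,
      ← integral_sub (hbd hκ) (hbd hκc)]
    apply integral_congr_ae
    refine ae_of_all _ fun z => ?_
    simp only
    ring
  have e3 : ENNReal.ofReal X = ‖(X : ℂ)‖ₑ := by
    rw [← ofReal_norm, Complex.norm_real, Real.norm_of_nonneg hX0]
  rw [e3, e2]
  refine (enorm_integral_le_lintegral_enorm _).trans ?_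
  calc ∫⁻ z, ‖O4 Ω z * (GG (κ + 2 * c.re) (B1 c z) (B2 c z) -
      GG (κ + c.re + 2 * c.re) (B1 c z) (B2 c z))‖ₑ ∂mu4
      ≤ ∫⁻ z, ENNReal.ofReal (14 * c.re ^ s * (|c.im| / 2) ^ (-(1 + s))) *
        ENNReal.ofReal (V1 z ^ 2 + V2 z ^ 2) ^ (-((1 + s) / 2)) ∂mu4 := by
        apply lintegral_mono
        intro z
        simp only
        rw [enorm_mul]
        have h1 : ‖O4 Ω z‖ₑ ≤ 1 := by
          rw [← ofReal_norm]
          exact ENNReal.ofReal_le_one.2 (O4_norm hb z)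
        calc _ ≤ 1 * _ := mul_le_mul' h1 (GG_inc hc hi hκ hκ2 hs hs2 z)
          _ = _ := one_mul _
    _ = ENNReal.ofReal (14 * c.re ^ s * (|c.im| / 2) ^ (-(1 + s))) *
        ∫⁻ z, ENNReal.ofReal (V1 z ^ 2 + V2 z ^ 2) ^ (-((1 + s) / 2)) ∂mu4 := by
        rw [lintegral_const_mul]
        exact (V_meas.ennreal_ofReal).pow_const _
    _ ≤ _ := by
        gcongr
        exact energy (by positivity)

/-- the fourth moment, with a regularising Gaussian -/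
lemma plain_reg {κ : ℝ} (hc : 0 < c.re) (hi : c.im ≠ 0) (hκ : 0 < κ)
    (hΩ : Measurable Ω) (hb : ∀ θ, ‖Ω θ‖ ≤ 1) :
    ∫⁻ y : ℝ × ℝ, ENNReal.ofReal (Real.exp (-(Real.pi * (κ * (y.1 ^ 2 + y.2 ^ 2)))) *
        ‖UU c Ω y‖ ^ 4) ≤
      ENNReal.ofReal ((|c.im| / 2)⁻¹) * (4 ^ (1 / 2 : ℝ) * Fs (1 / 2) ^ 3) := by
  have i1 := w_int hκ hc.le hΩ hb
  have hnn : ∀ y : ℝ × ℝ, 0 ≤ Real.exp (-(Real.pi * (κ * (y.1 ^ 2 + y.2 ^ 2)))) *
      ‖UU c Ω y‖ ^ 4 := by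
    intro y
    positivity
  rw [← ofReal_integral_eq_lintegral_ofReal i1 (ae_of_all _ hnn)]
  set X : ℝ := ∫ y : ℝ × ℝ, Real.exp (-(Real.pi * (κ * (y.1 ^ 2 + y.2 ^ 2)))) *
        ‖UU c Ω y‖ ^ 4 with hX
  have hX0 : 0 ≤ X := integral_nonneg hnn
  have e3 : ENNReal.ofReal X = ‖(X : ℂ)‖ₑ := by
    rw [← ofReal_norm, Complex.norm_real, Real.norm_of_nonneg hX0]
  rw [e3, hX, JJ_eq hκ hc.le hΩ hb]
  refine (enorm_integral_le_lintegral_enorm _).trans ?_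
  calc ∫⁻ z, ‖O4 Ω z * GG (κ + 2 * c.re) (B1 c z) (B2 c z)‖ₑ ∂mu4
      ≤ ∫⁻ z, ENNReal.ofReal ((|c.im| / 2)⁻¹) *
        ENNReal.ofReal (V1 z ^ 2 + V2 z ^ 2) ^ (-(1 / 2 : ℝ)) ∂mu4 := by
        apply lintegral_mono
        intro z
        simp only
        rw [enorm_mul]
        have h1 : ‖O4 Ω z‖ₑ ≤ 1 := by
          rw [← ofReal_norm]
          exact ENNReal.ofReal_le_one.2 (O4_norm hb z)
        calc _ ≤ 1 * _ := mul_le_mul' h1 (GG_triv hc hi hκ z)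
          _ = _ := one_mul _
    _ = ENNReal.ofReal ((|c.im| / 2)⁻¹) *
        ∫⁻ z, ENNReal.ofReal (V1 z ^ 2 + V2 z ^ 2) ^ (-(1 / 2 : ℝ)) ∂mu4 := by
        rw [lintegral_const_mul]
        exact (V_meas.ennreal_ofReal).pow_const _
    _ ≤ _ := by
        gcongr
        exact energy (by norm_num)

/-- a limit of regularisations -/
lemma reg_limit {F : ℝ × ℝ → ℝ} (hF : ∀ y, 0 ≤ F y) (hFm : Measurable F) {M : ℝ≥0∞} {κ₀ : ℝ}
    (hκ₀ : 0 < κ₀) (h : ∀ κ, 0 < κ → κ ≤ κ₀ → ∫⁻ y : ℝ × ℝ,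
      ENNReal.ofReal (Real.exp (-(Real.pi * (κ * (y.1 ^ 2 + y.2 ^ 2)))) * F y) ≤ M) :
    ∫⁻ y, ENNReal.ofReal (F y) ≤ M := by
  set u : ℕ → ℝ := fun n => κ₀ / ((n : ℝ) + 1) with hu
  have hu0 : ∀ n, 0 < u n := fun n => by
    simp only [hu]
    positivity
  have hu1 : ∀ n, u n ≤ κ₀ := by
    intro n
    simp only [hu]
    apply div_le_self hκ₀.le
    have : (0 : ℝ) ≤ n := Nat.cast_nonneg n
    linarith
  have hlim : Filter.Tendsto u Filter.atTop (nhds 0) := by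
    simp only [hu]
    have h1 := tendsto_one_div_add_atTop_nhds_zero_nat (𝕜 := ℝ)
    have h2 := h1.const_mul κ₀
    rw [mul_zero] at h2
    refine h2.congr fun n => ?_
    ring
  have hpt : ∀ y : ℝ × ℝ, Filter.Tendsto (fun n => ENNReal.ofReal
      (Real.exp (-(Real.pi * (u n * (y.1 ^ 2 + y.2 ^ 2)))) * F y)) Filter.atTop
      (nhds (ENNReal.ofReal (F y))) := by
    intro y
    apply ENNReal.tendsto_ofReal
    have h1 : Filter.Tendsto (fun n => Real.exp (-(Real.pi * (u n * (y.1 ^ 2 + y.2 ^ 2)))) * F y)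
        Filter.atTop (nhds (Real.exp (-(Real.pi * (0 * (y.1 ^ 2 + y.2 ^ 2)))) * F y)) := by
      apply Filter.Tendsto.mul_const
      apply (Real.continuous_exp.tendsto _).comp
      apply Filter.Tendsto.neg
      apply Filter.Tendsto.const_mul
      exact hlim.mul_const _
    simpa using h1
  calc ∫⁻ y, ENNReal.ofReal (F y) = ∫⁻ y, Filter.liminf (fun n => ENNReal.ofReal
      (Real.exp (-(Real.pi * (u n * (y.1 ^ 2 + y.2 ^ 2)))) * F y)) Filter.atTop := by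
        apply lintegral_congr
        intro y
        exact (hpt y).liminf_eq.symm
    _ ≤ Filter.liminf (fun n => ∫⁻ y : ℝ × ℝ, ENNReal.ofReal
      (Real.exp (-(Real.pi * (u n * (y.1 ^ 2 + y.2 ^ 2)))) * F y)) Filter.atTop := by
        apply lintegral_liminf_le
        intro n
        fun_prop
    _ ≤ M := by
        apply Filter.liminf_le_of_frequently_le'
        exact Filter.Frequently.of_forall fun n => h (u n) (hu0 n) (hu1 n)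

/-- The weight `1 - e^{-πη|y|²}`. -/
noncomputable def Wt (η : ℝ) (y : ℝ × ℝ) : ℝ := 1 - Real.exp (-(Real.pi * (η * (y.1 ^ 2 + y.2 ^ 2))))

lemma Wt_nonneg {η : ℝ} (hη : 0 ≤ η) (y : ℝ × ℝ) : 0 ≤ Wt η y := by
  unfold Wt
  rw [sub_nonneg, Real.exp_le_one_iff]
  have := Real.pi_pos
  have h2 : 0 ≤ Real.pi * (η * (y.1 ^ 2 + y.2 ^ 2)) := by positivity
  linarith

theorem weighted {s : ℝ} (hc : 0 < c.re) (hi : c.im ≠ 0)
    (hs : 0 ≤ s) (hs2 : s ≤ 2) (hΩ : Measurable Ω) (hb : ∀ θ, ‖Ω θ‖ ≤ 1) :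
    ∫⁻ y : ℝ × ℝ, ENNReal.ofReal (Wt c.re y * ‖UU c Ω y‖ ^ 4) ≤
      ENNReal.ofReal (14 * c.re ^ s * (|c.im| / 2) ^ (-(1 + s))) *
        (4 ^ ((1 + s) / 2) * Fs ((1 + s) / 2) ^ 3) := by
  have hUm : Measurable fun y => ‖UU c Ω y‖ ^ 4 := (UU_smeas c hΩ).measurable.norm.pow_const 4
  apply reg_limit (κ₀ := c.re) _ _ hc
  · intro κ hκ hκ2
    refine le_trans (le_of_eq ?_) (weighted_reg hc hi hκ hκ2 hs hs2 hΩ hb)
    apply lintegral_congr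
    intro y
    congr 1
    unfold Wt
    have : Real.exp (-(Real.pi * ((κ + c.re) * (y.1 ^ 2 + y.2 ^ 2)))) =
        Real.exp (-(Real.pi * (κ * (y.1 ^ 2 + y.2 ^ 2)))) *
          Real.exp (-(Real.pi * (c.re * (y.1 ^ 2 + y.2 ^ 2)))) := by
      rw [← Real.exp_add]
      congr 1
      ring
    rw [this]
    ring
  · intro y
    exact mul_nonneg (Wt_nonneg hc.le y) (by positivity)
  · apply Measurable.mul _ hUm
    unfold Wt
    fun_prop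

theorem plain (hc : 0 < c.re) (hi : c.im ≠ 0) (hΩ : Measurable Ω) (hb : ∀ θ, ‖Ω θ‖ ≤ 1) :
    ∫⁻ y : ℝ × ℝ, ENNReal.ofReal (‖UU c Ω y‖ ^ 4) ≤
      ENNReal.ofReal ((|c.im| / 2)⁻¹) * (4 ^ (1 / 2 : ℝ) * Fs (1 / 2) ^ 3) := by
  have hUm : Measurable fun y => ‖UU c Ω y‖ ^ 4 := (UU_smeas c hΩ).measurable.norm.pow_const 4
  apply reg_limit (κ₀ := 1) _ hUm one_pos
  · intro κ hκ _
    exact plain_reg hc hi hκ hΩ hb
  · intro y
    positivity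

end Pool.Agent.P8H98.HG
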