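import Mathlib
import Pool.Agent.P8H98.HG.Four
import Pool.Agent.TH277.CB.A
set_option autoImplicit false

/-! The extension operator on homogeneous functions in a sector, with a Gaussian window. -/

namespace Pool.Agent.P8H98.HG

open MeasureTheory Set Complex
open scoped ENNReal NNReal ComplexConjugate
open Pool.Agent.TH277.CS (s2)
open Pool.Agent.TH277.CB (pq E2 pq_norm pq_cont)
open Pool.Agent.TH277.HT (ch ch_norm ch_cont ch_add)

/-- the sector `0 < x₂ ≤ x₁` -/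
def Sec : Set (ℝ × ℝ) := {x | 0 < x.2 ∧ x.2 ≤ x.1}

lemma Sec_meas : MeasurableSet Sec :=
  (measurableSet_lt measurable_const measurable_snd).inter
    (measurableSet_le measurable_snd measurable_fst)

/-- a point in polar coordinates -/
noncomputable def pt (p : ℝ × ℝ) : ℝ × ℝ := (p.1 * Real.cos p.2, p.1 * Real.sin p.2)

lemma pt_cont : Continuous pt := by
  unfold pt
  fun_prop

lemma pt_symm (p : ℝ × ℝ) : polarCoord.symm p = pt p := rfl

lemma not_Sec {r θ : ℝ} (hr : 0 < r) (h1 : -Real.pi < θ) (h2 : θ < Real.pi)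
    (h : θ ∉ Ioc 0 (Real.pi / 4)) : pt (r, θ) ∉ Sec := by
  rintro ⟨h3, h4⟩
  simp only [pt] at h3 h4
  have h5 : 0 < Real.sin θ := by
    by_contra hc
    push Not at hc
    nlinarith
  have h6 : Real.sin θ ≤ Real.cos θ := le_of_mul_le_mul_left h4 hr
  apply h
  constructor
  · by_contra hc
    push Not at hc
    have := Real.sin_nonpos_of_nonpos_of_neg_pi_le hc h1.le
    linarith
  · by_contra hc
    push Not at hc
    have h7 : 0 < Real.sin (θ - Real.pi / 4) := by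
      apply Real.sin_pos_of_pos_of_lt_pi
      · linarith
      · linarith [Real.pi_pos]
    rw [Real.sin_sub, Real.cos_pi_div_four, Real.sin_pi_div_four] at h7
    have h8 : 0 < Real.sqrt 2 := by positivity
    nlinarith

lemma Ioc_sub : Ioc 0 (Real.pi / 4) ⊆ Ioo (-Real.pi) Real.pi := by
  intro θ hθ
  have := Real.pi_pos
  exact ⟨by linarith [hθ.1], by linarith [hθ.2]⟩

/-- the measure `dr dθ` -/
noncomputable abbrev rmu : Measure (ℝ × ℝ) := ((volume : Measure ℝ).restrict (Ioi 0)).prod mu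

lemma rmu_eq : ((volume : Measure ℝ).restrict (Ioi 0)).prod mu =
    (volume : Measure (ℝ × ℝ)).restrict (Ioi 0 ×ˢ Ioc 0 (Real.pi / 4)) := by
  unfold mu
  rw [Measure.prod_restrict]
  rfl

lemma polar_int (F : ℝ × ℝ → ℂ) (hF : ∀ x, x ∉ Sec → F x = 0)
    (hint : Integrable (fun p : ℝ × ℝ => (p.1 : ℂ) * F (pt p)) rmu) :
    ∫ x, F x = ∫ θ, (∫ r in Ioi (0 : ℝ), (r : ℂ) * F (pt (r, θ))) ∂mu := by
  rw [← integral_comp_polarCoord_symm]
  have h1 : polarCoord.target = Ioi (0 : ℝ) ×ˢ Ioo (-Real.pi) Real.pi := rfl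
  rw [h1]
  have h2 : ∫ p in Ioi (0 : ℝ) ×ˢ Ioo (-Real.pi) Real.pi, p.1 • F (polarCoord.symm p) =
      ∫ p in Ioi (0 : ℝ) ×ˢ Ioc 0 (Real.pi / 4), p.1 • F (polarCoord.symm p) := by
    apply setIntegral_eq_of_subset_of_forall_sdiff_eq_zero
    · exact measurableSet_Ioi.prod measurableSet_Ioo
    · exact prod_mono_right Ioc_sub
    · rintro ⟨r, θ⟩ ⟨⟨h3, h4⟩, h5⟩
      rw [pt_symm, hF _ (not_Sec h3 h4.1 h4.2 fun h6 => h5 ⟨h3, h6⟩), smul_zero]
  rw [h2, ← rmu_eq, integral_prod_symm]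
  · simp only [pt_symm, Complex.real_smul]
  · simpa only [pt_symm, Complex.real_smul] using hint

lemma polar_lint (F : ℝ × ℝ → ℝ≥0∞) (hFm : Measurable F) (hF : ∀ x, x ∉ Sec → F x = 0) :
    ∫⁻ x, F x = ∫⁻ θ, (∫⁻ r in Ioi (0 : ℝ), ENNReal.ofReal r * F (pt (r, θ))) ∂mu := by
  rw [← lintegral_comp_polarCoord_symm]
  have h1 : polarCoord.target = Ioi (0 : ℝ) ×ˢ Ioo (-Real.pi) Real.pi := rfl
  rw [h1]
  have h2 : ∫⁻ p in Ioi (0 : ℝ) ×ˢ Ioo (-Real.pi) Real.pi,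
      ENNReal.ofReal p.1 • F (polarCoord.symm p) =
      ∫⁻ p in Ioi (0 : ℝ) ×ˢ Ioc 0 (Real.pi / 4), ENNReal.ofReal p.1 • F (polarCoord.symm p) := by
    rw [← lintegral_indicator (measurableSet_Ioi.prod measurableSet_Ioo),
      ← lintegral_indicator (measurableSet_Ioi.prod measurableSet_Ioc)]
    apply lintegral_congr
    rintro ⟨r, θ⟩
    by_cases h3 : (r, θ) ∈ Ioi (0 : ℝ) ×ˢ Ioc 0 (Real.pi / 4)
    · rw [indicator_of_mem h3, indicator_of_mem (prod_mono_right Ioc_sub h3)]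
    · rw [indicator_of_notMem h3]
      by_cases h4 : (r, θ) ∈ Ioi (0 : ℝ) ×ˢ Ioo (-Real.pi) Real.pi
      · rw [indicator_of_mem h4, pt_symm, hF, smul_zero]
        exact not_Sec h4.1 h4.2.1 h4.2.2 fun h6 => h3 ⟨h4.1, h6⟩
      · rw [indicator_of_notMem h4]
  rw [h2, ← rmu_eq, lintegral_prod_symm]
  · simp only [pt_symm, smul_eq_mul]
  · simp only [pt_symm, smul_eq_mul]
    apply Measurable.aemeasurable
    apply Measurable.mul
    · fun_prop
    · exact hFm.comp pt_cont.measurable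

/-- Homogeneity of degree zero. -/
def Hom (Ω : ℝ × ℝ → ℂ) : Prop := ∀ (x : ℝ × ℝ) (r : ℝ), 0 < r → Ω (r * x.1, r * x.2) = Ω x

lemma Hom.pt {Ω : ℝ × ℝ → ℂ} (h : Hom Ω) {r : ℝ} (hr : 0 < r) (θ : ℝ) :
    Ω (pt (r, θ)) = Ω (Real.cos θ, Real.sin θ) := h (Real.cos θ, Real.sin θ) r hr

lemma pt_mem {r θ : ℝ} (hr : 0 < r) (h : θ ∈ Ioc 0 (Real.pi / 4)) : pt (r, θ) ∈ Sec := by
  have hpi := Real.pi_pos
  have h1 : 0 < Real.sin θ := Real.sin_pos_of_pos_of_lt_pi h.1 (by linarith [h.2])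
  have h2 : Real.sin θ ≤ Real.cos θ := by
    have h7 : 0 ≤ Real.sin (Real.pi / 4 - θ) := by
      apply Real.sin_nonneg_of_nonneg_of_le_pi
      · linarith [h.2]
      · linarith [h.1]
    rw [Real.sin_sub, Real.cos_pi_div_four, Real.sin_pi_div_four] at h7
    have h8 : 0 < Real.sqrt 2 := by positivity
    nlinarith
  refine ⟨?_, ?_⟩
  · simp only [HG.pt]
    positivity
  · simp only [HG.pt]
    gcongr

lemma cos_lower {θ : ℝ} (h : θ ∈ Ioc 0 (Real.pi / 4)) : Real.sqrt 2 / 2 ≤ Real.cos θ := by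
  rw [← Real.cos_pi_div_four]
  exact Real.cos_le_cos_of_nonneg_of_le_pi h.1.le (by linarith [Real.pi_pos]) h.2

lemma cos_lower' {θ : ℝ} (h : θ ∈ Ioc 0 (Real.pi / 4)) : 1 / 2 ≤ Real.cos θ := by
  refine le_trans ?_ (cos_lower h)
  have : 1 ≤ Real.sqrt 2 := Real.one_le_sqrt.2 (by norm_num)
  linarith

/-- the function with the Gaussian window -/
noncomputable def gg (Ω : ℝ × ℝ → ℂ) : ℝ × ℝ → ℂ :=
  Sec.indicator fun x => Ω x * ((x.1⁻¹ * Real.exp (-(Real.pi * s2 x)) : ℝ) : ℂ)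

lemma gg_meas {Ω : ℝ × ℝ → ℂ} (hΩ : Measurable Ω) : Measurable (gg Ω) := by
  unfold gg
  apply Measurable.indicator _ Sec_meas
  apply hΩ.mul
  have h1 : Measurable s2 := Pool.Agent.TH277.CB.s2_cont.measurable
  fun_prop

/-- the one dimensional Gaussian integral -/
lemma fresnel (t P : ℝ) : ∫ r : ℝ, ch (r * P + r ^ 2 * t) * ((Real.exp (-(Real.pi * r ^ 2)) : ℝ) : ℂ)
    = (1 / (1 - 2 * t * I)) ^ (1 / 2 : ℂ) * cexp (-(Real.pi * (1 / (1 - 2 * t * I) * (P ^ 2 : ℝ)))) := by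
  set b : ℂ := 1 - 2 * t * I with hb
  have hbre : b.re = 1 := by
    rw [hb]
    simp
  have hb0 : b ≠ 0 := by
    intro h
    rw [h] at hbre
    simp at hbre
  have hpi : (Real.pi : ℂ) ≠ 0 := by exact_mod_cast Real.pi_ne_zero
  have h2 := integral_cexp_quadratic (b := -(Real.pi * b))
    (by rw [Complex.neg_re, Complex.re_ofReal_mul, hbre]; linarith [Real.pi_pos])
    (2 * Real.pi * I * P) 0
  have h3 : ∀ r : ℝ, ch (r * P + r ^ 2 * t) * ((Real.exp (-(Real.pi * r ^ 2)) : ℝ) : ℂ) =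
      cexp (-(Real.pi * b) * r ^ 2 + 2 * Real.pi * I * P * r + 0) := by
    intro r
    unfold ch
    rw [Complex.ofReal_exp, ← Complex.exp_add]
    congr 1
    rw [hb]
    push_cast
    ring
  simp only [h3]
  rw [h2]
  congr 1
  · rw [neg_neg]
    congr 1
    field_simp
  · congr 1
    push_cast
    field_simp
    have : I ^ 2 = -1 := Complex.I_sq
    linear_combination ((Real.pi : ℂ) * (P : ℂ) ^ 2 * 4) * this

lemma s2_pt (r θ : ℝ) : s2 (pt (r, θ)) = r ^ 2 := by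
  show (r * Real.cos θ) ^ 2 + (r * Real.sin θ) ^ 2 = r ^ 2
  have := Real.sin_sq_add_cos_sq θ
  linear_combination (r ^ 2) * this

lemma pq_pt (y : ℝ × ℝ) (t r θ : ℝ) : pq y t (pt (r, θ)) = ch (r * Pl y θ + r ^ 2 * t) := by
  unfold Pool.Agent.TH277.CB.pq
  rw [s2_pt]
  congr 1
  unfold Pl
  simp only [pt]
  ring

variable {Ω : ℝ × ℝ → ℂ}

lemma gg_pt (hH : Hom Ω) {r θ : ℝ} (hr : 0 < r) (h : θ ∈ Ioc 0 (Real.pi / 4)) :
    (r : ℂ) * gg Ω (pt (r, θ)) = Ω (Real.cos θ, Real.sin θ) *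
      (((Real.cos θ)⁻¹ : ℝ) : ℂ) * ((Real.exp (-(Real.pi * r ^ 2)) : ℝ) : ℂ) := by
  unfold gg
  rw [indicator_of_mem (pt_mem hr h), hH.pt hr, s2_pt]
  have h1 : ((pt (r, θ)).1⁻¹ : ℝ) = r⁻¹ * (Real.cos θ)⁻¹ := by
    show (r * Real.cos θ)⁻¹ = _
    rw [mul_inv]
  rw [h1]
  have h2 : (r : ℂ) ≠ 0 := by exact_mod_cast hr.ne'
  push_cast
  field_simp

lemma gg_int (hΩ : Measurable Ω) (hb : ∀ x, ‖Ω x‖ ≤ 1) (hH : Hom Ω) : Integrable (gg Ω) := by
  refine ⟨(gg_meas hΩ).aestronglyMeasurable, ?_⟩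
  rw [hasFiniteIntegral_iff_enorm, polar_lint _ (gg_meas hΩ).enorm]
  swap
  · intro x hx
    unfold gg
    rw [indicator_of_notMem hx, enorm_zero]
  have h0 : Integrable fun r : ℝ => 2 * Real.exp (-Real.pi * r ^ 2) :=
    (integrable_exp_neg_mul_sq Real.pi_pos).const_mul 2
  have h1 : ∀ᵐ θ ∂mu, ∫⁻ r in Ioi (0 : ℝ), ENNReal.ofReal r * ‖gg Ω (pt (r, θ))‖ₑ ≤
      ∫⁻ r : ℝ, ‖2 * Real.exp (-Real.pi * r ^ 2)‖ₑ := by
    have h2 : ∀ᵐ θ ∂mu, θ ∈ Ioc 0 (Real.pi / 4) := ae_restrict_mem measurableSet_Ioc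
    filter_upwards [h2] with θ hθ
    refine le_trans ?_ (setLIntegral_le_lintegral (Ioi 0) _)
    apply setLIntegral_mono' measurableSet_Ioi
    intro r hr
    have h3 := gg_pt hH (show 0 < r from hr) hθ
    have h4 : ENNReal.ofReal r * ‖gg Ω (pt (r, θ))‖ₑ = ‖(r : ℂ) * gg Ω (pt (r, θ))‖ₑ := by
      rw [enorm_mul]
      congr 1
      rw [← ofReal_norm, Complex.norm_real, Real.norm_of_nonneg (le_of_lt hr)]
    rw [h4, h3, ← ofReal_norm, ← ofReal_norm]
    apply ENNReal.ofReal_le_ofReal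
    have hc := cos_lower' hθ
    have hc0 : 0 < Real.cos θ := by linarith
    rw [norm_mul, norm_mul, Complex.norm_real, Complex.norm_real,
      Real.norm_of_nonneg (Real.exp_pos _).le,
      Real.norm_of_nonneg (show 0 ≤ 2 * Real.exp (-Real.pi * r ^ 2) by positivity)]
    have h5 : ‖(Real.cos θ)⁻¹‖ ≤ 2 := by
      rw [Real.norm_of_nonneg (by positivity)]
      rw [inv_le_comm₀ hc0 (by norm_num)]
      linarith
    calc ‖Ω (Real.cos θ, Real.sin θ)‖ * ‖(Real.cos θ)⁻¹‖ * Real.exp (-(Real.pi * r ^ 2))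
        ≤ 1 * 2 * Real.exp (-(Real.pi * r ^ 2)) := by
          gcongr
          exact hb _
      _ = _ := by
          rw [one_mul, neg_mul]
  refine (lintegral_mono_ae h1).trans_lt ?_
  rw [lintegral_const]
  apply ENNReal.mul_lt_top h0.2
  exact measure_lt_top mu univ

lemma half_sum {f : ℝ → ℂ} (hf : Integrable f) :
    ∫ r in Ioi (0 : ℝ), (f r + f (-r)) = ∫ r, f r := by
  have h1 : Integrable fun r => f (-r) := hf.comp_neg
  rw [integral_add hf.integrableOn h1.integrableOn, integral_comp_neg_Ioi, neg_zero, add_comm,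
    ← setIntegral_union (by simp) measurableSet_Ioi hf.integrableOn hf.integrableOn,
    Iic_union_Ioi, setIntegral_univ]

/-- the function of the angle -/
noncomputable def Om (Ω : ℝ × ℝ → ℂ) : ℝ → ℂ :=
  (Ioc 0 (Real.pi / 4)).indicator fun θ =>
    Ω (Real.cos θ, Real.sin θ) * (((Real.sqrt 2 * Real.cos θ)⁻¹ : ℝ) : ℂ)

lemma Om_meas (hΩ : Measurable Ω) : Measurable (Om Ω) := by
  unfold Om
  apply Measurable.indicator _ measurableSet_Ioc
  apply Measurable.mul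
  · exact hΩ.comp (Real.measurable_cos.prodMk Real.measurable_sin)
  · fun_prop

lemma Om_norm (hb : ∀ x, ‖Ω x‖ ≤ 1) (θ : ℝ) : ‖Om Ω θ‖ ≤ 1 := by
  unfold Om
  by_cases h : θ ∈ Ioc 0 (Real.pi / 4)
  · rw [indicator_of_mem h, norm_mul, Complex.norm_real]
    have h1 := cos_lower h
    have h2 : 0 < Real.sqrt 2 := by positivity
    have h3 : Real.sqrt 2 * Real.sqrt 2 = 2 := Real.mul_self_sqrt (by norm_num)
    have h4 : 1 ≤ Real.sqrt 2 * Real.cos θ := by nlinarith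
    have h5 : ‖(Real.sqrt 2 * Real.cos θ)⁻¹‖ ≤ 1 := by
      rw [Real.norm_of_nonneg (by positivity)]
      exact inv_le_one_of_one_le₀ h4
    exact mul_le_one₀ (hb _) (norm_nonneg _) h5
  · rw [indicator_of_notMem h, norm_zero]
    exact zero_le_one

/-- the frequency -/
noncomputable def ct (t : ℝ) : ℂ := 1 / (1 - 2 * t * I)

lemma ct_eq (t : ℝ) : ct t = ((1 / (1 + 4 * t ^ 2) : ℝ) : ℂ) + ((2 * t / (1 + 4 * t ^ 2) : ℝ) : ℂ) * I
    := by
  unfold ct
  have h1 : (1 - 2 * (t : ℂ) * I) ≠ 0 := by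
    intro h
    have h2 : (1 - 2 * (t : ℂ) * I).re = 0 := by rw [h]; simp
    simp at h2
  have h3 : (1 + 4 * (t : ℂ) ^ 2) ≠ 0 := by
    have : (0 : ℝ) < 1 + 4 * t ^ 2 := by positivity
    exact_mod_cast this.ne'
  rw [div_eq_iff h1]
  push_cast
  field_simp
  have : I ^ 2 = -1 := Complex.I_sq
  linear_combination (4 * (t : ℂ) ^ 2) * this

lemma ct_re (t : ℝ) : (ct t).re = 1 / (1 + 4 * t ^ 2) := by
  rw [ct_eq]
  simp only [Complex.add_re, Complex.ofReal_re, Complex.mul_re, Complex.I_re, mul_zero,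
    Complex.ofReal_im, Complex.I_im, mul_one, sub_self, add_zero]

lemma ct_im (t : ℝ) : (ct t).im = 2 * t / (1 + 4 * t ^ 2) := by
  rw [ct_eq]
  simp only [Complex.add_im, Complex.ofReal_im, Complex.mul_im, Complex.ofReal_re, Complex.I_im,
    mul_one, Complex.I_re, mul_zero, add_zero, zero_add]

lemma ct_norm (t : ℝ) : ‖ct t‖ ^ 2 = 1 / (1 + 4 * t ^ 2) := by
  rw [← Complex.normSq_eq_norm_sq, Complex.normSq_apply, ct_re, ct_im]
  have : (0 : ℝ) < 1 + 4 * t ^ 2 := by positivity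
  field_simp
  ring

lemma ct_half (t : ℝ) : ‖(ct t) ^ (1 / 2 : ℂ)‖ ^ 4 = 1 / (1 + 4 * t ^ 2) := by
  have h1 : 0 < (ct t).re := by
    rw [ct_re]
    positivity
  have h2 := (sqrt_props h1).1
  rw [show 4 = 2 * 2 by norm_num, pow_mul, ← norm_pow, h2, ct_norm]

lemma E2_neg (f : ℝ × ℝ → ℂ) (y : ℝ × ℝ) (t : ℝ) :
    E2 f (-y) t = E2 (fun x => f (-x)) y t := by
  unfold Pool.Agent.TH277.CB.E2
  rw [← integral_neg_eq_self (fun x => pq (-y) t x * f x)]
  apply integral_congr_ae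
  refine ae_of_all _ fun x => ?_
  simp only
  congr 1
  unfold Pool.Agent.TH277.CB.pq
  congr 1
  have : s2 (-x) = s2 x := by
    show (-x).1 ^ 2 + (-x).2 ^ 2 = x.1 ^ 2 + x.2 ^ 2
    simp
  rw [this]
  simp

lemma pq_meas' (y : ℝ × ℝ) (t : ℝ) : Measurable (pq y t) := by
  have h := pq_cont.comp (Continuous.prodMk_right ((y, t) : (ℝ × ℝ) × ℝ))
  exact h.measurable

lemma pq_int {f : ℝ × ℝ → ℂ} (hf : Integrable f) (y : ℝ × ℝ) (t : ℝ) :
    Integrable fun x => pq y t x * f x := by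
  refine hf.norm.mono' ?_ ?_
  · exact (pq_meas' y t).aestronglyMeasurable.mul hf.1
  · refine ae_of_all _ fun x => ?_
    rw [norm_mul, pq_norm, one_mul]

/-- The function with the Gaussian window under the extension operator. -/
theorem gg_ext (hΩ : Measurable Ω) (hb : ∀ x, ‖Ω x‖ ≤ 1) (hH : Hom Ω) (y : ℝ × ℝ) (t : ℝ) :
    E2 (gg Ω) y t + E2 (gg Ω) (-y) t =
      (Real.sqrt 2 : ℂ) * (ct t) ^ (1 / 2 : ℂ) * UU (ct t) (Om Ω) y := by
  have hg := gg_int hΩ hb hH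
  have hE : E2 (gg Ω) y t + E2 (gg Ω) (-y) t = ∫ x, (pq y t x + pq (-y) t x) * gg Ω x := by
    unfold Pool.Agent.TH277.CB.E2
    rw [← integral_add (pq_int hg y t) (pq_int hg (-y) t)]
    apply integral_congr_ae
    refine ae_of_all _ fun x => ?_
    simp only
    ring
  have hPn : ∀ θ, Pl (-y) θ = -Pl y θ := by
    intro θ
    unfold Pl
    simp only [Prod.fst_neg, Prod.snd_neg]
    ring
  -- the integrand in polar coordinates
  set E : ℝ → ℝ → ℂ := fun P r => ch (r * P + r ^ 2 * t) *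
    ((Real.exp (-(Real.pi * r ^ 2)) : ℝ) : ℂ) with hEd
  have hEi : ∀ P, Integrable (E P) := by
    intro P
    have h0 : Integrable fun r : ℝ => Real.exp (-Real.pi * r ^ 2) :=
      integrable_exp_neg_mul_sq Real.pi_pos
    refine h0.mono' ?_ (ae_of_all _ fun r => ?_)
    · apply Continuous.aestronglyMeasurable
      simp only [hEd]
      apply Continuous.mul
      · exact ch_cont.comp (by fun_prop)
      · fun_prop
    · simp only [hEd]
      rw [norm_mul, ch_norm, one_mul, Complex.norm_real, Real.norm_of_nonneg (Real.exp_pos _).le,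
        neg_mul]
  have hpol : ∀ r θ : ℝ, 0 < r → θ ∈ Ioc 0 (Real.pi / 4) →
      (r : ℂ) * ((pq y t (pt (r, θ)) + pq (-y) t (pt (r, θ))) * gg Ω (pt (r, θ))) =
      (Ω (Real.cos θ, Real.sin θ) * (((Real.cos θ)⁻¹ : ℝ) : ℂ)) *
        (E (Pl y θ) r + E (Pl y θ) (-r)) := by
    intro r θ hr hθ
    rw [pq_pt, pq_pt, hPn]
    have h1 : (r : ℂ) * ((ch (r * Pl y θ + r ^ 2 * t) + ch (r * -Pl y θ + r ^ 2 * t)) *
        gg Ω (pt (r, θ))) = (ch (r * Pl y θ + r ^ 2 * t) + ch (r * -Pl y θ + r ^ 2 * t)) *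
        ((r : ℂ) * gg Ω (pt (r, θ))) := by ring
    rw [h1, gg_pt hH hr hθ]
    simp only [hEd]
    rw [show -r * Pl y θ + (-r) ^ 2 * t = r * -Pl y θ + r ^ 2 * t by ring,
      show (-r) ^ 2 = r ^ 2 by ring]
    ring
  rw [hE, polar_int]
  · have h2 : ∀ᵐ θ ∂mu, θ ∈ Ioc 0 (Real.pi / 4) := ae_restrict_mem measurableSet_Ioc
    have h3 : ∫ θ, (∫ r in Ioi (0 : ℝ), (r : ℂ) *
        ((pq y t (pt (r, θ)) + pq (-y) t (pt (r, θ))) * gg Ω (pt (r, θ)))) ∂mu =
        ∫ θ, ((Real.sqrt 2 : ℂ) * (ct t) ^ (1 / 2 : ℂ)) * (Om Ω θ * Ke (ct t) y θ) ∂mu := by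
      apply integral_congr_ae
      filter_upwards [h2] with θ hθ
      have h4 : ∫ r in Ioi (0 : ℝ), (r : ℂ) *
          ((pq y t (pt (r, θ)) + pq (-y) t (pt (r, θ))) * gg Ω (pt (r, θ))) =
          ∫ r in Ioi (0 : ℝ), (Ω (Real.cos θ, Real.sin θ) * (((Real.cos θ)⁻¹ : ℝ) : ℂ)) *
        (E (Pl y θ) r + E (Pl y θ) (-r)) := by
        apply setIntegral_congr_fun measurableSet_Ioi
        intro r hr
        exact hpol r θ hr hθ
      rw [h4, integral_const_mul, half_sum (hEi _)]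
      simp only [hEd]
      rw [fresnel]
      unfold Om Ke ct
      rw [indicator_of_mem hθ]
      have h5 : (Real.sqrt 2 : ℂ) ≠ 0 := by
        exact_mod_cast (by positivity : Real.sqrt 2 ≠ 0)
      have h6 : (((Real.cos θ)⁻¹ : ℝ) : ℂ) =
          (Real.sqrt 2 : ℂ) * (((Real.sqrt 2 * Real.cos θ)⁻¹ : ℝ) : ℂ) := by
        rw [mul_inv]
        push_cast
        rw [← mul_assoc, mul_inv_cancel₀ h5, one_mul]
      rw [h6]
      ring
    rw [h3, integral_const_mul]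
    rfl
  · intro x hx
    unfold gg
    rw [indicator_of_notMem hx, mul_zero]
  · -- integrability in polar coordinates
    have h0 : Integrable (fun r : ℝ => 4 * Real.exp (-Real.pi * r ^ 2))
        ((volume : Measure ℝ).restrict (Ioi 0)) :=
      ((integrable_exp_neg_mul_sq Real.pi_pos).const_mul 4).restrict
    have h1 := h0.mul_prod (integrable_const (1 : ℝ) (μ := mu))
    refine h1.mono' ?_ ?_
    · apply Measurable.aestronglyMeasurable
      apply Measurable.mul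
      · fun_prop
      · exact (((pq_meas' y t).add (pq_meas' (-y) t)).mul (gg_meas hΩ)).comp pt_cont.measurable
    · rw [rmu_eq]
      filter_upwards [ae_restrict_mem (measurableSet_Ioi.prod measurableSet_Ioc)] with p hp
      obtain ⟨r, θ⟩ := p
      simp only
      rw [hpol r θ hp.1 hp.2, norm_mul, norm_mul, Complex.norm_real, mul_one]
      have hθ : θ ∈ Ioc 0 (Real.pi / 4) := hp.2
      have hc := cos_lower' hθ
      have hc0 : 0 < Real.cos θ := by linarith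
      have h5 : ‖(Real.cos θ)⁻¹‖ ≤ 2 := by
        rw [Real.norm_of_nonneg (by positivity)]
        rw [inv_le_comm₀ hc0 (by norm_num)]
        linarith
      have h6 : ∀ P s, ‖E P s‖ = Real.exp (-Real.pi * s ^ 2) := by
        intro P s
        simp only [hEd]
        rw [norm_mul, ch_norm, one_mul, Complex.norm_real,
          Real.norm_of_nonneg (Real.exp_pos _).le, neg_mul]
      have h7 : ‖E (Pl y θ) r + E (Pl y θ) (-r)‖ ≤ 2 * Real.exp (-Real.pi * r ^ 2) := by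
        refine (norm_add_le _ _).trans ?_
        rw [h6, h6, neg_sq]
        linarith
      calc ‖Ω (Real.cos θ, Real.sin θ)‖ * ‖(Real.cos θ)⁻¹‖ * ‖E (Pl y θ) r + E (Pl y θ) (-r)‖
          ≤ 1 * 2 * (2 * Real.exp (-Real.pi * r ^ 2)) := by
            gcongr
            exact hb _
        _ = _ := by ring

end Pool.Agent.P8H98.HG
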