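import Mathlib
import Pool.Agent.P8H98.HG.Polar
set_option autoImplicit false

/-! Multiplication by windows. -/

namespace Pool.Agent.P8H98.HG

open MeasureTheory Set Complex
open scoped ENNReal NNReal ComplexConjugate
open Pool.Agent.TH277.CS (s2)
open Pool.Agent.TH277.CB (pq E2 pq_norm pq_cont)
open Pool.Agent.TH277.HT (ch ch_norm ch_cont ch_add)

/-- the window with kernel `k` -/
noncomputable def wnd (k : ℝ × ℝ → ℂ) (x : ℝ × ℝ) : ℂ := ∫ z, k z * ch (z.1 * x.1 + z.2 * x.2)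

lemma pq_shift (y z : ℝ × ℝ) (t : ℝ) (x : ℝ × ℝ) :
    pq (y + z) t x = pq y t x * ch (z.1 * x.1 + z.2 * x.2) := by
  unfold Pool.Agent.TH277.CB.pq
  rw [← ch_add]
  congr 1
  simp only [Prod.fst_add, Prod.snd_add]
  ring

/-- Windows act by convolution. -/
lemma E2_wnd {k G : ℝ × ℝ → ℂ} (hk : Integrable k) (hG : Integrable G) (y : ℝ × ℝ) (t : ℝ) :
    E2 (fun x => wnd k x * G x) y t = ∫ z, k z * E2 G (y + z) t := by
  unfold Pool.Agent.TH277.CB.E2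
  have h1 : ∀ x, pq y t x * (wnd k x * G x) = ∫ z, k z * (pq (y + z) t x * G x) := by
    intro x
    unfold wnd
    rw [show pq y t x * ((∫ z, k z * ch (z.1 * x.1 + z.2 * x.2)) * G x) =
      (∫ z, k z * ch (z.1 * x.1 + z.2 * x.2)) * (pq y t x * G x) by ring, ← integral_mul_const]
    apply integral_congr_ae
    refine ae_of_all _ fun z => ?_
    simp only
    rw [pq_shift]
    ring
  have h2 : ∀ z, k z * ∫ x, pq (y + z) t x * G x = ∫ x, k z * (pq (y + z) t x * G x) := by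
    intro z
    rw [integral_const_mul]
  simp only [h1, h2]
  apply integral_integral_swap
  have h3 := hG.norm.mul_prod hk.norm
  refine h3.mono' ?_ ?_
  · have h4 : AEStronglyMeasurable (fun p : (ℝ × ℝ) × (ℝ × ℝ) => k p.2)
        ((volume : Measure (ℝ × ℝ)).prod volume) := hk.1.comp_snd
    have h5 : AEStronglyMeasurable (fun p : (ℝ × ℝ) × (ℝ × ℝ) => G p.1)
        ((volume : Measure (ℝ × ℝ)).prod volume) := hG.1.comp_fst
    have h6 : Measurable (fun p : (ℝ × ℝ) × (ℝ × ℝ) => pq (y + p.2) t p.1) := by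
      have h7 : Continuous fun p : (ℝ × ℝ) × (ℝ × ℝ) =>
          (((y + p.2, t), p.1) : ((ℝ × ℝ) × ℝ) × (ℝ × ℝ)) := by fun_prop
      exact (pq_cont.comp h7).measurable
    exact h4.mul (h6.aestronglyMeasurable.mul h5)
  · refine ae_of_all _ fun p => ?_
    simp only [Function.uncurry]
    rw [norm_mul, norm_mul, pq_norm, one_mul, mul_comm]

/-- Jensen's inequality for the fourth power. -/
lemma jensen4 {α : Type*} [MeasurableSpace α] {μ : Measure α} {f g : α → ℝ≥0∞}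
    (hf : Measurable f) (hg : Measurable g) :
    (∫⁻ x, f x * g x ∂μ) ^ 4 ≤ (∫⁻ x, f x ∂μ) ^ 3 * ∫⁻ x, f x * g x ^ 4 ∂μ := by
  have hpq : Real.HolderConjugate (4 / 3) 4 := by
    rw [Real.holderConjugate_iff]
    norm_num
  have h1 := ENNReal.lintegral_mul_le_Lp_mul_Lq μ hpq (f := fun x => f x ^ (3 / 4 : ℝ))
    (g := fun x => f x ^ (1 / 4 : ℝ) * g x) (hf.pow_const _).aemeasurable
    ((hf.pow_const _).mul hg).aemeasurable
  have h2 : ∀ x, ((fun x => f x ^ (3 / 4 : ℝ)) * fun x => f x ^ (1 / 4 : ℝ) * g x) x =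
      f x * g x := by
    intro x
    simp only [Pi.mul_apply]
    rw [← mul_assoc, ← ENNReal.rpow_add_of_nonneg _ _ (by norm_num) (by norm_num)]
    norm_num
  have h3 : ∀ x, (f x ^ (3 / 4 : ℝ)) ^ (4 / 3 : ℝ) = f x := by
    intro x
    rw [← ENNReal.rpow_mul]
    norm_num
  have h4 : ∀ x, (f x ^ (1 / 4 : ℝ) * g x) ^ (4 : ℝ) = f x * g x ^ 4 := by
    intro x
    rw [ENNReal.mul_rpow_of_nonneg _ _ (by norm_num), ← ENNReal.rpow_mul]
    norm_num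
  simp only [h2, h3, h4] at h1
  have h5 := pow_le_pow_left₀ (zero_le) h1 4
  refine h5.trans (le_of_eq ?_)
  rw [mul_pow, ← ENNReal.rpow_natCast, ← ENNReal.rpow_mul, ← ENNReal.rpow_natCast (_ ^ (1 / 4 : ℝ)),
    ← ENNReal.rpow_mul]
  norm_num

lemma Wt_meas (η : ℝ) : Measurable (Wt η) := by
  unfold Wt
  fun_prop

lemma Wt_shift {η : ℝ} (hη : 0 ≤ η) (y z : ℝ × ℝ) :
    ENNReal.ofReal (Wt η y) ≤ 2 * ENNReal.ofReal (Wt η (y + z)) +
      ENNReal.ofReal (2 * Real.pi * η * (z.1 ^ 2 + z.2 ^ 2)) := by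
  have hpi := Real.pi_pos
  have h0 : 0 ≤ 2 * Real.pi * η * (z.1 ^ 2 + z.2 ^ 2) := by positivity
  rw [show (2 : ℝ≥0∞) = ENNReal.ofReal 2 by norm_num, ← ENNReal.ofReal_mul (by norm_num),
    ← ENNReal.ofReal_add (mul_nonneg (by norm_num) (Wt_nonneg hη _)) h0]
  apply ENNReal.ofReal_le_ofReal
  unfold Wt
  set A : ℝ := Real.exp (-(Real.pi * (η * ((y + z).1 ^ 2 + (y + z).2 ^ 2)))) with hA
  set B : ℝ := Real.exp (-(2 * Real.pi * η * (z.1 ^ 2 + z.2 ^ 2))) with hB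
  have hA1 : A ≤ 1 := by
    rw [hA, Real.exp_le_one_iff]
    have : 0 ≤ Real.pi * (η * ((y + z).1 ^ 2 + (y + z).2 ^ 2)) := by positivity
    linarith
  have hA0 : 0 < A := Real.exp_pos _
  have hB0 : 0 < B := Real.exp_pos _
  have hB1 : B ≤ 1 := by
    rw [hB, Real.exp_le_one_iff]
    linarith
  have hB2 : 1 - 2 * Real.pi * η * (z.1 ^ 2 + z.2 ^ 2) ≤ B := by
    have := Real.add_one_le_exp (-(2 * Real.pi * η * (z.1 ^ 2 + z.2 ^ 2)))
    rw [hB]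
    linarith
  have h1 : A ^ 2 * B ≤ Real.exp (-(Real.pi * (η * (y.1 ^ 2 + y.2 ^ 2)))) := by
    rw [hA, hB, ← Real.exp_nat_mul, ← Real.exp_add]
    apply Real.exp_le_exp.2
    simp only [Prod.fst_add, Prod.snd_add]
    have h2 : y.1 ^ 2 + y.2 ^ 2 ≤ 2 * ((y.1 + z.1) ^ 2 + (y.2 + z.2) ^ 2) +
        2 * (z.1 ^ 2 + z.2 ^ 2) := by
      nlinarith [sq_nonneg (y.1 + 2 * z.1), sq_nonneg (y.2 + 2 * z.2)]
    have h3 := mul_le_mul_of_nonneg_left h2 (by positivity : 0 ≤ Real.pi * η)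
    push_cast
    nlinarith
  -- 1 - A²B ≤ (1 - A²) + (1 - B) ≤ 2 (1 - A) + (1 - B)
  have h4 : 0 ≤ (1 - A ^ 2) * (1 - B) := by
    apply mul_nonneg
    · nlinarith
    · linarith
  nlinarith [sq_nonneg (1 - A)]

/-- Convolution in the weighted space. -/
lemma conv_weighted {η : ℝ} (hη : 0 ≤ η) {k u v : ℝ × ℝ → ℂ} (hk : Measurable k)
    (hu : Measurable u) (hv : ∀ y, v y = ∫ z, k z * u (y + z)) :
    ∫⁻ y, ENNReal.ofReal (Wt η y) * ‖v y‖ₑ ^ 4 ≤ (∫⁻ z, ‖k z‖ₑ) ^ 3 *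
      (2 * (∫⁻ z, ‖k z‖ₑ) * (∫⁻ y, ENNReal.ofReal (Wt η y) * ‖u y‖ₑ ^ 4) +
        ENNReal.ofReal (2 * Real.pi * η) * (∫⁻ z, ‖k z‖ₑ * ENNReal.ofReal (z.1 ^ 2 + z.2 ^ 2)) *
          ∫⁻ y, ‖u y‖ₑ ^ 4) := by
  set K : ℝ≥0∞ := ∫⁻ z, ‖k z‖ₑ with hK
  set A : ℝ≥0∞ := ∫⁻ y, ENNReal.ofReal (Wt η y) * ‖u y‖ₑ ^ 4 with hA
  set B : ℝ≥0∞ := ∫⁻ y, ‖u y‖ₑ ^ 4 with hB
  have hWm : Measurable fun y => ENNReal.ofReal (Wt η y) := (Wt_meas η).ennreal_ofReal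
  have hpt : ∀ y, ENNReal.ofReal (Wt η y) * ‖v y‖ₑ ^ 4 ≤
      K ^ 3 * ∫⁻ z, ENNReal.ofReal (Wt η y) * (‖k z‖ₑ * ‖u (y + z)‖ₑ ^ 4) := by
    intro y
    have h1 : ‖v y‖ₑ ≤ ∫⁻ z, ‖k z‖ₑ * ‖u (y + z)‖ₑ := by
      rw [hv y]
      refine (enorm_integral_le_lintegral_enorm _).trans (le_of_eq ?_)
      apply lintegral_congr
      intro z
      rw [enorm_mul]
    have h2 : ‖v y‖ₑ ^ 4 ≤ K ^ 3 * ∫⁻ z, ‖k z‖ₑ * ‖u (y + z)‖ₑ ^ 4 := by
      refine (pow_le_pow_left₀ (zero_le) h1 4).trans ?_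
      exact jensen4 hk.enorm (hu.comp (measurable_const_add y)).enorm
    rw [lintegral_const_mul]
    · calc ENNReal.ofReal (Wt η y) * ‖v y‖ₑ ^ 4
          ≤ ENNReal.ofReal (Wt η y) * (K ^ 3 * ∫⁻ z, ‖k z‖ₑ * ‖u (y + z)‖ₑ ^ 4) := by gcongr
        _ = _ := by ring
    · exact hk.enorm.mul ((hu.comp (measurable_const_add y)).enorm.pow_const 4)
  have hjm : Measurable fun p : (ℝ × ℝ) × (ℝ × ℝ) =>
      ENNReal.ofReal (Wt η p.1) * (‖k p.2‖ₑ * ‖u (p.1 + p.2)‖ₑ ^ 4) := by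
    have a1 := hWm.comp (measurable_fst : Measurable fun p : (ℝ × ℝ) × (ℝ × ℝ) => p.1)
    have a2 := hk.enorm.comp (measurable_snd : Measurable fun p : (ℝ × ℝ) × (ℝ × ℝ) => p.2)
    have a3 := (hu.comp ((measurable_fst.add measurable_snd :
      Measurable fun p : (ℝ × ℝ) × (ℝ × ℝ) => p.1 + p.2))).enorm.pow_const 4
    exact a1.mul (a2.mul a3)
  calc ∫⁻ y, ENNReal.ofReal (Wt η y) * ‖v y‖ₑ ^ 4
      ≤ ∫⁻ y, K ^ 3 * ∫⁻ z, ENNReal.ofReal (Wt η y) * (‖k z‖ₑ * ‖u (y + z)‖ₑ ^ 4) :=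
        lintegral_mono hpt
    _ = K ^ 3 * ∫⁻ y, ∫⁻ z, ENNReal.ofReal (Wt η y) * (‖k z‖ₑ * ‖u (y + z)‖ₑ ^ 4) := by
        rw [lintegral_const_mul]
        exact hjm.lintegral_prod_right'
    _ = K ^ 3 * ∫⁻ z, ∫⁻ y, ENNReal.ofReal (Wt η y) * (‖k z‖ₑ * ‖u (y + z)‖ₑ ^ 4) := by
        rw [lintegral_lintegral_swap hjm.aemeasurable]
    _ ≤ K ^ 3 * ∫⁻ z, (‖k z‖ₑ * (2 * A) + ‖k z‖ₑ * (ENNReal.ofReal (2 * Real.pi * η) *
        ENNReal.ofReal (z.1 ^ 2 + z.2 ^ 2) * B)) := by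
        gcongr with z
        have h1 : ∀ y, ENNReal.ofReal (Wt η y) * (‖k z‖ₑ * ‖u (y + z)‖ₑ ^ 4) ≤
            ‖k z‖ₑ * (2 * (ENNReal.ofReal (Wt η (y + z)) * ‖u (y + z)‖ₑ ^ 4) +
              (ENNReal.ofReal (2 * Real.pi * η) * ENNReal.ofReal (z.1 ^ 2 + z.2 ^ 2)) *
                ‖u (y + z)‖ₑ ^ 4) := by
          intro y
          have h2 := Wt_shift hη y z
          rw [ENNReal.ofReal_mul (p := 2 * Real.pi * η) (by positivity)] at h2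
          calc ENNReal.ofReal (Wt η y) * (‖k z‖ₑ * ‖u (y + z)‖ₑ ^ 4)
              ≤ (2 * ENNReal.ofReal (Wt η (y + z)) + ENNReal.ofReal (2 * Real.pi * η) *
                ENNReal.ofReal (z.1 ^ 2 + z.2 ^ 2)) * (‖k z‖ₑ * ‖u (y + z)‖ₑ ^ 4) := by gcongr
            _ = _ := by ring
        refine (lintegral_mono h1).trans (le_of_eq ?_)
        have hu4 : Measurable fun y => ‖u (y + z)‖ₑ ^ 4 :=
          (hu.comp (measurable_add_const z)).enorm.pow_const 4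
        have hw4 : Measurable fun y => ENNReal.ofReal (Wt η (y + z)) * ‖u (y + z)‖ₑ ^ 4 :=
          (hWm.comp (measurable_add_const z)).mul hu4
        have hw5 : Measurable fun y => 2 * (ENNReal.ofReal (Wt η (y + z)) * ‖u (y + z)‖ₑ ^ 4) :=
          hw4.const_mul 2
        have hu5 : Measurable fun y => (ENNReal.ofReal (2 * Real.pi * η) *
            ENNReal.ofReal (z.1 ^ 2 + z.2 ^ 2)) * ‖u (y + z)‖ₑ ^ 4 := hu4.const_mul _
        have hwu : Measurable fun y => 2 * (ENNReal.ofReal (Wt η (y + z)) * ‖u (y + z)‖ₑ ^ 4) +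
            (ENNReal.ofReal (2 * Real.pi * η) *
            ENNReal.ofReal (z.1 ^ 2 + z.2 ^ 2)) * ‖u (y + z)‖ₑ ^ 4 := hw5.add hu5
        rw [lintegral_const_mul _ hwu,
          lintegral_add_left hw5, lintegral_const_mul _ hw4,
          lintegral_const_mul _ hu4,
          lintegral_add_right_eq_self (fun y => ENNReal.ofReal (Wt η y) * ‖u y‖ₑ ^ 4) z,
          lintegral_add_right_eq_self (fun y => ‖u y‖ₑ ^ 4) z]
        ring
    _ = _ := by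
        rw [lintegral_add_left (hk.enorm.mul_const _), lintegral_mul_const _ hk.enorm]
        have h2 : ∀ z : ℝ × ℝ, ‖k z‖ₑ * (ENNReal.ofReal (2 * Real.pi * η) *
            ENNReal.ofReal (z.1 ^ 2 + z.2 ^ 2) * B) =
            (‖k z‖ₑ * ENNReal.ofReal (z.1 ^ 2 + z.2 ^ 2)) *
              (ENNReal.ofReal (2 * Real.pi * η) * B) := by
          intro z
          ring
        simp only [h2]
        rw [lintegral_mul_const]
        · rw [← hK]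
          ring
        · apply hk.enorm.mul
          fun_prop

/-- Young's inequality for the fourth power. -/
lemma conv_plain {k u v : ℝ × ℝ → ℂ} (hk : Measurable k)
    (hu : Measurable u) (hv : ∀ y, v y = ∫ z, k z * u (y + z)) :
    ∫⁻ y, ‖v y‖ₑ ^ 4 ≤ (∫⁻ z, ‖k z‖ₑ) ^ 4 * ∫⁻ y, ‖u y‖ₑ ^ 4 := by
  set K : ℝ≥0∞ := ∫⁻ z, ‖k z‖ₑ with hK
  have hpt : ∀ y, ‖v y‖ₑ ^ 4 ≤ K ^ 3 * ∫⁻ z, ‖k z‖ₑ * ‖u (y + z)‖ₑ ^ 4 := by
    intro y
    have h1 : ‖v y‖ₑ ≤ ∫⁻ z, ‖k z‖ₑ * ‖u (y + z)‖ₑ := by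
      rw [hv y]
      refine (enorm_integral_le_lintegral_enorm _).trans (le_of_eq ?_)
      apply lintegral_congr
      intro z
      rw [enorm_mul]
    refine (pow_le_pow_left₀ (zero_le) h1 4).trans ?_
    exact jensen4 hk.enorm (hu.comp (measurable_const_add y)).enorm
  have hjm : Measurable fun p : (ℝ × ℝ) × (ℝ × ℝ) => ‖k p.2‖ₑ * ‖u (p.1 + p.2)‖ₑ ^ 4 := by
    have a2 := hk.enorm.comp (measurable_snd : Measurable fun p : (ℝ × ℝ) × (ℝ × ℝ) => p.2)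
    have a3 := (hu.comp ((measurable_fst.add measurable_snd :
      Measurable fun p : (ℝ × ℝ) × (ℝ × ℝ) => p.1 + p.2))).enorm.pow_const 4
    exact a2.mul a3
  calc ∫⁻ y, ‖v y‖ₑ ^ 4 ≤ ∫⁻ y, K ^ 3 * ∫⁻ z, ‖k z‖ₑ * ‖u (y + z)‖ₑ ^ 4 := lintegral_mono hpt
    _ = K ^ 3 * ∫⁻ y, ∫⁻ z, ‖k z‖ₑ * ‖u (y + z)‖ₑ ^ 4 := by
        rw [lintegral_const_mul]
        exact hjm.lintegral_prod_right'
    _ = K ^ 3 * ∫⁻ z, ∫⁻ y, ‖k z‖ₑ * ‖u (y + z)‖ₑ ^ 4 := by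
        rw [lintegral_lintegral_swap hjm.aemeasurable]
    _ = K ^ 3 * ∫⁻ z, ‖k z‖ₑ * ∫⁻ y, ‖u y‖ₑ ^ 4 := by
        congr 1
        apply lintegral_congr
        intro z
        have hu4 : Measurable fun y => ‖u (y + z)‖ₑ ^ 4 :=
          (hu.comp (measurable_add_const z)).enorm.pow_const 4
        rw [lintegral_const_mul _ hu4,
          lintegral_add_right_eq_self (fun y => ‖u y‖ₑ ^ 4) z]
    _ = _ := by
        rw [lintegral_mul_const _ hk.enorm, ← hK]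
        ring

end Pool.Agent.P8H98.HG
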