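import Mathlib
import Pool.Agent.P8H98.HG.Trans
set_option autoImplicit false

/-! Smooth windows, and the weighted estimate for a homogeneous function in a sector. -/

namespace Pool.Agent.P8H98.HG

open MeasureTheory Set Complex
open scoped ENNReal NNReal ComplexConjugate FourierTransform SchwartzMap ContDiff
open Pool.Agent.TH277.CS (s2)
open Pool.Agent.TH277.CB (pq E2 pq_norm pq_cont)
open Pool.Agent.TH277.HT (ch ch_norm ch_cont ch_add)

/-- Smooth functions of compact support are windows. -/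
lemma win1 (ψ : ℝ → ℂ) (h1 : ContDiff ℝ ∞ ψ) (h2 : HasCompactSupport ψ) :
    ∃ k : ℝ → ℂ, Continuous k ∧ Integrable k ∧ Integrable (fun z => z ^ 2 * ‖k z‖) ∧
      ∀ s, ψ s = ∫ z, k z * ch (z * s) := by
  set g : 𝓢(ℝ, ℂ) := h2.toSchwartzMap h1 with hg
  have hgx : ∀ x, g x = ψ x := fun x => rfl
  refine ⟨(𝓕 g : 𝓢(ℝ, ℂ)), (𝓕 g).continuous, (𝓕 g).integrable, ?_, ?_⟩
  · have := (𝓕 g).integrable_pow_mul (volume : Measure ℝ) 2
    refine this.congr (ae_of_all _ fun z => ?_)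
    simp only [Real.norm_eq_abs, sq_abs]
  · intro s
    have h3 : 𝓕⁻ (𝓕 (g : ℝ → ℂ)) = g := by
      apply g.continuous.fourierInv_fourier_eq g.integrable
      rw [← SchwartzMap.fourier_coe]
      exact (𝓕 g).integrable
    rw [← hgx, ← h3, Real.fourierInv_eq, SchwartzMap.fourier_coe]
    apply integral_congr_ae
    refine ae_of_all _ fun z => ?_
    simp only
    rw [Circle.smul_def, Real.fourierChar_apply, smul_eq_mul, mul_comm]
    congr 1
    unfold ch
    congr 1
    simp only [RCLike.inner_apply, conj_trivial]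
    push_cast
    ring

/-- the smooth step -/
noncomputable abbrev TT (x : ℝ) : ℝ := Real.smoothTransition x

/-- the radial window -/
noncomputable def aw (s : ℝ) : ℝ := TT (8 * s - 2) * TT (4 - 2 * s)

lemma aw_one {s : ℝ} (h1 : 3 / 8 ≤ s) (h2 : s ≤ 3 / 2) : aw s = 1 := by
  unfold aw TT
  rw [Real.smoothTransition.one_of_one_le (by linarith),
    Real.smoothTransition.one_of_one_le (by linarith), one_mul]

lemma aw_zero_left {s : ℝ} (h : s ≤ 1 / 4) : aw s = 0 := by
  unfold aw TT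
  rw [Real.smoothTransition.zero_of_nonpos (by linarith), zero_mul]

lemma aw_zero_right {s : ℝ} (h : 2 ≤ s) : aw s = 0 := by
  unfold aw TT
  rw [Real.smoothTransition.zero_of_nonpos (x := 4 - 2 * s) (by linarith), mul_zero]

lemma aw_nonneg (s : ℝ) : 0 ≤ aw s :=
  mul_nonneg (Real.smoothTransition.nonneg _) (Real.smoothTransition.nonneg _)

lemma aw_le (s : ℝ) : aw s ≤ 1 :=
  mul_le_one₀ (Real.smoothTransition.le_one _) (Real.smoothTransition.nonneg _)
    (Real.smoothTransition.le_one _)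

lemma aw_smooth : ContDiff ℝ ∞ aw := by
  unfold aw TT
  exact (Real.smoothTransition.contDiff.comp (by fun_prop)).mul
    (Real.smoothTransition.contDiff.comp (by fun_prop))

/-- the transversal window -/
noncomputable def bw (s : ℝ) : ℝ := TT (3 - s) * TT (3 + s)

lemma bw_one {s : ℝ} (h1 : -2 ≤ s) (h2 : s ≤ 2) : bw s = 1 := by
  unfold bw TT
  rw [Real.smoothTransition.one_of_one_le (by linarith),
    Real.smoothTransition.one_of_one_le (by linarith), one_mul]

lemma bw_zero {s : ℝ} (h : s ∉ Icc (-3 : ℝ) 3) : bw s = 0 := by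
  unfold bw TT
  rw [mem_Icc, not_and_or] at h
  rcases h with h | h
  · rw [Real.smoothTransition.zero_of_nonpos (x := 3 + s) (by linarith), mul_zero]
  · rw [Real.smoothTransition.zero_of_nonpos (x := 3 - s) (by linarith), zero_mul]

lemma bw_smooth : ContDiff ℝ ∞ bw := by
  unfold bw TT
  exact (Real.smoothTransition.contDiff.comp (by fun_prop)).mul
    (Real.smoothTransition.contDiff.comp (by fun_prop))

/-- the first factor of the window -/
noncomputable def al (s : ℝ) : ℂ := ((s * Real.exp (Real.pi * s ^ 2) * aw s : ℝ) : ℂ)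

/-- the second factor of the window -/
noncomputable def be (s : ℝ) : ℂ := ((Real.exp (Real.pi * s ^ 2) * bw s : ℝ) : ℂ)

lemma al_smooth : ContDiff ℝ ∞ al := by
  unfold al
  apply Complex.ofRealCLM.contDiff.comp
  exact (by fun_prop : ContDiff ℝ ∞ fun s : ℝ => s * Real.exp (Real.pi * s ^ 2)).mul aw_smooth

lemma be_smooth : ContDiff ℝ ∞ be := by
  unfold be
  apply Complex.ofRealCLM.contDiff.comp
  exact (by fun_prop : ContDiff ℝ ∞ fun s : ℝ => Real.exp (Real.pi * s ^ 2)).mul bw_smooth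

lemma al_supp : HasCompactSupport al := by
  apply HasCompactSupport.intro (K := Icc (0 : ℝ) 2) isCompact_Icc
  intro s hs
  unfold al
  rw [mem_Icc, not_and_or] at hs
  rcases hs with h | h
  · rw [aw_zero_left (by linarith)]
    simp
  · rw [aw_zero_right (by linarith)]
    simp

lemma be_supp : HasCompactSupport be := by
  apply HasCompactSupport.intro (K := Icc (-3 : ℝ) 3) isCompact_Icc
  intro s hs
  unfold be
  rw [bw_zero hs]
  simp

/-- The window in the plane. -/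
lemma win2 : ∃ k : ℝ × ℝ → ℂ, Measurable k ∧ Integrable k ∧
    ∫⁻ z, ‖k z‖ₑ * ENNReal.ofReal (z.1 ^ 2 + z.2 ^ 2) < ⊤ ∧
    ∀ x, wnd k x = al x.1 * be x.2 := by
  obtain ⟨k1, c1, i1, m1, e1⟩ := win1 al al_smooth al_supp
  obtain ⟨k2, c2, i2, m2, e2⟩ := win1 be be_smooth be_supp
  have hk : Integrable (fun z : ℝ × ℝ => k1 z.1 * k2 z.2) := i1.mul_prod i2
  refine ⟨fun z => k1 z.1 * k2 z.2, ?_, hk, ?_, ?_⟩
  · exact (c1.comp continuous_fst).measurable.mul (c2.comp continuous_snd).measurable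
  · have j1 : Integrable (fun z : ℝ × ℝ => (z.1 ^ 2 * ‖k1 z.1‖) * ‖k2 z.2‖) := m1.mul_prod i2.norm
    have j2 : Integrable (fun z : ℝ × ℝ => ‖k1 z.1‖ * (z.2 ^ 2 * ‖k2 z.2‖)) := i1.norm.mul_prod m2
    have j3 := (j1.add j2).2
    refine lt_of_le_of_lt (lintegral_mono fun z => ?_) j3
    simp only [Pi.add_apply]
    rw [← ofReal_norm, ← ofReal_norm, ← ENNReal.ofReal_mul (norm_nonneg _)]
    apply ENNReal.ofReal_le_ofReal
    rw [norm_mul, Real.norm_of_nonneg (by positivity)]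
    apply le_of_eq
    ring
  · intro x
    unfold wnd
    rw [e1, e2, ← integral_prod_mul]
    apply integral_congr_ae
    refine ae_of_all _ fun z => ?_
    simp only
    rw [ch_add]
    ring

/-- the function in the sector, with the smooth window -/
noncomputable def hh (Ω : ℝ × ℝ → ℂ) : ℝ × ℝ → ℂ := Sec.indicator fun x => Ω x * (aw x.1 : ℂ)

variable {Ω : ℝ × ℝ → ℂ}

lemma hh_eq {k : ℝ × ℝ → ℂ} (hk : ∀ x, wnd k x = al x.1 * be x.2) (x : ℝ × ℝ) :
    hh Ω x = wnd k x * (gg Ω x + gg Ω (-x)) := by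
  rw [hk]
  unfold hh gg
  by_cases h : x ∈ Sec
  · have h' : -x ∉ Sec := by
      rintro ⟨h1, h2⟩
      have h3 := h.1
      simp only [Prod.snd_neg] at h1
      linarith
    rw [indicator_of_mem h, indicator_of_mem h, indicator_of_notMem h', add_zero]
    have hx1 : 0 < x.1 := lt_of_lt_of_le h.1 h.2
    have hx : (x.1 : ℂ) ≠ 0 := by exact_mod_cast hx1.ne'
    unfold al be
    have hs : s2 x = x.1 ^ 2 + x.2 ^ 2 := rfl
    have he : Real.exp (Real.pi * x.1 ^ 2) * Real.exp (Real.pi * x.2 ^ 2) *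
        Real.exp (-(Real.pi * s2 x)) = 1 := by
      rw [← Real.exp_add, ← Real.exp_add, hs]
      rw [show Real.pi * x.1 ^ 2 + Real.pi * x.2 ^ 2 + -(Real.pi * (x.1 ^ 2 + x.2 ^ 2)) = 0 by ring,
        Real.exp_zero]
    have hab : aw x.1 * bw x.2 = aw x.1 := by
      rcases le_or_gt 2 x.1 with h3 | h3
      · rw [aw_zero_right h3, zero_mul]
      · rw [bw_one (by linarith [h.1]) (by linarith [h.2]), mul_one]
    have h4 : ((x.1 * Real.exp (Real.pi * x.1 ^ 2) * aw x.1 : ℝ) : ℂ) *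
        ((Real.exp (Real.pi * x.2 ^ 2) * bw x.2 : ℝ) : ℂ) *
        (Ω x * ((x.1⁻¹ * Real.exp (-(Real.pi * s2 x)) : ℝ) : ℂ)) =
        Ω x * ((x.1 * x.1⁻¹ * (Real.exp (Real.pi * x.1 ^ 2) * Real.exp (Real.pi * x.2 ^ 2) *
        Real.exp (-(Real.pi * s2 x))) * (aw x.1 * bw x.2) : ℝ) : ℂ) := by
      push_cast
      ring
    rw [h4, he, hab, mul_inv_cancel₀ hx1.ne', one_mul, one_mul]
  · rw [indicator_of_notMem h, indicator_of_notMem h, zero_add]
    by_cases h' : -x ∈ Sec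
    · have h1 : x.1 ≤ 0 := by
        have h2 := h'.1
        have h3 := h'.2
        simp only [Prod.snd_neg, Prod.fst_neg] at h2 h3
        linarith
      unfold al
      rw [aw_zero_left (by linarith)]
      simp
    · rw [indicator_of_notMem h', mul_zero]

/-- the weighted estimate -/
theorem far (s : ℝ) (hs : 0 ≤ s) (hs1 : s < 1) : ∃ C : ℝ≥0∞, C < ⊤ ∧ ∀ Ω : ℝ × ℝ → ℂ,
    Measurable Ω → (∀ x, ‖Ω x‖ ≤ 1) → Hom Ω → ∀ t : ℝ, 1 ≤ |t| →
      ∫⁻ y, ENNReal.ofReal (Wt (ct t).re y) * ‖E2 (hh Ω) y t‖ₑ ^ 4 ≤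
        C * ENNReal.ofReal (|t| ^ (-(1 + s))) := by
  obtain ⟨k, hkm, hki, hkM, hke⟩ := win2
  set K : ℝ≥0∞ := ∫⁻ z, ‖k z‖ₑ with hK
  set M : ℝ≥0∞ := ∫⁻ z, ‖k z‖ₑ * ENNReal.ofReal (z.1 ^ 2 + z.2 ^ 2) with hM
  have hKt : K < ⊤ := hki.2
  set Z : ℝ≥0∞ := 4 ^ ((1 + s) / 2) * Fs ((1 + s) / 2) ^ 3 with hZ
  set Z' : ℝ≥0∞ := 4 ^ (1 / 2 : ℝ) * Fs (1 / 2) ^ 3 with hZ'
  have hZt : Z < ⊤ := energy_fin (by positivity) (by linarith)
  have hZt' : Z' < ⊤ := energy_fin (by norm_num) (by norm_num)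
  refine ⟨K ^ 3 * (2 * K * (ENNReal.ofReal 56 * Z) + M * (ENNReal.ofReal 28 * Z')), ?_, ?_⟩
  · apply ENNReal.mul_lt_top (ENNReal.pow_lt_top hKt)
    apply ENNReal.add_lt_top.2
    exact ⟨ENNReal.mul_lt_top (ENNReal.mul_lt_top (by norm_num) hKt)
      (ENNReal.mul_lt_top ENNReal.ofReal_lt_top hZt),
      ENNReal.mul_lt_top hkM (ENNReal.mul_lt_top ENNReal.ofReal_lt_top hZt')⟩
  intro Ω hΩ hb hH t ht
  have ht0 : 0 < |t| := by linarith
  have htne : t ≠ 0 := abs_pos.1 ht0
  have ht2 : t ^ 2 = |t| ^ 2 := (sq_abs t).symm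
  set q : ℝ := 1 + 4 * t ^ 2 with hq
  have hq0 : 0 < q := by positivity
  have hre : 0 < (ct t).re := by
    rw [ct_re]
    positivity
  have him : (ct t).im ≠ 0 := by
    rw [ct_im]
    have : 2 * t ≠ 0 := by simpa using htne
    exact div_ne_zero this hq0.ne'
  have hima : |(ct t).im| / 2 = |t| / q := by
    rw [ct_im, abs_div, abs_mul, abs_two, abs_of_pos hq0]
    ring
  set u : ℝ × ℝ → ℂ := fun y => E2 (gg Ω) y t + E2 (gg Ω) (-y) t with hu
  have hgi := gg_int hΩ hb hH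
  have hgn : Integrable fun x => gg Ω (-x) := hgi.comp_neg
  have hsum : Integrable fun x => gg Ω x + gg Ω (-x) := hgi.add hgn
  have hu2 : ∀ y, u y = E2 (fun x => gg Ω x + gg Ω (-x)) y t := by
    intro y
    simp only [hu]
    rw [E2_neg]
    unfold Pool.Agent.TH277.CB.E2
    rw [← integral_add (pq_int hgi y t) (pq_int hgn y t)]
    apply integral_congr_ae
    refine ae_of_all _ fun x => ?_
    simp only
    ring
  have hum : Measurable u := by
    have h1 : StronglyMeasurable fun x => gg Ω x + gg Ω (-x) :=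
      ((gg_meas hΩ).add ((gg_meas hΩ).comp measurable_neg)).stronglyMeasurable
    have h2 := Pool.Agent.TH277.CB.E2_meas _ h1
    have h3 : Measurable fun y : ℝ × ℝ => ((y, t) : (ℝ × ℝ) × ℝ) :=
      measurable_id.prodMk measurable_const
    have h4 := h2.measurable.comp h3
    have h5 : u = fun y => E2 (fun x => gg Ω x + gg Ω (-x)) y t := funext hu2
    rw [h5]
    exact h4
  have hv : ∀ y, E2 (hh Ω) y t = ∫ z, k z * u (y + z) := by
    intro y
    have h1 : hh Ω = fun x => wnd k x * (gg Ω x + gg Ω (-x)) := funext (hh_eq hke)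
    rw [h1, E2_wnd hki hsum]
    simp only [hu2]
  have hu4 : ∀ y, ‖u y‖ₑ ^ 4 = ENNReal.ofReal (4 / q) * ENNReal.ofReal (‖UU (ct t) (Om Ω) y‖ ^ 4) := by
    intro y
    simp only [hu]
    rw [gg_ext hΩ hb hH, ← ofReal_norm, ← ENNReal.ofReal_pow (norm_nonneg _),
      ← ENNReal.ofReal_mul (by positivity)]
    congr 1
    rw [norm_mul, norm_mul, mul_pow, mul_pow, ct_half, Complex.norm_real,
      Real.norm_of_nonneg (Real.sqrt_nonneg 2)]
    have h2 : Real.sqrt 2 ^ 4 = 4 := by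
      rw [show (4 : ℕ) = 2 * 2 by norm_num, pow_mul, Real.sq_sqrt (by norm_num)]
      norm_num
    rw [h2, ← hq]
    ring
  have hA : ∫⁻ y, ENNReal.ofReal (Wt (ct t).re y) * ‖u y‖ₑ ^ 4 ≤
      ENNReal.ofReal 56 * Z * ENNReal.ofReal (|t| ^ (-(1 + s))) := by
    have h1 : ∀ y, ENNReal.ofReal (Wt (ct t).re y) * ‖u y‖ₑ ^ 4 =
        ENNReal.ofReal (4 / q) *
          ENNReal.ofReal (Wt (ct t).re y * ‖UU (ct t) (Om Ω) y‖ ^ 4) := by
      intro y
      rw [hu4, ENNReal.ofReal_mul (Wt_nonneg hre.le y)]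
      ring
    simp only [h1]
    have hUm : Measurable fun y => ENNReal.ofReal (Wt (ct t).re y *
        ‖UU (ct t) (Om Ω) y‖ ^ 4) :=
      ((Wt_meas _).mul ((UU_smeas _ (Om_meas hΩ)).measurable.norm.pow_const 4)).ennreal_ofReal
    rw [lintegral_const_mul _ hUm]
    refine (mul_le_mul_right (weighted hre him hs (by linarith) (Om_meas hΩ) (Om_norm hb)) _).trans
      (le_of_eq ?_)
    rw [← hZ, ← mul_assoc, ← ENNReal.ofReal_mul (by positivity), hima, ct_re, ← hq]
    have h2 : 4 / q * (14 * (1 / q) ^ s * (|t| / q) ^ (-(1 + s))) = 56 * |t| ^ (-(1 + s)) := by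
      rw [Real.div_rpow ht0.le hq0.le, Real.div_rpow zero_le_one hq0.le, Real.one_rpow,
        Real.rpow_neg hq0.le, Real.rpow_add hq0, Real.rpow_one]
      field_simp
      ring
    rw [h2, ENNReal.ofReal_mul (by norm_num)]
    ring
  have hB : ENNReal.ofReal (2 * Real.pi * (ct t).re) * ∫⁻ y, ‖u y‖ₑ ^ 4 ≤
      ENNReal.ofReal 28 * Z' * ENNReal.ofReal (|t| ^ (-(1 + s))) := by
    simp only [hu4]
    have hUm : Measurable fun y => ENNReal.ofReal (‖UU (ct t) (Om Ω) y‖ ^ 4) :=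
      ((UU_smeas _ (Om_meas hΩ)).measurable.norm.pow_const 4).ennreal_ofReal
    rw [lintegral_const_mul _ hUm]
    calc ENNReal.ofReal (2 * Real.pi * (ct t).re) * (ENNReal.ofReal (4 / q) *
          ∫⁻ y, ENNReal.ofReal (‖UU (ct t) (Om Ω) y‖ ^ 4))
        ≤ ENNReal.ofReal (2 * Real.pi * (ct t).re) * (ENNReal.ofReal (4 / q) *
          (ENNReal.ofReal ((|(ct t).im| / 2)⁻¹) * Z')) := by
          gcongr
          exact plain hre him (Om_meas hΩ) (Om_norm hb)
      _ = ENNReal.ofReal (2 * Real.pi * (1 / q) * (4 / q * (|t| / q)⁻¹)) * Z' := by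
          rw [hima, ct_re, ← hq, ENNReal.ofReal_mul (p := 2 * Real.pi * (1 / q)) (by positivity),
            ENNReal.ofReal_mul (p := 4 / q) (by positivity)]
          ring
      _ ≤ ENNReal.ofReal (28 * |t| ^ (-(1 + s))) * Z' := by
          refine mul_le_mul' (ENNReal.ofReal_le_ofReal ?_) le_rfl
          have h3 : 2 * Real.pi * (1 / q) * (4 / q * (|t| / q)⁻¹) = 8 * Real.pi / (q * |t|) := by
            field_simp
            ring
          rw [h3]
          have h4 : |t| ^ (-(2 : ℝ)) ≤ |t| ^ (-(1 + s)) :=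
            Real.rpow_le_rpow_of_exponent_le ht (by linarith)
          have h5 : |t| ^ (-(2 : ℝ)) = 1 / |t| ^ 2 := by
            rw [Real.rpow_neg ht0.le, Real.rpow_two, one_div]
          rw [h5] at h4
          have h6 : 8 * Real.pi / (q * |t|) ≤ 28 * (1 / |t| ^ 2) := by
            rw [mul_one_div, div_le_div_iff₀ (by positivity) (by positivity)]
            have h7 : |t| ^ 2 ≤ q := by
              rw [hq, ht2]
              nlinarith
            have h8 : Real.pi < 3.5 := by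
              have := Real.pi_lt_d2
              linarith
            have h9 : |t| ^ 2 ≤ q * |t| := by
              calc |t| ^ 2 ≤ q * 1 := by linarith
                _ ≤ q * |t| := by gcongr
            nlinarith [sq_nonneg |t|]
          linarith
      _ = _ := by
          rw [ENNReal.ofReal_mul (by norm_num)]
          ring
  refine (conv_weighted hre.le hkm hum hv).trans ?_
  rw [← hK, ← hM]
  calc K ^ 3 * (2 * K * (∫⁻ y, ENNReal.ofReal (Wt (ct t).re y) * ‖u y‖ₑ ^ 4) +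
        ENNReal.ofReal (2 * Real.pi * (ct t).re) * M * ∫⁻ y, ‖u y‖ₑ ^ 4)
      = K ^ 3 * (2 * K * (∫⁻ y, ENNReal.ofReal (Wt (ct t).re y) * ‖u y‖ₑ ^ 4) +
        M * (ENNReal.ofReal (2 * Real.pi * (ct t).re) * ∫⁻ y, ‖u y‖ₑ ^ 4)) := by ring
    _ ≤ K ^ 3 * (2 * K * (ENNReal.ofReal 56 * Z * ENNReal.ofReal (|t| ^ (-(1 + s)))) +
        M * (ENNReal.ofReal 28 * Z' * ENNReal.ofReal (|t| ^ (-(1 + s))))) := by
        gcongr
    _ = _ := by ring

end Pool.Agent.P8H98.HG
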