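import Mathlib
import Pool.Agent.P8H98.HG.Win
set_option autoImplicit false

/-! The region without stationary points, and the fourth moment for a homogeneous function in a
sector, with a smooth window. -/

namespace Pool.Agent.P8H98.HG

open MeasureTheory Set Complex
open scoped ENNReal NNReal ComplexConjugate ContDiff
open Pool.Agent.TH277.CS (s2)
open Pool.Agent.TH277.CB (pq E2 pq_norm pq_cont)
open Pool.Agent.TH277.HT (ch ch_norm ch_cont ch_add)

variable {Ω : ℝ × ℝ → ℂ}

lemma aw_deriv_bound : ∃ L : ℝ, 0 ≤ L ∧ ∀ s, |deriv aw s| ≤ L := by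
  have h1 : Continuous (deriv aw) := (aw_smooth.of_le (by norm_num)).continuous_deriv le_rfl
  have h2 : HasCompactSupport aw := by
    apply HasCompactSupport.intro (K := Icc (0 : ℝ) 2) isCompact_Icc
    intro s hs
    rw [mem_Icc, not_and_or] at hs
    rcases hs with h | h
    · exact aw_zero_left (by linarith)
    · exact aw_zero_right (by linarith)
  obtain ⟨C, hC⟩ := h1.bounded_above_of_compact_support h2.deriv
  exact ⟨C, (norm_nonneg _).trans (hC 0), fun s => hC s⟩

lemma ch_deriv (P t r : ℝ) : HasDerivAt (fun r : ℝ => ch (r * P + r ^ 2 * t))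
    (2 * Real.pi * I * ((P + 2 * r * t : ℝ) : ℂ) * ch (r * P + r ^ 2 * t)) r := by
  have h1 : HasDerivAt (fun r : ℝ => r * P + r ^ 2 * t) (P + 2 * r * t) r := by
    have h2 := ((hasDerivAt_id r).mul_const P).add (((hasDerivAt_id r).pow 2).mul_const t)
    refine (h2.congr_deriv ?_)
    simp
  have h3 : HasDerivAt (fun r : ℝ => ((r * P + r ^ 2 * t : ℝ) : ℂ)) ((P + 2 * r * t : ℝ) : ℂ) r :=
    h1.ofReal_comp
  have h4 := (h3.const_mul (2 * Real.pi * I)).cexp
  unfold ch
  refine h4.congr_deriv ?_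
  ring

/-- integration by parts -/
lemma ibp {A : ℝ → ℝ} {P t B B' : ℝ} (hA : ContDiff ℝ 1 A) (h0 : A (1 / 4) = 0) (h1 : A 4 = 0)
    (ht : 1 ≤ |t|) (hP : |P| ≤ |t| / 8) (hB : ∀ r ∈ Icc (1 / 4 : ℝ) 4, |A r| ≤ B)
    (hB' : ∀ r ∈ Icc (1 / 4 : ℝ) 4, |deriv A r| ≤ B') :
    ‖∫ r in (1 / 4 : ℝ)..4, (A r : ℂ) * ch (r * P + r ^ 2 * t)‖ ≤ 15 / 4 * (B' + 3 * B) / |t| := by
  have ht0 : 0 < |t| := by linarith
  set D : ℝ → ℂ := fun r => 2 * Real.pi * I * ((P + 2 * r * t : ℝ) : ℂ) with hD
  have hDn : ∀ r ∈ Icc (1 / 4 : ℝ) 4, 9 / 4 * |t| ≤ ‖D r‖ := by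
    intro r hr
    simp only [hD]
    rw [norm_mul, norm_mul, norm_mul, Complex.norm_I, Complex.norm_real, Complex.norm_real,
      Real.norm_of_nonneg Real.pi_pos.le]
    have h2 : 3 / 8 * |t| ≤ ‖P + 2 * r * t‖ := by
      rw [Real.norm_eq_abs]
      have h3 : |2 * r * t| - |P| ≤ |P + 2 * r * t| := by
        have := abs_sub_abs_le_abs_sub (2 * r * t) (-P)
        rw [abs_neg] at this
        refine this.trans (le_of_eq ?_)
        congr 1
        ring
      have h4 : |2 * r * t| = 2 * r * |t| := by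
        rw [abs_mul, abs_of_nonneg (by linarith [hr.1])]
      rw [h4] at h3
      have h5 : 1 / 2 * |t| ≤ 2 * r * |t| := by
        gcongr
        linarith [hr.1]
      linarith
    have h3 : ‖(2 : ℂ)‖ = 2 := by norm_num
    rw [h3]
    have hpi := Real.pi_gt_three
    calc 9 / 4 * |t| = 2 * 3 * 1 * (3 / 8 * |t|) := by ring
      _ ≤ 2 * Real.pi * 1 * ‖P + 2 * r * t‖ := by gcongr
  have hD0 : ∀ r ∈ Icc (1 / 4 : ℝ) 4, D r ≠ 0 := by
    intro r hr h
    have h2 := hDn r hr
    rw [h, norm_zero] at h2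
    linarith
  have hDd : ∀ r, HasDerivAt D (2 * Real.pi * I * ((2 * t : ℝ) : ℂ)) r := by
    intro r
    simp only [hD]
    have h2 : HasDerivAt (fun r : ℝ => P + 2 * r * t) (2 * t) r := by
      have h3 := (((hasDerivAt_id r).const_mul 2).mul_const t).const_add P
      refine h3.congr_deriv ?_
      simp
    exact h2.ofReal_comp.const_mul _
  have hAd : ∀ r, HasDerivAt A (deriv A r) r := fun r =>
    (hA.differentiable (by norm_num) r).hasDerivAt
  set F : ℝ → ℂ := fun r => (A r : ℂ) * ch (r * P + r ^ 2 * t) / D r with hF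
  set g : ℝ → ℂ := fun r => ((deriv A r : ℝ) : ℂ) * ch (r * P + r ^ 2 * t) / D r -
    (A r : ℂ) * ch (r * P + r ^ 2 * t) * (2 * Real.pi * I * ((2 * t : ℝ) : ℂ)) / D r ^ 2 with hg
  have hFd : ∀ r ∈ Icc (1 / 4 : ℝ) 4,
      HasDerivAt F ((A r : ℂ) * ch (r * P + r ^ 2 * t) + g r) r := by
    intro r hr
    have h2 := (((hAd r).ofReal_comp.mul (ch_deriv P t r)).div (hDd r) (hD0 r hr))
    refine h2.congr_deriv ?_
    have h3 := hD0 r hr
    have h4 : 2 * Real.pi * I * ((P + 2 * r * t : ℝ) : ℂ) = D r := rfl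
    simp only [hg, Pi.mul_apply]
    rw [h4]
    field_simp
    ring
  have hAc : Continuous A := hA.continuous
  have hAdc : Continuous (deriv A) := hA.continuous_deriv le_rfl
  have hchc : Continuous fun r : ℝ => ch (r * P + r ^ 2 * t) := ch_cont.comp (by fun_prop)
  have hDc : Continuous D := by
    simp only [hD]
    fun_prop
  have hc1 : ContinuousOn (fun r => (A r : ℂ) * ch (r * P + r ^ 2 * t)) (Icc (1 / 4 : ℝ) 4) :=
    ((Complex.continuous_ofReal.comp hAc).mul hchc).continuousOn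
  have hc2 : ContinuousOn g (Icc (1 / 4 : ℝ) 4) := by
    simp only [hg]
    apply ContinuousOn.sub
    · apply ContinuousOn.div _ hDc.continuousOn hD0
      exact ((Complex.continuous_ofReal.comp hAdc).mul hchc).continuousOn
    · apply ContinuousOn.div _ (hDc.pow 2).continuousOn fun r hr => pow_ne_zero 2 (hD0 r hr)
      exact ((((Complex.continuous_ofReal.comp hAc).mul hchc)).mul continuous_const).continuousOn
  have hle : (1 / 4 : ℝ) ≤ 4 := by norm_num
  have i1 : IntervalIntegrable (fun r => (A r : ℂ) * ch (r * P + r ^ 2 * t)) volume (1 / 4) 4 :=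
    (hc1.mono (by rw [uIcc_of_le hle])).intervalIntegrable
  have i2 : IntervalIntegrable g volume (1 / 4) 4 :=
    (hc2.mono (by rw [uIcc_of_le hle])).intervalIntegrable
  have h2 := intervalIntegral.integral_eq_sub_of_hasDerivAt (f := F) (a := 1 / 4) (b := 4)
    (f' := fun r => (A r : ℂ) * ch (r * P + r ^ 2 * t) + g r)
    (fun r hr => hFd r (by rwa [uIcc_of_le hle] at hr)) (i1.add i2)
  rw [intervalIntegral.integral_add i1 i2] at h2
  have h3 : F 4 - F (1 / 4) = 0 := by
    simp only [hF, h0, h1]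
    simp
  rw [h3] at h2
  have h4 : ∫ r in (1 / 4 : ℝ)..4, (A r : ℂ) * ch (r * P + r ^ 2 * t) =
      -∫ r in (1 / 4 : ℝ)..4, g r := eq_neg_of_add_eq_zero_left h2
  rw [h4, norm_neg]
  have hgb : ∀ r ∈ uIoc (1 / 4 : ℝ) 4, ‖g r‖ ≤ (B' + 3 * B) / |t| := by
    intro r hr
    rw [uIoc_of_le hle] at hr
    have hr' : r ∈ Icc (1 / 4 : ℝ) 4 := ⟨hr.1.le, hr.2⟩
    have hDr := hDn r hr'
    have hDp : 0 < ‖D r‖ := by linarith
    simp only [hg]
    refine (norm_sub_le _ _).trans ?_
    have e1 : ‖((deriv A r : ℝ) : ℂ) * ch (r * P + r ^ 2 * t) / D r‖ ≤ B' / |t| := by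
      rw [norm_div, norm_mul, ch_norm, mul_one, Complex.norm_real, Real.norm_eq_abs]
      have hb := hB' r hr'
      apply div_le_div₀ ((abs_nonneg _).trans hb) hb ht0
      linarith
    have e2 : ‖(A r : ℂ) * ch (r * P + r ^ 2 * t) * (2 * Real.pi * I * ((2 * t : ℝ) : ℂ)) /
        D r ^ 2‖ ≤ 3 * B / |t| := by
      rw [norm_div, norm_mul, norm_mul, ch_norm, mul_one, norm_pow, norm_mul, norm_mul, norm_mul,
        Complex.norm_I, Complex.norm_real, Complex.norm_real, Complex.norm_real,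
        Real.norm_of_nonneg Real.pi_pos.le, Real.norm_eq_abs, Real.norm_eq_abs, abs_mul, abs_two]
      have h5 : ‖(2 : ℂ)‖ = 2 := by norm_num
      rw [h5]
      have hb := hB r hr'
      have hb0 : 0 ≤ B := (abs_nonneg _).trans hb
      rw [div_le_div_iff₀ (by positivity) ht0]
      have h6 : (9 / 4 * |t|) ^ 2 ≤ ‖D r‖ ^ 2 := by gcongr
      have hpi : Real.pi ≤ 3.15 := by
        have := Real.pi_lt_d2
        linarith
      calc |A r| * (2 * Real.pi * 1 * (2 * |t|)) * |t|
          ≤ B * (2 * 3.15 * 1 * (2 * |t|)) * |t| := by gcongr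
        _ = B * (12.6 * |t| ^ 2) := by ring
        _ ≤ B * (3 * (9 / 4 * |t|) ^ 2) := by
            apply mul_le_mul_of_nonneg_left _ hb0
            nlinarith [sq_nonneg |t|]
        _ ≤ B * (3 * ‖D r‖ ^ 2) := by gcongr
        _ = 3 * B * ‖D r‖ ^ 2 := by ring
    calc _ ≤ B' / |t| + 3 * B / |t| := add_le_add e1 e2
      _ = _ := by ring
  have h5 := intervalIntegral.norm_integral_le_of_norm_le_const hgb
  refine h5.trans (le_of_eq ?_)
  rw [abs_of_nonneg (show (0 : ℝ) ≤ 4 - 1 / 4 by norm_num)]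
  ring

lemma hh_meas (hΩ : Measurable Ω) : Measurable (hh Ω) := by
  unfold hh
  apply Measurable.indicator _ Sec_meas
  apply hΩ.mul
  exact (Complex.continuous_ofReal.comp (aw_smooth.continuous.comp continuous_fst)).measurable

lemma hh_pt (hH : Hom Ω) {r θ : ℝ} (hr : 0 < r) (h : θ ∈ Ioc 0 (Real.pi / 4)) :
    hh Ω (pt (r, θ)) = Ω (Real.cos θ, Real.sin θ) * (aw (r * Real.cos θ) : ℂ) := by
  unfold hh
  rw [indicator_of_mem (pt_mem hr h), hH.pt hr]
  rfl

/-- The region without stationary points. -/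
theorem near : ∃ C : ℝ, 0 ≤ C ∧ ∀ Ω : ℝ × ℝ → ℂ,
    Measurable Ω → (∀ x, ‖Ω x‖ ≤ 1) → Hom Ω → ∀ (t : ℝ) (y : ℝ × ℝ), 1 ≤ |t| →
      |y.1| ≤ |t| / 16 → |y.2| ≤ |t| / 16 → ‖E2 (hh Ω) y t‖ ≤ C / |t| := by
  obtain ⟨L, hL0, hL⟩ := aw_deriv_bound
  refine ⟨15 / 4 * ((1 + 4 * L) + 3 * 4), by positivity, ?_⟩
  intro Ω hΩ hb hH t y ht h1 h2
  have ht0 : 0 < |t| := by linarith
  -- the inner integral
  have hin : ∀ θ ∈ Ioc 0 (Real.pi / 4), ‖∫ r in Ioi (0 : ℝ), (r : ℂ) *
      (pq y t (pt (r, θ)) * hh Ω (pt (r, θ)))‖ ≤ 15 / 4 * ((1 + 4 * L) + 3 * 4) / |t| := by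
    intro θ hθ
    have hc := cos_lower' hθ
    have hc1 : Real.cos θ ≤ 1 := Real.cos_le_one θ
    set A : ℝ → ℝ := fun r => r * aw (r * Real.cos θ) with hA
    have e1 : ∫ r in Ioi (0 : ℝ), (r : ℂ) * (pq y t (pt (r, θ)) * hh Ω (pt (r, θ))) =
        Ω (Real.cos θ, Real.sin θ) * ∫ r in Ioi (0 : ℝ), (A r : ℂ) *
          ch (r * Pl y θ + r ^ 2 * t) := by
      rw [← integral_const_mul]
      apply setIntegral_congr_fun measurableSet_Ioi
      intro r hr
      simp only
      rw [hh_pt hH hr hθ, pq_pt]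
      simp only [hA]
      push_cast
      ring
    have e2 : ∫ r in Ioi (0 : ℝ), (A r : ℂ) * ch (r * Pl y θ + r ^ 2 * t) =
        ∫ r in (1 / 4 : ℝ)..4, (A r : ℂ) * ch (r * Pl y θ + r ^ 2 * t) := by
      rw [intervalIntegral.integral_of_le (by norm_num)]
      apply setIntegral_eq_of_subset_of_forall_sdiff_eq_zero measurableSet_Ioi
      · intro r hr
        exact lt_trans (by norm_num) hr.1
      · intro r hr
        have hr0 : 0 < r := hr.1
        have hA0 : A r = 0 := by
          simp only [hA]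
          by_cases h3 : r ≤ 1 / 4
          · rw [aw_zero_left, mul_zero]
            calc r * Real.cos θ ≤ r * 1 := by gcongr
              _ ≤ 1 / 4 := by linarith
          · push Not at h3
            have h4 : 4 < r := by
              by_contra hc
              push Not at hc
              exact hr.2 ⟨h3, hc⟩
            rw [aw_zero_right, mul_zero]
            nlinarith
        rw [hA0]
        simp
    rw [e1, e2, norm_mul]
    have hAs : ContDiff ℝ 1 A := by
      have h3 : ContDiff ℝ 1 aw := aw_smooth.of_le (by norm_num)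
      exact contDiff_id.mul (h3.comp (contDiff_id.mul contDiff_const))
    have hAd : ∀ r, deriv A r = aw (r * Real.cos θ) + r * (deriv aw (r * Real.cos θ) *
        Real.cos θ) := by
      intro r
      have h3 : HasDerivAt aw (deriv aw (r * Real.cos θ)) (r * Real.cos θ) :=
        ((aw_smooth.differentiable (by norm_num)) _).hasDerivAt
      have h4 : HasDerivAt (fun r => r * Real.cos θ) (Real.cos θ) r := by
        simpa using (hasDerivAt_id r).mul_const (Real.cos θ)
      have h5 := (hasDerivAt_id r).mul (h3.comp r h4)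
      have h6 : deriv A r = 1 * (aw ∘ fun r => r * Real.cos θ) r +
          id r * (deriv aw (r * Real.cos θ) * Real.cos θ) := h5.deriv
      rw [h6]
      simp
    have hib := ibp (A := A) (P := Pl y θ) (t := t) (B := 4) (B' := 1 + 4 * L) hAs ?_ ?_ ht ?_ ?_ ?_
    · calc ‖Ω (Real.cos θ, Real.sin θ)‖ * _ ≤ 1 * _ :=
            mul_le_mul (hb _) hib (norm_nonneg _) zero_le_one
        _ = _ := one_mul _
    · simp only [hA]
      rw [aw_zero_left (by linarith), mul_zero]
    · simp only [hA]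
      rw [aw_zero_right (by linarith), mul_zero]
    · unfold Pl
      have h3 : |y.1 * Real.cos θ| ≤ |y.1| := by
        rw [abs_mul]
        calc |y.1| * |Real.cos θ| ≤ |y.1| * 1 := by
              gcongr
              exact Real.abs_cos_le_one θ
          _ = _ := mul_one _
      have h4 : |y.2 * Real.sin θ| ≤ |y.2| := by
        rw [abs_mul]
        calc |y.2| * |Real.sin θ| ≤ |y.2| * 1 := by
              gcongr
              exact Real.abs_sin_le_one θ
          _ = _ := mul_one _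
      have := abs_add_le (y.1 * Real.cos θ) (y.2 * Real.sin θ)
      linarith
    · intro r hr
      simp only [hA]
      rw [abs_mul, abs_of_nonneg (by linarith [hr.1]), abs_of_nonneg (aw_nonneg _)]
      calc r * aw (r * Real.cos θ) ≤ 4 * 1 := by
            gcongr
            · exact aw_nonneg _
            · exact hr.2
            · exact aw_le _
        _ = 4 := by norm_num
    · intro r hr
      rw [hAd]
      refine (abs_add_le _ _).trans ?_
      have h3 : |aw (r * Real.cos θ)| ≤ 1 := by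
        rw [abs_of_nonneg (aw_nonneg _)]
        exact aw_le _
      have h4 : |r * (deriv aw (r * Real.cos θ) * Real.cos θ)| ≤ 4 * L := by
        rw [abs_mul, abs_mul, abs_of_nonneg (show 0 ≤ r by linarith [hr.1])]
        calc r * (|deriv aw (r * Real.cos θ)| * |Real.cos θ|) ≤ 4 * (L * 1) := by
              gcongr
              · exact hr.2
              · exact hL _
              · exact Real.abs_cos_le_one θ
          _ = _ := by ring
      linarith
  unfold Pool.Agent.TH277.CB.E2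
  rw [polar_int]
  · have h3 : ∀ᵐ θ ∂mu, θ ∈ Ioc 0 (Real.pi / 4) := ae_restrict_mem measurableSet_Ioc
    calc ‖∫ θ, (∫ r in Ioi (0 : ℝ), (r : ℂ) * (pq y t (pt (r, θ)) * hh Ω (pt (r, θ)))) ∂mu‖
        ≤ (15 / 4 * ((1 + 4 * L) + 3 * 4) / |t|) * mu.real univ := by
          apply norm_integral_le_of_norm_le_const
          filter_upwards [h3] with θ hθ
          exact hin θ hθ
      _ ≤ (15 / 4 * ((1 + 4 * L) + 3 * 4) / |t|) * 1 := by
          gcongr
          unfold Measure.real
          exact ENNReal.toReal_le_of_le_ofReal zero_le_one (by simpa using mu_univ)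
      _ = _ := mul_one _
  · intro x hx
    unfold hh
    rw [indicator_of_notMem hx, mul_zero]
  · have h0 : Integrable ((Ioc (0 : ℝ) 4).indicator fun _ => (4 : ℝ))
        ((volume : Measure ℝ).restrict (Ioi 0)) := by
      apply Integrable.restrict
      rw [integrable_indicator_iff measurableSet_Ioc]
      exact integrableOn_const (by simp)
    have h3 := h0.mul_prod (integrable_const (1 : ℝ) (μ := mu))
    refine h3.mono' ?_ ?_
    · apply Measurable.aestronglyMeasurable
      have a1 : Measurable fun p : ℝ × ℝ => (p.1 : ℂ) :=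
        Complex.measurable_ofReal.comp measurable_fst
      have a2 := ((pq_meas' y t).mul (hh_meas hΩ)).comp pt_cont.measurable
      exact a1.mul a2
    · rw [rmu_eq]
      filter_upwards [ae_restrict_mem (measurableSet_Ioi.prod measurableSet_Ioc)] with p hp
      obtain ⟨r, θ⟩ := p
      have hr0 : 0 < r := hp.1
      have hθ : θ ∈ Ioc 0 (Real.pi / 4) := hp.2
      have hc := cos_lower' hθ
      simp only
      rw [hh_pt hH hr0 hθ, mul_one, norm_mul, norm_mul, pq_norm, norm_mul, Complex.norm_real,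
        Complex.norm_real, Real.norm_of_nonneg hr0.le, Real.norm_of_nonneg (aw_nonneg _), one_mul]
      by_cases h4 : r ≤ 4
      · rw [indicator_of_mem (show r ∈ Ioc (0 : ℝ) 4 from ⟨hr0, h4⟩)]
        have h5 : ‖Ω (Real.cos θ, Real.sin θ)‖ * aw (r * Real.cos θ) ≤ 1 :=
          mul_le_one₀ (hb _) (aw_nonneg _) (aw_le _)
        have h6 : 0 ≤ ‖Ω (Real.cos θ, Real.sin θ)‖ * aw (r * Real.cos θ) :=
          mul_nonneg (norm_nonneg _) (aw_nonneg _)
        nlinarith
      · push Not at h4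
        rw [aw_zero_right (by nlinarith), mul_zero, mul_zero]
        rw [indicator_of_notMem (fun h => absurd h.2 (not_le.2 h4))]

lemma box_vol (t : ℝ) : volume (Icc (-(|t| / 16)) (|t| / 16) ×ˢ Icc (-(|t| / 16)) (|t| / 16)) =
    ENNReal.ofReal (|t| / 8) ^ 2 := by
  rw [Measure.volume_eq_prod, Measure.prod_prod, Real.volume_Icc, sq]
  congr 2 <;> ring

lemma E2_meas1 {f : ℝ × ℝ → ℂ} (hf : Measurable f) (t : ℝ) : Measurable fun y => E2 f y t := by
  have h2 := (Pool.Agent.TH277.CB.E2_meas f hf.stronglyMeasurable).measurable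
  have h3 : Measurable fun y : ℝ × ℝ => ((y, t) : (ℝ × ℝ) × ℝ) :=
    measurable_id.prodMk measurable_const
  have h4 : Measurable ((fun p : (ℝ × ℝ) × ℝ => E2 f p.1 p.2) ∘ fun y : ℝ × ℝ => (y, t)) :=
    h2.comp h3
  exact h4

/-- The fourth moment at a fixed time, with a smooth window. -/
theorem base4 (s : ℝ) (hs : 0 ≤ s) (hs1 : s < 1) : ∃ C : ℝ≥0∞, C < ⊤ ∧ ∀ Ω : ℝ × ℝ → ℂ,
    Measurable Ω → (∀ x, ‖Ω x‖ ≤ 1) → Hom Ω → ∀ t : ℝ, 1 ≤ |t| →
      ∫⁻ y, ‖E2 (hh Ω) y t‖ₑ ^ 4 ≤ C * ENNReal.ofReal (|t| ^ (-(1 + s))) := by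
  obtain ⟨C1, hC1, far⟩ := far s hs hs1
  obtain ⟨C2, hC2, near⟩ := near
  set c0 : ℝ := 1 - Real.exp (-(Real.pi * (1 / 1280))) with hc0
  have hc0p : 0 < c0 := by
    rw [hc0, sub_pos, Real.exp_lt_one_iff]
    have := Real.pi_pos
    linarith
  refine ⟨ENNReal.ofReal c0⁻¹ * C1 + ENNReal.ofReal (C2 ^ 4), ?_, ?_⟩
  · exact ENNReal.add_lt_top.2 ⟨ENNReal.mul_lt_top ENNReal.ofReal_lt_top hC1,
      ENNReal.ofReal_lt_top⟩
  intro Ω hΩ hb hH t ht
  have ht0 : 0 < |t| := by linarith
  set B : Set (ℝ × ℝ) := Icc (-(|t| / 16)) (|t| / 16) ×ˢ Icc (-(|t| / 16)) (|t| / 16) with hB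
  have hBm : MeasurableSet B := measurableSet_Icc.prod measurableSet_Icc
  have hEm : Measurable fun y => ‖E2 (hh Ω) y t‖ₑ ^ 4 :=
    (E2_meas1 (hh_meas hΩ) t).enorm.pow_const 4
  have h1 : ∫⁻ y in B, ‖E2 (hh Ω) y t‖ₑ ^ 4 ≤
      ENNReal.ofReal (C2 ^ 4) * ENNReal.ofReal (|t| ^ (-(1 + s))) := by
    calc ∫⁻ y in B, ‖E2 (hh Ω) y t‖ₑ ^ 4 ≤ ∫⁻ _y in B, ENNReal.ofReal ((C2 / |t|) ^ 4) := by
          apply setLIntegral_mono measurable_const
          intro y hy
          rw [ENNReal.ofReal_pow (by positivity)]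
          gcongr
          rw [← ofReal_norm]
          apply ENNReal.ofReal_le_ofReal
          apply near Ω hΩ hb hH t y ht
          · rw [abs_le]
            exact ⟨hy.1.1, hy.1.2⟩
          · rw [abs_le]
            exact ⟨hy.2.1, hy.2.2⟩
      _ = ENNReal.ofReal ((C2 / |t|) ^ 4 * (|t| / 8) ^ 2) := by
          rw [setLIntegral_const, box_vol, ← ENNReal.ofReal_pow (by positivity),
            ← ENNReal.ofReal_mul (by positivity)]
      _ ≤ ENNReal.ofReal (C2 ^ 4 * |t| ^ (-(1 + s))) := by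
          apply ENNReal.ofReal_le_ofReal
          have h4 : |t| ^ (-(2 : ℝ)) ≤ |t| ^ (-(1 + s)) :=
            Real.rpow_le_rpow_of_exponent_le ht (by linarith)
          have h5 : |t| ^ (-(2 : ℝ)) = 1 / |t| ^ 2 := by
            rw [Real.rpow_neg ht0.le, Real.rpow_two, one_div]
          rw [h5] at h4
          calc (C2 / |t|) ^ 4 * (|t| / 8) ^ 2 = C2 ^ 4 * (1 / 64 * (1 / |t| ^ 2)) := by
                field_simp
                norm_num
            _ ≤ C2 ^ 4 * (1 * (1 / |t| ^ 2)) := by gcongr; norm_num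
            _ ≤ C2 ^ 4 * |t| ^ (-(1 + s)) := by
                rw [one_mul]
                gcongr
      _ = _ := ENNReal.ofReal_mul (by positivity)
  have h2 : ∫⁻ y in Bᶜ, ‖E2 (hh Ω) y t‖ₑ ^ 4 ≤
      ENNReal.ofReal c0⁻¹ * (C1 * ENNReal.ofReal (|t| ^ (-(1 + s)))) := by
    calc ∫⁻ y in Bᶜ, ‖E2 (hh Ω) y t‖ₑ ^ 4 ≤ ∫⁻ y in Bᶜ, ENNReal.ofReal c0⁻¹ *
          (ENNReal.ofReal (Wt (ct t).re y) * ‖E2 (hh Ω) y t‖ₑ ^ 4) := by
          apply setLIntegral_mono
          · exact ((Wt_meas _).ennreal_ofReal.mul hEm).const_mul _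
          · intro y hy
            rw [← mul_assoc, ← ENNReal.ofReal_mul (by positivity)]
            have h3 : c0 ≤ Wt (ct t).re y := by
              unfold Wt
              rw [hc0]
              apply sub_le_sub_left
              apply Real.exp_le_exp.2
              apply neg_le_neg
              apply mul_le_mul_of_nonneg_left _ Real.pi_pos.le
              rw [ct_re]
              have h4 : (|t| / 16) ^ 2 ≤ y.1 ^ 2 + y.2 ^ 2 := by
                rw [hB, mem_compl_iff, mem_prod, not_and_or] at hy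
                rcases hy with h | h
                · have h5 : |t| / 16 < |y.1| := by
                    by_contra hc
                    push Not at hc
                    exact h ⟨(abs_le.1 hc).1, (abs_le.1 hc).2⟩
                  have h6 : (|t| / 16) ^ 2 ≤ |y.1| ^ 2 := by gcongr
                  rw [sq_abs] at h6
                  nlinarith [sq_nonneg y.2]
                · have h5 : |t| / 16 < |y.2| := by
                    by_contra hc
                    push Not at hc
                    exact h ⟨(abs_le.1 hc).1, (abs_le.1 hc).2⟩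
                  have h6 : (|t| / 16) ^ 2 ≤ |y.2| ^ 2 := by gcongr
                  rw [sq_abs] at h6
                  nlinarith [sq_nonneg y.1]
              rw [div_mul_eq_mul_div, one_mul, div_le_div_iff₀ (by norm_num) (by positivity)]
              have h7 : (1 : ℝ) ≤ |t| ^ 2 := one_le_pow₀ ht
              rw [← sq_abs t]
              nlinarith
            have h8 : 1 ≤ c0⁻¹ * Wt (ct t).re y := by
              calc (1 : ℝ) = c0⁻¹ * c0 := (inv_mul_cancel₀ hc0p.ne').symm
                _ ≤ _ := by gcongr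
            calc ‖E2 (hh Ω) y t‖ₑ ^ 4 = 1 * ‖E2 (hh Ω) y t‖ₑ ^ 4 := (one_mul _).symm
              _ ≤ _ := by
                gcongr
                exact ENNReal.one_le_ofReal.2 h8
      _ ≤ ∫⁻ y, ENNReal.ofReal c0⁻¹ *
          (ENNReal.ofReal (Wt (ct t).re y) * ‖E2 (hh Ω) y t‖ₑ ^ 4) := setLIntegral_le_lintegral _ _
      _ = ENNReal.ofReal c0⁻¹ * ∫⁻ y,
          (ENNReal.ofReal (Wt (ct t).re y) * ‖E2 (hh Ω) y t‖ₑ ^ 4) := by
          rw [lintegral_const_mul]
          exact (Wt_meas _).ennreal_ofReal.mul hEm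
      _ ≤ _ := by
          gcongr
          exact far Ω hΩ hb hH t ht
  rw [← lintegral_add_compl _ hBm]
  calc _ ≤ _ := add_le_add h1 h2
    _ = _ := by ring

end Pool.Agent.P8H98.HG
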