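import Mathlib
import Pool.Agent.P8H98.HG.Near
set_option autoImplicit false

/-! The fourth moment norm at a fixed time, and cutting by half planes. -/

namespace Pool.Agent.P8H98.HG

open MeasureTheory Set Complex
open scoped ENNReal NNReal ComplexConjugate ContDiff
open Pool.Agent.TH277.CS (s2)
open Pool.Agent.TH277.CB (pq E2 pq_norm pq_cont scale_neg s2_cont)
open Pool.Agent.TH277.HT (ch ch_norm ch_cont ch_add)

/-- the `L⁴` norm at a fixed time -/
noncomputable def N4 (f : ℝ × ℝ → ℂ) (t : ℝ) : ℝ≥0∞ := (∫⁻ y, ‖E2 f y t‖ₑ ^ 4) ^ (1 / 4 : ℝ)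

lemma N4_pow (f : ℝ × ℝ → ℂ) (t : ℝ) : N4 f t ^ 4 = ∫⁻ y, ‖E2 f y t‖ₑ ^ 4 := by
  unfold N4
  rw [← ENNReal.rpow_natCast, ← ENNReal.rpow_mul]
  norm_num

lemma N4_le_of {f : ℝ × ℝ → ℂ} {t : ℝ} {X : ℝ≥0∞} (h : ∫⁻ y, ‖E2 f y t‖ₑ ^ 4 ≤ X ^ 4) :
    N4 f t ≤ X := by
  unfold N4
  have h2 := ENNReal.rpow_le_rpow h (by norm_num : (0 : ℝ) ≤ 1 / 4)
  refine h2.trans (le_of_eq ?_)
  rw [← ENNReal.rpow_natCast, ← ENNReal.rpow_mul]
  norm_num

lemma E2_add {f g : ℝ × ℝ → ℂ} (hf : Integrable f) (hg : Integrable g) (y : ℝ × ℝ) (t : ℝ) :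
    E2 (fun x => f x + g x) y t = E2 f y t + E2 g y t := by
  unfold Pool.Agent.TH277.CB.E2
  rw [← integral_add (pq_int hf y t) (pq_int hg y t)]
  apply integral_congr_ae
  refine ae_of_all _ fun x => ?_
  simp only
  ring

lemma E2_congr {f g : ℝ × ℝ → ℂ} (h : f =ᵐ[volume] g) (y : ℝ × ℝ) (t : ℝ) :
    E2 f y t = E2 g y t := by
  unfold Pool.Agent.TH277.CB.E2
  apply integral_congr_ae
  filter_upwards [h] with x hx
  rw [hx]

lemma N4_congr {f g : ℝ × ℝ → ℂ} (h : f =ᵐ[volume] g) (t : ℝ) : N4 f t = N4 g t := by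
  unfold N4
  simp only [E2_congr h]

lemma N4_add {f g : ℝ × ℝ → ℂ} (hf : Measurable f) (hg : Measurable g) (hfi : Integrable f)
    (hgi : Integrable g) (t : ℝ) : N4 (fun x => f x + g x) t ≤ N4 f t + N4 g t := by
  unfold N4
  have h1 := ENNReal.lintegral_Lp_add_le (μ := (volume : Measure (ℝ × ℝ)))
    (E2_meas1 hf t).enorm.aemeasurable
    (E2_meas1 hg t).enorm.aemeasurable (by norm_num : (1 : ℝ) ≤ 4)
  have h2 : ∀ x : ℝ≥0∞, x ^ (4 : ℝ) = x ^ 4 := by
    intro x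
    rw [← ENNReal.rpow_natCast]
    norm_num
  simp only [h2, Pi.add_apply] at h1
  refine le_trans ?_ h1
  apply ENNReal.rpow_le_rpow _ (by norm_num)
  apply lintegral_mono
  intro y
  simp only
  rw [E2_add hfi hgi]
  gcongr
  exact enorm_add_le _ _

/-- Plancherel's theorem at a fixed time, as an inequality. -/
lemma planch {F : ℝ × ℝ → ℂ} (hFm : Measurable F) (h1 : Integrable F) (h2 : MemLp F 2) (t : ℝ) :
    ∫⁻ y : ℝ × ℝ, ‖E2 F y t‖ₑ ^ 2 ≤ ENNReal.ofReal ((2 * Real.pi) ^ 2) * ∫⁻ x, ‖F x‖ₑ ^ 2 := by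
  unfold Pool.Agent.TH277.CB.E2
  set G : ℝ × ℝ → ℂ := fun x => ch (s2 x * t) * F x with hG
  have hcm : Measurable fun x : ℝ × ℝ => ch (s2 x * t) :=
    (ch_cont.comp (s2_cont.mul continuous_const)).measurable
  have hGm : Measurable G := hcm.mul hFm
  have hGn : ∀ x, ‖G x‖ = ‖F x‖ := by
    intro x
    simp only [hG]
    rw [norm_mul, ch_norm, one_mul]
  have hG1 : Integrable G := h1.norm.mono' hGm.aestronglyMeasurable
    (ae_of_all _ fun x => (hGn x).le)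
  have hG2 : MemLp G 2 := h2.of_le hGm.aestronglyMeasurable (ae_of_all _ fun x => (hGn x).le)
  have h3 := Pool.Agent.TH277.CP.plancherel2 G hG1 hG2
  set Φ : ℝ × ℝ → ℝ≥0∞ := fun X =>
    ‖∫ x : ℝ × ℝ, cexp (-(I * ((x.1 * X.1 + x.2 * X.2 : ℝ) : ℂ))) * G x‖ₑ ^ 2 with hΦ
  have hΦm : Measurable Φ := by
    have h5 : Measurable fun p : (ℝ × ℝ) × (ℝ × ℝ) =>
        cexp (-(I * ((p.2.1 * p.1.1 + p.2.2 * p.1.2 : ℝ) : ℂ))) := by fun_prop
    have h6 := hGm.comp (measurable_snd : Measurable fun p : (ℝ × ℝ) × (ℝ × ℝ) => p.2)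
    have h4 : Measurable (Function.uncurry fun (X : ℝ × ℝ) (x : ℝ × ℝ) =>
        cexp (-(I * ((x.1 * X.1 + x.2 * X.2 : ℝ) : ℂ))) * G x) := h5.mul h6
    exact (h4.stronglyMeasurable.integral_prod_right (ν := volume)).measurable.enorm.pow_const 2
  have h5 : ∀ y : ℝ × ℝ, ‖∫ x, pq y t x * F x‖ₑ ^ 2 = Φ ((-(2 * Real.pi)) • y) := by
    intro y
    simp only [hΦ]
    congr 2
    apply integral_congr_ae
    refine ae_of_all _ fun x => ?_
    simp only [hG]
    rw [← mul_assoc]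
    congr 1
    unfold Pool.Agent.TH277.CB.pq ch
    rw [← Complex.exp_add]
    congr 1
    simp only [Prod.smul_fst, Prod.smul_snd, smul_eq_mul]
    push_cast
    ring
  simp only [h5]
  refine (scale_neg Φ hΦm).trans ?_
  rw [h3]
  gcongr with x
  rw [← ofReal_norm, hGn, ofReal_norm]

lemma ind_int {T : Set (ℝ × ℝ)} (hT : volume T < ⊤) {G : ℝ × ℝ → ℂ} (hG : Measurable G)
    (hb : ∀ x, ‖G x‖ ≤ 1) (h0 : ∀ x, x ∉ T → G x = 0) : Integrable G ∧ MemLp G 2 := by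
  have h1 : ∀ᵐ x ∂(volume : Measure (ℝ × ℝ)), ‖G x‖ ≤ 1 := ae_of_all _ hb
  have hs : Function.support G ⊆ T := by
    intro x hx
    by_contra hc
    exact hx (h0 x hc)
  constructor
  · rw [← integrableOn_iff_integrable_of_support_subset hs]
    exact IntegrableOn.of_bound hT hG.aestronglyMeasurable.restrict 1 (ae_of_all _ hb)
  · set T' := toMeasurable volume T with hT'
    have h2 : G = T'.indicator G := by
      ext x
      by_cases hx : x ∈ T'
      · rw [indicator_of_mem hx]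
      · rw [indicator_of_notMem hx, h0 x fun h => hx (subset_toMeasurable _ _ h)]
    have hT2 : volume T' < ⊤ := by rwa [measure_toMeasurable]
    have hfin : IsFiniteMeasure ((volume : Measure (ℝ × ℝ)).restrict T') :=
      ⟨by rw [Measure.restrict_apply_univ]; exact hT2⟩
    rw [h2, memLp_indicator_iff_restrict (measurableSet_toMeasurable _ _)]
    exact MemLp.of_bound hG.aestronglyMeasurable.restrict 1 (ae_of_all _ hb)

lemma E2_sup (G : ℝ × ℝ → ℂ) (y : ℝ × ℝ) (t : ℝ) : ‖E2 G y t‖ₑ ≤ ∫⁻ x, ‖G x‖ₑ := by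
  unfold Pool.Agent.TH277.CB.E2
  refine (enorm_integral_le_lintegral_enorm _).trans (le_of_eq ?_)
  apply lintegral_congr
  intro x
  rw [enorm_mul, ← ofReal_norm, pq_norm, ENNReal.ofReal_one, one_mul]

/-- the trivial bound -/
lemma triv4 {T : Set (ℝ × ℝ)} (hTm : MeasurableSet T) (hT : volume T < ⊤) {G : ℝ × ℝ → ℂ}
    (hG : Measurable G) (hb : ∀ x, ‖G x‖ ≤ 1) (h0 : ∀ x, x ∉ T → G x = 0) (t : ℝ) :
    ∫⁻ y, ‖E2 G y t‖ₑ ^ 4 ≤ ENNReal.ofReal ((2 * Real.pi) ^ 2) * volume T ^ 3 := by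
  obtain ⟨i1, i2⟩ := ind_int hT hG hb h0
  have hle : ∀ x, ‖G x‖ₑ ≤ T.indicator (fun _ => 1) x := by
    intro x
    by_cases hx : x ∈ T
    · rw [indicator_of_mem hx, ← ofReal_norm]
      exact ENNReal.ofReal_le_one.2 (hb x)
    · rw [indicator_of_notMem hx, h0 x hx, enorm_zero]
  have h1 : ∫⁻ x, ‖G x‖ₑ ≤ volume T := by
    refine (lintegral_mono hle).trans ?_
    rw [lintegral_indicator hTm, setLIntegral_one]
  have h2 : ∫⁻ x, ‖G x‖ₑ ^ 2 ≤ volume T := by
    calc ∫⁻ x, ‖G x‖ₑ ^ 2 ≤ ∫⁻ x, T.indicator (fun _ => 1) x := by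
          apply lintegral_mono
          intro x
          simp only
          by_cases hx : x ∈ T
          · rw [indicator_of_mem hx]
            have := hle x
            rw [indicator_of_mem hx] at this
            exact pow_le_one₀ (zero_le) this
          · rw [indicator_of_notMem hx, h0 x hx, enorm_zero]
            simp
      _ = volume T := by rw [lintegral_indicator hTm, setLIntegral_one]
  calc ∫⁻ y, ‖E2 G y t‖ₑ ^ 4 ≤ ∫⁻ y, volume T ^ 2 * ‖E2 G y t‖ₑ ^ 2 := by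
        apply lintegral_mono
        intro y
        simp only
        have h3 : ‖E2 G y t‖ₑ ^ 4 = ‖E2 G y t‖ₑ ^ 2 * ‖E2 G y t‖ₑ ^ 2 := by ring
        rw [h3]
        gcongr
        exact (E2_sup G y t).trans h1
    _ = volume T ^ 2 * ∫⁻ y, ‖E2 G y t‖ₑ ^ 2 :=
        lintegral_const_mul _ ((E2_meas1 hG t).enorm.pow_const 2)
    _ ≤ volume T ^ 2 * (ENNReal.ofReal ((2 * Real.pi) ^ 2) * volume T) := by
        gcongr
        refine (planch hG i1 i2 t).trans ?_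
        gcongr
    _ = _ := by ring

/-- one dimensional windows in the direction of a linear form -/
lemma E2_dir {κ : ℝ → ℂ} (hκ : Integrable κ) {G : ℝ × ℝ → ℂ} (hG : Integrable G) (l : ℝ × ℝ)
    (c e : ℝ) (y : ℝ × ℝ) (t : ℝ) :
    E2 (fun x => (∫ z, κ z * ch (z * (c * (l.1 * x.1 + l.2 * x.2 - e)))) * G x) y t =
      ∫ z, (κ z * ch (-(z * c * e))) * E2 G (y + (z * c * l.1, z * c * l.2)) t := by
  unfold Pool.Agent.TH277.CB.E2
  have h1 : ∀ x, pq y t x * ((∫ z, κ z * ch (z * (c * (l.1 * x.1 + l.2 * x.2 - e)))) * G x) =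
      ∫ z, (κ z * ch (-(z * c * e))) * (pq (y + (z * c * l.1, z * c * l.2)) t x * G x) := by
    intro x
    rw [show pq y t x * ((∫ z, κ z * ch (z * (c * (l.1 * x.1 + l.2 * x.2 - e)))) * G x) =
      (∫ z, κ z * ch (z * (c * (l.1 * x.1 + l.2 * x.2 - e)))) * (pq y t x * G x) by ring,
      ← integral_mul_const]
    apply integral_congr_ae
    refine ae_of_all _ fun z => ?_
    simp only
    rw [pq_shift]
    rw [show ch (z * (c * (l.1 * x.1 + l.2 * x.2 - e))) = ch (-(z * c * e)) *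
      ch (z * c * l.1 * x.1 + z * c * l.2 * x.2) by rw [← ch_add]; congr 1; ring]
    ring
  have h2 : ∀ z, (κ z * ch (-(z * c * e))) *
      ∫ x, pq (y + (z * c * l.1, z * c * l.2)) t x * G x =
      ∫ x, (κ z * ch (-(z * c * e))) * (pq (y + (z * c * l.1, z * c * l.2)) t x * G x) := by
    intro z
    rw [integral_const_mul]
  simp only [h1, h2]
  apply integral_integral_swap
  have h3 := hG.norm.mul_prod hκ.norm
  refine h3.mono' ?_ ?_
  · have h4 : AEStronglyMeasurable (fun p : (ℝ × ℝ) × ℝ => κ p.2)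
        ((volume : Measure (ℝ × ℝ)).prod volume) := hκ.1.comp_snd
    have h5 : AEStronglyMeasurable (fun p : (ℝ × ℝ) × ℝ => G p.1)
        ((volume : Measure (ℝ × ℝ)).prod volume) := hG.1.comp_fst
    have h6 : Measurable (fun p : (ℝ × ℝ) × ℝ => pq (y + (p.2 * c * l.1, p.2 * c * l.2)) t p.1) := by
      have h7 : Continuous fun p : (ℝ × ℝ) × ℝ =>
          (((y + (p.2 * c * l.1, p.2 * c * l.2), t), p.1) : ((ℝ × ℝ) × ℝ) × (ℝ × ℝ)) := by
        fun_prop
      exact (pq_cont.comp h7).measurable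
    have h8 : Measurable (fun p : (ℝ × ℝ) × ℝ => ch (-(p.2 * c * e))) :=
      (ch_cont.comp (by fun_prop : Continuous fun p : (ℝ × ℝ) × ℝ => -(p.2 * c * e))).measurable
    exact (h4.mul h8.aestronglyMeasurable).mul (h6.aestronglyMeasurable.mul h5)
  · refine ae_of_all _ fun p => ?_
    simp only [Function.uncurry]
    rw [norm_mul, norm_mul, norm_mul, pq_norm, ch_norm, one_mul, mul_one, mul_comm]

/-- Young's inequality for the fourth power, along a line. -/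
lemma conv_line {k : ℝ → ℂ} {a : ℝ → ℝ × ℝ} {u v : ℝ × ℝ → ℂ} (hk : Measurable k)
    (ha : Measurable a) (hu : Measurable u) (hv : ∀ y, v y = ∫ z, k z * u (y + a z)) :
    ∫⁻ y, ‖v y‖ₑ ^ 4 ≤ (∫⁻ z, ‖k z‖ₑ) ^ 4 * ∫⁻ y, ‖u y‖ₑ ^ 4 := by
  set K : ℝ≥0∞ := ∫⁻ z, ‖k z‖ₑ with hK
  have hpt : ∀ y, ‖v y‖ₑ ^ 4 ≤ K ^ 3 * ∫⁻ z, ‖k z‖ₑ * ‖u (y + a z)‖ₑ ^ 4 := by
    intro y
    have h1 : ‖v y‖ₑ ≤ ∫⁻ z, ‖k z‖ₑ * ‖u (y + a z)‖ₑ := by
      rw [hv y]
      refine (enorm_integral_le_lintegral_enorm _).trans (le_of_eq ?_)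
      apply lintegral_congr
      intro z
      rw [enorm_mul]
    refine (pow_le_pow_left₀ (zero_le) h1 4).trans ?_
    exact jensen4 hk.enorm (hu.comp (ha.const_add y)).enorm
  have hjm : Measurable fun p : (ℝ × ℝ) × ℝ => ‖k p.2‖ₑ * ‖u (p.1 + a p.2)‖ₑ ^ 4 := by
    have a2 := hk.enorm.comp (measurable_snd : Measurable fun p : (ℝ × ℝ) × ℝ => p.2)
    have a3 := (hu.comp ((measurable_fst.add (ha.comp measurable_snd) :
      Measurable fun p : (ℝ × ℝ) × ℝ => p.1 + a p.2))).enorm.pow_const 4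
    exact a2.mul a3
  calc ∫⁻ y, ‖v y‖ₑ ^ 4 ≤ ∫⁻ y, K ^ 3 * ∫⁻ z, ‖k z‖ₑ * ‖u (y + a z)‖ₑ ^ 4 := lintegral_mono hpt
    _ = K ^ 3 * ∫⁻ y, ∫⁻ z, ‖k z‖ₑ * ‖u (y + a z)‖ₑ ^ 4 := by
        rw [lintegral_const_mul]
        exact hjm.lintegral_prod_right'
    _ = K ^ 3 * ∫⁻ z, ∫⁻ y, ‖k z‖ₑ * ‖u (y + a z)‖ₑ ^ 4 := by
        rw [lintegral_lintegral_swap hjm.aemeasurable]
    _ = K ^ 3 * ∫⁻ z, ‖k z‖ₑ * ∫⁻ y, ‖u y‖ₑ ^ 4 := by
        congr 1
        apply lintegral_congr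
        intro z
        have hu4 : Measurable fun y => ‖u (y + a z)‖ₑ ^ 4 :=
          (hu.comp (measurable_add_const (a z))).enorm.pow_const 4
        rw [lintegral_const_mul _ hu4,
          lintegral_add_right_eq_self (fun y => ‖u y‖ₑ ^ 4) (a z)]
    _ = _ := by
        rw [lintegral_mul_const _ hk.enorm, ← hK]
        ring

/-- the smooth step -/
noncomputable def st (s : ℝ) : ℝ := TT (s - 1)

lemma st_zero {s : ℝ} (h : s ≤ 1) : st s = 0 := Real.smoothTransition.zero_of_nonpos (by linarith)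

lemma st_one {s : ℝ} (h : 2 ≤ s) : st s = 1 := Real.smoothTransition.one_of_one_le (by linarith)

lemma st_nonneg (s : ℝ) : 0 ≤ st s := Real.smoothTransition.nonneg _

lemma st_le (s : ℝ) : st s ≤ 1 := Real.smoothTransition.le_one _

lemma st_cont : Continuous st := by
  unfold st TT
  exact Real.smoothTransition.continuous.comp (by fun_prop)

/-- the difference of two steps -/
noncomputable def dd (s : ℝ) : ℂ := ((st (2 * s) - st s : ℝ) : ℂ)

lemma dd_smooth : ContDiff ℝ ∞ dd := by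
  unfold dd
  apply Complex.ofRealCLM.contDiff.comp
  unfold st TT
  exact (Real.smoothTransition.contDiff.comp (by fun_prop)).sub
    (Real.smoothTransition.contDiff.comp (by fun_prop))

lemma dd_supp : HasCompactSupport dd := by
  apply HasCompactSupport.intro (K := Icc (0 : ℝ) 2) isCompact_Icc
  intro s hs
  unfold dd
  rw [mem_Icc, not_and_or] at hs
  rcases hs with h | h
  · rw [st_zero (by linarith), st_zero (by linarith)]
    simp
  · rw [st_one (by linarith), st_one (by linarith)]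
    simp

lemma st_sum (s : ℝ) (n : ℕ) : ((st (2 ^ n * s) : ℝ) : ℂ) = (st s : ℂ) +
    ∑ i ∈ Finset.range n, dd (2 ^ i * s) := by
  induction n with
  | zero => simp
  | succ n ih =>
    rw [Finset.sum_range_succ, ← add_assoc, ← ih]
    unfold dd
    rw [show 2 * (2 ^ n * s) = 2 ^ (n + 1) * s by ring]
    push_cast
    ring

end Pool.Agent.P8H98.HG
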