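import Mathlib
import Pool.Agent.P8H98.HG.Cut
set_option autoImplicit false

/-! Cutting by half planes. -/

namespace Pool.Agent.P8H98.HG

open MeasureTheory Set Complex
open scoped ENNReal NNReal ComplexConjugate ContDiff
open Pool.Agent.TH277.CS (s2)
open Pool.Agent.TH277.CB (pq E2 pq_norm pq_cont scale_neg s2_cont)
open Pool.Agent.TH277.HT (ch ch_norm ch_cont ch_add)

/-- the box -/
def Bx (L : ℝ) : Set (ℝ × ℝ) := Icc (-L) L ×ˢ Icc (-L) L

lemma Bx_meas (L : ℝ) : MeasurableSet (Bx L) := measurableSet_Icc.prod measurableSet_Icc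

lemma Bx_vol (L : ℝ) : volume (Bx L) = ENNReal.ofReal (2 * L) ^ 2 := by
  unfold Bx
  rw [Measure.volume_eq_prod, Measure.prod_prod, Real.volume_Icc, sq]
  congr 2 <;> ring

lemma Bx_fin (L : ℝ) : volume (Bx L) < ⊤ := by
  rw [Bx_vol]
  exact ENNReal.pow_lt_top ENNReal.ofReal_lt_top

/-- the linear form -/
def lf (l : ℝ × ℝ) (x : ℝ × ℝ) : ℝ := l.1 * x.1 + l.2 * x.2

lemma lf_meas (l : ℝ × ℝ) : Measurable (lf l) := by
  unfold lf
  fun_prop

/-- the normalisation of a linear form -/
def Nrm (l : ℝ × ℝ) : Prop := |l.1| ≤ 1 ∧ |l.2| ≤ 1 ∧ (|l.1| = 1 ∨ |l.2| = 1)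

lemma lf_le {l : ℝ × ℝ} (hl : Nrm l) {L : ℝ} {x : ℝ × ℝ} (hx : x ∈ Bx L) : |lf l x| ≤ 2 * L := by
  have h1 : |x.1| ≤ L := abs_le.2 ⟨hx.1.1, hx.1.2⟩
  have h2 : |x.2| ≤ L := abs_le.2 ⟨hx.2.1, hx.2.2⟩
  unfold lf
  refine (abs_add_le _ _).trans ?_
  rw [abs_mul, abs_mul]
  have h3 : |l.1| * |x.1| ≤ 1 * L := mul_le_mul hl.1 h1 (abs_nonneg _) zero_le_one
  have h4 : |l.2| * |x.2| ≤ 1 * L := mul_le_mul hl.2.1 h2 (abs_nonneg _) zero_le_one
  linarith

lemma slice {a b δ : ℝ} (ha : |a| = 1) : volume {s : ℝ | 0 < a * s + b ∧ a * s + b < δ} ≤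
    ENNReal.ofReal δ := by
  rcases eq_or_eq_neg_of_abs_eq ha with h | h
  · have : {s : ℝ | 0 < a * s + b ∧ a * s + b < δ} = Ioo (-b) (δ - b) := by
      ext s
      simp only [mem_ofPred_eq, mem_Ioo, h]
      constructor <;> rintro ⟨h1, h2⟩ <;> constructor <;> linarith
    rw [this, Real.volume_Ioo]
    apply ENNReal.ofReal_le_ofReal
    linarith
  · have : {s : ℝ | 0 < a * s + b ∧ a * s + b < δ} = Ioo (b - δ) b := by
      ext s
      simp only [mem_ofPred_eq, mem_Ioo, h]
      constructor <;> rintro ⟨h1, h2⟩ <;> constructor <;> linarith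
    rw [this, Real.volume_Ioo]
    apply ENNReal.ofReal_le_ofReal
    linarith

/-- the strip -/
def Sp (l : ℝ × ℝ) (e δ L : ℝ) : Set (ℝ × ℝ) := Bx L ∩ {x | 0 < lf l x - e ∧ lf l x - e < δ}

lemma Sp_meas (l : ℝ × ℝ) (e δ L : ℝ) : MeasurableSet (Sp l e δ L) := by
  apply (Bx_meas L).inter
  exact (measurableSet_lt measurable_const ((lf_meas l).sub_const e)).inter
    (measurableSet_lt ((lf_meas l).sub_const e) measurable_const)

lemma Sp_vol {l : ℝ × ℝ} (hl : Nrm l) (e δ L : ℝ) (hL : 0 ≤ L) :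
    volume (Sp l e δ L) ≤ ENNReal.ofReal (2 * L) * ENNReal.ofReal δ := by
  rcases hl.2.2 with h | h
  · rw [Measure.volume_eq_prod, Measure.prod_apply_symm (Sp_meas l e δ L)]
    calc ∫⁻ y : ℝ, volume ((fun x : ℝ => (x, y)) ⁻¹' Sp l e δ L)
        ≤ ∫⁻ y : ℝ, (Icc (-L) L).indicator (fun _ => ENNReal.ofReal δ) y := by
          apply lintegral_mono
          intro y
          simp only
          by_cases hy : y ∈ Icc (-L) L
          · rw [indicator_of_mem hy]
            refine (measure_mono ?_).trans (slice (b := l.2 * y - e) (δ := δ) h)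
            intro x hx
            have h2 := hx.2
            simp only [mem_ofPred_eq, lf] at h2 ⊢
            constructor <;> linarith [h2.1, h2.2]
          · rw [indicator_of_notMem hy]
            have : (fun x : ℝ => (x, y)) ⁻¹' Sp l e δ L = ∅ := by
              ext x
              simp only [mem_preimage, mem_empty_iff_false, iff_false]
              intro hx
              exact hy hx.1.2
            rw [this, measure_empty]
      _ = ENNReal.ofReal (2 * L) * ENNReal.ofReal δ := by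
          rw [lintegral_indicator measurableSet_Icc, setLIntegral_const, Real.volume_Icc, mul_comm]
          congr 2
          ring
  · rw [Measure.volume_eq_prod, Measure.prod_apply (Sp_meas l e δ L)]
    calc ∫⁻ x : ℝ, volume (Prod.mk x ⁻¹' Sp l e δ L)
        ≤ ∫⁻ x : ℝ, (Icc (-L) L).indicator (fun _ => ENNReal.ofReal δ) x := by
          apply lintegral_mono
          intro x
          simp only
          by_cases hx : x ∈ Icc (-L) L
          · rw [indicator_of_mem hx]
            refine (measure_mono ?_).trans (slice (b := l.1 * x - e) (δ := δ) h)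
            intro y hy
            have h2 := hy.2
            simp only [mem_ofPred_eq, lf] at h2 ⊢
            constructor <;> linarith [h2.1, h2.2]
          · rw [indicator_of_notMem hx]
            have : Prod.mk x ⁻¹' Sp l e δ L = ∅ := by
              ext y
              simp only [mem_preimage, mem_empty_iff_false, iff_false]
              intro hy
              exact hx hy.1.1
            rw [this, measure_empty]
      _ = ENNReal.ofReal (2 * L) * ENNReal.ofReal δ := by
          rw [lintegral_indicator measurableSet_Icc, setLIntegral_const, Real.volume_Icc, mul_comm]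
          congr 2
          ring

/-- a bounded function on a box -/
structure Bd (L : ℝ) (G : ℝ × ℝ → ℂ) : Prop where
  meas : Measurable G
  bd : ∀ x, ‖G x‖ ≤ 1
  supp : ∀ x, x ∉ Bx L → G x = 0

lemma Bd.int {L : ℝ} {G : ℝ × ℝ → ℂ} (h : Bd L G) : Integrable G :=
  (ind_int (Bx_fin L) h.meas h.bd h.supp).1

/-- the half plane -/
def HP (l : ℝ × ℝ) (e : ℝ) : Set (ℝ × ℝ) := {x | e < lf l x}

lemma HP_meas (l : ℝ × ℝ) (e : ℝ) : MeasurableSet (HP l e) :=
  measurableSet_lt measurable_const (lf_meas l)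

lemma Bd.cut {L : ℝ} {G : ℝ × ℝ → ℂ} (h : Bd L G) {S : Set (ℝ × ℝ)} (hS : MeasurableSet S) :
    Bd L (S.indicator G) := by
  refine ⟨h.meas.indicator hS, fun x => ?_, fun x hx => ?_⟩
  · by_cases hx : x ∈ S
    · rw [indicator_of_mem hx]
      exact h.bd x
    · rw [indicator_of_notMem hx, norm_zero]
      exact zero_le_one
  · by_cases hx' : x ∈ S
    · rw [indicator_of_mem hx']
      exact h.supp x hx
    · rw [indicator_of_notMem hx']

lemma Bd.mul {L : ℝ} {G : ℝ × ℝ → ℂ} (h : Bd L G) {w : ℝ × ℝ → ℂ} (hw : Measurable w)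
    (hb : ∀ x, ‖w x‖ ≤ 1) : Bd L (fun x => w x * G x) := by
  refine ⟨hw.mul h.meas, fun x => ?_, fun x hx => ?_⟩
  · rw [norm_mul]
    exact mul_le_one₀ (hb x) (norm_nonneg _) (h.bd x)
  · rw [h.supp x hx, mul_zero]

/-- The kernel of the difference of two steps. -/
lemma exists_kernel : ∃ κ : ℝ → ℂ, Measurable κ ∧ Integrable κ ∧
    ∀ s, dd s = ∫ z, κ z * ch (z * s) := by
  obtain ⟨k, h1, h2, -, h3⟩ := win1 dd dd_smooth dd_supp
  exact ⟨k, h1.measurable, h2, h3⟩

/-- the constant -/
noncomputable def ND : ℝ≥0∞ := ∫⁻ z, ‖exists_kernel.choose z‖ₑ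

lemma ND_lt : ND < ⊤ := exists_kernel.choose_spec.2.1.2

lemma dd_meas : Measurable dd := dd_smooth.continuous.measurable

lemma dd_norm (s : ℝ) : ‖dd s‖ ≤ 1 := by
  unfold dd
  rw [Complex.norm_real, Real.norm_eq_abs, abs_le]
  have h1 := st_nonneg s
  have h2 := st_le s
  have h3 := st_nonneg (2 * s)
  have h4 := st_le (2 * s)
  constructor <;> linarith

lemma N4_dd {L : ℝ} {G : ℝ × ℝ → ℂ} (h : Bd L G) (l : ℝ × ℝ) (c e t : ℝ) :
    N4 (fun x => dd (c * (lf l x - e)) * G x) t ≤ ND * N4 G t := by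
  obtain ⟨hm, hi, he⟩ := exists_kernel.choose_spec
  set κ := exists_kernel.choose with hκ
  apply N4_le_of
  rw [mul_pow, N4_pow]
  have h1 : ∀ y, E2 (fun x => dd (c * (lf l x - e)) * G x) y t =
      ∫ z, (κ z * ch (-(z * c * e))) * E2 G (y + (z * c * l.1, z * c * l.2)) t := by
    intro y
    rw [← E2_dir hi h.int l c e y t]
    congr 1
    ext x
    rw [he]
    rfl
  have hk : Measurable fun z => κ z * ch (-(z * c * e)) :=
    hm.mul (ch_cont.comp (by fun_prop : Continuous fun z : ℝ => -(z * c * e))).measurable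
  have h2 := conv_line (k := fun z => κ z * ch (-(z * c * e)))
    (a := fun z => (z * c * l.1, z * c * l.2)) (u := fun y => E2 G y t) hk (by fun_prop)
    (E2_meas1 h.meas t) h1
  refine h2.trans (le_of_eq ?_)
  congr 2
  unfold ND
  apply lintegral_congr
  intro z
  rw [enorm_mul, ← ofReal_norm (ch _), ch_norm, ENNReal.ofReal_one, mul_one]

lemma N4_dd_sum {L : ℝ} {G : ℝ × ℝ → ℂ} (h : Bd L G) (l : ℝ × ℝ) (c e t : ℝ) (n : ℕ) :
    N4 (fun x => (∑ i ∈ Finset.range n, dd (2 ^ i * (c * (lf l x - e)))) * G x) t ≤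
      n * (ND * N4 G t) := by
  have hterm : ∀ i : ℕ, Integrable (fun x => dd (2 ^ i * (c * (lf l x - e))) * G x) ∧
      Measurable (fun x => dd (2 ^ i * (c * (lf l x - e))) * G x) := by
    intro i
    have h1 : Measurable fun x => dd (2 ^ i * (c * (lf l x - e))) :=
      dd_meas.comp ((((lf_meas l).sub_const e).const_mul c).const_mul _)
    have h2 := h.mul h1 (fun x => dd_norm _)
    exact ⟨h2.int, h2.meas⟩
  have hsum : ∀ n : ℕ, Integrable
      (fun x => (∑ i ∈ Finset.range n, dd (2 ^ i * (c * (lf l x - e)))) * G x) ∧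
      Measurable (fun x => (∑ i ∈ Finset.range n, dd (2 ^ i * (c * (lf l x - e)))) * G x) := by
    intro n
    induction n with
    | zero => simp
    | succ n ih =>
      simp only [Finset.sum_range_succ, add_mul]
      exact ⟨ih.1.add (hterm n).1, ih.2.add (hterm n).2⟩
  induction n with
  | zero =>
    simp only [Finset.range_zero, Finset.sum_empty, zero_mul, CharP.cast_eq_zero]
    unfold N4 Pool.Agent.TH277.CB.E2
    simp
  | succ n ih =>
    simp only [Finset.sum_range_succ, add_mul]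
    refine (N4_add (hsum n).2 (hterm n).2 (hsum n).1 (hterm n).1 t).trans ?_
    push_cast
    rw [add_mul, one_mul]
    apply add_le_add ih
    have h1 := N4_dd h l (2 ^ n * c) e t
    simpa only [mul_assoc] using h1

/-- One cut. -/
theorem cut_step {L : ℝ} (hL : 0 ≤ L) {J : ℕ} (hJ : 4 * L ≤ 2 ^ J) {G : ℝ × ℝ → ℂ} (h : Bd L G)
    {l : ℝ × ℝ} (hl : Nrm l) {e : ℝ} (he : |e| ≤ 2 * L) (t : ℝ) (K : ℕ) :
    N4 ((HP l e).indicator G) t ≤ ((K + J : ℕ) : ℝ≥0∞) * (ND * N4 G t) +
      (ENNReal.ofReal ((2 * Real.pi) ^ 2 * (4 * L) ^ 3) * ENNReal.ofReal ((2⁻¹) ^ K) ^ 3) ^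
        (1 / 4 : ℝ) := by
  set G1 : ℝ × ℝ → ℂ := fun x => ((st (2 ^ K * (lf l x - e)) : ℝ) : ℂ) * G x with hG1
  set R : ℝ × ℝ → ℂ := fun x => (HP l e).indicator G x - G1 x with hR
  have hstm : Measurable fun x : ℝ × ℝ => ((st (2 ^ K * (lf l x - e)) : ℝ) : ℂ) :=
    Complex.measurable_ofReal.comp (st_cont.measurable.comp
      (((lf_meas l).sub_const e).const_mul _))
  have hstb : ∀ x : ℝ × ℝ, ‖((st (2 ^ K * (lf l x - e)) : ℝ) : ℂ)‖ ≤ 1 := by
    intro x
    rw [Complex.norm_real, Real.norm_of_nonneg (st_nonneg _)]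
    exact st_le _
  have hG1B : Bd L G1 := h.mul hstm hstb
  have hcB : Bd L ((HP l e).indicator G) := h.cut (HP_meas l e)
  have e1 : ∀ x, G1 x = (∑ i ∈ Finset.range (K + J), dd (2 ^ i * ((2 ^ J)⁻¹ * (lf l x - e)))) * G x := by
    intro x
    by_cases hx : x ∈ Bx L
    · simp only [hG1]
      congr 1
      have h1 := st_sum ((2 ^ J)⁻¹ * (lf l x - e)) (K + J)
      have h2 : (2 : ℝ) ^ (K + J) * ((2 ^ J)⁻¹ * (lf l x - e)) = 2 ^ K * (lf l x - e) := by
        rw [pow_add]
        have : (2 : ℝ) ^ J ≠ 0 := by positivity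
        field_simp
      rw [h2] at h1
      rw [h1]
      have h3 : st ((2 ^ J)⁻¹ * (lf l x - e)) = 0 := by
        apply st_zero
        rw [inv_mul_le_iff₀ (by positivity), mul_one]
        have h4 := lf_le hl hx
        have h5 := abs_sub (lf l x) e
        have h6 := le_abs_self (lf l x - e)
        linarith
      rw [h3]
      simp
    · rw [hG1B.supp x hx, h.supp x hx, mul_zero]
  have hN1 : N4 G1 t ≤ ((K + J : ℕ) : ℝ≥0∞) * (ND * N4 G t) := by
    rw [show G1 = _ from funext e1]
    exact N4_dd_sum h l ((2 ^ J)⁻¹) e t (K + J)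
  have hRm : Measurable R := hcB.meas.sub hG1B.meas
  have hRi : Integrable R := hcB.int.sub hG1B.int
  set δ : ℝ := 2 * (2⁻¹) ^ K with hδ
  have hRs : ∀ x, x ∉ Sp l e δ L → R x = 0 := by
    intro x hx
    simp only [hR, hG1]
    by_cases hb : x ∈ Bx L
    · have h1 : ¬ (0 < lf l x - e ∧ lf l x - e < δ) := fun h2 => hx ⟨hb, h2⟩
      by_cases h2 : 0 < lf l x - e
      · have h3 : δ ≤ lf l x - e := by
          by_contra hc
          push Not at hc
          exact h1 ⟨h2, hc⟩
        have h4 : x ∈ HP l e := by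
          show e < lf l x
          linarith
        rw [indicator_of_mem h4, st_one]
        · simp
        · have h5 : (2 : ℝ) ^ K * δ = 2 := by
            rw [hδ]
            have : (2 : ℝ) ^ K * (2 * 2⁻¹ ^ K) = 2 * (2 * 2⁻¹) ^ K := by
              rw [mul_pow]
              ring
            rw [this]
            norm_num
          calc (2 : ℝ) = 2 ^ K * δ := h5.symm
            _ ≤ _ := by gcongr
      · have h4 : x ∉ HP l e := by
          intro h5
          have h6 : e < lf l x := h5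
          linarith
        rw [indicator_of_notMem h4, st_zero]
        · simp
        · push Not at h2
          have : (2 : ℝ) ^ K * (lf l x - e) ≤ 0 :=
            mul_nonpos_of_nonneg_of_nonpos (by positivity) h2
          linarith
    · rw [hcB.supp x hb, h.supp x hb]
      simp
  have hRb : ∀ x, ‖R x‖ ≤ 1 := by
    intro x
    simp only [hR, hG1]
    have h1 : (HP l e).indicator G x = (((HP l e).indicator (fun _ => (1 : ℝ)) x : ℝ) : ℂ) * G x := by
      by_cases hx : x ∈ HP l e
      · rw [indicator_of_mem hx, indicator_of_mem hx]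
        simp
      · rw [indicator_of_notMem hx, indicator_of_notMem hx]
        simp
    rw [h1, ← sub_mul, ← Complex.ofReal_sub, norm_mul, Complex.norm_real]
    apply mul_le_one₀ _ (norm_nonneg _) (h.bd x)
    rw [Real.norm_eq_abs, abs_le]
    have h2 := st_nonneg (2 ^ K * (lf l x - e))
    have h3 := st_le (2 ^ K * (lf l x - e))
    have h4 : 0 ≤ (HP l e).indicator (fun _ => (1 : ℝ)) x ∧
        (HP l e).indicator (fun _ => (1 : ℝ)) x ≤ 1 := by
      by_cases hx : x ∈ HP l e
      · rw [indicator_of_mem hx]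
        norm_num
      · rw [indicator_of_notMem hx]
        norm_num
    constructor <;> linarith [h4.1, h4.2]
  have hNR : N4 R t ≤ (ENNReal.ofReal ((2 * Real.pi) ^ 2 * (4 * L) ^ 3) *
      ENNReal.ofReal ((2⁻¹) ^ K) ^ 3) ^ (1 / 4 : ℝ) := by
    unfold N4
    apply ENNReal.rpow_le_rpow _ (by norm_num)
    have hv := Sp_vol hl e δ L hL
    have hvt : volume (Sp l e δ L) < ⊤ :=
      hv.trans_lt (ENNReal.mul_lt_top ENNReal.ofReal_lt_top ENNReal.ofReal_lt_top)
    refine (triv4 (Sp_meas l e δ L) hvt hRm hRb hRs t).trans ?_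
    calc ENNReal.ofReal ((2 * Real.pi) ^ 2) * volume (Sp l e δ L) ^ 3
        ≤ ENNReal.ofReal ((2 * Real.pi) ^ 2) * (ENNReal.ofReal (2 * L) * ENNReal.ofReal δ) ^ 3 := by
          gcongr
      _ = ENNReal.ofReal ((2 * Real.pi) ^ 2 * (4 * L) ^ 3) * ENNReal.ofReal ((2⁻¹) ^ K) ^ 3 := by
          rw [← ENNReal.ofReal_mul (by positivity), ← ENNReal.ofReal_pow (by positivity),
            ← ENNReal.ofReal_pow (by positivity), ← ENNReal.ofReal_mul (by positivity),
            ← ENNReal.ofReal_mul (by positivity)]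
          congr 1
          rw [hδ]
          ring
  have e2 : (HP l e).indicator G = fun x => G1 x + R x := by
    ext x
    simp only [hR]
    ring
  rw [e2]
  exact (N4_add hG1B.meas hRm hG1B.int hRi t).trans (add_le_add hN1 hNR)

end Pool.Agent.P8H98.HG
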