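import Mathlib
import Pool.Agent.P8H98.HG.Cut2
set_option autoImplicit false

/-! Cutting by polygons; homogeneous functions on squares. -/

namespace Pool.Agent.P8H98.HG

open MeasureTheory Set Complex
open scoped ENNReal NNReal ComplexConjugate ContDiff
open Pool.Agent.TH277.CS (s2)
open Pool.Agent.TH277.CB (pq E2 pq_norm pq_cont scale_neg s2_cont)
open Pool.Agent.TH277.HT (ch ch_norm ch_cont ch_add)

/-- the error of a cut -/
noncomputable def er (L : ℝ) (K : ℕ) : ℝ≥0∞ :=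
  (ENNReal.ofReal ((2 * Real.pi) ^ 2 * (4 * L) ^ 3) * ENNReal.ofReal ((2⁻¹) ^ K) ^ 3) ^ (1 / 4 : ℝ)

/-- the factor of a cut -/
noncomputable def fa (J K : ℕ) : ℝ≥0∞ := ((K + J : ℕ) : ℝ≥0∞) * ND + 2

lemma fa_one (J K : ℕ) : 1 ≤ fa J K := by
  unfold fa
  calc (1 : ℝ≥0∞) ≤ 2 := by norm_num
    _ ≤ _ := le_add_self

lemma N4_zero (t : ℝ) : N4 (fun _ => 0) t = 0 := by
  unfold N4 Pool.Agent.TH277.CB.E2
  simp

/-- One cut by an arbitrary half plane. -/
lemma cut_any {L : ℝ} (hL : 0 ≤ L) {J : ℕ} (hJ : 4 * L ≤ 2 ^ J) {G : ℝ × ℝ → ℂ} (h : Bd L G)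
    (l : ℝ × ℝ) (e : ℝ) (t : ℝ) (K : ℕ) :
    N4 ((HP l e).indicator G) t + er L K ≤ fa J K * (N4 G t + er L K) := by
  have htriv : ∀ {F : ℝ × ℝ → ℂ}, N4 F t ≤ N4 G t →
      N4 F t + er L K ≤ fa J K * (N4 G t + er L K) := by
    intro F hF
    calc N4 F t + er L K ≤ 1 * (N4 G t + er L K) := by
          rw [one_mul]
          gcongr
      _ ≤ _ := by
          gcongr
          exact fa_one J K
  have hall : (∀ x ∈ Bx L, x ∈ HP l e) → N4 ((HP l e).indicator G) t + er L K ≤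
      fa J K * (N4 G t + er L K) := by
    intro h1
    have h2 : (HP l e).indicator G = G := by
      ext x
      by_cases hx : x ∈ Bx L
      · rw [indicator_of_mem (h1 x hx)]
      · rw [h.supp x hx]
        by_cases h3 : x ∈ HP l e
        · rw [indicator_of_mem h3, h.supp x hx]
        · rw [indicator_of_notMem h3]
    rw [h2]
    exact htriv le_rfl
  have hnone : (∀ x ∈ Bx L, x ∉ HP l e) → N4 ((HP l e).indicator G) t + er L K ≤
      fa J K * (N4 G t + er L K) := by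
    intro h1
    have h2 : (HP l e).indicator G = fun _ => 0 := by
      ext x
      by_cases hx : x ∈ Bx L
      · rw [indicator_of_notMem (h1 x hx)]
      · by_cases h3 : x ∈ HP l e
        · rw [indicator_of_mem h3, h.supp x hx]
        · rw [indicator_of_notMem h3]
    rw [h2]
    exact htriv (by rw [N4_zero]; exact zero_le)
  set m : ℝ := max |l.1| |l.2| with hm
  rcases (le_max_of_le_left (abs_nonneg l.1) : 0 ≤ m).eq_or_lt with hm0 | hm0
  · have h1 : |l.1| ≤ 0 := (le_max_left _ _).trans hm0.ge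
    have h2 : |l.2| ≤ 0 := (le_max_right _ _).trans hm0.ge
    have h3 : l.1 = 0 := abs_nonpos_iff.1 h1
    have h4 : l.2 = 0 := abs_nonpos_iff.1 h2
    have h5 : ∀ x, lf l x = 0 := by
      intro x
      unfold lf
      rw [h3, h4]
      ring
    by_cases h6 : e < 0
    · apply hall
      intro x _
      show e < lf l x
      rw [h5]
      exact h6
    · apply hnone
      intro x _ hx
      have h7 : e < lf l x := hx
      rw [h5] at h7
      exact h6 h7
  · set l' : ℝ × ℝ := (l.1 / m, l.2 / m) with hl'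
    set e' : ℝ := e / m with he'
    have hset : HP l e = HP l' e' := by
      ext x
      show e < lf l x ↔ e / m < lf l' x
      have h1 : lf l' x = lf l x / m := by
        unfold lf
        simp only [hl']
        ring
      rw [h1, div_lt_div_iff_of_pos_right hm0]
    have hN : Nrm l' := by
      refine ⟨?_, ?_, ?_⟩
      · simp only [hl']
        rw [abs_div, abs_of_pos hm0, div_le_one hm0]
        exact le_max_left _ _
      · simp only [hl']
        rw [abs_div, abs_of_pos hm0, div_le_one hm0]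
        exact le_max_right _ _
      · simp only [hl']
        rw [abs_div, abs_div, abs_of_pos hm0, div_eq_one_iff_eq hm0.ne',
          div_eq_one_iff_eq hm0.ne']
        rcases max_cases |l.1| |l.2| with h1 | h1
        · left
          exact h1.1.symm
        · right
          exact h1.1.symm
    by_cases he : |e'| ≤ 2 * L
    · rw [hset]
      have h1 := cut_step hL hJ h hN he t K
      have h2 : N4 ((HP l' e').indicator G) t ≤ ((K + J : ℕ) : ℝ≥0∞) * (ND * N4 G t) + er L K := h1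
      unfold fa
      calc N4 ((HP l' e').indicator G) t + er L K ≤
            (((K + J : ℕ) : ℝ≥0∞) * (ND * N4 G t) + er L K) + er L K := by gcongr
        _ = ((K + J : ℕ) : ℝ≥0∞) * ND * N4 G t + 2 * er L K := by ring
        _ ≤ (((K + J : ℕ) : ℝ≥0∞) * ND + 2) * N4 G t + (((K + J : ℕ) : ℝ≥0∞) * ND + 2) * er L K := by
            gcongr
            · exact le_self_add
            · exact le_add_self
        _ = _ := by ring
    · push Not at he
      rw [hset] at hall hnone ⊢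
      rcases lt_abs.1 he with h1 | h1
      · apply hnone
        intro x hx hx2
        have h2 : e' < lf l' x := hx2
        have h3 := (abs_le.1 (lf_le hN hx)).2
        linarith
      · apply hall
        intro x hx
        show e' < lf l' x
        have h3 := (abs_le.1 (lf_le hN hx)).1
        linarith

/-- the polygon -/
def Pg {n : ℕ} (ν : Fin n → ℝ × ℝ) (c : Fin n → ℝ) : Set (ℝ × ℝ) := {x | ∀ i, c i < lf (ν i) x}

lemma Pg_meas {n : ℕ} (ν : Fin n → ℝ × ℝ) (c : Fin n → ℝ) : MeasurableSet (Pg ν c) := by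
  have : Pg ν c = ⋂ i, HP (ν i) (c i) := by
    ext x
    simp [Pg, HP]
  rw [this]
  exact MeasurableSet.iInter fun i => HP_meas _ _

lemma cut_poly {L : ℝ} (hL : 0 ≤ L) {J : ℕ} (hJ : 4 * L ≤ 2 ^ J) {n : ℕ} (ν : Fin n → ℝ × ℝ)
    (c : Fin n → ℝ) {G : ℝ × ℝ → ℂ} (h : Bd L G) (t : ℝ) (K : ℕ) :
    N4 ((Pg ν c).indicator G) t + er L K ≤ fa J K ^ n * (N4 G t + er L K) := by
  induction n with
  | zero =>
    have h1 : (Pg ν c).indicator G = G := by
      ext x
      rw [indicator_of_mem]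
      intro i
      exact i.elim0
    rw [h1, pow_zero, one_mul]
  | succ n ih =>
    have h1 : (Pg ν c).indicator G = (HP (ν 0) (c 0)).indicator
        ((Pg (fun i => ν i.succ) (fun i => c i.succ)).indicator G) := by
      rw [indicator_indicator]
      congr 1
      ext x
      simp only [Pg, HP, mem_ofPred_eq, mem_inter_iff]
      rw [Fin.forall_fin_succ]
    rw [h1]
    have h2 := cut_any hL hJ (h.cut (Pg_meas (fun i => ν i.succ) (fun i => c i.succ))) (ν 0) (c 0)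
      t K
    refine h2.trans ?_
    rw [pow_succ']
    calc fa J K * _ ≤ fa J K * (fa J K ^ n * (N4 G t + er L K)) := by
          gcongr
          exact ih _ _
      _ = _ := by ring

/-- the number of scales -/
noncomputable def Kt (t : ℝ) : ℕ := ⌈Real.logb 2 |t|⌉₊

lemma Kt_low {t : ℝ} (ht : 1 ≤ |t|) : |t| ≤ 2 ^ Kt t := by
  have h1 : Real.logb 2 |t| ≤ Kt t := Nat.le_ceil _
  have h2 : (2 : ℝ) ^ (Real.logb 2 |t|) ≤ (2 : ℝ) ^ ((Kt t : ℕ) : ℝ) :=
    Real.rpow_le_rpow_of_exponent_le (by norm_num) h1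
  rw [Real.rpow_logb (by norm_num) (by norm_num) (by linarith), Real.rpow_natCast] at h2
  exact h2

lemma Kt_up {t γ : ℝ} (ht : 1 ≤ |t|) (hγ : 0 < γ) :
    (Kt t : ℝ) ≤ (1 + 1 / (γ * Real.log 2)) * |t| ^ γ := by
  have h0 : 0 ≤ Real.logb 2 |t| := Real.logb_nonneg (by norm_num) ht
  have h1 : (Kt t : ℝ) < Real.logb 2 |t| + 1 := Nat.ceil_lt_add_one h0
  have hl2 : 0 < Real.log 2 := Real.log_pos (by norm_num)
  have h2 : Real.log |t| ≤ |t| ^ γ / γ := Real.log_le_rpow_div (by linarith) hγ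
  have h3 : 1 ≤ |t| ^ γ := Real.one_le_rpow ht hγ.le
  have h4 : Real.logb 2 |t| ≤ 1 / (γ * Real.log 2) * |t| ^ γ := by
    unfold Real.logb
    calc Real.log |t| / Real.log 2 ≤ (|t| ^ γ / γ) / Real.log 2 := by gcongr
      _ = _ := by
        field_simp
  linarith

lemma er_le {L : ℝ} {t a : ℝ} (ht : 1 ≤ |t|) (ha : a ≤ 3 / 4) :
    er L (Kt t) ≤ ENNReal.ofReal ((2 * Real.pi) ^ 2 * (4 * L) ^ 3) ^ (1 / 4 : ℝ) *
      ENNReal.ofReal (|t| ^ (-a)) := by
  have ht0 : 0 < |t| := by linarith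
  unfold er
  rw [ENNReal.mul_rpow_of_nonneg _ _ (by norm_num)]
  gcongr
  have h1 : ((2 : ℝ)⁻¹) ^ (Kt t) ≤ |t|⁻¹ := by
    rw [inv_pow]
    exact inv_anti₀ ht0 (Kt_low ht)
  calc (ENNReal.ofReal ((2⁻¹) ^ Kt t) ^ 3) ^ (1 / 4 : ℝ)
      ≤ (ENNReal.ofReal (|t|⁻¹) ^ 3) ^ (1 / 4 : ℝ) := by gcongr
    _ = ENNReal.ofReal (|t| ^ (-(3 / 4) : ℝ)) := by
        rw [← ENNReal.rpow_natCast, ← ENNReal.rpow_mul, ENNReal.ofReal_rpow_of_pos (by positivity),
          Real.inv_rpow ht0.le, ← Real.rpow_neg ht0.le]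
        congr 2
        norm_num
    _ ≤ _ := by
        apply ENNReal.ofReal_le_ofReal
        exact Real.rpow_le_rpow_of_exponent_le ht (by linarith)

lemma fa_le (J : ℕ) {γ : ℝ} (hγ : 0 < γ) : ∃ C : ℝ≥0∞, C < ⊤ ∧ ∀ t : ℝ, 1 ≤ |t| →
    fa J (Kt t) ≤ C * ENNReal.ofReal (|t| ^ γ) := by
  set B : ℝ := (1 + 1 / (γ * Real.log 2)) + J with hB
  have hl2 : 0 < Real.log 2 := Real.log_pos (by norm_num)
  have hB0 : 0 ≤ B := by positivity
  refine ⟨ENNReal.ofReal B * ND + 2, ?_, ?_⟩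
  · exact ENNReal.add_lt_top.2 ⟨ENNReal.mul_lt_top ENNReal.ofReal_lt_top ND_lt, by norm_num⟩
  intro t ht
  have h3 : 1 ≤ |t| ^ γ := Real.one_le_rpow ht hγ.le
  have h3' : 1 ≤ ENNReal.ofReal (|t| ^ γ) := ENNReal.one_le_ofReal.2 h3
  have h1 : ((Kt t + J : ℕ) : ℝ≥0∞) ≤ ENNReal.ofReal B * ENNReal.ofReal (|t| ^ γ) := by
    rw [← ENNReal.ofReal_mul hB0, ← ENNReal.ofReal_natCast]
    apply ENNReal.ofReal_le_ofReal
    push_cast
    have h2 := Kt_up ht hγ
    have h4 : (J : ℝ) * 1 ≤ J * |t| ^ γ := by gcongr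
    rw [hB, add_mul]
    linarith
  unfold fa
  calc ((Kt t + J : ℕ) : ℝ≥0∞) * ND + 2
      ≤ (ENNReal.ofReal B * ENNReal.ofReal (|t| ^ γ)) * ND + 2 * ENNReal.ofReal (|t| ^ γ) := by
        gcongr
        calc (2 : ℝ≥0∞) = 2 * 1 := (mul_one _).symm
          _ ≤ _ := by gcongr
    _ = _ := by ring

/-- Uniform decay of a class of functions. -/
def CD (𝓕 : Set (ℝ × ℝ → ℂ)) (a : ℝ) : Prop :=
  ∃ C : ℝ≥0∞, C < ⊤ ∧ ∀ f ∈ 𝓕, ∀ t : ℝ, 1 ≤ |t| → N4 f t ≤ C * ENNReal.ofReal (|t| ^ (-a))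

/-- Decay is kept, up to an arbitrarily small loss, under cutting by polygons. -/
theorem CD.poly {𝓕 : Set (ℝ × ℝ → ℂ)} {a a' L : ℝ} (h : CD 𝓕 a) (ha : a ≤ 3 / 4) (ha' : a' < a)
    (hL : 0 ≤ L) (hB : ∀ f ∈ 𝓕, Bd L f) (n : ℕ) :
    CD {g | ∃ f ∈ 𝓕, ∃ (ν : Fin n → ℝ × ℝ) (c : Fin n → ℝ), g = (Pg ν c).indicator f} a' := by
  obtain ⟨C, hC, hC2⟩ := h
  obtain ⟨J, hJ⟩ : ∃ J : ℕ, 4 * L ≤ 2 ^ J := pow_unbounded_of_one_lt (4 * L) (by norm_num)
    |>.imp fun J h => h.le
  set γ : ℝ := (a - a') / (n + 1) with hγ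
  have hn : (0 : ℝ) < n + 1 := by positivity
  have hγ0 : 0 < γ := div_pos (by linarith) hn
  obtain ⟨D, hD, hD2⟩ := fa_le J hγ0
  set E : ℝ≥0∞ := ENNReal.ofReal ((2 * Real.pi) ^ 2 * (4 * L) ^ 3) ^ (1 / 4 : ℝ) with hE
  refine ⟨D ^ n * (C + E), ?_, ?_⟩
  · apply ENNReal.mul_lt_top (ENNReal.pow_lt_top hD)
    exact ENNReal.add_lt_top.2 ⟨hC, ENNReal.rpow_lt_top_of_nonneg (by norm_num)
      ENNReal.ofReal_ne_top⟩
  rintro g ⟨f, hf, ν, c, rfl⟩ t ht
  have ht0 : 0 < |t| := by linarith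
  calc N4 ((Pg ν c).indicator f) t ≤ N4 ((Pg ν c).indicator f) t + er L (Kt t) := le_self_add
    _ ≤ fa J (Kt t) ^ n * (N4 f t + er L (Kt t)) := cut_poly hL hJ ν c (hB f hf) t (Kt t)
    _ ≤ (D * ENNReal.ofReal (|t| ^ γ)) ^ n * (C * ENNReal.ofReal (|t| ^ (-a)) +
          E * ENNReal.ofReal (|t| ^ (-a))) := by
        gcongr
        · exact hD2 t ht
        · exact hC2 f hf t ht
        · exact er_le ht ha
    _ = D ^ n * (C + E) * ENNReal.ofReal (|t| ^ (n * γ - a)) := by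
        rw [mul_pow, ← ENNReal.ofReal_pow (by positivity), ← Real.rpow_natCast,
          ← Real.rpow_mul ht0.le]
        have h1 : ENNReal.ofReal (|t| ^ (n * γ - a)) =
            ENNReal.ofReal (|t| ^ (γ * (n : ℝ))) * ENNReal.ofReal (|t| ^ (-a)) := by
          rw [← ENNReal.ofReal_mul (by positivity), ← Real.rpow_add ht0]
          congr 2
          ring
        rw [h1]
        ring
    _ ≤ _ := by
        gcongr
        have h1 : (n : ℝ) * γ ≤ (n + 1) * γ := by
          gcongr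
          linarith
        have h2 : ((n : ℝ) + 1) * γ = a - a' := by
          rw [hγ]
          field_simp
        linarith

end Pool.Agent.P8H98.HG
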