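import Mathlib
import Pool.Agent.P8H98.HG.Chain
set_option autoImplicit false

/-! Dilations, reflections and translations; homogeneous functions on squares. -/

namespace Pool.Agent.P8H98.HG

open MeasureTheory Set Complex
open scoped ENNReal NNReal ComplexConjugate ContDiff
open Pool.Agent.TH277.CS (s2)
open Pool.Agent.TH277.CB (pq E2 pq_norm pq_cont scale_neg s2_cont)
open Pool.Agent.TH277.HT (ch ch_norm ch_cont ch_add)

/-- Dilations. -/
lemma E2_scale (f : ℝ × ℝ → ℂ) {c : ℝ} (hc : 0 < c) (y : ℝ × ℝ) (t : ℝ) :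
    E2 (fun x => f (c • x)) y t = ((c⁻¹ ^ 2 : ℝ) : ℂ) * E2 f (c⁻¹ • y) (t / c ^ 2) := by
  unfold Pool.Agent.TH277.CB.E2
  set F : ℝ × ℝ → ℂ := fun x => pq (c⁻¹ • y) (t / c ^ 2) x * f x with hF
  have h1 : ∀ x, pq y t x * f (c • x) = F (c • x) := by
    intro x
    simp only [hF]
    congr 1
    unfold Pool.Agent.TH277.CB.pq
    congr 1
    have hs : s2 (c • x) = c ^ 2 * s2 x := by
      show (c • x).1 ^ 2 + (c • x).2 ^ 2 = c ^ 2 * (x.1 ^ 2 + x.2 ^ 2)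
      simp only [Prod.smul_fst, Prod.smul_snd, smul_eq_mul]
      ring
    rw [hs]
    simp only [Prod.smul_fst, Prod.smul_snd, smul_eq_mul]
    field_simp
  simp only [h1]
  rw [Measure.integral_comp_smul volume F c]
  have hfr : Module.finrank ℝ (ℝ × ℝ) = 2 := by simp
  rw [hfr, abs_of_nonneg (by positivity), Complex.real_smul, inv_pow]

lemma lint_scale (H : ℝ × ℝ → ℝ≥0∞) (hH : Measurable H) {c : ℝ} (hc : 0 < c) :
    ∫⁻ y, H (c⁻¹ • y) = ENNReal.ofReal (c ^ 2) * ∫⁻ y, H y := by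
  have h0 : c⁻¹ ≠ 0 := inv_ne_zero hc.ne'
  have h1 := Measure.map_addHaar_smul (volume : Measure (ℝ × ℝ)) h0
  have h2 : ∫⁻ y, H (c⁻¹ • y) =
      ∫⁻ y, H y ∂(Measure.map ((c⁻¹) • · : ℝ × ℝ → ℝ × ℝ) volume) :=
    (lintegral_map hH (measurable_const_smul _)).symm
  rw [h2, h1, lintegral_smul_measure, smul_eq_mul]
  have hfr : Module.finrank ℝ (ℝ × ℝ) = 2 := by simp
  rw [hfr]
  congr 2
  rw [inv_pow, inv_inv, abs_of_nonneg (by positivity)]

lemma N4_scale {f : ℝ × ℝ → ℂ} (hf : Measurable f) {c : ℝ} (hc : 0 < c) (t : ℝ) :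
    N4 (fun x => f (c • x)) t = ENNReal.ofReal (c ^ (-(3 / 2) : ℝ)) * N4 f (t / c ^ 2) := by
  unfold N4
  have h1 : ∀ y, ‖E2 (fun x => f (c • x)) y t‖ₑ ^ 4 =
      ENNReal.ofReal (c⁻¹ ^ 8) * ‖E2 f (c⁻¹ • y) (t / c ^ 2)‖ₑ ^ 4 := by
    intro y
    rw [E2_scale f hc, enorm_mul, mul_pow]
    congr 1
    rw [← ofReal_norm, Complex.norm_real, Real.norm_of_nonneg (by positivity),
      ← ENNReal.ofReal_pow (by positivity)]
    congr 1
    ring
  simp only [h1]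
  have hm : Measurable fun y => ‖E2 f y (t / c ^ 2)‖ₑ ^ 4 := (E2_meas1 hf _).enorm.pow_const 4
  have hm2 : Measurable fun y : ℝ × ℝ => ‖E2 f (c⁻¹ • y) (t / c ^ 2)‖ₑ ^ 4 :=
    hm.comp (measurable_const_smul (c⁻¹))
  rw [lintegral_const_mul _ hm2, lint_scale (fun y => ‖E2 f y (t / c ^ 2)‖ₑ ^ 4) hm hc,
    ← mul_assoc, ← ENNReal.ofReal_mul (by positivity),
    ENNReal.mul_rpow_of_nonneg _ _ (by norm_num),
    ENNReal.ofReal_rpow_of_nonneg (by positivity) (by norm_num)]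
  congr 2
  have h2 : c⁻¹ ^ 8 * c ^ 2 = c ^ (-(6 : ℝ)) := by
    rw [Real.rpow_neg hc.le, show (6 : ℝ) = ((6 : ℕ) : ℝ) by norm_num, Real.rpow_natCast]
    field_simp
  rw [h2, ← Real.rpow_mul hc.le]
  norm_num

/-- Composition with a measure preserving isometry of the plane which is an involution. -/
lemma N4_inv {R : ℝ × ℝ → ℝ × ℝ} (hR : MeasurePreserving R) (hRe : MeasurableEmbedding R)
    (hRR : ∀ y t x, pq y t (R x) = pq (R y) t x) (hRI : ∀ x, R (R x) = x) {f : ℝ × ℝ → ℂ}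
    (hf : Measurable f) (t : ℝ) :
    N4 (fun x => f (R x)) t = N4 f t := by
  have h1 : ∀ y, E2 (fun x => f (R x)) y t = E2 f (R y) t := by
    intro y
    unfold Pool.Agent.TH277.CB.E2
    rw [← hR.integral_comp hRe (fun x => pq (R y) t x * f x)]
    apply integral_congr_ae
    refine ae_of_all _ fun x => ?_
    simp only
    rw [hRR, hRI]
  unfold N4
  simp only [h1]
  congr 1
  exact hR.lintegral_comp ((E2_meas1 hf t).enorm.pow_const 4)

/-- the swap -/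
def sw (x : ℝ × ℝ) : ℝ × ℝ := (x.2, x.1)

/-- first reflection -/
def n1 (x : ℝ × ℝ) : ℝ × ℝ := (-x.1, x.2)

/-- second reflection -/
def n2 (x : ℝ × ℝ) : ℝ × ℝ := (x.1, -x.2)

lemma pq_congr' {y y' x x' : ℝ × ℝ} {t : ℝ} (h1 : x.1 * y.1 + x.2 * y.2 = x'.1 * y'.1 + x'.2 * y'.2)
    (h2 : x.1 ^ 2 + x.2 ^ 2 = x'.1 ^ 2 + x'.2 ^ 2) : pq y t x = pq y' t x' := by
  unfold Pool.Agent.TH277.CB.pq
  congr 1
  have h3 : s2 x = s2 x' := h2
  rw [h1, h3]

lemma N4_sw {f : ℝ × ℝ → ℂ} (hf : Measurable f) (t : ℝ) : N4 (fun x => f (sw x)) t = N4 f t := by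
  apply N4_inv (R := sw) _ _ _ (fun x => rfl) hf
  · exact Measure.measurePreserving_swap
  · exact MeasurableEquiv.prodComm.measurableEmbedding
  · intro y t x
    apply pq_congr' <;> simp only [sw] <;> ring

lemma N4_n1 {f : ℝ × ℝ → ℂ} (hf : Measurable f) (t : ℝ) : N4 (fun x => f (n1 x)) t = N4 f t := by
  apply N4_inv (R := n1) _ _ _ (fun x => by simp [n1]) hf
  · exact (Measure.measurePreserving_neg (volume : Measure ℝ)).prod (MeasurePreserving.id _)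
  · exact ((MeasurableEquiv.neg ℝ).prodCongr (MeasurableEquiv.refl ℝ)).measurableEmbedding
  · intro y t x
    apply pq_congr' <;> simp only [n1] <;> ring

lemma N4_n2 {f : ℝ × ℝ → ℂ} (hf : Measurable f) (t : ℝ) : N4 (fun x => f (n2 x)) t = N4 f t := by
  apply N4_inv (R := n2) _ _ _ (fun x => by simp [n2]) hf
  · exact (MeasurePreserving.id _).prod (Measure.measurePreserving_neg (volume : Measure ℝ))
  · exact ((MeasurableEquiv.refl ℝ).prodCongr (MeasurableEquiv.neg ℝ)).measurableEmbedding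
  · intro y t x
    apply pq_congr' <;> simp only [n2] <;> ring

lemma sw_meas : Measurable sw := measurable_snd.prodMk measurable_fst
lemma n1_meas : Measurable n1 := measurable_fst.neg.prodMk measurable_snd
lemma n2_meas : Measurable n2 := measurable_fst.prodMk measurable_snd.neg

/-- an admissible homogeneous function -/
structure Ad (Ω : ℝ × ℝ → ℂ) : Prop where
  meas : Measurable Ω
  bd : ∀ x, ‖Ω x‖ ≤ 1
  hom : Hom Ω

lemma Ad.sw {Ω : ℝ × ℝ → ℂ} (h : Ad Ω) : Ad (fun x => Ω (sw x)) :=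
  ⟨h.meas.comp sw_meas, fun _ => h.bd _, fun x r hr => h.hom (x.2, x.1) r hr⟩

lemma Ad.n1 {Ω : ℝ × ℝ → ℂ} (h : Ad Ω) : Ad (fun x => Ω (n1 x)) := by
  refine ⟨h.meas.comp n1_meas, fun _ => h.bd _, fun x r hr => ?_⟩
  have := h.hom (-x.1, x.2) r hr
  simp only [HG.n1]
  rw [← this]
  congr 1
  simp only [mul_neg]

lemma Ad.n2 {Ω : ℝ × ℝ → ℂ} (h : Ad Ω) : Ad (fun x => Ω (n2 x)) := by
  refine ⟨h.meas.comp n2_meas, fun _ => h.bd _, fun x r hr => ?_⟩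
  have := h.hom (x.1, -x.2) r hr
  simp only [HG.n2]
  rw [← this]
  congr 1
  simp only [mul_neg]

/-- the base piece -/
noncomputable def fS (Ω : ℝ × ℝ → ℂ) : ℝ × ℝ → ℂ := (Sec ∩ {x | 1 / 2 < x.1 ∧ x.1 < 1}).indicator Ω

/-- the full sector -/
noncomputable def fI (Ω : ℝ × ℝ → ℂ) : ℝ × ℝ → ℂ := (Sec ∩ {x | x.1 < 1}).indicator Ω

lemma hh_Bd {Ω : ℝ × ℝ → ℂ} (h : Ad Ω) : Bd 2 (hh Ω) := by
  refine ⟨hh_meas h.meas, fun x => ?_, fun x hx => ?_⟩
  · unfold hh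
    by_cases hx : x ∈ Sec
    · rw [indicator_of_mem hx, norm_mul, Complex.norm_real, Real.norm_of_nonneg (aw_nonneg _)]
      exact mul_le_one₀ (h.bd x) (aw_nonneg _) (aw_le _)
    · rw [indicator_of_notMem hx, norm_zero]
      exact zero_le_one
  · unfold hh
    by_cases hx' : x ∈ Sec
    · rw [indicator_of_mem hx']
      have h1 : 2 < x.1 := by
        by_contra hc
        push Not at hc
        apply hx
        have h2 := hx'.1
        have h3 := hx'.2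
        exact ⟨⟨by linarith, hc⟩, ⟨by linarith, by linarith⟩⟩
      rw [aw_zero_right h1.le]
      simp
    · rw [indicator_of_notMem hx']

lemma fS_eq (Ω : ℝ × ℝ → ℂ) : fS Ω =
    (Pg ![((1 : ℝ), (0 : ℝ)), ((-1 : ℝ), (0 : ℝ))] ![1 / 2, -1]).indicator (hh Ω) := by
  have hset : Pg ![((1 : ℝ), (0 : ℝ)), ((-1 : ℝ), (0 : ℝ))] ![1 / 2, -1] =
      {x | 1 / 2 < x.1 ∧ x.1 < 1} := by
    ext x
    simp only [Pg, mem_ofPred_eq, Fin.forall_fin_two, lf]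
    simp
  rw [hset]
  unfold fS hh
  rw [inter_comm, ← indicator_indicator]
  ext x
  by_cases hx : x ∈ {x : ℝ × ℝ | 1 / 2 < x.1 ∧ x.1 < 1}
  · rw [indicator_of_mem hx, indicator_of_mem hx]
    by_cases h2 : x ∈ Sec
    · rw [indicator_of_mem h2, indicator_of_mem h2, aw_one (by linarith [hx.1]) (by linarith [hx.2])]
      simp
    · rw [indicator_of_notMem h2, indicator_of_notMem h2]
  · rw [indicator_of_notMem hx, indicator_of_notMem hx]

/-- decay of the base pieces -/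
lemma CD_base {a : ℝ} (ha : a < 1 / 2) : CD {f | ∃ Ω, Ad Ω ∧ f = fS Ω} a := by
  -- choose an intermediate exponent
  set b : ℝ := max (1 / 4) ((a + 1 / 2) / 2) with hb
  have hb1 : 1 / 4 ≤ b := le_max_left _ _
  have hb2 : a < b := lt_of_lt_of_le (by linarith) (le_max_right _ _)
  have hb3 : b < 1 / 2 := max_lt (by norm_num) (by linarith)
  set s : ℝ := 4 * b - 1 with hs
  obtain ⟨C, hC, hC2⟩ := base4 s (by linarith) (by linarith)
  have h1 : CD {f | ∃ Ω, Ad Ω ∧ f = hh Ω} b := by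
    refine ⟨C ^ (1 / 4 : ℝ), ENNReal.rpow_lt_top_of_nonneg (by norm_num) hC.ne, ?_⟩
    rintro f ⟨Ω, hΩ, rfl⟩ t ht
    unfold N4
    have h2 := ENNReal.rpow_le_rpow (hC2 Ω hΩ.meas hΩ.bd hΩ.hom t ht)
      (by norm_num : (0 : ℝ) ≤ 1 / 4)
    refine h2.trans (le_of_eq ?_)
    rw [ENNReal.mul_rpow_of_nonneg _ _ (by norm_num),
      ENNReal.ofReal_rpow_of_nonneg (by positivity) (by norm_num), ← Real.rpow_mul (abs_nonneg t)]
    congr 3
    rw [hs]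
    ring
  have h2 := h1.poly (by linarith) hb2 (by norm_num : (0 : ℝ) ≤ 2) (by
    rintro f ⟨Ω, hΩ, rfl⟩
    exact hh_Bd hΩ) 2
  obtain ⟨C', hC', h3⟩ := h2
  refine ⟨C', hC', ?_⟩
  rintro f ⟨Ω, hΩ, rfl⟩ t ht
  exact h3 _ ⟨hh Ω, ⟨Ω, hΩ, rfl⟩, _, _, fS_eq Ω⟩ t ht

lemma fI_meas {Ω : ℝ × ℝ → ℂ} (h : Ad Ω) : Measurable (fI Ω) :=
  h.meas.indicator (Sec_meas.inter (measurableSet_lt measurable_fst measurable_const))

lemma fI_Bd {Ω : ℝ × ℝ → ℂ} (h : Ad Ω) : Bd 1 (fI Ω) := by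
  refine ⟨fI_meas h, fun x => ?_, fun x hx => ?_⟩
  · unfold fI
    by_cases hx : x ∈ Sec ∩ {x | x.1 < 1}
    · rw [indicator_of_mem hx]
      exact h.bd x
    · rw [indicator_of_notMem hx, norm_zero]
      exact zero_le_one
  · unfold fI
    rw [indicator_of_notMem]
    rintro ⟨⟨h1, h2⟩, h3⟩
    have h4 : x.1 < 1 := h3
    exact hx ⟨⟨by linarith, h4.le⟩, ⟨by linarith, by linarith⟩⟩

lemma fS_Bd {Ω : ℝ × ℝ → ℂ} (h : Ad Ω) : Bd 2 (fS Ω) := by
  rw [fS_eq]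
  exact (hh_Bd h).cut (Pg_meas _ _)

lemma fst_null (c : ℝ) : ∀ᵐ x : ℝ × ℝ, x.1 ≠ c := by
  rw [ae_iff]
  have h1 : {x : ℝ × ℝ | ¬ x.1 ≠ c} = {c} ×ˢ univ := by
    ext x
    simp
  rw [h1, Measure.volume_eq_prod, Measure.prod_prod]
  simp

lemma snd_null (c : ℝ) : ∀ᵐ x : ℝ × ℝ, x.2 ≠ c := by
  rw [ae_iff]
  have h1 : {x : ℝ × ℝ | ¬ x.2 ≠ c} = univ ×ˢ {c} := by
    ext x
    simp
  rw [h1, Measure.volume_eq_prod, Measure.prod_prod]
  simp

lemma fI_split {Ω : ℝ × ℝ → ℂ} (h : Ad Ω) :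
    fI Ω =ᵐ[volume] fun x => fS Ω x + fI Ω ((2 : ℝ) • x) := by
  filter_upwards [fst_null (1 / 2)] with x hx
  unfold fI fS
  have h2 : Ω ((2 : ℝ) • x) = Ω x := h.hom x 2 (by norm_num)
  have hsec : (2 : ℝ) • x ∈ Sec ↔ x ∈ Sec := by
    show (0 < 2 * x.2 ∧ 2 * x.2 ≤ 2 * x.1) ↔ (0 < x.2 ∧ x.2 ≤ x.1)
    constructor <;> rintro ⟨h1, h2⟩ <;> constructor <;> linarith
  by_cases hs : x ∈ Sec
  · rcases lt_or_gt_of_ne hx with h3 | h3
    · rw [indicator_of_mem (show x ∈ Sec ∩ {x | x.1 < 1} from ⟨hs, by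
        show x.1 < 1
        linarith⟩), indicator_of_notMem, indicator_of_mem, zero_add, h2]
      · refine ⟨hsec.2 hs, ?_⟩
        show 2 * x.1 < 1
        linarith
      · rintro ⟨_, h4, _⟩
        linarith
    · have hn : (2 : ℝ) • x ∉ Sec ∩ {x | x.1 < 1} := by
        rintro ⟨_, h4⟩
        have h5 : 2 * x.1 < 1 := h4
        linarith
      rw [indicator_of_notMem hn, add_zero]
      by_cases h4 : x.1 < 1
      · rw [indicator_of_mem (show x ∈ Sec ∩ {x | x.1 < 1} from ⟨hs, h4⟩),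
          indicator_of_mem (show x ∈ Sec ∩ {x | 1 / 2 < x.1 ∧ x.1 < 1} from ⟨hs, h3, h4⟩)]
      · rw [indicator_of_notMem (fun h5 => h4 h5.2), indicator_of_notMem (fun h5 => h4 h5.2.2)]
  · rw [indicator_of_notMem (fun h5 => hs h5.1), indicator_of_notMem (fun h5 => hs h5.1),
      indicator_of_notMem (fun h5 => hs (hsec.1 h5.1)), add_zero]

lemma triv_N4 {L : ℝ} {G : ℝ × ℝ → ℂ} (h : Bd L G) (t : ℝ) : N4 G t ≤
    (ENNReal.ofReal ((2 * Real.pi) ^ 2) * (ENNReal.ofReal (2 * L) ^ 2) ^ 3) ^ (1 / 4 : ℝ) := by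
  unfold N4
  apply ENNReal.rpow_le_rpow _ (by norm_num)
  rw [← Bx_vol]
  exact triv4 (Bx_meas L) (Bx_fin L) h.meas h.bd h.supp t

/-- decay in the full sector -/
lemma CD_fI {a : ℝ} (ha0 : 0 ≤ a) (ha : a < 1 / 2) : CD {f | ∃ Ω, Ad Ω ∧ f = fI Ω} a := by
  obtain ⟨C, hC, hC2⟩ := CD_base ha
  set C0 : ℝ≥0∞ := (ENNReal.ofReal ((2 * Real.pi) ^ 2) * (ENNReal.ofReal (2 * 1) ^ 2) ^ 3) ^
    (1 / 4 : ℝ) with hC0
  have hC0t : C0 < ⊤ := by
    apply ENNReal.rpow_lt_top_of_nonneg (by norm_num)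
    exact ENNReal.mul_ne_top ENNReal.ofReal_ne_top (ENNReal.pow_ne_top
      (ENNReal.pow_ne_top ENNReal.ofReal_ne_top))
  refine ⟨4 * C + C0, ENNReal.add_lt_top.2 ⟨ENNReal.mul_lt_top (by norm_num) hC, hC0t⟩, ?_⟩
  rintro f ⟨Ω, hΩ, rfl⟩
  have key : ∀ n : ℕ, ∀ t : ℝ, 1 ≤ |t| → |t| ≤ 4 ^ n →
      N4 (fI Ω) t ≤ (4 * C + C0) * ENNReal.ofReal (|t| ^ (-a)) := by
    intro n
    induction n with
    | zero =>
      intro t h1 h2
      have h3 : |t| = 1 := le_antisymm (by simpa using h2) h1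
      rw [h3, Real.one_rpow, ENNReal.ofReal_one, mul_one]
      exact (triv_N4 (fI_Bd hΩ) t).trans le_add_self
    | succ n ih =>
      intro t h1 h2
      have ht0 : 0 < |t| := by linarith
      have habs : |t / 2 ^ 2| = |t| / 4 := by
        rw [abs_div]
        norm_num
      -- the bound at time t/4
      have h3 : N4 (fI Ω) (t / 2 ^ 2) ≤ (4 * C + C0) * ENNReal.ofReal ((|t| / 4) ^ (-a)) := by
        rcases le_or_gt 1 (|t| / 4) with h4 | h4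
        · have h5 := ih (t / 2 ^ 2) (by rw [habs]; exact h4) (by
            rw [habs]
            rw [pow_succ] at h2
            linarith)
          rwa [habs] at h5
        · have h5 : 1 ≤ (|t| / 4) ^ (-a) := by
            rw [Real.rpow_neg (by positivity)]
            exact (one_le_inv₀ (by positivity)).2 (Real.rpow_le_one (by positivity) h4.le ha0)
          calc N4 (fI Ω) (t / 2 ^ 2) ≤ C0 := triv_N4 (fI_Bd hΩ) _
            _ ≤ 4 * C + C0 := le_add_self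
            _ = (4 * C + C0) * 1 := (mul_one _).symm
            _ ≤ _ := by
              gcongr
              exact ENNReal.one_le_ofReal.2 h5
      have hS := hC2 (fS Ω) ⟨Ω, hΩ, rfl⟩ t h1
      have hB2 : Measurable fun x : ℝ × ℝ => fI Ω ((2 : ℝ) • x) :=
        (fI_meas hΩ).comp (measurable_const_smul (2 : ℝ))
      have hI2 : Integrable fun x : ℝ × ℝ => fI Ω ((2 : ℝ) • x) :=
        (fI_Bd hΩ).int.comp_smul (by norm_num)
      rw [N4_congr (fI_split hΩ)]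
      refine (N4_add (fS_Bd hΩ).meas hB2 (fS_Bd hΩ).int hI2 t).trans ?_
      rw [N4_scale (fI_meas hΩ) (by norm_num : (0 : ℝ) < 2)]
      have h6 : ENNReal.ofReal ((2 : ℝ) ^ (-(3 / 2) : ℝ)) * ENNReal.ofReal ((|t| / 4) ^ (-a)) ≤
          ENNReal.ofReal (3 / 4) * ENNReal.ofReal (|t| ^ (-a)) := by
        rw [← ENNReal.ofReal_mul (by positivity), ← ENNReal.ofReal_mul (by norm_num)]
        apply ENNReal.ofReal_le_ofReal
        have h7 : (|t| / 4) ^ (-a) = (4 : ℝ) ^ a * |t| ^ (-a) := by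
          rw [Real.div_rpow ht0.le (by norm_num), Real.rpow_neg (by norm_num : (0 : ℝ) ≤ 4)]
          field_simp
        rw [h7, ← mul_assoc]
        gcongr
        have h8 : (4 : ℝ) ^ a ≤ (4 : ℝ) ^ (1 / 2 : ℝ) :=
          Real.rpow_le_rpow_of_exponent_le (by norm_num) ha.le
        have h9 : (4 : ℝ) ^ (1 / 2 : ℝ) = 2 := by
          rw [show (4 : ℝ) = 2 ^ (2 : ℝ) by norm_num, ← Real.rpow_mul (by norm_num)]
          norm_num
        rw [h9] at h8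
        have h10 : (2 : ℝ) ^ (-(3 / 2) : ℝ) ≤ 3 / 8 := by
          have h11 : ((2 : ℝ) ^ (-(3 / 2) : ℝ)) ^ 2 = 1 / 8 := by
            rw [← Real.rpow_natCast, ← Real.rpow_mul (by norm_num)]
            norm_num
          have h12 : 0 ≤ (2 : ℝ) ^ (-(3 / 2) : ℝ) := by positivity
          nlinarith
        calc (2 : ℝ) ^ (-(3 / 2) : ℝ) * 4 ^ a ≤ 3 / 8 * 2 := by gcongr
          _ = 3 / 4 := by norm_num
      calc N4 (fS Ω) t + ENNReal.ofReal ((2 : ℝ) ^ (-(3 / 2) : ℝ)) * N4 (fI Ω) (t / 2 ^ 2)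
          ≤ C * ENNReal.ofReal (|t| ^ (-a)) + ENNReal.ofReal ((2 : ℝ) ^ (-(3 / 2) : ℝ)) *
            ((4 * C + C0) * ENNReal.ofReal ((|t| / 4) ^ (-a))) := by gcongr
        _ = C * ENNReal.ofReal (|t| ^ (-a)) + (4 * C + C0) *
            (ENNReal.ofReal ((2 : ℝ) ^ (-(3 / 2) : ℝ)) * ENNReal.ofReal ((|t| / 4) ^ (-a))) := by
            ring
        _ ≤ C * ENNReal.ofReal (|t| ^ (-a)) + (4 * C + C0) *
            (ENNReal.ofReal (3 / 4) * ENNReal.ofReal (|t| ^ (-a))) := by gcongr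
        _ = (C + (4 * C + C0) * ENNReal.ofReal (3 / 4)) * ENNReal.ofReal (|t| ^ (-a)) := by ring
        _ ≤ _ := by
            refine mul_le_mul' ?_ le_rfl
            have h13 : (4 : ℝ≥0∞) * ENNReal.ofReal (3 / 4) = 3 := by
              rw [show (4 : ℝ≥0∞) = ENNReal.ofReal 4 by norm_num, ← ENNReal.ofReal_mul (by norm_num)]
              norm_num
            calc C + (4 * C + C0) * ENNReal.ofReal (3 / 4)
                = C + (4 * ENNReal.ofReal (3 / 4)) * C + ENNReal.ofReal (3 / 4) * C0 := by ring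
              _ = 4 * C + ENNReal.ofReal (3 / 4) * C0 := by
                  rw [h13]
                  ring
              _ ≤ 4 * C + 1 * C0 := by
                  gcongr
                  rw [ENNReal.ofReal_le_one]
                  norm_num
              _ = _ := by rw [one_mul]
  intro t ht
  obtain ⟨n, hn⟩ := pow_unbounded_of_one_lt |t| (by norm_num : (1 : ℝ) < 4)
  exact key n t ht hn.le

/-- a homogeneous function on a set -/
noncomputable def rs (S : Set (ℝ × ℝ)) (Ω : ℝ × ℝ → ℂ) : ℝ × ℝ → ℂ := S.indicator Ω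

/-- decay for a homogeneous function on a set, uniformly -/
def CS (S : Set (ℝ × ℝ)) (a : ℝ) : Prop := CD {f | ∃ Ω, Ad Ω ∧ f = rs S Ω} a

/-- Doubling by a symmetry. -/
lemma CS_double {S S' : Set (ℝ × ℝ)} {a : ℝ} {R : ℝ × ℝ → ℝ × ℝ} (h : CS S a)
    (hSm : MeasurableSet S) (hSB : S ⊆ Bx 1) (hRm : Measurable R)
    (hN : ∀ {f : ℝ × ℝ → ℂ}, Measurable f → ∀ t, N4 (fun x => f (R x)) t = N4 f t)
    (hAd : ∀ {Ω : ℝ × ℝ → ℂ}, Ad Ω → Ad fun x => Ω (R x)) (hRR : ∀ x, R (R x) = x)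
    (hRB : ∀ x, R x ∈ Bx 1 → x ∈ Bx 1)
    (hS' : ∀ᵐ x : ℝ × ℝ, (x ∈ S' ↔ (x ∈ S ∨ R x ∈ S)) ∧ ¬ (x ∈ S ∧ R x ∈ S)) :
    CS S' a := by
  obtain ⟨C, hC, hC2⟩ := h
  refine ⟨2 * C, ENNReal.mul_lt_top (by norm_num) hC, ?_⟩
  rintro f ⟨Ω, hΩ, rfl⟩ t ht
  have hB : ∀ {Ω : ℝ × ℝ → ℂ}, Ad Ω → Bd 1 (rs S Ω) := by
    intro Ω hΩ
    refine ⟨hΩ.meas.indicator hSm, fun x => ?_, fun x hx => ?_⟩
    · unfold rs
      by_cases hx : x ∈ S
      · rw [indicator_of_mem hx]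
        exact hΩ.bd x
      · rw [indicator_of_notMem hx, norm_zero]
        exact zero_le_one
    · exact indicator_of_notMem (fun h => hx (hSB h)) _
  set Ω' : ℝ × ℝ → ℂ := fun x => Ω (R x) with hΩ'
  have hA' : Ad Ω' := hAd hΩ
  have hB1 := hB hΩ
  have hB2 := hB hA'
  have hB3 : Bd 1 (fun x => rs S Ω' (R x)) := by
    refine ⟨hB2.meas.comp hRm, fun x => hB2.bd _, fun x hx => hB2.supp _ fun h => hx (hRB x h)⟩
  have e1 : rs S' Ω =ᵐ[volume] fun x => rs S Ω x + rs S Ω' (R x) := by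
    filter_upwards [hS'] with x hx
    obtain ⟨h1, h2⟩ := hx
    unfold rs
    by_cases h3 : x ∈ S
    · have h4 : R x ∉ S := fun h => h2 ⟨h3, h⟩
      rw [indicator_of_mem (h1.2 (Or.inl h3)), indicator_of_mem h3, indicator_of_notMem h4,
        add_zero]
    · by_cases h4 : R x ∈ S
      · rw [indicator_of_mem (h1.2 (Or.inr h4)), indicator_of_notMem h3, indicator_of_mem h4,
          zero_add]
        simp only [hΩ', hRR]
      · rw [indicator_of_notMem h3, indicator_of_notMem h4, indicator_of_notMem, add_zero]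
        intro h5
        rcases h1.1 h5 with h6 | h6
        · exact h3 h6
        · exact h4 h6
  rw [N4_congr e1]
  refine (N4_add hB1.meas hB3.meas hB1.int hB3.int t).trans ?_
  rw [hN hB2.meas]
  calc N4 (rs S Ω) t + N4 (rs S Ω') t ≤ C * ENNReal.ofReal (|t| ^ (-a)) +
        C * ENNReal.ofReal (|t| ^ (-a)) :=
        add_le_add (hC2 _ ⟨Ω, hΩ, rfl⟩ t ht) (hC2 _ ⟨Ω', hA', rfl⟩ t ht)
    _ = _ := by ring

/-- the open square `(-1,1)²` -/
def Qo : Set (ℝ × ℝ) := {x | (-1 < x.1 ∧ x.1 < 1) ∧ (-1 < x.2 ∧ x.2 < 1)}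

lemma diag_null : ∀ᵐ x : ℝ × ℝ, x.1 ≠ x.2 := by
  have h1 : MeasurableSet {x : ℝ × ℝ | x.1 = x.2} :=
    measurableSet_eq_fun measurable_fst measurable_snd
  rw [ae_iff]
  have h2 : {x : ℝ × ℝ | ¬ x.1 ≠ x.2} = {x : ℝ × ℝ | x.1 = x.2} := by
    ext x
    simp
  rw [h2, Measure.volume_eq_prod, Measure.prod_apply h1]
  have h3 : ∀ x : ℝ, volume (Prod.mk x ⁻¹' {x : ℝ × ℝ | x.1 = x.2}) = 0 := by
    intro x
    have : Prod.mk x ⁻¹' {x : ℝ × ℝ | x.1 = x.2} = {x} := by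
      ext y
      simp [eq_comm]
    rw [this]
    simp
  simp only [h3, lintegral_zero]

/-- Decay for homogeneous functions on the square. -/
theorem CS_Qo {a : ℝ} (ha0 : 0 ≤ a) (ha : a < 1 / 2) : CS Qo a := by
  have h0 : CS (Sec ∩ {x | x.1 < 1}) a := CD_fI ha0 ha
  have m0 : MeasurableSet (Sec ∩ {x : ℝ × ℝ | x.1 < 1}) :=
    Sec_meas.inter (measurableSet_lt measurable_fst measurable_const)
  set S1 : Set (ℝ × ℝ) := {x | (0 < x.1 ∧ x.1 < 1) ∧ (0 < x.2 ∧ x.2 < 1)} with hS1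
  have m1 : MeasurableSet S1 :=
    ((measurableSet_lt measurable_const measurable_fst).inter
      (measurableSet_lt measurable_fst measurable_const)).inter
    ((measurableSet_lt measurable_const measurable_snd).inter
      (measurableSet_lt measurable_snd measurable_const))
  have h1 : CS S1 a := by
    apply CS_double (R := sw) h0 m0 _ sw_meas N4_sw (fun h => h.sw) (fun x => rfl)
    · rintro x ⟨a1, a2⟩
      exact ⟨a2, a1⟩
    · filter_upwards [diag_null] with x hx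
      simp only [hS1, Sec, mem_ofPred_eq, mem_inter_iff, sw]
      constructor
      · constructor
        · rintro ⟨⟨a1, a2⟩, ⟨a3, a4⟩⟩
          rcases le_total x.2 x.1 with h | h
          · exact Or.inl ⟨⟨a3, h⟩, a2⟩
          · exact Or.inr ⟨⟨a1, h⟩, a4⟩
        · rintro (⟨⟨a1, a2⟩, a3⟩ | ⟨⟨a1, a2⟩, a3⟩)
          · exact ⟨⟨by linarith, a3⟩, ⟨a1, by linarith⟩⟩
          · exact ⟨⟨a1, by linarith⟩, ⟨by linarith, a3⟩⟩
      · rintro ⟨⟨⟨a1, a2⟩, a3⟩, ⟨⟨b1, b2⟩, b3⟩⟩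
        exact hx (le_antisymm b2 a2)
    · rintro x ⟨⟨a1, a2⟩, a3⟩
      have a4 : x.1 < 1 := a3
      exact ⟨⟨by linarith, a4.le⟩, ⟨by linarith, by linarith⟩⟩
  set S2 : Set (ℝ × ℝ) := {x | (0 < x.1 ∧ x.1 < 1) ∧ (-1 < x.2 ∧ x.2 < 1)} with hS2
  have m2 : MeasurableSet S2 :=
    ((measurableSet_lt measurable_const measurable_fst).inter
      (measurableSet_lt measurable_fst measurable_const)).inter
    ((measurableSet_lt measurable_const measurable_snd).inter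
      (measurableSet_lt measurable_snd measurable_const))
  have h2 : CS S2 a := by
    apply CS_double (R := n2) h1 m1 _ n2_meas N4_n2 (fun h => h.n2) (fun x => by simp [n2])
    · rintro x ⟨⟨a1, a2⟩, ⟨a3, a4⟩⟩
      simp only [n2] at a1 a2 a3 a4
      exact ⟨⟨a1, a2⟩, ⟨by linarith, by linarith⟩⟩
    · filter_upwards [snd_null 0] with x hx
      simp only [hS1, hS2, mem_ofPred_eq, n2]
      constructor
      · constructor
        · rintro ⟨⟨a1, a2⟩, ⟨a3, a4⟩⟩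
          rcases lt_or_gt_of_ne hx with h | h
          · exact Or.inr ⟨⟨a1, a2⟩, ⟨by linarith, by linarith⟩⟩
          · exact Or.inl ⟨⟨a1, a2⟩, ⟨h, a4⟩⟩
        · rintro (⟨⟨a1, a2⟩, ⟨a3, a4⟩⟩ | ⟨⟨a1, a2⟩, ⟨a3, a4⟩⟩)
          · exact ⟨⟨a1, a2⟩, ⟨by linarith, a4⟩⟩
          · exact ⟨⟨a1, a2⟩, ⟨by linarith, by linarith⟩⟩
      · rintro ⟨⟨_, ⟨a3, _⟩⟩, ⟨_, ⟨b3, _⟩⟩⟩
        linarith
    · rintro x ⟨⟨a1, a2⟩, ⟨a3, a4⟩⟩
      exact ⟨⟨by linarith, a2.le⟩, ⟨by linarith, a4.le⟩⟩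
  apply CS_double (R := n1) h2 m2 _ n1_meas N4_n1 (fun h => h.n1) (fun x => by simp [n1])
  · rintro x ⟨⟨a1, a2⟩, ⟨a3, a4⟩⟩
    simp only [n1] at a1 a2 a3 a4
    exact ⟨⟨by linarith, by linarith⟩, ⟨a3, a4⟩⟩
  · filter_upwards [fst_null 0] with x hx
    simp only [Qo, hS2, mem_ofPred_eq, n1]
    constructor
    · constructor
      · rintro ⟨⟨a1, a2⟩, ⟨a3, a4⟩⟩
        rcases lt_or_gt_of_ne hx with h | h
        · exact Or.inr ⟨⟨by linarith, by linarith⟩, ⟨a3, a4⟩⟩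
        · exact Or.inl ⟨⟨h, a2⟩, ⟨a3, a4⟩⟩
      · rintro (⟨⟨a1, a2⟩, ⟨a3, a4⟩⟩ | ⟨⟨a1, a2⟩, ⟨a3, a4⟩⟩)
        · exact ⟨⟨by linarith, a2⟩, ⟨a3, a4⟩⟩
        · exact ⟨⟨by linarith, by linarith⟩, ⟨a3, a4⟩⟩
    · rintro ⟨⟨⟨a3, _⟩, _⟩, ⟨⟨b3, _⟩, _⟩⟩
      linarith
  · rintro x ⟨⟨a1, a2⟩, ⟨a3, a4⟩⟩
    exact ⟨⟨by linarith, a2.le⟩, ⟨by linarith, a4.le⟩⟩

/-- the open square `(-L,L)²` -/
def Ql (L : ℝ) : Set (ℝ × ℝ) := {x | (-L < x.1 ∧ x.1 < L) ∧ (-L < x.2 ∧ x.2 < L)}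

lemma Ql_meas (L : ℝ) : MeasurableSet (Ql L) :=
  ((measurableSet_lt measurable_const measurable_fst).inter
    (measurableSet_lt measurable_fst measurable_const)).inter
  ((measurableSet_lt measurable_const measurable_snd).inter
    (measurableSet_lt measurable_snd measurable_const))

lemma rs_Ql_Bd {L : ℝ} {Ω : ℝ × ℝ → ℂ} (h : Ad Ω) : Bd L (rs (Ql L) Ω) := by
  refine ⟨h.meas.indicator (Ql_meas L), fun x => ?_, fun x hx => ?_⟩
  · unfold rs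
    by_cases hx : x ∈ Ql L
    · rw [indicator_of_mem hx]
      exact h.bd x
    · rw [indicator_of_notMem hx, norm_zero]
      exact zero_le_one
  · refine indicator_of_notMem (fun h => hx ?_) _
    exact ⟨⟨h.1.1.le, h.1.2.le⟩, ⟨h.2.1.le, h.2.2.le⟩⟩

/-- Decay for homogeneous functions on large squares. -/
theorem CS_Ql {a : ℝ} (ha0 : 0 ≤ a) (ha : a < 1 / 2) {L : ℝ} (hL : 1 ≤ L) : CS (Ql L) a := by
  obtain ⟨C, hC, hC2⟩ := CS_Qo ha0 ha
  have hL0 : 0 < L := by linarith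
  refine ⟨ENNReal.ofReal ((L⁻¹) ^ (-(3 / 2) : ℝ)) * C,
    ENNReal.mul_lt_top ENNReal.ofReal_lt_top hC, ?_⟩
  rintro f ⟨Ω, hΩ, rfl⟩ t ht
  have h1 : rs (Ql L) Ω = fun x => rs Qo Ω (L⁻¹ • x) := by
    ext x
    unfold rs
    have h2 : L⁻¹ • x ∈ Qo ↔ x ∈ Ql L := by
      show ((-1 < L⁻¹ * x.1 ∧ L⁻¹ * x.1 < 1) ∧ (-1 < L⁻¹ * x.2 ∧ L⁻¹ * x.2 < 1)) ↔
        ((-L < x.1 ∧ x.1 < L) ∧ (-L < x.2 ∧ x.2 < L))
      rw [inv_mul_lt_iff₀ hL0, inv_mul_lt_iff₀ hL0, lt_inv_mul_iff₀ hL0, lt_inv_mul_iff₀ hL0]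
      simp
    by_cases hx : x ∈ Ql L
    · rw [indicator_of_mem hx, indicator_of_mem (h2.2 hx)]
      exact (hΩ.hom x L⁻¹ (inv_pos.2 hL0)).symm
    · rw [indicator_of_notMem hx, indicator_of_notMem (fun h => hx (h2.1 h))]
  have hm : Measurable (rs Qo Ω) := by
    have : Qo = Ql 1 := rfl
    rw [this]
    exact (rs_Ql_Bd hΩ).meas
  rw [h1, N4_scale hm (inv_pos.2 hL0), mul_assoc]
  gcongr
  have h3 : |t| ≤ |t / L⁻¹ ^ 2| := by
    rw [inv_pow, div_inv_eq_mul, abs_mul, abs_of_nonneg (by positivity : 0 ≤ L ^ 2)]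
    have : 1 ≤ L ^ 2 := one_le_pow₀ hL
    nlinarith [abs_nonneg t]
  refine (hC2 _ ⟨Ω, hΩ, rfl⟩ _ (ht.trans h3)).trans ?_
  refine mul_le_mul' le_rfl (ENNReal.ofReal_le_ofReal ?_)
  exact Real.rpow_le_rpow_of_nonpos (by linarith) h3 (by linarith)

/-- Translation and modulation. -/
lemma N4_trans {f g : ℝ × ℝ → ℂ} (ζ η : ℝ × ℝ)
    (h : ∀ x, f (x + ζ) = ch (η.1 * x.1 + η.2 * x.2) * g x) (t : ℝ) : N4 f t = N4 g t := by
  have h1 : ∀ y, ‖E2 f y t‖ₑ = ‖E2 g (y + (2 * t * ζ.1 + η.1, 2 * t * ζ.2 + η.2)) t‖ₑ := by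
    intro y
    have h2 : E2 f y t = ch (ζ.1 * y.1 + ζ.2 * y.2 + s2 ζ * t) *
        E2 g (y + (2 * t * ζ.1 + η.1, 2 * t * ζ.2 + η.2)) t := by
      unfold Pool.Agent.TH277.CB.E2
      rw [← integral_add_right_eq_self (fun x => pq y t x * f x) ζ, ← integral_const_mul]
      apply integral_congr_ae
      refine ae_of_all _ fun x => ?_
      simp only
      rw [h, ← mul_assoc, ← mul_assoc]
      congr 1
      unfold Pool.Agent.TH277.CB.pq
      rw [← ch_add, ← ch_add]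
      congr 1
      have e1 : s2 (x + ζ) = s2 x + s2 ζ + 2 * (x.1 * ζ.1 + x.2 * ζ.2) := by
        show (x + ζ).1 ^ 2 + (x + ζ).2 ^ 2 = (x.1 ^ 2 + x.2 ^ 2) + (ζ.1 ^ 2 + ζ.2 ^ 2) +
          2 * (x.1 * ζ.1 + x.2 * ζ.2)
        simp only [Prod.fst_add, Prod.snd_add]
        ring
      rw [e1]
      simp only [Prod.fst_add, Prod.snd_add]
      ring
    rw [h2, enorm_mul, ← ofReal_norm (ch _), ch_norm, ENNReal.ofReal_one, one_mul]
  unfold N4
  simp only [h1]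
  congr 1
  exact lintegral_add_right_eq_self (fun y => ‖E2 g y t‖ₑ ^ 4) _

/-- An atom: a homogeneous function about a point, times a character, on a polygon. -/
def At (A : ℝ) (n : ℕ) (f : ℝ × ℝ → ℂ) : Prop :=
  ∃ (Ω : ℝ × ℝ → ℂ) (ζ η : ℝ × ℝ) (ν : Fin n → ℝ × ℝ) (c : Fin n → ℝ), Ad Ω ∧
    |ζ.1| ≤ A ∧ |ζ.2| ≤ A ∧
    f = (Pg ν c).indicator fun x => ch (η.1 * x.1 + η.2 * x.2) * Ω (x - ζ)

/-- the four sides of the square -/
def side (i : Fin 4) : ℝ × ℝ := ![((1 : ℝ), (0 : ℝ)), (-1, 0), (0, 1), (0, -1)] i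

lemma side_set (ζ : ℝ × ℝ) : Pg side ![-1 - ζ.1, -1 + ζ.1, -1 - ζ.2, -1 + ζ.2] =
    {x | (-1 < x.1 + ζ.1 ∧ x.1 + ζ.1 < 1) ∧ (-1 < x.2 + ζ.2 ∧ x.2 + ζ.2 < 1)} := by
  ext x
  simp only [Pg, mem_ofPred_eq, Fin.forall_fin_succ, lf, side]
  simp
  constructor
  · rintro ⟨h1, h2, h3, h4⟩
    exact ⟨⟨by linarith, by linarith⟩, by linarith, by linarith⟩
  · rintro ⟨⟨h1, h2⟩, h3, h4⟩
    exact ⟨by linarith, by linarith, by linarith, by linarith⟩

lemma Pg_append {m n : ℕ} (ν : Fin m → ℝ × ℝ) (ν' : Fin n → ℝ × ℝ) (c : Fin m → ℝ)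
    (c' : Fin n → ℝ) : Pg (Fin.append ν ν') (Fin.append c c') = Pg ν c ∩ Pg ν' c' := by
  ext x
  constructor
  · intro h
    exact ⟨fun i => by simpa using h (Fin.castAdd n i), fun i => by simpa using h (Fin.natAdd m i)⟩
  · rintro ⟨h1, h2⟩ i
    refine Fin.addCases (fun j => ?_) (fun j => ?_) i
    · simpa using h1 j
    · simpa using h2 j

lemma ch_meas : Measurable ch := ch_cont.measurable

lemma At.meas {A : ℝ} {n : ℕ} {f : ℝ × ℝ → ℂ} (h : At A n f) : Measurable f := by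
  obtain ⟨Ω, ζ, η, ν, c, hΩ, -, -, rfl⟩ := h
  apply Measurable.indicator _ (Pg_meas ν c)
  have h1 : Measurable fun x : ℝ × ℝ => ch (η.1 * x.1 + η.2 * x.2) := ch_meas.comp (by fun_prop)
  have h2 : Measurable fun x : ℝ × ℝ => Ω (x - ζ) := hΩ.meas.comp (measurable_id.sub_const ζ)
  exact h1.mul h2

lemma At.bd {A : ℝ} {n : ℕ} {f : ℝ × ℝ → ℂ} (h : At A n f) (x : ℝ × ℝ) : ‖f x‖ ≤ 1 := by
  obtain ⟨Ω, ζ, η, ν, c, hΩ, -, -, rfl⟩ := h
  by_cases hx : x ∈ Pg ν c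
  · rw [indicator_of_mem hx, norm_mul, ch_norm, one_mul]
    exact hΩ.bd _
  · rw [indicator_of_notMem hx, norm_zero]
    exact zero_le_one

lemma Q2_ae : Pool.Agent.TH277.CB.Q2 =ᵐ[volume] Qo := by
  have h : ∀ᵐ x : ℝ × ℝ, (x ∈ Pool.Agent.TH277.CB.Q2 ↔ x ∈ Qo) := by
    filter_upwards [fst_null 1, fst_null (-1), snd_null 1, snd_null (-1)] with x h1 h2 h3 h4
    constructor
    · rintro ⟨⟨a1, a2⟩, ⟨a3, a4⟩⟩
      exact ⟨⟨lt_of_le_of_ne a1 h2.symm, lt_of_le_of_ne a3 h1⟩,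
        ⟨lt_of_le_of_ne a2 h4.symm, lt_of_le_of_ne a4 h3⟩⟩
    · rintro ⟨⟨a1, a2⟩, ⟨a3, a4⟩⟩
      exact ⟨⟨a1.le, a3.le⟩, ⟨a2.le, a4.le⟩⟩
  filter_upwards [h] with x hx
  exact propext hx

/-- Decay for atoms. -/
theorem CD_At {a : ℝ} (ha0 : 0 ≤ a) (ha : a < 1 / 2) (A : ℝ) (n : ℕ) :
    CD {f | ∃ g, At A n g ∧ f = Pool.Agent.TH277.CB.Q2.indicator g} a := by
  set L : ℝ := max A 0 + 2 with hL
  have hA0 : 0 ≤ max A 0 := le_max_right _ _
  have hAL : A ≤ max A 0 := le_max_left _ _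
  have hb : a < (a + 1 / 2) / 2 := by linarith
  have hb2 : (a + 1 / 2) / 2 < 1 / 2 := by linarith
  have h1 : CS (Ql L) ((a + 1 / 2) / 2) := CS_Ql (by linarith) hb2 (by linarith)
  obtain ⟨C, hC, h2⟩ := CD.poly h1 (by linarith) hb (by linarith : (0 : ℝ) ≤ L) (by
    rintro f ⟨Ω, hΩ, rfl⟩
    exact rs_Ql_Bd hΩ) (4 + n)
  refine ⟨C, hC, ?_⟩
  rintro f ⟨g, ⟨Ω, ζ, η, ν, c, hΩ, hζ1, hζ2, rfl⟩, rfl⟩ t ht
  set g : ℝ × ℝ → ℂ := (Pg ν c).indicator fun x => ch (η.1 * x.1 + η.2 * x.2) * Ω (x - ζ) with hg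
  have e1 : Pool.Agent.TH277.CB.Q2.indicator g =ᵐ[volume] Qo.indicator g :=
    indicator_ae_eq_of_ae_eq_set Q2_ae
  rw [N4_congr e1]
  set w : ℂ := ch (η.1 * ζ.1 + η.2 * ζ.2) with hw
  set Ω' : ℝ × ℝ → ℂ := fun x => w * Ω x with hΩ'
  have hA' : Ad Ω' := by
    refine ⟨hΩ.meas.const_mul w, fun x => ?_, fun x r hr => ?_⟩
    · simp only [hΩ', hw]
      rw [norm_mul, ch_norm, one_mul]
      exact hΩ.bd x
    · simp only [hΩ']
      rw [hΩ.hom x r hr]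
  set P := Pg (Fin.append side ν) (Fin.append ![-1 - ζ.1, -1 + ζ.1, -1 - ζ.2, -1 + ζ.2]
    fun i => c i - lf (ν i) ζ) with hP
  have e2 : N4 (Qo.indicator g) t = N4 (P.indicator (rs (Ql L) Ω')) t := by
    apply N4_trans ζ η
    intro x
    have hmem : x ∈ P ↔ (x + ζ ∈ Qo ∧ x + ζ ∈ Pg ν c) := by
      rw [hP, Pg_append, side_set, mem_inter_iff]
      have h3 : x ∈ Pg ν (fun i => c i - lf (ν i) ζ) ↔ x + ζ ∈ Pg ν c := by
        simp only [Pg, mem_ofPred_eq]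
        apply forall_congr'
        intro i
        have h4 : lf (ν i) (x + ζ) = lf (ν i) x + lf (ν i) ζ := by
          unfold lf
          simp only [Prod.fst_add, Prod.snd_add]
          ring
        rw [h4]
        constructor <;> intro h <;> linarith
      rw [h3]
      rfl
    by_cases hx : x ∈ P
    · obtain ⟨h3, h4⟩ := hmem.1 hx
      have h5 : x ∈ Ql L := by
        obtain ⟨⟨a1, a2⟩, ⟨a3, a4⟩⟩ := h3
        simp only [Prod.fst_add, Prod.snd_add] at a1 a2 a3 a4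
        have b1 := abs_le.1 hζ1
        have b2 := abs_le.1 hζ2
        exact ⟨⟨by linarith [b1.2], by linarith [b1.1]⟩, ⟨by linarith [b2.2], by linarith [b2.1]⟩⟩
      rw [indicator_of_mem h3, indicator_of_mem hx, hg, indicator_of_mem h4]
      unfold rs
      rw [indicator_of_mem h5]
      simp only [hΩ', hw, add_sub_cancel_right]
      rw [← mul_assoc, ← ch_add]
      congr 2
      simp only [Prod.fst_add, Prod.snd_add]
      ring
    · rw [indicator_of_notMem hx, mul_zero]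
      by_cases h3 : x + ζ ∈ Qo
      · have h4 : x + ζ ∉ Pg ν c := fun h => hx (hmem.2 ⟨h3, h⟩)
        rw [indicator_of_mem h3, hg, indicator_of_notMem h4]
      · rw [indicator_of_notMem h3]
  rw [e2]
  exact h2 _ ⟨rs (Ql L) Ω', ⟨Ω', hA', rfl⟩, _, _, rfl⟩ t ht

end Pool.Agent.P8H98.HG
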