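import Mathlib
import Pool.Agent.P8H98.HG.Sym
import Pool.Agent.TH277.CB.C
set_option autoImplicit false
set_option linter.unusedSectionVars false

/-! Superpositions, and products over blocks of coordinates. -/

namespace Pool.Agent.P8H98.HG

open MeasureTheory Set Complex
open scoped ENNReal NNReal ComplexConjugate ContDiff
open Pool.Agent.TH277.CS (s2 sup sup_meas)
open Pool.Agent.TH277.CB (pq E2 pq_norm pq_cont scale_neg s2_cont Q2 Q2_meas Q2_vol Q2_fin
  Phi Phi_mp EE_blk lint_pi2 E2t_meas sch_time A0 ep A0_gt ep_pos)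
open Pool.Agent.TH277.HT (ch ch_norm ch_cont ch_add ch_sum EE EE_meas Sch Adm E1 E1_meas E1t_meas
  EE_mult lint_pi mix)
open Pool.Agent.TH277.CP (tint tint_lt)

variable {S : Type} [MeasurableSpace S]

/-- the superposition on the square -/
noncomputable def sq (ν : Measure S) (g : S → ℝ × ℝ → ℂ) : ℝ × ℝ → ℂ :=
  sup ν fun s => Q2.indicator (g s)

lemma ind_meas {g : S → ℝ × ℝ → ℂ} (hg : Measurable (Function.uncurry g)) :
    Measurable (Function.uncurry fun s => Q2.indicator (g s)) := by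
  have : (Function.uncurry fun s => Q2.indicator (g s)) =
      (univ ×ˢ Q2).indicator (Function.uncurry g) := by
    ext ⟨s, x⟩
    by_cases hx : x ∈ Q2
    · rw [indicator_of_mem (show (s, x) ∈ univ ×ˢ Q2 from ⟨mem_univ _, hx⟩)]
      exact indicator_of_mem hx _
    · rw [indicator_of_notMem (fun h : (s, x) ∈ univ ×ˢ Q2 => hx h.2)]
      exact indicator_of_notMem hx _
  rw [this]
  exact hg.indicator (MeasurableSet.univ.prod Q2_meas)

/-- A class of functions bounded by one, with decay at fixed times. -/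
structure Cl (P : (ℝ × ℝ → ℂ) → Prop) : Prop where
  bd : ∀ f, P f → ∀ x, ‖f x‖ ≤ 1
  cd : ∀ a : ℝ, 0 ≤ a → a < 1 / 2 → CD {f | ∃ g, P g ∧ f = Q2.indicator g} a

lemma ind_bd {f : ℝ × ℝ → ℂ} (h : ∀ x, ‖f x‖ ≤ 1) (x : ℝ × ℝ) : ‖Q2.indicator f x‖ ≤ 1 := by
  by_cases hx : x ∈ Q2
  · rw [indicator_of_mem hx]
    exact h x
  · rw [indicator_of_notMem hx, norm_zero]
    exact zero_le_one

lemma sq_smeas (ν : Measure S) [IsFiniteMeasure ν] {g : S → ℝ × ℝ → ℂ}
    (hg : Measurable (Function.uncurry g)) : StronglyMeasurable (sq ν g) :=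
  sup_meas ν (ind_meas hg)

lemma sq_supp (ν : Measure S) (g : S → ℝ × ℝ → ℂ) {x : ℝ × ℝ} (hx : x ∉ Q2) : sq ν g x = 0 := by
  unfold sq Pool.Agent.TH277.CS.sup
  simp only [indicator_of_notMem hx, integral_zero]

lemma sq_norm (ν : Measure S) [IsFiniteMeasure ν] {g : S → ℝ × ℝ → ℂ}
    (ha : ∀ s x, ‖g s x‖ ≤ 1) (x : ℝ × ℝ) : ‖sq ν g x‖ ≤ ν.real univ := by
  unfold sq Pool.Agent.TH277.CS.sup
  calc ‖∫ s, Q2.indicator (g s) x ∂ν‖ ≤ 1 * ν.real univ :=
        norm_integral_le_of_norm_le_const (ae_of_all _ fun s => ind_bd (ha s) x)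
    _ = ν.real univ := one_mul _

lemma sq_enorm (ν : Measure S) [IsFiniteMeasure ν] {g : S → ℝ × ℝ → ℂ}
    (ha : ∀ s x, ‖g s x‖ ≤ 1) (x : ℝ × ℝ) : ‖sq ν g x‖ₑ ≤ ν univ := by
  rw [← ofReal_norm]
  calc ENNReal.ofReal ‖sq ν g x‖ ≤ ENNReal.ofReal (ν.real univ) :=
        ENNReal.ofReal_le_ofReal (sq_norm ν ha x)
    _ = ν univ := by
        rw [Measure.real, ENNReal.ofReal_toReal (measure_ne_top ν univ)]

lemma pq_smeas (y : ℝ × ℝ) (t : ℝ) : StronglyMeasurable (pq y t) :=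
  (pq_cont.comp (Continuous.prodMk_right (((y, t) : (ℝ × ℝ) × ℝ)))).stronglyMeasurable

lemma E2_sq (ν : Measure S) [IsFiniteMeasure ν] {g : S → ℝ × ℝ → ℂ}
    (hg : Measurable (Function.uncurry g)) (ha : ∀ s x, ‖g s x‖ ≤ 1) (y : ℝ × ℝ) (t : ℝ) :
    E2 (sq ν g) y t = ∫ s, E2 (Q2.indicator (g s)) y t ∂ν := by
  unfold Pool.Agent.TH277.CB.E2
  have h1 : ∀ f : ℝ × ℝ → ℂ, (∀ x, x ∉ Q2 → f x = 0) →
      ∫ x, pq y t x * f x = ∫ x in Q2, pq y t x * f x := by
    intro f hf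
    symm
    apply setIntegral_eq_integral_of_forall_compl_eq_zero
    intro x hx
    rw [hf x hx, mul_zero]
  rw [h1 _ fun x hx => sq_supp ν g hx]
  have h2 : ∀ s, ∫ x, pq y t x * Q2.indicator (g s) x = ∫ x in Q2, pq y t x * Q2.indicator (g s) x :=
    fun s => h1 _ fun x hx => indicator_of_notMem hx _
  simp only [h2]
  have h3 : ∀ x, pq y t x * sq ν g x = ∫ s, pq y t x * Q2.indicator (g s) x ∂ν := by
    intro x
    unfold sq Pool.Agent.TH277.CS.sup
    rw [integral_const_mul]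
  simp only [h3]
  apply integral_integral_swap
  have hfin : IsFiniteMeasure ((volume : Measure (ℝ × ℝ)).restrict Q2) :=
    ⟨by rw [Measure.restrict_apply_univ]; exact Q2_fin⟩
  refine Integrable.of_bound (C := 1) ?_ ?_
  · apply Measurable.aestronglyMeasurable
    have a1 := (pq_smeas y t).measurable.comp
      (measurable_fst : Measurable fun p : (ℝ × ℝ) × S => p.1)
    have a2 := (ind_meas hg).comp (measurable_swap : Measurable (Prod.swap : (ℝ × ℝ) × S → _))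
    exact a1.mul a2
  · refine ae_of_all _ fun p => ?_
    simp only [Function.uncurry]
    rw [norm_mul, pq_norm, one_mul]
    exact ind_bd (ha _) _

/-- The fourth moment of a superposition. -/
lemma sq_four (ν : Measure S) [IsFiniteMeasure ν] {g : S → ℝ × ℝ → ℂ}
    (hg : Measurable (Function.uncurry g)) (ha : ∀ s x, ‖g s x‖ ≤ 1) (t : ℝ) {X : ℝ≥0∞}
    (hX : ∀ s, N4 (Q2.indicator (g s)) t ≤ X) :
    ∫⁻ y, ‖E2 (sq ν g) y t‖ₑ ^ 4 ≤ (ν univ * X) ^ 4 := by
  have hm : Measurable fun p : (ℝ × ℝ) × S => ‖E2 (Q2.indicator (g p.2)) p.1 t‖ₑ := by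
    have h1 : StronglyMeasurable (Function.uncurry fun (p : (ℝ × ℝ) × S) (x : ℝ × ℝ) =>
        pq p.1 t x * Q2.indicator (g p.2) x) := by
      have h2 : Continuous fun q : (ℝ × ℝ) × (ℝ × ℝ) =>
          (((q.1, t), q.2) : ((ℝ × ℝ) × ℝ) × (ℝ × ℝ)) := by fun_prop
      have h3 : StronglyMeasurable fun q : (ℝ × ℝ) × (ℝ × ℝ) => pq q.1 t q.2 :=
        (pq_cont.comp h2).stronglyMeasurable
      have h4 : Measurable fun q : ((ℝ × ℝ) × S) × (ℝ × ℝ) => (q.1.1, q.2) :=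
        (measurable_fst.comp measurable_fst).prodMk measurable_snd
      have h5 : StronglyMeasurable fun q : ((ℝ × ℝ) × S) × (ℝ × ℝ) => pq q.1.1 t q.2 :=
        h3.comp_measurable h4
      have h6 : Measurable fun q : ((ℝ × ℝ) × S) × (ℝ × ℝ) => (q.1.2, q.2) :=
        (measurable_snd.comp measurable_fst).prodMk measurable_snd
      have h7 : StronglyMeasurable fun q : S × (ℝ × ℝ) => Q2.indicator (g q.1) q.2 :=
        (ind_meas hg).stronglyMeasurable
      have h8 : StronglyMeasurable fun q : ((ℝ × ℝ) × S) × (ℝ × ℝ) =>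
          Q2.indicator (g q.1.2) q.2 := h7.comp_measurable h6
      have h9 : StronglyMeasurable fun q : ((ℝ × ℝ) × S) × (ℝ × ℝ) =>
        pq q.1.1 t q.2 * Q2.indicator (g q.1.2) q.2 := h5.mul h8
      exact h9
    have h5 : StronglyMeasurable fun p : (ℝ × ℝ) × S =>
        ∫ x, pq p.1 t x * Q2.indicator (g p.2) x :=
      h1.integral_prod_right (ν := (volume : Measure (ℝ × ℝ)))
    have h6 : Measurable fun p : (ℝ × ℝ) × S =>
        ‖∫ x, pq p.1 t x * Q2.indicator (g p.2) x‖ₑ := h5.enorm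
    exact h6
  have hpt : ∀ y, ‖E2 (sq ν g) y t‖ₑ ^ 4 ≤
      ν univ ^ 3 * ∫⁻ s, ‖E2 (Q2.indicator (g s)) y t‖ₑ ^ 4 ∂ν := by
    intro y
    have h1 : ‖E2 (sq ν g) y t‖ₑ ≤ ∫⁻ s, 1 * ‖E2 (Q2.indicator (g s)) y t‖ₑ ∂ν := by
      rw [E2_sq ν hg ha]
      simp only [one_mul]
      exact enorm_integral_le_lintegral_enorm _
    have h2 : Measurable fun s => ‖E2 (Q2.indicator (g s)) y t‖ₑ := by
      have h3 : Measurable fun s : S => (y, s) := measurable_prodMk_left
      have h4 : Measurable ((fun p : (ℝ × ℝ) × S => ‖E2 (Q2.indicator (g p.2)) p.1 t‖ₑ) ∘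
        fun s : S => (y, s)) := hm.comp h3
      exact h4
    have h3 := jensen4 (μ := ν) (f := fun _ => 1) measurable_const h2
    refine (pow_le_pow_left₀ (zero_le) h1 4).trans ?_
    simpa using h3
  calc ∫⁻ y, ‖E2 (sq ν g) y t‖ₑ ^ 4
      ≤ ∫⁻ y, ν univ ^ 3 * ∫⁻ s, ‖E2 (Q2.indicator (g s)) y t‖ₑ ^ 4 ∂ν := lintegral_mono hpt
    _ = ν univ ^ 3 * ∫⁻ y, ∫⁻ s, ‖E2 (Q2.indicator (g s)) y t‖ₑ ^ 4 ∂ν := by
        rw [lintegral_const_mul]
        exact (hm.pow_const 4).lintegral_prod_right'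
    _ = ν univ ^ 3 * ∫⁻ s, (∫⁻ y, ‖E2 (Q2.indicator (g s)) y t‖ₑ ^ 4) ∂ν := by
        rw [lintegral_lintegral_swap (hm.pow_const 4).aemeasurable]
    _ ≤ ν univ ^ 3 * ∫⁻ _s, X ^ 4 ∂ν := by
        gcongr with s
        rw [← N4_pow]
        gcongr
        exact hX s
    _ = _ := by
        rw [lintegral_const]
        ring

/-- the second moment -/
lemma sq_two (ν : Measure S) [IsFiniteMeasure ν] {g : S → ℝ × ℝ → ℂ}
    (hg : Measurable (Function.uncurry g)) (ha : ∀ s x, ‖g s x‖ ≤ 1) (t : ℝ) :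
    ∫⁻ y, ‖E2 (sq ν g) y t‖ₑ ^ 2 ≤ ENNReal.ofReal ((2 * Real.pi) ^ 2) * 4 * ν univ ^ 2 := by
  have hm := (sq_smeas ν hg).measurable
  have hbd : ∀ x, ‖sq ν g x‖ ≤ ν.real univ := sq_norm ν ha
  have hfin : IsFiniteMeasure ((volume : Measure (ℝ × ℝ)).restrict Q2) :=
    ⟨by rw [Measure.restrict_apply_univ]; exact Q2_fin⟩
  have hFi : sq ν g = Q2.indicator (sq ν g) := by
    ext x
    by_cases hx : x ∈ Q2
    · rw [indicator_of_mem hx]
    · rw [indicator_of_notMem hx, sq_supp ν g hx]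
  have h1 : Integrable (sq ν g) := by
    rw [hFi, integrable_indicator_iff Q2_meas]
    exact IntegrableOn.of_bound Q2_fin hm.aestronglyMeasurable.restrict _ (ae_of_all _ hbd)
  have h2 : MemLp (sq ν g) 2 := by
    rw [hFi, memLp_indicator_iff_restrict Q2_meas]
    exact MemLp.of_bound hm.aestronglyMeasurable.restrict _ (ae_of_all _ hbd)
  refine (planch hm h1 h2 t).trans ?_
  rw [mul_assoc]
  gcongr
  calc ∫⁻ x, ‖sq ν g x‖ₑ ^ 2 ≤ ∫⁻ x, Q2.indicator (fun _ => ν univ ^ 2) x := by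
        apply lintegral_mono
        intro x
        simp only
        by_cases hx : x ∈ Q2
        · rw [indicator_of_mem hx]
          gcongr
          exact sq_enorm ν ha x
        · rw [indicator_of_notMem hx, sq_supp ν g hx, enorm_zero]
          simp
    _ = 4 * ν univ ^ 2 := by
        rw [lintegral_indicator Q2_meas, setLIntegral_const, Q2_vol, mul_comm]

lemma sq_sup (ν : Measure S) [IsFiniteMeasure ν] {g : S → ℝ × ℝ → ℂ}
    (ha : ∀ s x, ‖g s x‖ ≤ 1) (y : ℝ × ℝ) (t : ℝ) : ‖E2 (sq ν g) y t‖ₑ ≤ 4 * ν univ := by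
  refine (E2_sup _ y t).trans ?_
  calc ∫⁻ x, ‖sq ν g x‖ₑ ≤ ∫⁻ x, Q2.indicator (fun _ => ν univ) x := by
        apply lintegral_mono
        intro x
        show ‖sq ν g x‖ₑ ≤ _
        by_cases hx : x ∈ Q2
        · rw [indicator_of_mem hx]
          exact sq_enorm ν ha x
        · rw [indicator_of_notMem hx, sq_supp ν g hx, enorm_zero]
    _ = 4 * ν univ := by
        rw [lintegral_indicator Q2_meas, setLIntegral_const, Q2_vol, mul_comm]

/-- The `L^q` bound at a fixed time. -/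
theorem sq_Lq {P : (ℝ × ℝ → ℂ) → Prop} (hP : Cl P) {ε q : ℝ} (hε : 0 < ε) (hε1 : ε ≤ 1)
    (hq : 2 < q) (hq4 : q ≤ 4) :
    ∃ K : ℝ≥0∞, K < ⊤ ∧ ∀ (S : Type) [MeasurableSpace S] (ν : Measure S) [IsFiniteMeasure ν]
      (g : S → ℝ × ℝ → ℂ), Measurable (Function.uncurry g) → (∀ s, P (g s)) → ∀ t : ℝ,
      ∫⁻ y, ‖E2 (sq ν g) y t‖ₑ ^ q ≤
        K * ν univ ^ q * ENNReal.ofReal ((max 1 |t|) ^ (-((1 - ε) * (q - 2)))) := by
  obtain ⟨C, hC, hC2⟩ := hP.cd ((1 - ε) / 2) (by linarith) (by linarith)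
  set P : ℝ≥0∞ := ENNReal.ofReal ((2 * Real.pi) ^ 2) * 4 with hP'
  have hPt : P ≠ ⊤ := ENNReal.mul_ne_top ENNReal.ofReal_ne_top (by norm_num)
  have e1 : 0 ≤ (4 - q) / 2 := by linarith
  have e2 : 0 ≤ (q - 2) / 2 := by linarith
  set K1 : ℝ≥0∞ := P ^ ((4 - q) / 2) * (C ^ 4) ^ ((q - 2) / 2) with hK1
  set K2 : ℝ≥0∞ := 4 ^ (q - 2) * P with hK2
  refine ⟨K1 + K2, ?_, ?_⟩
  · apply ENNReal.add_lt_top.2
    refine ⟨ENNReal.mul_lt_top (ENNReal.rpow_lt_top_of_nonneg e1 hPt)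
      (ENNReal.rpow_lt_top_of_nonneg e2 (ENNReal.pow_ne_top hC.ne)), ?_⟩
    exact ENNReal.mul_lt_top (ENNReal.rpow_lt_top_of_nonneg (by linarith) (by norm_num))
      hPt.lt_top
  intro S _ ν _ g hg hPg t
  have ha : ∀ s x, ‖g s x‖ ≤ 1 := fun s => hP.bd _ (hPg s)
  set Φ : ℝ × ℝ → ℝ≥0∞ := fun y => ‖E2 (sq ν g) y t‖ₑ with hΦ
  have hΦm : Measurable Φ := (E2_meas1 (sq_smeas ν hg).measurable t).enorm
  have h2 := sq_two ν hg ha t
  rw [← hP'] at h2
  rcases le_or_gt 1 |t| with ht | ht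
  · rw [max_eq_right ht]
    have ht0 : 0 < |t| := by linarith
    have h4 := sq_four ν hg ha t (X := C * ENNReal.ofReal (|t| ^ (-((1 - ε) / 2))))
      (fun s => hC2 _ ⟨g s, hPg s, rfl⟩ t ht)
    have hsplit : ∀ y, Φ y ^ q = (Φ y ^ 2) ^ ((4 - q) / 2) * (Φ y ^ 4) ^ ((q - 2) / 2) := by
      intro y
      rw [← ENNReal.rpow_natCast, ← ENNReal.rpow_natCast, ← ENNReal.rpow_mul, ← ENNReal.rpow_mul,
        ← ENNReal.rpow_add_of_nonneg _ _ (by push_cast; linarith) (by push_cast; linarith)]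
      congr 1
      push_cast
      ring
    calc ∫⁻ y, Φ y ^ q = ∫⁻ y, (Φ y ^ 2) ^ ((4 - q) / 2) * (Φ y ^ 4) ^ ((q - 2) / 2) :=
          lintegral_congr hsplit
      _ ≤ (∫⁻ y, Φ y ^ 2) ^ ((4 - q) / 2) * (∫⁻ y, Φ y ^ 4) ^ ((q - 2) / 2) :=
          ENNReal.lintegral_mul_norm_pow_le (hΦm.pow_const 2).aemeasurable
            (hΦm.pow_const 4).aemeasurable e1 e2 (by ring)
      _ ≤ (P * ν univ ^ 2) ^ ((4 - q) / 2) *
          ((ν univ * (C * ENNReal.ofReal (|t| ^ (-((1 - ε) / 2))))) ^ 4) ^ ((q - 2) / 2) := by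
          gcongr
      _ = K1 * ν univ ^ q * ENNReal.ofReal (|t| ^ (-((1 - ε) * (q - 2)))) := by
          rw [ENNReal.mul_rpow_of_nonneg _ _ e1, mul_pow, mul_pow,
            ENNReal.mul_rpow_of_nonneg _ _ e2, ENNReal.mul_rpow_of_nonneg _ _ e2]
          have f1 : (ν univ ^ 2) ^ ((4 - q) / 2) * (ν univ ^ 4) ^ ((q - 2) / 2) = ν univ ^ q := by
            rw [← ENNReal.rpow_natCast, ← ENNReal.rpow_natCast, ← ENNReal.rpow_mul,
              ← ENNReal.rpow_mul,
              ← ENNReal.rpow_add_of_nonneg _ _ (by push_cast; linarith) (by push_cast; linarith)]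
            congr 1
            push_cast
            ring
          have f2 : (ENNReal.ofReal (|t| ^ (-((1 - ε) / 2))) ^ 4) ^ ((q - 2) / 2) =
              ENNReal.ofReal (|t| ^ (-((1 - ε) * (q - 2)))) := by
            rw [← ENNReal.ofReal_pow (by positivity), ENNReal.ofReal_rpow_of_nonneg (by positivity) e2,
              ← Real.rpow_natCast, ← Real.rpow_mul ht0.le, ← Real.rpow_mul ht0.le]
            congr 2
            push_cast
            ring
          rw [f2, ← f1]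
          ring
      _ ≤ _ := by
          gcongr
          exact le_self_add
  · rw [max_eq_left ht.le, Real.one_rpow, ENNReal.ofReal_one, mul_one]
    have hq2 : 0 ≤ q - 2 := by linarith
    have hsplit : ∀ y, Φ y ^ q ≤ (4 * ν univ) ^ (q - 2) * Φ y ^ 2 := by
      intro y
      have h1 : Φ y ^ q = Φ y ^ (q - 2) * Φ y ^ 2 := by
        rw [← ENNReal.rpow_natCast, ← ENNReal.rpow_add_of_nonneg _ _ hq2 (by norm_num)]
        congr 1
        push_cast
        ring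
      rw [h1]
      gcongr
      exact sq_sup ν ha y t
    calc ∫⁻ y, Φ y ^ q ≤ ∫⁻ y, (4 * ν univ) ^ (q - 2) * Φ y ^ 2 := lintegral_mono hsplit
      _ = (4 * ν univ) ^ (q - 2) * ∫⁻ y, Φ y ^ 2 := lintegral_const_mul _ (hΦm.pow_const 2)
      _ ≤ (4 * ν univ) ^ (q - 2) * (P * ν univ ^ 2) := by gcongr
      _ = K2 * ν univ ^ q := by
          rw [ENNReal.mul_rpow_of_nonneg _ _ hq2]
          have h1 : ν univ ^ q = ν univ ^ (q - 2) * ν univ ^ 2 := by
            rw [← ENNReal.rpow_natCast, ← ENNReal.rpow_add_of_nonneg _ _ hq2 (by norm_num)]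
            congr 1
            push_cast
            ring
          rw [h1, hK2]
          ring
      _ ≤ _ := by
          gcongr
          exact le_add_self

/-- the weight -/
noncomputable def wt (n : ℕ) (q t : ℝ) : ℝ≥0∞ :=
  ENNReal.ofReal ((max 1 |t|) ^ (-((A0 n q + 2 - 1) / 2)))

lemma wt_meas (n : ℕ) (q : ℝ) : Measurable (wt n q) := by
  unfold wt
  fun_prop

lemma wt_pow {q : ℝ} {n : ℕ} (hn : 0 < n) (hA : 1 < A0 n q) (t : ℝ) (m : ℕ) :
    ENNReal.ofReal ((max 1 |t|) ^ (-((1 - ep n q) * (q - 2)))) ^ m = wt n q t ^ (2 * (m : ℝ) / n) := by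
  have hn0 : (0 : ℝ) < n := by exact_mod_cast hn
  set M : ℝ := max 1 |t| with hM
  have hM1 : 1 ≤ M := le_max_left _ _
  have hM0 : 0 < M := by linarith
  unfold wt
  rw [← hM, ENNReal.ofReal_rpow_of_nonneg (by positivity) (by positivity), ← Real.rpow_mul hM0.le,
    ← ENNReal.ofReal_pow (by positivity), ← Real.rpow_natCast, ← Real.rpow_mul hM0.le]
  congr 2
  have h1 : (1 - ep n q) * A0 n q = (A0 n q + 1) / 2 := by
    unfold Pool.Agent.TH277.CB.ep
    field_simp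
    ring
  have h2 : q - 2 = 2 * A0 n q / n := by
    unfold Pool.Agent.TH277.CB.A0
    field_simp
  rw [h2]
  have h3 : (1 - ep n q) * (2 * A0 n q / n) = 2 * ((1 - ep n q) * A0 n q) / n := by ring
  rw [h3, h1]
  field_simp
  ring

lemma wt_int (n : ℕ) (q : ℝ) : ∫⁻ t, wt n q t ≤ 2 * tint (A0 n q + 2) := by
  have h1 : ∫⁻ t in Ioi (0 : ℝ), wt n q t = tint (A0 n q + 2) := by
    unfold Pool.Agent.TH277.CP.tint wt
    apply setLIntegral_congr_fun measurableSet_Ioi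
    intro t ht
    simp only
    rw [abs_of_pos ht]
  have h2 : ∫⁻ t in Iio (0 : ℝ), wt n q t = ∫⁻ t in Ioi (0 : ℝ), wt n q t := by
    rw [← lintegral_indicator measurableSet_Iio, ← lintegral_indicator measurableSet_Ioi,
      ← lintegral_neg_eq_self]
    apply lintegral_congr
    intro t
    by_cases h : t ∈ Ioi (0 : ℝ)
    · have h3 : 0 < t := h
      rw [indicator_of_mem h, indicator_of_mem (show -t ∈ Iio (0 : ℝ) by
        simp only [mem_Iio]
        linarith)]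
      unfold wt
      rw [abs_neg]
    · rw [indicator_of_notMem h, indicator_of_notMem]
      intro h3
      apply h
      simp only [mem_Iio] at h3
      simp only [mem_Ioi]
      linarith
  have h3 : ∫⁻ t, wt n q t ≤ ∫⁻ t in Iio (0 : ℝ) ∪ Ioi (0 : ℝ), wt n q t := by
    rw [← lintegral_indicator (measurableSet_Iio.union measurableSet_Ioi)]
    apply lintegral_mono_ae
    have h0 : ∀ᵐ t : ℝ, t ≠ 0 := by
      rw [ae_iff]
      simp
    filter_upwards [h0] with t ht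
    rw [indicator_of_mem]
    rcases lt_or_gt_of_ne ht with h | h
    · exact Or.inl h
    · exact Or.inr h
  refine h3.trans ((lintegral_union_le _ _ _).trans ?_)
  rw [h2, h1, two_mul]

end Pool.Agent.P8H98.HG
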