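import Mathlib
import Pool.Agent.P8H98.HG.Final
set_option autoImplicit false
set_option linter.unusedSectionVars false

/-! The extension estimate for products over blocks. -/

namespace Pool.Agent.P8H98.HG

open MeasureTheory Set Complex
open scoped ENNReal NNReal ComplexConjugate ContDiff
open Pool.Agent.TH277.CS (s2 sup sup_meas)
open Pool.Agent.TH277.CB (pq E2 pq_norm pq_cont scale_neg s2_cont Q2 Q2_meas Q2_vol Q2_fin
  Phi Phi_mp EE_blk lint_pi2 E2t_meas sch_time A0 ep A0_gt ep_pos)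
open Pool.Agent.TH277.HT (ch ch_norm ch_cont ch_add ch_sum EE EE_meas Sch Adm E1 E1_meas E1t_meas
  EE_mult lint_pi mix EE_le I1 I1_le)
open Pool.Agent.TH277.CP (tint tint_lt)

variable {m₁ m₂ n : ℕ}

lemma sup4_ne {q : ℝ} (hq : 4 ≤ q) : (((2 : ℝ≥0∞) ^ n) ^ (q - 4)) ≠ ⊤ :=
  ENNReal.rpow_ne_top_of_nonneg (by linarith) (ENNReal.pow_ne_top (by norm_num))

/-- a superposition times a quadratic chirp -/
noncomputable def cq {S : Type} [MeasurableSpace S] (τ : ℝ) (ν : Measure S) (g : S → ℝ × ℝ → ℂ)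
    (x : ℝ × ℝ) : ℂ := ch (τ * s2 x) * sq ν g x

lemma cq_smeas {S : Type} [MeasurableSpace S] (τ : ℝ) (ν : Measure S) [IsFiniteMeasure ν]
    {g : S → ℝ × ℝ → ℂ} (hg : Measurable (Function.uncurry g)) : StronglyMeasurable (cq τ ν g) := by
  have h1 : Continuous fun x : ℝ × ℝ => ch (τ * s2 x) := ch_cont.comp (continuous_const.mul s2_cont)
  exact h1.stronglyMeasurable.mul (sq_smeas ν hg)

lemma cq_supp {S : Type} [MeasurableSpace S] (τ : ℝ) (ν : Measure S) (g : S → ℝ × ℝ → ℂ)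
    {x : ℝ × ℝ} (hx : x ∉ Q2) : cq τ ν g x = 0 := by
  unfold cq
  rw [sq_supp ν g hx, mul_zero]

lemma cq_enorm {S : Type} [MeasurableSpace S] (τ : ℝ) (ν : Measure S) [IsFiniteMeasure ν]
    {g : S → ℝ × ℝ → ℂ} (ha : ∀ s x, ‖g s x‖ ≤ 1) (x : ℝ × ℝ) : ‖cq τ ν g x‖ₑ ≤ ν univ := by
  unfold cq
  rw [enorm_mul, ← ofReal_norm (ch _), ch_norm, ENNReal.ofReal_one, one_mul]
  exact sq_enorm ν ha x

/-- A chirp is a translation of the time. -/
lemma E2_cq {S : Type} [MeasurableSpace S] (τ : ℝ) (ν : Measure S) (g : S → ℝ × ℝ → ℂ)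
    (y : ℝ × ℝ) (t : ℝ) : E2 (cq τ ν g) y t = E2 (sq ν g) y (t + τ) := by
  unfold Pool.Agent.TH277.CB.E2 cq
  congr 1
  ext x
  rw [← mul_assoc]
  congr 1
  unfold Pool.Agent.TH277.CB.pq
  rw [← ch_add]
  congr 1
  ring

/-- The estimate for small exponents. -/
theorem main4 {P : (ℝ × ℝ → ℂ) → Prop} (hP : Cl P) (m₁ m₂ n : ℕ) (hm₂ : 1 ≤ m₂)
    (hn : n = m₁ + 2 * m₂) (q : ℝ) (hq : 2 * ((n : ℝ) + 1) / n < q) (hq4 : q ≤ 4) :
    ∃ C : ℝ≥0, ∀ (e : Fin m₁ ⊕ (Fin m₂ ⊕ Fin m₂) ≃ Fin n) (H : Type) [NormedAddCommGroup H]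
      [InnerProductSpace ℂ H] [CompleteSpace H]
      (M : ContinuousMultilinearMap ℂ (fun _ : Fin m₁ => H) ℂ) (a : Fin m₁ → ℝ → H),
      ‖M‖ ≤ 1 → (∀ j, Adm (a j)) →
      ∀ (τ : Fin m₂ → ℝ) (S : Fin m₂ → Type) [∀ j, MeasurableSpace (S j)]
        (ν : ∀ j, Measure (S j)) [∀ j, IsFiniteMeasure (ν j)] (g : ∀ j, S j → ℝ × ℝ → ℂ),
        (∀ j, Measurable (Function.uncurry (g j))) → (∀ j s, P (g j s)) →
        ∫⁻ y : (Fin n → ℝ) × ℝ,
          ‖EE (fun ξ => M (fun j => a j ((Phi e ξ).1 j)) *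
            ∏ j, cq (τ j) (ν j) (g j) ((Phi e ξ).2 j)) y‖ₑ ^ q ≤ C * ∏ j, ν j univ ^ q := by
  have hn2 : 2 ≤ n := by omega
  have hn0' : 0 < n := by omega
  have hn0 : (0 : ℝ) < n := by exact_mod_cast hn0'
  have hA : 1 < A0 n q := A0_gt hn0' hq
  have hε : 0 < ep n q := ep_pos hA
  have hε1 : ep n q ≤ 1 := by
    unfold Pool.Agent.TH277.CB.ep
    rw [div_le_one (by linarith)]
    linarith
  have hq2 : 2 < q := by
    have h1 : 2 < 2 * ((n : ℝ) + 1) / n := by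
      rw [lt_div_iff₀ hn0]
      linarith
    linarith
  have hq0 : 0 < q := by linarith
  obtain ⟨C, hC⟩ := mix n hn2 q hq
  obtain ⟨K0, hK0, hK1⟩ := sq_Lq hP hε hε1 hq2 hq4
  set p : Fin m₂ ⊕ Fin m₁ → ℝ := Sum.elim (fun _ => 2 / (n : ℝ)) (fun _ => 1 / (n : ℝ)) with hp
  have hsum : ∑ i, p i = 1 := by
    rw [Fintype.sum_sum_type]
    simp only [hp, Sum.elim_inl, Sum.elim_inr, Finset.sum_const, Finset.card_univ,
      Fintype.card_fin, nsmul_eq_mul]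
    have h1 : (n : ℝ) = m₁ + 2 * m₂ := by exact_mod_cast hn
    rw [mul_one_div, mul_div_assoc', ← add_div, add_comm, mul_comm (m₂ : ℝ), ← h1,
      div_self hn0.ne']
  set K : ℝ≥0∞ := K0 ^ m₂ *
    (((2 * tint (A0 n q + 2)) ^ (2 / (n : ℝ))) ^ m₂ * ((C : ℝ≥0∞) ^ (1 / (n : ℝ))) ^ m₁) with hK
  have hKt : K ≠ ⊤ := by
    rw [hK]
    apply ENNReal.mul_ne_top (ENNReal.pow_ne_top hK0.ne)
    apply ENNReal.mul_ne_top
    · exact ENNReal.pow_ne_top (ENNReal.rpow_ne_top_of_nonneg (by positivity)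
        (ENNReal.mul_ne_top (by norm_num) (tint_lt _ (by linarith)).ne))
    · exact ENNReal.pow_ne_top (ENNReal.rpow_ne_top_of_nonneg (by positivity) ENNReal.coe_ne_top)
  refine ⟨K.toNNReal, ?_⟩
  intro e H _ _ _ M a hM ha τ S _ ν _ g hg hat
  rw [ENNReal.coe_toNNReal hKt]
  set s : (Fin m₁ → ℝ) → ℂ := fun ξ => M (fun j => a j (ξ j)) with hs
  have hSch : Sch m₁ s := ⟨H, inferInstance, inferInstance, inferInstance, M, a, hM, ha,
    fun ξ => rfl⟩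
  have hsm : StronglyMeasurable s := hSch.meas
  set G : Fin m₂ → ℝ × ℝ → ℂ := fun j => cq (τ j) (ν j) (g j) with hG
  have hGm : ∀ j, StronglyMeasurable (G j) := fun j => cq_smeas (τ j) (ν j) (hg j)
  have hG0 : ∀ j x, x ∉ Q2 → G j x = 0 := fun j x hx => cq_supp (τ j) (ν j) (g j) hx
  set f : (Fin n → ℝ) → ℂ := fun ξ => s (Phi e ξ).1 * ∏ j, G j ((Phi e ξ).2 j) with hf
  have hfm : StronglyMeasurable f := by
    apply StronglyMeasurable.mul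
    · exact hsm.comp_measurable (measurable_fst.comp (Phi_mp e).measurable)
    · apply Finset.stronglyMeasurable_fun_prod
      intro j _
      exact (hGm j).comp_measurable ((measurable_pi_apply j).comp
        (measurable_snd.comp (Phi_mp e).measurable))
  have hEm : Measurable fun y : (Fin n → ℝ) × ℝ => ‖EE f y‖ₑ ^ q :=
    (EE_meas hfm).enorm.pow_const q
  set Bj : Fin m₁ → ℝ → ℝ≥0∞ := fun j t => ∫⁻ x : ℝ, ‖E1 (a j) x t‖ₑ ^ q with hBj
  have hBm : ∀ j, Measurable (Bj j) := fun j =>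
    ((E1_meas (ha j)).enorm.pow_const q).lintegral_prod_left'
  -- the bound at a fixed time
  have hfix : ∀ t : ℝ, ∫⁻ x : Fin n → ℝ, ‖EE f (x, t)‖ₑ ^ q ≤
      (K0 ^ m₂ * ∏ j, ν j univ ^ q) *
        ((∏ j, wt n q (t + τ j) ^ (2 / (n : ℝ))) *
          ∏ j, (Bj j t ^ (n : ℝ)) ^ (1 / (n : ℝ))) := by
    intro t
    set Z : (Fin m₁ → ℝ) × (Fin m₂ → ℝ × ℝ) → ℝ≥0∞ := fun z =>
      ‖EE s (z.1, t)‖ₑ ^ q * ∏ j, ‖E2 (G j) (z.2 j) t‖ₑ ^ q with hZ
    have hEs : Measurable fun x : Fin m₁ → ℝ => ‖EE s (x, t)‖ₑ ^ q :=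
      ((EE_meas hsm).enorm.pow_const q).comp
        (by fun_prop : Measurable fun x : Fin m₁ → ℝ => ((x, t) : (Fin m₁ → ℝ) × ℝ))
    have hEg : ∀ j, Measurable fun y : ℝ × ℝ => ‖E2 (G j) y t‖ₑ ^ q := fun j =>
      (E2t_meas (G j) (hGm j) t).pow_const q
    have hEgp : Measurable fun z : Fin m₂ → ℝ × ℝ => ∏ j, ‖E2 (G j) (z j) t‖ₑ ^ q :=
      Finset.measurable_prod _ fun j _ => (hEg j).comp (measurable_pi_apply j)
    have hZm : Measurable Z :=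
      (hEs.comp measurable_fst).mul (hEgp.comp measurable_snd)
    calc ∫⁻ x : Fin n → ℝ, ‖EE f (x, t)‖ₑ ^ q = ∫⁻ x : Fin n → ℝ, Z (Phi e x) := by
          apply lintegral_congr
          intro x
          rw [hf, EE_blk e hsm hGm hG0 x t, enorm_mul, ENNReal.mul_rpow_of_nonneg _ _ hq0.le]
          simp only [hZ]
          congr 1
          rw [ENNReal.prod_rpow_of_nonneg hq0.le]
          congr 1
          rw [← ofReal_norm, norm_prod, ENNReal.ofReal_prod_of_nonneg fun j _ => norm_nonneg _]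
          apply Finset.prod_congr rfl
          intro j _
          rw [ofReal_norm]
      _ = ∫⁻ z, Z z := (Phi_mp e).lintegral_comp hZm
      _ = (∫⁻ x : Fin m₁ → ℝ, ‖EE s (x, t)‖ₑ ^ q) *
            ∫⁻ z : Fin m₂ → ℝ × ℝ, ∏ j, ‖E2 (G j) (z j) t‖ₑ ^ q := by
          rw [Measure.volume_eq_prod]
          exact lintegral_prod_mul hEs.aemeasurable hEgp.aemeasurable
      _ = (∫⁻ x : Fin m₁ → ℝ, ‖EE s (x, t)‖ₑ ^ q) * ∏ j, ∫⁻ y, ‖E2 (G j) y t‖ₑ ^ q := by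
          rw [lint_pi2 (fun j y => ‖E2 (G j) y t‖ₑ ^ q) hEg]
      _ ≤ (∏ j, Bj j t) * ∏ j, (K0 * ν j univ ^ q * wt n q (t + τ j) ^ (2 / (n : ℝ))) := by
          apply mul_le_mul'
          · exact sch_time hq0 M hM ha t
          · apply Finset.prod_le_prod'
            intro j _
            simp only [hG, E2_cq]
            have h1 := wt_pow hn0' hA (t + τ j) 1
            rw [pow_one, Nat.cast_one, mul_one] at h1
            rw [← h1]
            exact hK1 (S j) (ν j) (g j) (hg j) (hat j) (t + τ j)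
      _ = _ := by
          rw [Finset.prod_mul_distrib, Finset.prod_mul_distrib, Finset.prod_const,
            Finset.card_univ, Fintype.card_fin]
          have h1 : ∀ j, (Bj j t ^ (n : ℝ)) ^ (1 / (n : ℝ)) = Bj j t := by
            intro j
            rw [← ENNReal.rpow_mul, mul_one_div_cancel hn0.ne', ENNReal.rpow_one]
          simp only [h1]
          ring
  set Ff : Fin m₂ ⊕ Fin m₁ → ℝ → ℝ≥0∞ :=
    Sum.elim (fun j t => wt n q (t + τ j)) (fun j t => Bj j t ^ (n : ℝ)) with hFf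
  have hFm : ∀ i, Measurable (Ff i) := by
    rintro (j | j)
    · exact (wt_meas n q).comp (measurable_add_const (τ j))
    · exact (hBm j).pow_const _
  have hprod : ∀ t, (∏ j, wt n q (t + τ j) ^ (2 / (n : ℝ))) *
      ∏ j, (Bj j t ^ (n : ℝ)) ^ (1 / (n : ℝ)) = ∏ i, Ff i t ^ p i := by
    intro t
    rw [Fintype.prod_sum_type]
    rfl
  rw [Measure.volume_eq_prod, lintegral_prod_symm _ hEm.aemeasurable]
  calc ∫⁻ t : ℝ, ∫⁻ x : Fin n → ℝ, ‖EE f (x, t)‖ₑ ^ q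
      ≤ ∫⁻ t : ℝ, (K0 ^ m₂ * ∏ j, ν j univ ^ q) *
        ((∏ j, wt n q (t + τ j) ^ (2 / (n : ℝ))) *
          ∏ j, (Bj j t ^ (n : ℝ)) ^ (1 / (n : ℝ))) :=
        lintegral_mono hfix
    _ = ∫⁻ t : ℝ, (K0 ^ m₂ * ∏ j, ν j univ ^ q) * ∏ i, Ff i t ^ p i := by simp only [hprod]
    _ = (K0 ^ m₂ * ∏ j, ν j univ ^ q) * ∫⁻ t : ℝ, ∏ i, Ff i t ^ p i := by
        apply lintegral_const_mul
        exact Finset.measurable_prod _ fun i _ => (hFm i).pow_const _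
    _ ≤ (K0 ^ m₂ * ∏ j, ν j univ ^ q) * ∏ i, (∫⁻ t : ℝ, Ff i t) ^ p i := by
        apply mul_le_mul' le_rfl
        apply ENNReal.lintegral_prod_norm_pow_le _ (fun i _ => (hFm i).aemeasurable) hsum
        rintro (j | j) _
        · simp only [hp, Sum.elim_inl]
          positivity
        · simp only [hp, Sum.elim_inr]
          positivity
    _ = (K0 ^ m₂ * ∏ j, ν j univ ^ q) *
        ((∏ j, (∫⁻ t : ℝ, wt n q (t + τ j)) ^ (2 / (n : ℝ))) *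
          ∏ j, (∫⁻ t : ℝ, Bj j t ^ (n : ℝ)) ^ (1 / (n : ℝ))) := by
        rw [Fintype.prod_sum_type]
        rfl
    _ ≤ (K0 ^ m₂ * ∏ j, ν j univ ^ q) *
        ((∏ _j : Fin m₂, (2 * tint (A0 n q + 2)) ^ (2 / (n : ℝ))) *
          ∏ _j : Fin m₁, (C : ℝ≥0∞) ^ (1 / (n : ℝ))) := by
        apply mul_le_mul' le_rfl
        apply mul_le_mul'
        · apply Finset.prod_le_prod'
          intro j _
          rw [lintegral_add_right_eq_self (wt n q) (τ j)]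
          exact ENNReal.rpow_le_rpow (wt_int n q) (by positivity)
        · apply Finset.prod_le_prod'
          intro j _
          exact ENNReal.rpow_le_rpow (hC H (a j) (ha j)) (by positivity)
    _ = K * ∏ j, ν j univ ^ q := by
        rw [Finset.prod_const, Finset.prod_const, Finset.card_univ, Finset.card_univ,
          Fintype.card_fin, Fintype.card_fin, hK]
        ring

/-- The trivial bound. -/
lemma EE_sup (e : Fin m₁ ⊕ (Fin m₂ ⊕ Fin m₂) ≃ Fin n) {H : Type}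
    [NormedAddCommGroup H]
    [InnerProductSpace ℂ H] [CompleteSpace H]
    (M : ContinuousMultilinearMap ℂ (fun _ : Fin m₁ => H) ℂ) (a : Fin m₁ → ℝ → H)
    (hM : ‖M‖ ≤ 1) (ha : ∀ j, Adm (a j)) (τ : Fin m₂ → ℝ)
    (S : Fin m₂ → Type) [∀ j, MeasurableSpace (S j)] (ν : ∀ j, Measure (S j))
    [∀ j, IsFiniteMeasure (ν j)] (g : ∀ j, S j → ℝ × ℝ → ℂ)
    (hb : ∀ j s x, ‖g j s x‖ ≤ 1) (y : (Fin n → ℝ) × ℝ) :
    ‖EE (fun ξ => M (fun j => a j ((Phi e ξ).1 j)) *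
            ∏ j, cq (τ j) (ν j) (g j) ((Phi e ξ).2 j)) y‖ₑ ≤ 2 ^ n * ∏ j, ν j univ := by
  refine (EE_le _ y).trans ?_
  unfold Pool.Agent.TH277.HT.I1
  have hpt : ∀ ξ : Fin n → ℝ, ‖M (fun j => a j ((Phi e ξ).1 j)) *
      ∏ j, cq (τ j) (ν j) (g j) ((Phi e ξ).2 j)‖ₑ ≤ ∏ j, ν j univ := by
    intro ξ
    rw [enorm_mul]
    have h1 : ‖M (fun j => a j ((Phi e ξ).1 j))‖ₑ ≤ 1 := by
      rw [← ofReal_norm, ENNReal.ofReal_le_one]
      refine (M.le_opNorm _).trans ?_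
      apply mul_le_one₀ hM (Finset.prod_nonneg fun j _ => norm_nonneg _)
      exact Finset.prod_le_one (fun j _ => norm_nonneg _) (fun j _ => (ha j).bd _)
    have h2 : ‖∏ j, cq (τ j) (ν j) (g j) ((Phi e ξ).2 j)‖ₑ ≤ ∏ j, ν j univ := by
      rw [← ofReal_norm, norm_prod, ENNReal.ofReal_prod_of_nonneg fun j _ => norm_nonneg _]
      apply Finset.prod_le_prod'
      intro j _
      rw [ofReal_norm]
      exact cq_enorm (τ j) (ν j) (hb j) _
    calc _ ≤ 1 * ∏ j, ν j univ := mul_le_mul' h1 h2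
      _ = _ := one_mul _
  calc ∫⁻ ξ in Icc (-1 : Fin n → ℝ) 1, ‖M (fun j => a j ((Phi e ξ).1 j)) *
      ∏ j, cq (τ j) (ν j) (g j) ((Phi e ξ).2 j)‖ₑ ≤ ∫⁻ _ξ in Icc (-1 : Fin n → ℝ) 1, ∏ j, ν j univ :=
        lintegral_mono fun ξ => hpt ξ
    _ = _ := by
        rw [setLIntegral_const, mul_comm]
        congr 1
        rw [Real.volume_Icc_pi]
        simp only [Pi.one_apply, Pi.neg_apply, Finset.prod_const, Finset.card_univ,
          Fintype.card_fin]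
        norm_num

/-- The estimate. -/
theorem main {P : (ℝ × ℝ → ℂ) → Prop} (hP : Cl P) (m₁ m₂ n : ℕ) (hm₂ : 1 ≤ m₂)
    (hn : n = m₁ + 2 * m₂) (q : ℝ) (hq : 2 * ((n : ℝ) + 1) / n < q) :
    ∃ C : ℝ≥0, ∀ (e : Fin m₁ ⊕ (Fin m₂ ⊕ Fin m₂) ≃ Fin n) (H : Type) [NormedAddCommGroup H]
      [InnerProductSpace ℂ H] [CompleteSpace H]
      (M : ContinuousMultilinearMap ℂ (fun _ : Fin m₁ => H) ℂ) (a : Fin m₁ → ℝ → H),
      ‖M‖ ≤ 1 → (∀ j, Adm (a j)) →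
      ∀ (τ : Fin m₂ → ℝ) (S : Fin m₂ → Type) [∀ j, MeasurableSpace (S j)]
        (ν : ∀ j, Measure (S j)) [∀ j, IsFiniteMeasure (ν j)] (g : ∀ j, S j → ℝ × ℝ → ℂ),
        (∀ j, Measurable (Function.uncurry (g j))) → (∀ j s, P (g j s)) →
        ∫⁻ y : (Fin n → ℝ) × ℝ,
          ‖EE (fun ξ => M (fun j => a j ((Phi e ξ).1 j)) *
            ∏ j, cq (τ j) (ν j) (g j) ((Phi e ξ).2 j)) y‖ₑ ^ q ≤ C * ∏ j, ν j univ ^ q := by
  rcases le_or_gt q 4 with h4 | h4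
  · exact main4 hP m₁ m₂ n hm₂ hn q hq h4
  have hn2 : 2 ≤ n := by omega
  have hn0' : 0 < n := by omega
  have hn0 : (0 : ℝ) < n := by exact_mod_cast hn0'
  have h44 : 2 * ((n : ℝ) + 1) / n < 4 := by
    rw [div_lt_iff₀ hn0]
    have : (2 : ℝ) ≤ n := by exact_mod_cast hn2
    linarith
  obtain ⟨C, hC⟩ := main4 hP m₁ m₂ n hm₂ hn 4 h44 le_rfl
  set K : ℝ≥0∞ := ((2 : ℝ≥0∞) ^ n) ^ (q - 4) * C with hK
  have hKt : K ≠ ⊤ := ENNReal.mul_ne_top (sup4_ne h4.le) ENNReal.coe_ne_top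
  refine ⟨K.toNNReal, ?_⟩
  intro e H _ _ _ M a hM ha τ S _ ν _ g hg hat
  rw [ENNReal.coe_toNNReal hKt]
  have h1 := hC e H M a hM ha τ S ν g hg hat
  have h2 := EE_sup e M a hM ha τ S ν g fun j s => hP.bd _ (hat j s)
  set F := (fun y : (Fin n → ℝ) × ℝ => EE (fun ξ => M (fun j => a j ((Phi e ξ).1 j)) *
            ∏ j, cq (τ j) (ν j) (g j) ((Phi e ξ).2 j)) y) with hF
  set B : ℝ≥0∞ := ∏ j, ν j univ with hB
  have hq4 : 0 ≤ q - 4 := by linarith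
  have hpt : ∀ y, ‖F y‖ₑ ^ q ≤ (2 ^ n * B) ^ (q - 4) * ‖F y‖ₑ ^ (4 : ℝ) := by
    intro y
    have e1 : ‖F y‖ₑ ^ q = ‖F y‖ₑ ^ (q - 4) * ‖F y‖ₑ ^ (4 : ℝ) := by
      rw [← ENNReal.rpow_add_of_nonneg _ _ hq4 (by norm_num)]
      congr 1
      ring
    rw [e1]
    exact mul_le_mul' (ENNReal.rpow_le_rpow (h2 y) hq4) le_rfl
  have hBt : B ≠ ⊤ := ENNReal.prod_ne_top fun j _ => measure_ne_top _ _
  have hct : (2 ^ n * B) ^ (q - 4) ≠ ⊤ :=
    ENNReal.rpow_ne_top_of_nonneg hq4 (ENNReal.mul_ne_top (ENNReal.pow_ne_top (by norm_num)) hBt)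
  calc ∫⁻ y, ‖F y‖ₑ ^ q ≤ ∫⁻ y, (2 ^ n * B) ^ (q - 4) * ‖F y‖ₑ ^ (4 : ℝ) := lintegral_mono hpt
    _ = (2 ^ n * B) ^ (q - 4) * ∫⁻ y, ‖F y‖ₑ ^ (4 : ℝ) := lintegral_const_mul' _ _ hct
    _ ≤ (2 ^ n * B) ^ (q - 4) * (C * ∏ j, ν j univ ^ (4 : ℝ)) := mul_le_mul' le_rfl h1
    _ = K * ∏ j, ν j univ ^ q := by
        rw [ENNReal.mul_rpow_of_nonneg _ _ hq4, ENNReal.prod_rpow_of_nonneg (by norm_num),
          ENNReal.prod_rpow_of_nonneg (by linarith), ← hB, hK]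
        have e2 : B ^ q = B ^ (q - 4) * B ^ (4 : ℝ) := by
          rw [← ENNReal.rpow_add_of_nonneg _ _ hq4 (by norm_num)]
          congr 1
          ring
        rw [e2]
        ring

end Pool.Agent.P8H98.HG
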