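import Mathlib
import Pool.Agent.P8H98.HG.Sym
set_option autoImplicit false

/-! Functions of bounded variation on a half line: modulus of continuity in the mean, decay of the
Fourier transform. -/

namespace Pool.Agent.P8H98.HG

open MeasureTheory Set Complex
open scoped ENNReal NNReal ComplexConjugate ContDiff
open Pool.Agent.TH277.CS (s2)
open Pool.Agent.TH277.CB (pq E2 pq_norm pq_cont scale_neg s2_cont)
open Pool.Agent.TH277.HT (ch ch_norm ch_cont ch_add)

/-- the variation up to a point -/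
noncomputable def vr (k : ℝ → ℂ) (u : ℝ) : ℝ≥0∞ := eVariationOn k (Ioc 0 u)

lemma vr_mono (k : ℝ → ℂ) : Monotone (vr k) := fun _ _ h =>
  eVariationOn.mono k (Ioc_subset_Ioc_right h)

lemma vr_le (k : ℝ → ℂ) (u : ℝ) : vr k u ≤ eVariationOn k (Ioi 0) :=
  eVariationOn.mono k fun _ h => h.1

lemma vr_step (k : ℝ → ℂ) {u s : ℝ} (hu : 0 < u) (hs : 0 ≤ s) :
    ‖k (u + s) - k u‖ₑ + vr k u ≤ vr k (u + s) := by
  have h1 : Ioc (0 : ℝ) (u + s) = Ioc 0 u ∪ Icc u (u + s) := by
    ext x
    simp only [mem_Ioc, mem_union, mem_Icc]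
    constructor
    · rintro ⟨h1, h2⟩
      rcases le_total x u with h | h
      · exact Or.inl ⟨h1, h⟩
      · exact Or.inr ⟨h, h2⟩
    · rintro (⟨h1, h2⟩ | ⟨h1, h2⟩)
      · exact ⟨h1, by linarith⟩
      · exact ⟨by linarith, h2⟩
  have hg : IsGreatest (Ioc (0 : ℝ) u) u := ⟨⟨hu, le_rfl⟩, fun x hx => hx.2⟩
  have hl : IsLeast (Icc u (u + s)) u := ⟨⟨le_rfl, by linarith⟩, fun x hx => hx.1⟩
  unfold vr
  rw [h1, eVariationOn.union k hg hl, add_comm]
  apply add_le_add le_rfl
  rw [← edist_eq_enorm_sub]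
  exact eVariationOn.edist_le k ⟨by linarith, le_rfl⟩ ⟨le_rfl, by linarith⟩

/-- Modulus of continuity in the mean, interior part. -/
lemma mod_int {k : ℝ → ℂ} (hk : Measurable k) {V : ℝ≥0} (hV : eVariationOn k (Ioi 0) ≤ V)
    {U s : ℝ} (hs : 0 ≤ s) :
    ∫⁻ u in Ioo 0 (U - s), ‖k (u + s) - k u‖ₑ ≤ V * ENNReal.ofReal s := by
  set T := ∫⁻ u in Ioo 0 (U - s), vr k u with hT
  have hTt : T ≠ ⊤ := by
    have h1 : T ≤ ∫⁻ _u in Ioo 0 (U - s), (V : ℝ≥0∞) :=
      lintegral_mono fun u => (vr_le k u).trans hV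
    rw [setLIntegral_const] at h1
    refine ne_top_of_le_ne_top ?_ h1
    rw [Real.volume_Ioo]
    exact ENNReal.mul_ne_top ENNReal.coe_ne_top ENNReal.ofReal_ne_top
  have hkm : Measurable fun u => ‖k (u + s) - k u‖ₑ :=
    ((hk.comp (measurable_add_const s)).sub hk).enorm
  have hvm : Measurable (vr k) := (vr_mono k).measurable
  have h1 : (∫⁻ u in Ioo 0 (U - s), ‖k (u + s) - k u‖ₑ) + T ≤
      ∫⁻ u in Ioo 0 (U - s), vr k (u + s) := by
    rw [hT, ← lintegral_add_left hkm]
    apply setLIntegral_mono (hvm.comp (measurable_add_const s))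
    intro u hu
    exact vr_step k hu.1 hs
  have h2 : ∫⁻ u in Ioo 0 (U - s), vr k (u + s) ≤ T + V * ENNReal.ofReal s := by
    have h3 : ∫⁻ u in Ioo 0 (U - s), vr k (u + s) = ∫⁻ u in Ioo s U, vr k u := by
      rw [← lintegral_indicator measurableSet_Ioo, ← lintegral_indicator measurableSet_Ioo,
        ← lintegral_add_right_eq_self (fun u => (Ioo s U).indicator (vr k) u) s]
      apply lintegral_congr
      intro u
      by_cases hu : u ∈ Ioo 0 (U - s)
      · rw [indicator_of_mem hu, indicator_of_mem (show u + s ∈ Ioo s U from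
          ⟨by linarith [hu.1], by linarith [hu.2]⟩)]
      · rw [indicator_of_notMem hu, indicator_of_notMem]
        intro h
        exact hu ⟨by linarith [h.1], by linarith [h.2]⟩
    rw [h3]
    calc ∫⁻ u in Ioo s U, vr k u ≤ ∫⁻ u in Ioo 0 (U - s) ∪ Ico (U - s) U, vr k u := by
          apply lintegral_mono_set
          intro u hu
          rcases lt_or_ge u (U - s) with h | h
          · exact Or.inl ⟨by linarith [hu.1], h⟩
          · exact Or.inr ⟨h, hu.2⟩
      _ ≤ T + ∫⁻ u in Ico (U - s) U, vr k u := lintegral_union_le _ _ _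
      _ ≤ T + ∫⁻ _u in Ico (U - s) U, (V : ℝ≥0∞) := by
          apply add_le_add le_rfl
          exact lintegral_mono fun u => (vr_le k u).trans hV
      _ = T + V * ENNReal.ofReal s := by
          rw [setLIntegral_const, Real.volume_Ico]
          congr 3
          ring
  have h3 := h1.trans h2
  rw [add_comm T] at h3
  exact (ENNReal.add_le_add_iff_right hTt).1 h3

/-- Modulus of continuity in the mean. -/
lemma mod_all {k : ℝ → ℂ} (hk : Measurable k) (hb : ∀ u, ‖k u‖ ≤ 1) {V : ℝ≥0}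
    (hV : eVariationOn k (Ioi 0) ≤ V) {U s : ℝ} (hs : 0 ≤ s) :
    ∫⁻ u, ‖(Ioo 0 U).indicator k (u + s) - (Ioo 0 U).indicator k u‖ₑ ≤
      (V + 2) * ENNReal.ofReal s := by
  have hb1 : ∀ u, ‖(Ioo 0 U).indicator k u‖ₑ ≤ 1 := by
    intro u
    rw [← ofReal_norm, ENNReal.ofReal_le_one]
    by_cases hu : u ∈ Ioo 0 U
    · rw [indicator_of_mem hu]
      exact hb u
    · rw [indicator_of_notMem hu, norm_zero]
      exact zero_le_one
  have hpt : ∀ u, ‖(Ioo 0 U).indicator k (u + s) - (Ioo 0 U).indicator k u‖ₑ ≤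
      (Ioo 0 (U - s)).indicator (fun u => ‖k (u + s) - k u‖ₑ) u +
      ((Ioc (-s) 0).indicator (fun _ => 1) u + (Ico (U - s) U).indicator (fun _ => 1) u) := by
    intro u
    by_cases h1 : u ∈ Ioo 0 U
    · by_cases h2 : u + s ∈ Ioo 0 U
      · rw [indicator_of_mem h1, indicator_of_mem h2,
          indicator_of_mem (show u ∈ Ioo 0 (U - s) from ⟨h1.1, by linarith [h2.2]⟩)]
        exact le_self_add
      · rw [indicator_of_notMem h2, zero_sub, enorm_neg]
        have h3 : u ∈ Ico (U - s) U := by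
          refine ⟨?_, h1.2⟩
          by_contra hc
          push Not at hc
          exact h2 ⟨by linarith [h1.1], by linarith⟩
        rw [indicator_of_mem h3]
        refine (hb1 u).trans ?_
        exact le_add_self.trans le_add_self
    · rw [indicator_of_notMem h1, sub_zero]
      by_cases h2 : u + s ∈ Ioo 0 U
      · have h3 : u ∈ Ioc (-s) 0 := by
          refine ⟨by linarith [h2.1], ?_⟩
          by_contra hc
          push Not at hc
          exact h1 ⟨hc, by linarith [h2.2]⟩
        rw [indicator_of_mem h3]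
        refine (hb1 _).trans ?_
        exact le_self_add.trans le_add_self
      · rw [indicator_of_notMem h2, enorm_zero]
        exact zero_le
  have hkm : Measurable fun u => ‖k (u + s) - k u‖ₑ :=
    ((hk.comp (measurable_add_const s)).sub hk).enorm
  have hm1 : Measurable ((Ioo 0 (U - s)).indicator (fun u => ‖k (u + s) - k u‖ₑ)) :=
    hkm.indicator measurableSet_Ioo
  have hm2 : Measurable ((Ioc (-s) 0).indicator (fun _ : ℝ => (1 : ℝ≥0∞))) :=
    measurable_const.indicator measurableSet_Ioc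
  refine (lintegral_mono hpt).trans ?_
  rw [lintegral_add_left hm1, lintegral_add_left hm2, lintegral_indicator measurableSet_Ioo,
    lintegral_indicator measurableSet_Ioc, lintegral_indicator measurableSet_Ico,
    setLIntegral_const, setLIntegral_const, Real.volume_Ioc, Real.volume_Ico]
  have e1 : (0 : ℝ) - -s = s := by ring
  have e2 : U - (U - s) = s := by ring
  rw [e1, e2, add_mul]
  apply add_le_add (mod_int hk hV hs)
  rw [one_mul, two_mul]

/-- the Fourier transform of a cut-off function -/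
noncomputable def ft (U : ℝ) (k : ℝ → ℂ) (l : ℝ) : ℂ := ∫ u in Ioo 0 U, ch (-(l * u)) * k u

lemma ft_triv {U : ℝ} (hU : 0 ≤ U) {k : ℝ → ℂ} (hb : ∀ u, ‖k u‖ ≤ 1) (l : ℝ) :
    ‖ft U k l‖ ≤ U := by
  unfold ft
  have h1 : ∀ u ∈ Ioo (0 : ℝ) U, ‖ch (-(l * u)) * k u‖ ≤ 1 := by
    intro u _
    rw [norm_mul, ch_norm, one_mul]
    exact hb u
  have h2 : volume (Ioo (0 : ℝ) U) < ⊤ := by
    rw [Real.volume_Ioo]
    exact ENNReal.ofReal_lt_top
  have h3 := norm_setIntegral_le_of_norm_le_const h2 h1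
  have h4 : volume.real (Ioo (0 : ℝ) U) = U := by
    rw [Real.volume_real_Ioo_of_le hU, sub_zero]
  rw [h4, one_mul] at h3
  exact h3

lemma ch_half : ch (1 / 2) = -1 := by
  unfold Pool.Agent.TH277.HT.ch
  rw [show 2 * (Real.pi : ℂ) * I * ((1 / 2 : ℝ) : ℂ) = Real.pi * I by push_cast; ring]
  exact Complex.exp_pi_mul_I

lemma ch_neg_half : ch (-(1 / 2)) = -1 := by
  unfold Pool.Agent.TH277.HT.ch
  rw [show 2 * (Real.pi : ℂ) * I * ((-(1 / 2) : ℝ) : ℂ) = -(Real.pi * I) by push_cast; ring]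
  rw [Complex.exp_neg, Complex.exp_pi_mul_I]
  norm_num

/-- Decay of the Fourier transform. -/
lemma ft_decay {U : ℝ} {k : ℝ → ℂ} (hk : Measurable k) (hb : ∀ u, ‖k u‖ ≤ 1)
    {V : ℝ≥0} (hV : eVariationOn k (Ioi 0) ≤ V) {l : ℝ} (hl : l ≠ 0) :
    ‖ft U k l‖ ≤ (V + 2) / |l| := by
  set h : ℝ → ℂ := (Ioo 0 U).indicator k with hh
  set s : ℝ := 1 / (2 * |l|) with hs
  have hl0 : 0 < |l| := abs_pos.2 hl
  have hs0 : 0 < s := by positivity
  have hhm : Measurable h := hk.indicator measurableSet_Ioo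
  have hhi : Integrable h := by
    rw [hh, integrable_indicator_iff measurableSet_Ioo]
    apply IntegrableOn.of_bound (C := 1) (by rw [Real.volume_Ioo]; exact ENNReal.ofReal_lt_top)
      hk.aestronglyMeasurable
    exact ae_of_all _ hb
  have e1 : ft U k l = ∫ u, ch (-(l * u)) * h u := by
    unfold ft
    rw [← integral_indicator measurableSet_Ioo]
    congr 1
    ext u
    by_cases hu : u ∈ Ioo 0 U
    · rw [indicator_of_mem hu, hh, indicator_of_mem hu]
    · rw [indicator_of_notMem hu, hh, indicator_of_notMem hu, mul_zero]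
  have hcs : ch (-(l * s)) = -1 := by
    rcases lt_or_gt_of_ne hl with h1 | h1
    · rw [hs, abs_of_neg h1]
      have : -(l * (1 / (2 * -l))) = 1 / 2 := by
        field_simp
      rw [this, ch_half]
    · rw [hs, abs_of_pos h1]
      have : -(l * (1 / (2 * l))) = -(1 / 2) := by
        field_simp
      rw [this, ch_neg_half]
  have e2 : ft U k l = -∫ u, ch (-(l * u)) * h (u + s) := by
    rw [e1, ← integral_add_right_eq_self (fun u => ch (-(l * u)) * h u) s, ← integral_neg]
    congr 1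
    ext u
    have : ch (-(l * (u + s))) = -ch (-(l * u)) := by
      rw [show -(l * (u + s)) = -(l * u) + -(l * s) by ring, ch_add, hcs]
      ring
    rw [this]
    ring
  have hcm : Continuous fun u : ℝ => ch (-(l * u)) := ch_cont.comp (by fun_prop)
  have hi1 : Integrable fun u => ch (-(l * u)) * h u := by
    apply hhi.bdd_mul hcm.aestronglyMeasurable (c := 1)
    exact ae_of_all _ fun u => (ch_norm _).le
  have hi2 : Integrable fun u => ch (-(l * u)) * h (u + s) := by
    apply (hhi.comp_add_right s).bdd_mul hcm.aestronglyMeasurable (c := 1)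
    exact ae_of_all _ fun u => (ch_norm _).le
  have e3 : 2 * ft U k l = ∫ u, ch (-(l * u)) * (h u - h (u + s)) := by
    rw [two_mul]
    nth_rewrite 1 [e1]
    rw [e2, ← sub_eq_add_neg, ← integral_sub hi1 hi2]
    congr 1
    ext u
    ring
  have e4 : ‖2 * ft U k l‖ₑ ≤ (V + 2) * ENNReal.ofReal s := by
    rw [e3]
    refine (enorm_integral_le_lintegral_enorm _).trans ?_
    refine le_trans (le_of_eq ?_) (mod_all hk hb hV (U := U) hs0.le)
    apply lintegral_congr
    intro u
    rw [enorm_mul, ← ofReal_norm (ch _), ch_norm, ENNReal.ofReal_one, one_mul, ← enorm_neg]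
    congr 1
    ring
  have e5 : ‖2 * ft U k l‖ ≤ (V + 2) * s := by
    rw [← ofReal_norm] at e4
    have h1 : ((V : ℝ≥0∞) + 2) * ENNReal.ofReal s = ENNReal.ofReal ((V + 2) * s) := by
      rw [ENNReal.ofReal_mul (by positivity), ENNReal.ofReal_add (by positivity) (by norm_num),
        ENNReal.ofReal_coe_nnreal]
      norm_num
    rw [h1] at e4
    exact (ENNReal.ofReal_le_ofReal_iff (by positivity)).1 e4
  rw [norm_mul, Complex.norm_ofNat] at e5
  have h6 : ((V : ℝ) + 2) * s = (V + 2) / |l| / 2 := by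
    rw [hs]
    field_simp
  rw [h6] at e5
  have h7 : 0 ≤ ((V : ℝ) + 2) / |l| := by positivity
  linarith

/-- The two bounds together. -/
lemma ft_le {U : ℝ} (hU : 0 ≤ U) {k : ℝ → ℂ} (hk : Measurable k) (hb : ∀ u, ‖k u‖ ≤ 1)
    {V : ℝ≥0} (hV : eVariationOn k (Ioi 0) ≤ V) (l : ℝ) :
    ‖ft U k l‖ ≤ (U + V + 2) * (max 1 |l|)⁻¹ := by
  have hV0 : (0 : ℝ) ≤ V := V.2
  rcases le_or_gt |l| 1 with h | h
  · rw [max_eq_left h, inv_one, mul_one]
    have := ft_triv hU hb l
    linarith
  · rw [max_eq_right h.le]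
    have hl : l ≠ 0 := by
      intro h0
      rw [h0, abs_zero] at h
      linarith
    refine (ft_decay hk hb hV hl).trans ?_
    rw [div_eq_mul_inv]
    gcongr
    linarith

end Pool.Agent.P8H98.HG
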