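import Mathlib
import Pool.Agent.P8H98.HG.Ray1
set_option autoImplicit false

/-! Gaussian means on the line. -/

namespace Pool.Agent.P8H98.HG

open MeasureTheory Set Complex Filter Topology
open scoped ENNReal NNReal ComplexConjugate ContDiff
open Pool.Agent.TH277.CS (s2)
open Pool.Agent.TH277.CB (pq E2 pq_norm pq_cont scale_neg s2_cont)
open Pool.Agent.TH277.HT (ch ch_norm ch_cont ch_add)

/-- the Gaussian weight -/
noncomputable def gs (c l : ℝ) : ℂ := cexp (-((c⁻¹ : ℝ) : ℂ) * (l : ℂ) ^ 2)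

/-- the Gaussian kernel -/
noncomputable def gk (c v w : ℝ) : ℂ :=
  (Real.pi * c : ℂ) ^ (Module.finrank ℝ ℝ / 2 : ℂ) * cexp (-Real.pi ^ 2 * c * ‖v - w‖ ^ 2)

lemma gs_norm (c l : ℝ) : ‖gs c l‖ = Real.exp (-c⁻¹ * l ^ 2) := by
  unfold gs
  rw [Complex.norm_exp]
  congr 1
  rw [show -((c⁻¹ : ℝ) : ℂ) * (l : ℂ) ^ 2 = ((-c⁻¹ * l ^ 2 : ℝ) : ℂ) by push_cast; ring]
  exact Complex.ofReal_re _

lemma gs_cont (c : ℝ) : Continuous (gs c) := by
  unfold gs
  fun_prop

lemma gs_norm_le {c : ℝ} (hc : 0 < c) (l : ℝ) : ‖gs c l‖ ≤ 1 := by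
  rw [gs_norm, Real.exp_le_one_iff]
  have : 0 < c⁻¹ := inv_pos.2 hc
  nlinarith [sq_nonneg l]

lemma gs_int {c : ℝ} (hc : 0 < c) : Integrable (gs c) := by
  have h1 : Integrable fun l : ℝ => Real.exp (-c⁻¹ * l ^ 2) :=
    integrable_exp_neg_mul_sq (inv_pos.2 hc)
  apply h1.mono' (gs_cont c).aestronglyMeasurable
  exact ae_of_all _ fun l => (gs_norm c l).le

lemma gk_eq {c : ℝ} (hc : 0 < c) (v w : ℝ) :
    gk c v w = ((Real.sqrt (Real.pi * c) * Real.exp (-(Real.pi ^ 2 * c) * (v - w) ^ 2) : ℝ) : ℂ) := by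
  unfold gk
  rw [Module.finrank_self, Nat.cast_one, Real.norm_eq_abs]
  push_cast
  congr 1
  · rw [Real.sqrt_eq_rpow, ← Complex.ofReal_mul, Complex.ofReal_cpow (by positivity)]
    norm_num
  · congr 1
    have h1 : ((|v - w| : ℝ) : ℂ) ^ 2 = ((v : ℂ) - w) ^ 2 := by
      rw [← Complex.ofReal_pow, sq_abs]
      push_cast
      ring
    rw [h1]
    ring

lemma gk_norm {c : ℝ} (hc : 0 < c) (v w : ℝ) :
    ‖gk c v w‖ = Real.sqrt (Real.pi * c) * Real.exp (-(Real.pi ^ 2 * c) * (v - w) ^ 2) := by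
  rw [gk_eq hc, Complex.norm_real, Real.norm_of_nonneg (by positivity)]

lemma gk_cont {c : ℝ} (hc : 0 < c) (v : ℝ) : Continuous (gk c v) := by
  have : gk c v = fun w =>
      ((Real.sqrt (Real.pi * c) * Real.exp (-(Real.pi ^ 2 * c) * (v - w) ^ 2) : ℝ) : ℂ) :=
    funext fun w => gk_eq hc v w
  rw [this]
  fun_prop

lemma gk_int {c : ℝ} (hc : 0 < c) (v : ℝ) :
    Integrable (fun w => Real.sqrt (Real.pi * c) * Real.exp (-(Real.pi ^ 2 * c) * (v - w) ^ 2)) ∧
      ∫ w, Real.sqrt (Real.pi * c) * Real.exp (-(Real.pi ^ 2 * c) * (v - w) ^ 2) = 1 := by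
  have hb : 0 < Real.pi ^ 2 * c := by positivity
  have h1 : Integrable fun w : ℝ => Real.exp (-(Real.pi ^ 2 * c) * w ^ 2) :=
    integrable_exp_neg_mul_sq hb
  have h2 : Integrable fun w : ℝ => Real.exp (-(Real.pi ^ 2 * c) * (v - w) ^ 2) :=
    h1.comp_sub_left v
  refine ⟨h2.const_mul _, ?_⟩
  rw [integral_const_mul, integral_sub_left_eq_self (fun w => Real.exp (-(Real.pi ^ 2 * c) * w ^ 2)),
    integral_gaussian, ← Real.sqrt_mul (by positivity)]
  have : Real.pi * c * (Real.pi / (Real.pi ^ 2 * c)) = 1 := by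
    field_simp
  rw [this, Real.sqrt_one]

/-- The Gaussian integral. -/
lemma gauss_inner {c : ℝ} (hc : 0 < c) (v w : ℝ) :
    ∫ l, gs c l * ch (l * (v - w)) = gk c v w := by
  have hb : 0 < ((c⁻¹ : ℝ) : ℂ).re := by
    rw [Complex.ofReal_re]
    exact inv_pos.2 hc
  have h1 := fourierIntegral_gaussian hb ((2 * Real.pi * (v - w) : ℝ) : ℂ)
  have h2 : ∀ l : ℝ, gs c l * ch (l * (v - w)) =
      cexp (I * ((2 * Real.pi * (v - w) : ℝ) : ℂ) * l) * cexp (-((c⁻¹ : ℝ) : ℂ) * (l : ℂ) ^ 2) := by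
    intro l
    rw [mul_comm]
    unfold gs Pool.Agent.TH277.HT.ch
    congr 2
    push_cast
    ring
  simp only [h2]
  rw [h1]
  unfold gk
  rw [Module.finrank_self, Nat.cast_one, Real.norm_eq_abs]
  have hc0 : (c : ℂ) ≠ 0 := by exact_mod_cast hc.ne'
  congr 1
  · congr 1
    push_cast
    field_simp
  · congr 1
    have h3 : ((|v - w| : ℝ) : ℂ) ^ 2 = ((v : ℂ) - w) ^ 2 := by
      rw [← Complex.ofReal_pow, sq_abs]
      push_cast
      ring
    rw [h3]
    push_cast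
    field_simp
    ring

/-- The identity. -/
lemma gauss_id {c : ℝ} (hc : 0 < c) {h : ℝ → ℂ} (hh : Integrable h) (v : ℝ) :
    ∫ l, gs c l * ((∫ w, ch (-(l * w)) * h w) * ch (l * v)) = ∫ w, gk c v w * h w := by
  have h1 : ∀ l, gs c l * ((∫ w, ch (-(l * w)) * h w) * ch (l * v)) =
      ∫ w, gs c l * ch (l * (v - w)) * h w := by
    intro l
    rw [← integral_mul_const, ← integral_const_mul]
    apply integral_congr_ae
    refine ae_of_all _ fun w => ?_
    simp only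
    rw [show l * (v - w) = -(l * w) + l * v by ring, ch_add]
    ring
  simp only [h1]
  rw [integral_integral_swap]
  · apply integral_congr_ae
    refine ae_of_all _ fun w => ?_
    simp only
    rw [integral_mul_const, gauss_inner hc]
  · have h2 := (gs_int hc).mul_prod hh
    have h3 : Continuous fun p : ℝ × ℝ => ch (p.1 * (v - p.2)) := ch_cont.comp (by fun_prop)
    have h4 := h2.bdd_mul (c := 1) h3.aestronglyMeasurable (ae_of_all _ fun p => (ch_norm _).le)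
    refine h4.congr (ae_of_all _ fun p => ?_)
    simp only [Function.uncurry]
    ring

/-- The bound. -/
lemma gauss_bd {c : ℝ} (hc : 0 < c) {h : ℝ → ℂ} (hb : ∀ w, ‖h w‖ ≤ 1) (v : ℝ) :
    ‖∫ w, gk c v w * h w‖ ≤ 1 := by
  obtain ⟨i1, i2⟩ := gk_int hc v
  rw [← i2]
  apply norm_integral_le_of_norm_le i1
  refine ae_of_all _ fun w => ?_
  rw [norm_mul, gk_norm hc]
  have h1 : 0 ≤ Real.sqrt (Real.pi * c) * Real.exp (-(Real.pi ^ 2 * c) * (v - w) ^ 2) := by
    positivity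
  calc _ ≤ Real.sqrt (Real.pi * c) * Real.exp (-(Real.pi ^ 2 * c) * (v - w) ^ 2) * 1 := by
        gcongr
        exact hb w
    _ = _ := mul_one _

/-- Convergence. -/
lemma gauss_lim {h : ℝ → ℂ} (hh : Integrable h) {v : ℝ} (hv : ContinuousAt h v) :
    Tendsto (fun c : ℝ => ∫ w, gk c v w * h w) atTop (𝓝 (h v)) := by
  have h1 := Real.tendsto_integral_gaussian_smul' hh hv
  simp only [smul_eq_mul] at h1
  exact h1

end Pool.Agent.P8H98.HG
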