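import Mathlib
import Pool.Agent.P8H98.HG.Ray2
set_option autoImplicit false

/-! Functions of bounded variation along rays: superpositions of time shifts. -/

namespace Pool.Agent.P8H98.HG

open MeasureTheory Set Complex Filter Topology
open scoped ENNReal NNReal ComplexConjugate ContDiff
open Pool.Agent.TH277.CS (s2)
open Pool.Agent.TH277.CB (pq E2 pq_norm pq_cont scale_neg s2_cont)
open Pool.Agent.TH277.HT (ch ch_norm ch_cont ch_add)

/-- A function of bounded variation along rays. -/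
structure Bv (V : ℝ≥0) (F : ℝ × ℝ → ℂ) : Prop where
  meas : Measurable F
  bd : ∀ x, ‖F x‖ ≤ 1
  var : ∀ x : ℝ × ℝ, eVariationOn (fun r : ℝ => F (r • x)) (Ioi 0) ≤ V

/-- the euclidean norm -/
noncomputable def nr (x : ℝ × ℝ) : ℝ := Real.sqrt (s2 x)

lemma s2_def (x : ℝ × ℝ) : s2 x = x.1 ^ 2 + x.2 ^ 2 := rfl

lemma s2_nonneg (x : ℝ × ℝ) : 0 ≤ s2 x := by
  rw [s2_def]
  positivity

lemma nr_nonneg (x : ℝ × ℝ) : 0 ≤ nr x := Real.sqrt_nonneg _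

lemma nr_meas : Measurable nr := s2_cont.measurable.sqrt

lemma nr_smul {r : ℝ} (hr : 0 ≤ r) (x : ℝ × ℝ) : nr (r • x) = r * nr x := by
  unfold nr
  have : s2 (r • x) = r ^ 2 * s2 x := by
    rw [s2_def, s2_def]
    simp only [Prod.smul_fst, Prod.smul_snd, smul_eq_mul]
    ring
  rw [this, Real.sqrt_mul (by positivity), Real.sqrt_sq hr]

lemma nr_pos {x : ℝ × ℝ} (hx : x ≠ 0) : 0 < nr x := by
  unfold nr
  apply Real.sqrt_pos.2
  rw [s2_def]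
  by_contra hc
  push Not at hc
  have h1 : x.1 = 0 := by nlinarith [sq_nonneg x.1, sq_nonneg x.2]
  have h2 : x.2 = 0 := by nlinarith [sq_nonneg x.1, sq_nonneg x.2]
  exact hx (Prod.ext h1 h2)

/-- the function on the ray through `x`, as a function of the square of the radius -/
noncomputable def ry (F : ℝ × ℝ → ℂ) (x : ℝ × ℝ) (u : ℝ) : ℂ := F ((Real.sqrt u / nr x) • x)

lemma ry_meas {F : ℝ × ℝ → ℂ} (hF : Measurable F) :
    Measurable fun p : (ℝ × ℝ) × ℝ => ry F p.1 p.2 := by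
  unfold ry
  have h1 : Measurable fun p : (ℝ × ℝ) × ℝ => Real.sqrt p.2 / nr p.1 :=
    measurable_snd.sqrt.div (nr_meas.comp measurable_fst)
  have h2 : Measurable fun p : (ℝ × ℝ) × ℝ => (Real.sqrt p.2 / nr p.1) • p.1 :=
    h1.smul measurable_fst
  exact hF.comp h2

lemma ry_meas1 {F : ℝ × ℝ → ℂ} (hF : Measurable F) (x : ℝ × ℝ) : Measurable (ry F x) := by
  have h1 : Measurable fun u : ℝ => ((x, u) : (ℝ × ℝ) × ℝ) := measurable_prodMk_left
  exact (ry_meas hF).comp h1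

lemma ry_var {V : ℝ≥0} {F : ℝ × ℝ → ℂ} (h : Bv V F) (x : ℝ × ℝ) :
    eVariationOn (ry F x) (Ioi 0) ≤ V := by
  by_cases hx : x = 0
  · have h1 : ry F x = fun _ => F 0 := by
      ext u
      unfold ry
      rw [hx, smul_zero]
    rw [h1, eVariationOn.constant_on]
    · exact zero_le
    · rintro _ ⟨_, _, rfl⟩ _ ⟨_, _, rfl⟩
      rfl
  · have hn := nr_pos hx
    refine le_trans ?_ (h.var x)
    have h1 : ry F x = (fun r : ℝ => F (r • x)) ∘ fun u => Real.sqrt u / nr x := rfl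
    rw [h1]
    apply eVariationOn.comp_le_of_monotoneOn
    · intro a _ b _ hab
      exact div_le_div_of_nonneg_right (Real.sqrt_le_sqrt hab) hn.le
    · intro u hu
      exact div_pos (Real.sqrt_pos.2 hu) hn

lemma ry_smul (F : ℝ × ℝ → ℂ) {r : ℝ} (hr : 0 < r) (x : ℝ × ℝ) (u : ℝ) :
    ry F (r • x) u = ry F x u := by
  unfold ry
  rw [nr_smul hr.le, smul_smul]
  congr 2
  rcases (nr_nonneg x).eq_or_lt with h | h
  · rw [← h]
    simp
  · field_simp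

lemma ry_self (F : ℝ × ℝ → ℂ) {x : ℝ × ℝ} (hx : x ≠ 0) : ry F x (s2 x) = F x := by
  unfold ry
  have hn := nr_pos hx
  have : Real.sqrt (s2 x) / nr x = 1 := div_self hn.ne'
  rw [this, one_smul]

/-- the coefficient -/
noncomputable def gh (U : ℝ) (F : ℝ × ℝ → ℂ) (l : ℝ) (x : ℝ × ℝ) : ℂ := ft U (ry F x) l

lemma gh_meas (U : ℝ) {F : ℝ × ℝ → ℂ} (hF : Measurable F) :
    Measurable fun p : ℝ × (ℝ × ℝ) => gh U F p.1 p.2 := by
  unfold gh ft
  have h1 : Continuous fun q : (ℝ × (ℝ × ℝ)) × ℝ => ch (-(q.1.1 * q.2)) := ch_cont.comp (by fun_prop)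
  have h2 : Measurable fun q : (ℝ × (ℝ × ℝ)) × ℝ => ((q.1.2, q.2) : (ℝ × ℝ) × ℝ) :=
    (measurable_snd.comp measurable_fst).prodMk measurable_snd
  have h3 : Measurable fun q : (ℝ × (ℝ × ℝ)) × ℝ => ry F q.1.2 q.2 := (ry_meas hF).comp h2
  have h4 : StronglyMeasurable fun q : (ℝ × (ℝ × ℝ)) × ℝ => ch (-(q.1.1 * q.2)) * ry F q.1.2 q.2 :=
    (h1.measurable.mul h3).stronglyMeasurable
  have h5 : StronglyMeasurable (Function.uncurry fun (p : ℝ × (ℝ × ℝ)) (u : ℝ) =>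
      ch (-(p.1 * u)) * ry F p.2 u) := h4
  have h6 : StronglyMeasurable fun p : ℝ × (ℝ × ℝ) => ∫ u in Ioo 0 U,
      ch (-(p.1 * u)) * ry F p.2 u :=
    h5.integral_prod_right (ν := (volume : Measure ℝ).restrict (Ioo 0 U))
  exact h6.measurable

lemma gh_meas1 (U : ℝ) {F : ℝ × ℝ → ℂ} (hF : Measurable F) (l : ℝ) : Measurable (gh U F l) := by
  have h1 : Measurable fun x : ℝ × ℝ => ((l, x) : ℝ × (ℝ × ℝ)) := measurable_prodMk_left
  exact (gh_meas U hF).comp h1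

lemma gh_hom (U : ℝ) (F : ℝ × ℝ → ℂ) (l : ℝ) : Hom (gh U F l) := by
  intro x r hr
  unfold gh
  congr 1
  ext u
  exact ry_smul F hr x u

/-- the size of the coefficient -/
noncomputable def sz (U : ℝ) (V : ℝ≥0) (l : ℝ) : ℝ := (U + V + 2) * (max 1 |l|)⁻¹

lemma sz_pos {U : ℝ} (hU : 0 ≤ U) (V : ℝ≥0) (l : ℝ) : 0 < sz U V l := by
  unfold sz
  have : (0 : ℝ) ≤ V := V.2
  have : 0 < max 1 |l| := lt_of_lt_of_le one_pos (le_max_left _ _)
  positivity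

lemma sz_le {U : ℝ} (hU : 0 ≤ U) (V : ℝ≥0) (l : ℝ) : sz U V l ≤ U + V + 2 := by
  unfold sz
  have h0 : (0 : ℝ) ≤ V := V.2
  have h1 : (max 1 |l|)⁻¹ ≤ 1 := inv_le_one_of_one_le₀ (le_max_left _ _)
  calc (U + V + 2) * (max 1 |l|)⁻¹ ≤ (U + V + 2) * 1 := by gcongr
    _ = _ := mul_one _

lemma gh_le {U : ℝ} (hU : 0 ≤ U) {V : ℝ≥0} {F : ℝ × ℝ → ℂ} (h : Bv V F) (l : ℝ) (x : ℝ × ℝ) :
    ‖gh U F l x‖ ≤ sz U V l :=
  ft_le hU (ry_meas1 h.meas x) (fun _ => h.bd _) (ry_var h x) l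

/-- the normalised coefficient is an admissible homogeneous function -/
lemma gh_Ad {U : ℝ} (hU : 0 ≤ U) {V : ℝ≥0} {F : ℝ × ℝ → ℂ} (h : Bv V F) (l : ℝ) :
    Ad fun x => ((sz U V l)⁻¹ : ℝ) * gh U F l x := by
  refine ⟨(gh_meas1 U h.meas l).const_mul _, fun x => ?_, fun x r hr => ?_⟩
  · rw [norm_mul, Complex.norm_real, Real.norm_of_nonneg (inv_nonneg.2 (sz_pos hU V l).le),
      inv_mul_le_iff₀ (sz_pos hU V l), mul_one]
    exact gh_le hU h l x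
  · rw [gh_hom U F l x r hr]

/-- Scaling of the norm. -/
lemma N4_cmul (c : ℂ) (f : ℝ × ℝ → ℂ) (t : ℝ) : N4 (fun x => c * f x) t = ‖c‖ₑ * N4 f t := by
  have h1 : ∀ y, E2 (fun x => c * f x) y t = c * E2 f y t := by
    intro y
    unfold Pool.Agent.TH277.CB.E2
    rw [← integral_const_mul]
    congr 1
    ext x
    ring
  unfold N4
  simp only [h1, enorm_mul, mul_pow]
  rw [lintegral_const_mul' _ _ (ENNReal.pow_ne_top enorm_ne_top),
    ENNReal.mul_rpow_of_nonneg _ _ (by norm_num)]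
  congr 1
  rw [← ENNReal.rpow_natCast, ← ENNReal.rpow_mul]
  norm_num

/-- Minkowski's inequality. -/
lemma mink4 {Φ : ℝ → ℝ × ℝ → ℝ≥0∞} (hΦ : Measurable (Function.uncurry Φ)) {b : ℝ → ℝ≥0∞}
    (hb : Measurable b) (hb0 : ∀ l, b l ≠ 0) (hbt : ∀ l, b l ≠ ⊤)
    (h : ∀ l, ∫⁻ y, Φ l y ^ 4 ≤ b l ^ 4) :
    ∫⁻ y, (∫⁻ l, Φ l y) ^ 4 ≤ (∫⁻ l, b l) ^ 4 := by
  have hΦ1 : ∀ y, Measurable fun l => Φ l y := by
    intro y
    have h1 : Measurable fun l : ℝ => ((l, y) : ℝ × (ℝ × ℝ)) := measurable_prodMk_right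
    exact hΦ.comp h1
  have hq : Measurable fun p : (ℝ × ℝ) × ℝ => b p.2 * (Φ p.2 p.1 * (b p.2)⁻¹) ^ 4 := by
    have a1 : Measurable fun p : (ℝ × ℝ) × ℝ => b p.2 := hb.comp measurable_snd
    have a2 : Measurable fun p : (ℝ × ℝ) × ℝ => Φ p.2 p.1 := by
      have h2 : Measurable (Prod.swap : (ℝ × ℝ) × ℝ → ℝ × (ℝ × ℝ)) := measurable_swap
      exact hΦ.comp h2
    exact a1.mul ((a2.mul a1.inv).pow_const 4)
  have h1 : ∀ y, (∫⁻ l, Φ l y) ^ 4 ≤ (∫⁻ l, b l) ^ 3 * ∫⁻ l, b l * (Φ l y * (b l)⁻¹) ^ 4 := by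
    intro y
    have h2 := jensen4 (μ := (volume : Measure ℝ)) (f := b) (g := fun l => Φ l y * (b l)⁻¹) hb
      ((hΦ1 y).mul hb.inv)
    refine le_trans (le_of_eq ?_) h2
    congr 1
    apply lintegral_congr
    intro l
    rw [mul_comm, mul_assoc, ENNReal.inv_mul_cancel (hb0 l) (hbt l), mul_one]
  calc ∫⁻ y, (∫⁻ l, Φ l y) ^ 4
      ≤ ∫⁻ y, (∫⁻ l, b l) ^ 3 * ∫⁻ l, b l * (Φ l y * (b l)⁻¹) ^ 4 := lintegral_mono h1
    _ = (∫⁻ l, b l) ^ 3 * ∫⁻ y, ∫⁻ l, b l * (Φ l y * (b l)⁻¹) ^ 4 := by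
        rw [lintegral_const_mul]
        exact hq.lintegral_prod_right'
    _ = (∫⁻ l, b l) ^ 3 * ∫⁻ l, ∫⁻ y, b l * (Φ l y * (b l)⁻¹) ^ 4 := by
        rw [lintegral_lintegral_swap hq.aemeasurable]
    _ ≤ (∫⁻ l, b l) ^ 3 * ∫⁻ l, b l := by
        apply mul_le_mul' le_rfl
        apply lintegral_mono
        intro l
        simp only [mul_pow]
        have hm : Measurable fun y => Φ l y := by
          have h1 : Measurable fun y : ℝ × ℝ => ((l, y) : ℝ × (ℝ × ℝ)) := measurable_prodMk_left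
          exact hΦ.comp h1
        calc ∫⁻ y, b l * (Φ l y ^ 4 * (b l)⁻¹ ^ 4) = ∫⁻ y, (b l * (b l)⁻¹ ^ 4) * Φ l y ^ 4 := by
              congr 1
              ext y
              ring
          _ = (b l * (b l)⁻¹ ^ 4) * ∫⁻ y, Φ l y ^ 4 := lintegral_const_mul _ (hm.pow_const 4)
          _ ≤ (b l * (b l)⁻¹ ^ 4) * b l ^ 4 := mul_le_mul' le_rfl (h l)
          _ = b l * ((b l)⁻¹ * b l) ^ 4 := by ring
          _ = b l := by rw [ENNReal.inv_mul_cancel (hb0 l) (hbt l), one_pow, mul_one]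
    _ = _ := by ring

end Pool.Agent.P8H98.HG
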