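import Mathlib
import Pool.Agent.P8H98.HG.Ray3
set_option autoImplicit false

/-! Decay for functions of bounded variation along rays. -/

namespace Pool.Agent.P8H98.HG

open MeasureTheory Set Complex Filter Topology
open scoped ENNReal NNReal ComplexConjugate ContDiff
open Pool.Agent.TH277.CS (s2)
open Pool.Agent.TH277.CB (pq E2 pq_norm pq_cont scale_neg s2_cont)
open Pool.Agent.TH277.HT (ch ch_norm ch_cont ch_add)
open Pool.Agent.TH277.CP (tint tint_lt)

/-- the approximation -/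
noncomputable def ap (L U c : ℝ) (F : ℝ × ℝ → ℂ) : ℝ × ℝ → ℂ :=
  (Ql L).indicator fun x => ∫ l, gs c l * (gh U F l x * ch (l * s2 x))

lemma ft_ind (U : ℝ) (k : ℝ → ℂ) (l : ℝ) :
    ft U k l = ∫ u, ch (-(l * u)) * (Ioo 0 U).indicator k u := by
  unfold ft
  rw [← integral_indicator measurableSet_Ioo]
  congr 1
  ext u
  by_cases hu : u ∈ Ioo 0 U
  · rw [indicator_of_mem hu, indicator_of_mem hu]
  · rw [indicator_of_notMem hu, indicator_of_notMem hu, mul_zero]

lemma cut_int (U : ℝ) {k : ℝ → ℂ} (hk : Measurable k) (hb : ∀ u, ‖k u‖ ≤ 1) :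
    Integrable ((Ioo 0 U).indicator k) := by
  rw [integrable_indicator_iff measurableSet_Ioo]
  apply IntegrableOn.of_bound (C := 1) (by rw [Real.volume_Ioo]; exact ENNReal.ofReal_lt_top)
    hk.aestronglyMeasurable
  exact ae_of_all _ hb

lemma cut_bd (U : ℝ) {k : ℝ → ℂ} (hb : ∀ u, ‖k u‖ ≤ 1) (u : ℝ) :
    ‖(Ioo 0 U).indicator k u‖ ≤ 1 := by
  by_cases hu : u ∈ Ioo 0 U
  · rw [indicator_of_mem hu]
    exact hb u
  · rw [indicator_of_notMem hu, norm_zero]
    exact zero_le_one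

variable {V : ℝ≥0} {F : ℝ × ℝ → ℂ}

lemma ap_eq {L U c : ℝ} (hc : 0 < c) (h : Bv V F) {x : ℝ × ℝ} (hx : x ∈ Ql L) :
    ap L U c F x = ∫ w, gk c (s2 x) w * (Ioo 0 U).indicator (ry F x) w := by
  unfold ap gh
  rw [indicator_of_mem hx, ← gauss_id hc (cut_int U (ry_meas1 h.meas x) fun _ => h.bd _)]
  simp only [ft_ind]

lemma ap_bd {L U c : ℝ} (hc : 0 < c) (h : Bv V F) (x : ℝ × ℝ) : ‖ap L U c F x‖ ≤ 1 := by
  by_cases hx : x ∈ Ql L
  · rw [ap_eq hc h hx]
    exact gauss_bd hc (cut_bd U fun _ => h.bd _) _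
  · unfold ap
    rw [indicator_of_notMem hx, norm_zero]
    exact zero_le_one

lemma ap_meas (L U c : ℝ) (h : Bv V F) : Measurable (ap L U c F) := by
  unfold ap
  apply Measurable.indicator _ (Ql_meas L)
  have h1 : Measurable fun q : (ℝ × ℝ) × ℝ => gs c q.2 := (gs_cont c).measurable.comp measurable_snd
  have h2 : Measurable fun q : (ℝ × ℝ) × ℝ => gh U F q.2 q.1 := by
    have h3 : Measurable (Prod.swap : (ℝ × ℝ) × ℝ → ℝ × (ℝ × ℝ)) := measurable_swap
    exact (gh_meas U h.meas).comp h3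
  have h4 : Continuous fun q : (ℝ × ℝ) × ℝ => ch (q.2 * s2 q.1) :=
    ch_cont.comp (continuous_snd.mul (s2_cont.comp continuous_fst))
  have h5 : StronglyMeasurable (Function.uncurry fun (x : ℝ × ℝ) (l : ℝ) =>
      gs c l * (gh U F l x * ch (l * s2 x))) :=
    (h1.mul (h2.mul h4.measurable)).stronglyMeasurable
  exact (h5.integral_prod_right (ν := (volume : Measure ℝ))).measurable

/-- Convergence along a ray. -/
lemma ap_lim {L U : ℝ} (h : Bv V F) {x : ℝ × ℝ} (hx : x ≠ 0) {r : ℝ} (hr : 0 < r)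
    (hrx : r • x ∈ Ql L) (hU : s2 (r • x) < U) (hc : ContinuousAt (fun r : ℝ => F (r • x)) r) :
    Tendsto (fun n : ℕ => ap L U (n + 1) F (r • x)) atTop (𝓝 (F (r • x))) := by
  have hx' : r • x ≠ 0 := smul_ne_zero hr.ne' hx
  have hn := nr_pos hx
  have hs0 : 0 < s2 (r • x) := by
    have h1 := nr_pos hx'
    unfold nr at h1
    exact Real.sqrt_pos.1 h1
  have hcont : ContinuousAt ((Ioo 0 U).indicator (ry F (r • x))) (s2 (r • x)) := by
    have h1 : ContinuousAt (ry F (r • x)) (s2 (r • x)) := by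
      have h2 : ry F (r • x) = (fun r : ℝ => F (r • x)) ∘ fun u => Real.sqrt u / nr x := by
        ext u
        rw [ry_smul F hr]
        rfl
      rw [h2]
      apply ContinuousAt.comp
      · have h3 : Real.sqrt (s2 (r • x)) / nr x = r := by
          have h4 : Real.sqrt (s2 (r • x)) = r * nr x := nr_smul hr.le x
          rw [h4]
          field_simp
        rw [h3]
        exact hc
      · exact (Real.continuous_sqrt.div_const _).continuousAt
    refine h1.congr ?_
    filter_upwards [Ioo_mem_nhds hs0 hU] with u hu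
    rw [indicator_of_mem hu]
  have h1 := gauss_lim (cut_int U (ry_meas1 h.meas (r • x)) fun _ => h.bd _) hcont
  rw [indicator_of_mem (show s2 (r • x) ∈ Ioo 0 U from ⟨hs0, hU⟩), ry_self F hx'] at h1
  have h2 : Tendsto (fun n : ℕ => (n : ℝ) + 1) atTop atTop :=
    tendsto_atTop_add_const_right _ _ tendsto_natCast_atTop_atTop
  have h3 := h1.comp h2
  refine h3.congr fun n => ?_
  simp only [Function.comp]
  rw [ap_eq (by positivity) h hrx]

/-- A measurable set which is null on every ray is null. -/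
lemma null_rays {C : Set (ℝ × ℝ)} (hC : MeasurableSet C)
    (h : ∀ x : ℝ × ℝ, x ≠ 0 → ∀ᵐ r : ℝ, 0 < r → r • x ∉ C) : volume C = 0 := by
  have hm : MeasurableSet {p : ℝ × (ℝ × ℝ) | p.1 ∈ Ioc (0 : ℝ) 1 ∧ p.1 • p.2 ∈ C} :=
    (measurable_fst measurableSet_Ioc).inter ((measurable_fst.smul measurable_snd) hC)
  have h1 : (volume.prod volume : Measure (ℝ × (ℝ × ℝ)))
      {p : ℝ × (ℝ × ℝ) | p.1 ∈ Ioc (0 : ℝ) 1 ∧ p.1 • p.2 ∈ C} = 0 := by
    rw [Measure.prod_apply_symm hm]
    have h2 : ∀ᵐ x : ℝ × ℝ, x ≠ 0 := by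
      rw [ae_iff]
      simp
    rw [lintegral_eq_zero_iff' (measurable_measure_prodMk_right hm).aemeasurable]
    filter_upwards [h2] with x hx
    simp only [Pi.zero_apply]
    have h3 := h x hx
    rw [ae_iff] at h3
    refine measure_mono_null ?_ h3
    intro r hr
    simp only [mem_preimage, mem_ofPred_eq] at hr ⊢
    intro h4
    exact h4 hr.1.1 hr.2
  rw [Measure.prod_apply hm, lintegral_eq_zero_iff (measurable_measure_prodMk_left hm)] at h1
  by_contra hne
  have h2 : ∀ r ∈ Ioc (0 : ℝ) 1, volume (Prod.mk r ⁻¹' {p : ℝ × (ℝ × ℝ) | p.1 ∈ Ioc (0 : ℝ) 1 ∧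
      p.1 • p.2 ∈ C}) ≠ 0 := by
    intro r hr
    have h3 : Prod.mk r ⁻¹' {p : ℝ × (ℝ × ℝ) | p.1 ∈ Ioc (0 : ℝ) 1 ∧ p.1 • p.2 ∈ C} =
        (fun x => r • x) ⁻¹' C := by
      ext x
      simp only [mem_preimage, mem_ofPred_eq]
      exact ⟨fun h => h.2, fun h => ⟨hr, h⟩⟩
    rw [h3, Measure.addHaar_preimage_smul volume hr.1.ne']
    refine mul_ne_zero ?_ hne
    have : 0 < |(r ^ Module.finrank ℝ (ℝ × ℝ))⁻¹| := by
      have := hr.1
      positivity
    exact (ENNReal.ofReal_pos.2 this).ne'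
  have h3 : (volume : Measure ℝ) (Ioc 0 1) = 0 := by
    refine measure_mono_null ?_ (ae_iff.1 h1)
    intro r hr
    simp only [Pi.zero_apply, mem_ofPred_eq]
    exact h2 r hr
  rw [Real.volume_Ioc] at h3
  norm_num at h3

/-- Convergence almost everywhere. -/
lemma ap_ae {L U : ℝ} (hU : 2 * L ^ 2 < U) (h : Bv V F) :
    ∀ᵐ x, Tendsto (fun n : ℕ => ap L U (n + 1) F x) atTop (𝓝 (rs (Ql L) F x)) := by
  set C : Set (ℝ × ℝ) :=
    {x | ¬ Tendsto (fun n : ℕ => ap L U (n + 1) F x) atTop (𝓝 (rs (Ql L) F x))} with hC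
  have hgm : Measurable (rs (Ql L) F) := h.meas.indicator (Ql_meas L)
  have hCm : MeasurableSet C := by
    have h1 : C = {x | Tendsto (fun n : ℕ => ap L U (n + 1) F x - rs (Ql L) F x) atTop (𝓝 0)}ᶜ := by
      ext x
      simp only [hC, mem_ofPred_eq, mem_compl_iff]
      rw [tendsto_sub_nhds_zero_iff]
    rw [h1]
    apply MeasurableSet.compl
    apply measurableSet_tendsto
    intro n
    exact (ap_meas L U _ h).sub hgm
  have h1 : volume C = 0 := by
    apply null_rays hCm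
    intro x hx
    have h2 : LocallyBoundedVariationOn (fun r : ℝ => F (r • x)) (Ioi 0) := by
      apply BoundedVariationOn.locallyBoundedVariationOn
      exact ne_top_of_le_ne_top ENNReal.coe_ne_top (h.var x)
    filter_upwards [h2.ae_differentiableWithinAt_of_mem] with r hr hr0 hrC
    have h3 : ContinuousAt (fun r : ℝ => F (r • x)) r :=
      (hr hr0).continuousWithinAt.continuousAt (Ioi_mem_nhds hr0)
    apply hrC
    by_cases hq : r • x ∈ Ql L
    · have h4 : rs (Ql L) F (r • x) = F (r • x) := indicator_of_mem hq _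
      rw [h4]
      apply ap_lim h hx hr0 hq _ h3
      refine lt_of_le_of_lt ?_ hU
      rw [s2_def]
      obtain ⟨⟨a1, a2⟩, ⟨a3, a4⟩⟩ := hq
      nlinarith
    · have h4 : rs (Ql L) F (r • x) = 0 := indicator_of_notMem hq _
      rw [h4]
      have h5 : ∀ n : ℕ, ap L U (n + 1) F (r • x) = 0 := fun n => indicator_of_notMem hq _
      simp only [h5]
      exact tendsto_const_nhds
  rw [ae_iff]
  exact h1

end Pool.Agent.P8H98.HG
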