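import Mathlib
import Pool.Agent.P8H98.HG.Ray4
set_option autoImplicit false

/-! Decay for functions of bounded variation along rays, conclusion. -/

namespace Pool.Agent.P8H98.HG

open MeasureTheory Set Complex Filter Topology
open scoped ENNReal NNReal ComplexConjugate ContDiff
open Pool.Agent.TH277.CS (s2)
open Pool.Agent.TH277.CB (pq E2 pq_norm pq_cont scale_neg s2_cont)
open Pool.Agent.TH277.HT (ch ch_norm ch_cont ch_add)
open Pool.Agent.TH277.CP (tint tint_lt)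

variable {V : ℝ≥0} {F : ℝ × ℝ → ℂ}

lemma int_max (p : ℝ) : ∫⁻ t : ℝ, ENNReal.ofReal ((max 1 |t|) ^ (-((p - 1) / 2))) ≤ 2 * tint p := by
  set w : ℝ → ℝ≥0∞ := fun t => ENNReal.ofReal ((max 1 |t|) ^ (-((p - 1) / 2))) with hw
  have h1 : ∫⁻ t in Ioi (0 : ℝ), w t = tint p := by
    unfold Pool.Agent.TH277.CP.tint
    apply setLIntegral_congr_fun measurableSet_Ioi
    intro t ht
    simp only [hw]
    rw [abs_of_pos ht]
  have h2 : ∫⁻ t in Iio (0 : ℝ), w t = ∫⁻ t in Ioi (0 : ℝ), w t := by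
    rw [← lintegral_indicator measurableSet_Iio, ← lintegral_indicator measurableSet_Ioi,
      ← lintegral_neg_eq_self]
    apply lintegral_congr
    intro t
    by_cases h : t ∈ Ioi (0 : ℝ)
    · have h3 : 0 < t := h
      rw [indicator_of_mem h, indicator_of_mem (show -t ∈ Iio (0 : ℝ) by
        simp only [mem_Iio]
        linarith)]
      simp only [hw]
      rw [abs_neg]
    · rw [indicator_of_notMem h, indicator_of_notMem]
      intro h3
      apply h
      simp only [mem_Iio] at h3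
      simp only [mem_Ioi]
      linarith
  have h3 : ∫⁻ t, w t ≤ ∫⁻ t in Iio (0 : ℝ) ∪ Ioi (0 : ℝ), w t := by
    rw [← lintegral_indicator (measurableSet_Iio.union measurableSet_Ioi)]
    apply lintegral_mono_ae
    have h0 : ∀ᵐ t : ℝ, t ≠ 0 := by
      rw [ae_iff]
      simp
    filter_upwards [h0] with t ht
    rw [indicator_of_mem]
    rcases lt_or_gt_of_ne ht with h | h
    · exact Or.inl h
    · exact Or.inr h
  refine h3.trans ((lintegral_union_le _ _ _).trans ?_)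
  rw [h2, h1, two_mul]

/-- The pointwise inequality. -/
lemma mx_le {a a' : ℝ} (ha' : 0 ≤ a') (ha1 : a' ≤ 1) (haa : a' < a) {t l : ℝ} (ht : 1 ≤ |t|) :
    (max 1 |l|)⁻¹ * (max 1 |t + l|) ^ (-a) ≤ (2 ^ a' * |t| ^ (-a')) *
      ((max 1 |l|) ^ (-(1 + (a - a'))) + (max 1 |t + l|) ^ (-(1 + (a - a')))) := by
  set m : ℝ := max 1 |l| with hm
  set u : ℝ := max 1 |t + l| with hu
  have hm1 : 1 ≤ m := le_max_left _ _
  have hu1 : 1 ≤ u := le_max_left _ _
  have hm0 : 0 < m := by linarith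
  have hu0 : 0 < u := by linarith
  have ht0 : 0 < |t| := by linarith
  have hml : |l| ≤ m := le_max_right _ _
  have hul : |t + l| ≤ u := le_max_right _ _
  have htr : |t| ≤ m + u := by
    have h1 : |t| = |(t + l) - l| := by
      congr 1
      ring
    rw [h1]
    refine (abs_sub _ _).trans ?_
    linarith
  have key : ∀ z : ℝ, 0 < z → |t| ≤ 2 * z → z ^ (-a') ≤ 2 ^ a' * |t| ^ (-a') := by
    intro z hz hzt
    have h1 : |t| / 2 ≤ z := by linarith
    have h2 : z ^ (-a') ≤ (|t| / 2) ^ (-a') :=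
      Real.rpow_le_rpow_of_nonpos (by positivity) h1 (by linarith)
    have h3 : (|t| / 2) ^ (-a') = 2 ^ a' * |t| ^ (-a') := by
      rw [Real.div_rpow ht0.le (by norm_num), Real.rpow_neg (by norm_num : (0 : ℝ) ≤ 2)]
      field_simp
    linarith
  have hpos : 0 ≤ 2 ^ a' * |t| ^ (-a') := by positivity
  rcases le_total m u with h | h
  · have h1 : u ^ (-a) = u ^ (-a') * u ^ (-(a - a')) := by
      rw [← Real.rpow_add hu0]
      congr 1
      ring
    have h2 : u ^ (-(a - a')) ≤ m ^ (-(a - a')) :=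
      Real.rpow_le_rpow_of_nonpos hm0 h (by linarith)
    have h3 := key u hu0 (by linarith)
    have h4 : m⁻¹ * m ^ (-(a - a')) = m ^ (-(1 + (a - a'))) := by
      rw [← Real.rpow_neg_one, ← Real.rpow_add hm0]
      congr 1
      ring
    calc m⁻¹ * u ^ (-a) = u ^ (-a') * (m⁻¹ * u ^ (-(a - a'))) := by rw [h1]; ring
      _ ≤ (2 ^ a' * |t| ^ (-a')) * (m⁻¹ * m ^ (-(a - a'))) := by gcongr
      _ = (2 ^ a' * |t| ^ (-a')) * m ^ (-(1 + (a - a'))) := by rw [h4]
      _ ≤ _ := by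
        gcongr
        have : 0 ≤ u ^ (-(1 + (a - a'))) := by positivity
        linarith
  · have h0 : m ^ (-(1 - a')) ≤ u ^ (-(1 - a')) :=
      Real.rpow_le_rpow_of_nonpos hu0 h (by linarith)
    have h6 : m⁻¹ = m ^ (-a') * m ^ (-(1 - a')) := by
      rw [← Real.rpow_neg_one, ← Real.rpow_add hm0]
      congr 1
      ring
    have h1 : m⁻¹ ≤ m ^ (-a') * u ^ (-(1 - a')) := by
      rw [h6]
      exact mul_le_mul_of_nonneg_left h0 (by positivity)
    have h3 := key m hm0 (by linarith)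
    have h4 : u ^ (-(1 - a')) * u ^ (-a) = u ^ (-(1 + (a - a'))) := by
      rw [← Real.rpow_add hu0]
      congr 1
      ring
    calc m⁻¹ * u ^ (-a) ≤ (m ^ (-a') * u ^ (-(1 - a'))) * u ^ (-a) := by gcongr
      _ = m ^ (-a') * (u ^ (-(1 - a')) * u ^ (-a)) := by ring
      _ ≤ (2 ^ a' * |t| ^ (-a')) * u ^ (-(1 + (a - a'))) := by
        rw [h4]
        gcongr
      _ ≤ _ := by
        gcongr
        have : 0 ≤ m ^ (-(1 + (a - a'))) := by positivity
        linarith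

/-- The integral of the weights. -/
lemma wint {a a' : ℝ} (ha' : 0 ≤ a') (ha1 : a' ≤ 1) (haa : a' < a) {t : ℝ} (ht : 1 ≤ |t|) :
    ∫⁻ l : ℝ, ENNReal.ofReal ((max 1 |l|)⁻¹ * (max 1 |t + l|) ^ (-a)) ≤
      ENNReal.ofReal (2 ^ a' * |t| ^ (-a')) * (4 * tint (3 + 2 * (a - a'))) := by
  have e0 : -(1 + (a - a')) = -((3 + 2 * (a - a') - 1) / 2) := by ring
  have h1 : ∀ l : ℝ, ENNReal.ofReal ((max 1 |l|)⁻¹ * (max 1 |t + l|) ^ (-a)) ≤
      ENNReal.ofReal (2 ^ a' * |t| ^ (-a')) *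
      (ENNReal.ofReal ((max 1 |l|) ^ (-((3 + 2 * (a - a') - 1) / 2))) +
        ENNReal.ofReal ((max 1 |t + l|) ^ (-((3 + 2 * (a - a') - 1) / 2)))) := by
    intro l
    rw [← ENNReal.ofReal_add (by positivity) (by positivity), ← ENNReal.ofReal_mul (by positivity)]
    apply ENNReal.ofReal_le_ofReal
    have := mx_le ha' ha1 haa (l := l) ht
    rw [e0] at this
    exact this
  refine (lintegral_mono h1).trans ?_
  have hm1 : Measurable fun l : ℝ => ENNReal.ofReal ((max 1 |l|) ^ (-((3 + 2 * (a - a') - 1) / 2))) := by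
    fun_prop
  rw [lintegral_const_mul' _ _ ENNReal.ofReal_ne_top, lintegral_add_left hm1,
    lintegral_add_left_eq_self
      (fun l : ℝ => ENNReal.ofReal ((max 1 |l|) ^ (-((3 + 2 * (a - a') - 1) / 2)))) t]
  apply mul_le_mul' le_rfl
  have h2 := int_max (3 + 2 * (a - a'))
  calc _ ≤ 2 * tint (3 + 2 * (a - a')) + 2 * tint (3 + 2 * (a - a')) := add_le_add h2 h2
    _ = _ := by ring

/-- The extension operator of the approximation. -/
lemma E2_ap {L U c : ℝ} (hU : 0 ≤ U) (hc : 0 < c) (h : Bv V F) (y : ℝ × ℝ) (t : ℝ) :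
    E2 (ap L U c F) y t = ∫ l, gs c l * E2 ((Ql L).indicator (gh U F l)) y (t + l) := by
  unfold Pool.Agent.TH277.CB.E2
  have hpq : ∀ (l : ℝ) (x : ℝ × ℝ), pq y (t + l) x = pq y t x * ch (l * s2 x) := by
    intro l x
    unfold Pool.Agent.TH277.CB.pq
    rw [← ch_add]
    congr 1
    ring
  have h1 : ∀ x, pq y t x * ap L U c F x =
      ∫ l, gs c l * (pq y (t + l) x * (Ql L).indicator (gh U F l) x) := by
    intro x
    unfold ap
    by_cases hx : x ∈ Ql L
    · rw [indicator_of_mem hx, ← integral_const_mul]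
      apply integral_congr_ae
      refine ae_of_all _ fun l => ?_
      simp only
      rw [indicator_of_mem hx, hpq]
      ring
    · rw [indicator_of_notMem hx, mul_zero]
      have : ∀ l, gs c l * (pq y (t + l) x * (Ql L).indicator (gh U F l) x) = 0 := by
        intro l
        rw [indicator_of_notMem hx, mul_zero, mul_zero]
      simp only [this, integral_zero]
  simp only [h1]
  rw [integral_integral_swap]
  · apply integral_congr_ae
    refine ae_of_all _ fun l => ?_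
    simp only
    rw [integral_const_mul]
  · have hQ : Integrable ((Ql L).indicator fun _ : ℝ × ℝ => (1 : ℂ)) := by
      rw [integrable_indicator_iff (Ql_meas L)]
      have hQv : volume (Ql L) ≠ ⊤ := by
        refine ((measure_mono ?_).trans_lt (Bx_fin L)).ne
        intro x hx
        exact ⟨⟨hx.1.1.le, hx.1.2.le⟩, ⟨hx.2.1.le, hx.2.2.le⟩⟩
      exact integrableOn_const hQv
    have h2 := hQ.mul_prod (gs_int hc)
    have hG : Measurable fun p : (ℝ × ℝ) × ℝ => gh U F p.2 p.1 := by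
      have h3 : Measurable (Prod.swap : (ℝ × ℝ) × ℝ → ℝ × (ℝ × ℝ)) := measurable_swap
      exact (gh_meas U h.meas).comp h3
    have hP : Continuous fun p : (ℝ × ℝ) × ℝ => pq y (t + p.2) p.1 := by
      have h4 : Continuous fun p : (ℝ × ℝ) × ℝ =>
          (((y, t + p.2), p.1) : ((ℝ × ℝ) × ℝ) × (ℝ × ℝ)) := by fun_prop
      exact pq_cont.comp h4
    have h5 : AEStronglyMeasurable (fun p : (ℝ × ℝ) × ℝ => pq y (t + p.2) p.1 * gh U F p.2 p.1)
        (volume.prod volume) := (hP.measurable.mul hG).aestronglyMeasurable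
    have h6 := h2.bdd_mul (c := U + V + 2) h5 (ae_of_all _ fun p => by
      rw [norm_mul, pq_norm, one_mul]
      exact (gh_le hU h _ _).trans (sz_le hU V _))
    refine h6.congr (ae_of_all _ fun p => ?_)
    simp only [Function.uncurry]
    by_cases hx : p.1 ∈ Ql L
    · rw [indicator_of_mem hx, indicator_of_mem hx]
      ring
    · rw [indicator_of_notMem hx, indicator_of_notMem hx]
      ring

/-- Joint measurability of the pieces. -/
lemma pieces_meas {L U : ℝ} (h : Bv V F) (t : ℝ) :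
    Measurable (Function.uncurry fun (l : ℝ) (y : ℝ × ℝ) =>
      E2 ((Ql L).indicator (gh U F l)) y (t + l)) := by
  have h1 : Measurable fun p : (ℝ × (ℝ × ℝ)) × (ℝ × ℝ) =>
      (Ql L).indicator (gh U F p.1.1) p.2 := by
    have h2 : (fun p : (ℝ × (ℝ × ℝ)) × (ℝ × ℝ) => (Ql L).indicator (gh U F p.1.1) p.2) =
        (Prod.snd ⁻¹' Ql L).indicator fun p : (ℝ × (ℝ × ℝ)) × (ℝ × ℝ) => gh U F p.1.1 p.2 := by
      ext p
      by_cases hx : p.2 ∈ Ql L
      · rw [indicator_of_mem hx, indicator_of_mem (show p ∈ Prod.snd ⁻¹' Ql L from hx)]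
      · rw [indicator_of_notMem hx, indicator_of_notMem (show p ∉ Prod.snd ⁻¹' Ql L from hx)]
    rw [h2]
    apply Measurable.indicator _ (measurable_snd (Ql_meas L))
    have h3 : Measurable fun p : (ℝ × (ℝ × ℝ)) × (ℝ × ℝ) => ((p.1.1, p.2) : ℝ × (ℝ × ℝ)) :=
      (measurable_fst.comp measurable_fst).prodMk measurable_snd
    exact (gh_meas U h.meas).comp h3
  have h4 : Continuous fun p : (ℝ × (ℝ × ℝ)) × (ℝ × ℝ) => pq p.1.2 (t + p.1.1) p.2 := by
    have h5 : Continuous fun p : (ℝ × (ℝ × ℝ)) × (ℝ × ℝ) =>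
        (((p.1.2, t + p.1.1), p.2) : ((ℝ × ℝ) × ℝ) × (ℝ × ℝ)) := by fun_prop
    exact pq_cont.comp h5
  have h6 : StronglyMeasurable fun p : (ℝ × (ℝ × ℝ)) × (ℝ × ℝ) =>
      pq p.1.2 (t + p.1.1) p.2 * (Ql L).indicator (gh U F p.1.1) p.2 :=
    (h4.measurable.mul h1).stronglyMeasurable
  have h7 : StronglyMeasurable (Function.uncurry fun (q : ℝ × (ℝ × ℝ)) (x : ℝ × ℝ) =>
      pq q.2 (t + q.1) x * (Ql L).indicator (gh U F q.1) x) := h6
  have h8 : StronglyMeasurable fun q : ℝ × (ℝ × ℝ) =>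
      ∫ x, pq q.2 (t + q.1) x * (Ql L).indicator (gh U F q.1) x :=
    h7.integral_prod_right (ν := (volume : Measure (ℝ × ℝ)))
  exact h8.measurable

/-- The norm of the approximation. -/
lemma N4_ap {L U c a : ℝ} (hU : 0 ≤ U) (hc : 0 < c) (h : Bv V F) {C : ℝ≥0∞} (hC : C ≠ ⊤)
    (hC0 : C ≠ 0)
    (hd : ∀ Ω, Ad Ω → ∀ s : ℝ, N4 (rs (Ql L) Ω) s ≤ C * ENNReal.ofReal ((max 1 |s|) ^ (-a)))
    (t : ℝ) :
    ∫⁻ y, ‖E2 (ap L U c F) y t‖ₑ ^ 4 ≤ (C * ENNReal.ofReal (U + V + 2) *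
      ∫⁻ l : ℝ, ENNReal.ofReal ((max 1 |l|)⁻¹ * (max 1 |t + l|) ^ (-a))) ^ 4 := by
  have hV0 : (0 : ℝ) ≤ V := V.2
  set b : ℝ → ℝ≥0∞ := fun l => C * ENNReal.ofReal (U + V + 2) *
    ENNReal.ofReal ((max 1 |l|)⁻¹ * (max 1 |t + l|) ^ (-a)) with hb
  have hbm : Measurable b := by
    simp only [hb]
    fun_prop
  have hmx : ∀ s : ℝ, 0 < max 1 |s| := fun s => lt_of_lt_of_le one_pos (le_max_left _ _)
  have hb0 : ∀ l, b l ≠ 0 := by
    intro l
    have h1 := hmx l
    have h2 := hmx (t + l)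
    refine mul_ne_zero (mul_ne_zero hC0 ?_) ?_
    · exact (ENNReal.ofReal_pos.2 (by positivity)).ne'
    · exact (ENNReal.ofReal_pos.2 (by positivity)).ne'
  have hbt : ∀ l, b l ≠ ⊤ := fun l =>
    ENNReal.mul_ne_top (ENNReal.mul_ne_top hC ENNReal.ofReal_ne_top) ENNReal.ofReal_ne_top
  set Φ : ℝ → ℝ × ℝ → ℝ≥0∞ := fun l y =>
    ‖E2 ((Ql L).indicator (gh U F l)) y (t + l)‖ₑ with hΦ
  have hΦm : Measurable (Function.uncurry Φ) := (pieces_meas h t).enorm
  have hbd : ∀ l, ∫⁻ y, Φ l y ^ 4 ≤ b l ^ 4 := by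
    intro l
    simp only [hΦ]
    rw [← N4_pow]
    apply pow_le_pow_left₀ zero_le
    have h1 : (Ql L).indicator (gh U F l) = fun x => ((sz U V l : ℝ) : ℂ) *
        rs (Ql L) (fun x => ((sz U V l)⁻¹ : ℝ) * gh U F l x) x := by
      ext x
      unfold rs
      by_cases hx : x ∈ Ql L
      · rw [indicator_of_mem hx, indicator_of_mem hx, ← mul_assoc, ← Complex.ofReal_mul,
          mul_inv_cancel₀ (sz_pos hU V l).ne']
        simp
      · rw [indicator_of_notMem hx, indicator_of_notMem hx, mul_zero]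
    rw [h1, N4_cmul]
    have h2 := hd _ (gh_Ad hU h l) (t + l)
    have h3 : ‖((sz U V l : ℝ) : ℂ)‖ₑ = ENNReal.ofReal (U + V + 2) * ENNReal.ofReal (max 1 |l|)⁻¹ := by
      rw [← ofReal_norm, Complex.norm_real, Real.norm_of_nonneg (sz_pos hU V l).le,
        ← ENNReal.ofReal_mul (by positivity)]
      rfl
    rw [h3]
    calc _ ≤ ENNReal.ofReal (U + V + 2) * ENNReal.ofReal (max 1 |l|)⁻¹ *
          (C * ENNReal.ofReal ((max 1 |t + l|) ^ (-a))) := mul_le_mul' le_rfl h2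
      _ = b l := by
        simp only [hb]
        rw [ENNReal.ofReal_mul (inv_nonneg.2 (hmx l).le)]
        ring
  have hpt : ∀ y, ‖E2 (ap L U c F) y t‖ₑ ≤ ∫⁻ l, Φ l y := by
    intro y
    rw [E2_ap hU hc h]
    refine (enorm_integral_le_lintegral_enorm _).trans ?_
    apply lintegral_mono
    intro l
    simp only [hΦ]
    rw [enorm_mul]
    have h1 : ‖gs c l‖ₑ ≤ 1 := by
      rw [← ofReal_norm, ENNReal.ofReal_le_one]
      exact gs_norm_le hc l
    calc ‖gs c l‖ₑ * ‖E2 ((Ql L).indicator (gh U F l)) y (t + l)‖ₑ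
        ≤ 1 * ‖E2 ((Ql L).indicator (gh U F l)) y (t + l)‖ₑ := mul_le_mul' h1 le_rfl
      _ = _ := one_mul _
  calc ∫⁻ y, ‖E2 (ap L U c F) y t‖ₑ ^ 4 ≤ ∫⁻ y, (∫⁻ l, Φ l y) ^ 4 :=
        lintegral_mono fun y => pow_le_pow_left₀ zero_le (hpt y) 4
    _ ≤ (∫⁻ l, b l) ^ 4 := mink4 hΦm hbm hb0 hbt hbd
    _ = _ := by
        congr 1
        simp only [hb]
        rw [lintegral_const_mul']
        exact ENNReal.mul_ne_top hC ENNReal.ofReal_ne_top

/-- Passage to the limit. -/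
lemma N4_lim {L U : ℝ} (hU : 2 * L ^ 2 < U) (h : Bv V F) (t : ℝ) {X : ℝ≥0∞}
    (hX : ∀ n : ℕ, ∫⁻ y, ‖E2 (ap L U (n + 1) F) y t‖ₑ ^ 4 ≤ X ^ 4) :
    N4 (rs (Ql L) F) t ≤ X := by
  apply N4_le_of
  have hQv : volume (Ql L) < ⊤ := by
    refine (measure_mono ?_).trans_lt (Bx_fin L)
    intro x hx
    exact ⟨⟨hx.1.1.le, hx.1.2.le⟩, ⟨hx.2.1.le, hx.2.2.le⟩⟩
  have hlim : ∀ y, Tendsto (fun n : ℕ => E2 (ap L U (n + 1) F) y t) atTop
      (𝓝 (E2 (rs (Ql L) F) y t)) := by
    intro y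
    unfold Pool.Agent.TH277.CB.E2
    apply tendsto_integral_of_dominated_convergence ((Ql L).indicator fun _ => (1 : ℝ))
    · intro n
      have h1 : Continuous fun x : ℝ × ℝ => pq y t x :=
        pq_cont.comp (Continuous.prodMk_right (((y, t) : (ℝ × ℝ) × ℝ)))
      exact (h1.measurable.mul (ap_meas L U _ h)).aestronglyMeasurable
    · rw [integrable_indicator_iff (Ql_meas L)]
      exact integrableOn_const hQv.ne
    · intro n
      refine ae_of_all _ fun x => ?_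
      rw [norm_mul, pq_norm, one_mul]
      by_cases hx : x ∈ Ql L
      · rw [indicator_of_mem hx]
        exact ap_bd (by positivity) h x
      · rw [indicator_of_notMem hx]
        unfold ap
        rw [indicator_of_notMem hx, norm_zero]
    · filter_upwards [ap_ae hU h] with x hx
      exact hx.const_mul _
  calc ∫⁻ y, ‖E2 (rs (Ql L) F) y t‖ₑ ^ 4
      = ∫⁻ y, liminf (fun n : ℕ => ‖E2 (ap L U (n + 1) F) y t‖ₑ ^ 4) atTop := by
        apply lintegral_congr
        intro y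
        have h1 : Tendsto (fun n : ℕ => ‖E2 (ap L U (n + 1) F) y t‖ₑ ^ 4) atTop
            (𝓝 (‖E2 (rs (Ql L) F) y t‖ₑ ^ 4)) :=
          (ENNReal.continuous_pow 4).continuousAt.tendsto.comp (hlim y).enorm
        exact h1.liminf_eq.symm
    _ ≤ liminf (fun n : ℕ => ∫⁻ y, ‖E2 (ap L U (n + 1) F) y t‖ₑ ^ 4) atTop := by
        apply lintegral_liminf_le
        intro n
        exact (E2_meas1 (ap_meas L U _ h) t).enorm.pow_const 4
    _ ≤ liminf (fun _ : ℕ => X ^ 4) atTop := by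
        apply liminf_le_liminf
        · exact Eventually.of_forall hX
        · isBoundedDefault
        · isBoundedDefault
    _ = X ^ 4 := by simp

/-- Decay for functions of bounded variation along rays. -/
theorem CD_ray {a : ℝ} (ha0 : 0 ≤ a) (ha : a < 1 / 2) {L : ℝ} (hL : 1 ≤ L) (V : ℝ≥0) :
    CD {f | ∃ F, Bv V F ∧ f = rs (Ql L) F} a := by
  set b : ℝ := (a + 1 / 2) / 2 with hb
  have hab : a < b := by linarith
  obtain ⟨C, hC, hC2⟩ := CS_Ql (a := b) (by linarith) (by linarith) hL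
  set D : ℝ≥0∞ := (ENNReal.ofReal ((2 * Real.pi) ^ 2) * (ENNReal.ofReal (2 * L) ^ 2) ^ 3) ^
    (1 / 4 : ℝ) with hD
  have hDt : D < ⊤ := by
    apply ENNReal.rpow_lt_top_of_nonneg (by norm_num)
    exact ENNReal.mul_ne_top ENNReal.ofReal_ne_top (ENNReal.pow_ne_top
      (ENNReal.pow_ne_top ENNReal.ofReal_ne_top))
  set C0 : ℝ≥0∞ := C + D + 1 with hC0
  have hC0t : C0 < ⊤ := ENNReal.add_lt_top.2 ⟨ENNReal.add_lt_top.2 ⟨hC, hDt⟩, ENNReal.one_lt_top⟩
  have hC00 : C0 ≠ 0 := by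
    rw [hC0]
    simp
  have hd : ∀ Ω, Ad Ω → ∀ s : ℝ,
      N4 (rs (Ql L) Ω) s ≤ C0 * ENNReal.ofReal ((max 1 |s|) ^ (-b)) := by
    intro Ω hΩ s
    rcases le_or_gt 1 |s| with h | h
    · rw [max_eq_right h]
      refine (hC2 _ ⟨Ω, hΩ, rfl⟩ s h).trans ?_
      apply mul_le_mul' _ le_rfl
      rw [hC0, add_assoc]
      exact le_self_add
    · rw [max_eq_left h.le, Real.one_rpow, ENNReal.ofReal_one, mul_one]
      refine (triv_N4 (rs_Ql_Bd hΩ) s).trans ?_
      rw [hC0, add_comm C, add_assoc]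
      exact le_self_add
  set U : ℝ := 2 * L ^ 2 + 1 with hU
  have hU0 : 0 ≤ U := by positivity
  refine ⟨C0 * ENNReal.ofReal (U + V + 2) * (ENNReal.ofReal (2 ^ a) *
    (4 * tint (3 + 2 * (b - a)))), ?_, ?_⟩
  · apply ENNReal.mul_lt_top (ENNReal.mul_lt_top hC0t ENNReal.ofReal_lt_top)
    apply ENNReal.mul_lt_top ENNReal.ofReal_lt_top
    exact ENNReal.mul_lt_top (by norm_num) (tint_lt _ (by linarith))
  rintro f ⟨F, hF, rfl⟩ t ht
  refine (N4_lim (U := U) (by linarith) hF t (X := C0 * ENNReal.ofReal (U + V + 2) *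
      ∫⁻ l : ℝ, ENNReal.ofReal ((max 1 |l|)⁻¹ * (max 1 |t + l|) ^ (-b))) fun n => ?_).trans ?_
  · exact N4_ap hU0 (by positivity) hF hC0t.ne hC00 hd t
  · calc _ ≤ C0 * ENNReal.ofReal (U + V + 2) *
        (ENNReal.ofReal (2 ^ a * |t| ^ (-a)) * (4 * tint (3 + 2 * (b - a)))) :=
        mul_le_mul' le_rfl (wint ha0 (by linarith) hab ht)
      _ = _ := by
        rw [ENNReal.ofReal_mul (by positivity)]
        ring

end Pool.Agent.P8H98.HG
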