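import Mathlib
import Pool.Agent.P8H98.HG.Ray5
import Pool.Agent.P8H98.HG.Final
set_option autoImplicit false

/-! Atoms: functions of bounded variation along the rays from a point, cut by polygons. -/

namespace Pool.Agent.P8H98.HG

open MeasureTheory Set Complex Filter Topology
open scoped ENNReal NNReal ComplexConjugate ContDiff
open Pool.Agent.TH277.CS (s2)
open Pool.Agent.TH277.CB (pq E2 pq_norm pq_cont scale_neg s2_cont)
open Pool.Agent.TH277.HT (ch ch_norm ch_cont ch_add)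

/-- An atom: a function of bounded variation along the rays from a point, times a character, on a
polygon. -/
def Ab (A : ℝ) (V : ℝ≥0) (n : ℕ) (f : ℝ × ℝ → ℂ) : Prop :=
  ∃ (F : ℝ × ℝ → ℂ) (ζ η : ℝ × ℝ) (ν : Fin n → ℝ × ℝ) (c : Fin n → ℝ), Bv V F ∧
    |ζ.1| ≤ A ∧ |ζ.2| ≤ A ∧
    f = (Pg ν c).indicator fun x => ch (η.1 * x.1 + η.2 * x.2) * F (x - ζ)

lemma Ab.bd {A : ℝ} {V : ℝ≥0} {n : ℕ} {f : ℝ × ℝ → ℂ} (h : Ab A V n f) (x : ℝ × ℝ) :
    ‖f x‖ ≤ 1 := by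
  obtain ⟨Ω, ζ, η, ν, c, hΩ, -, -, rfl⟩ := h
  by_cases hx : x ∈ Pg ν c
  · rw [indicator_of_mem hx, norm_mul, ch_norm, one_mul]
    exact hΩ.bd _
  · rw [indicator_of_notMem hx, norm_zero]
    exact zero_le_one

lemma Bv.cmul {V : ℝ≥0} {F : ℝ × ℝ → ℂ} (h : Bv V F) {w : ℂ} (hw : ‖w‖ = 1) :
    Bv V fun x => w * F x := by
  refine ⟨h.meas.const_mul w, fun x => ?_, fun x => ?_⟩
  · rw [norm_mul, hw, one_mul]
    exact h.bd x
  · have h1 : LipschitzOnWith 1 (fun z : ℂ => w * z) univ := by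
      intro a _ b _
      rw [edist_eq_enorm_sub, edist_eq_enorm_sub, ← mul_sub, enorm_mul, ← ofReal_norm w, hw]
      simp
    have h2 := h1.comp_eVariationOn_le (g := fun r : ℝ => F (r • x)) (s := Ioi 0)
      (fun _ _ => mem_univ _)
    refine (h2.trans ?_)
    rw [ENNReal.coe_one, one_mul]
    exact h.var x

lemma rs_Ql_Bd' {L : ℝ} {V : ℝ≥0} {F : ℝ × ℝ → ℂ} (h : Bv V F) : Bd L (rs (Ql L) F) := by
  refine ⟨h.meas.indicator (Ql_meas L), fun x => ?_, fun x hx => ?_⟩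
  · unfold rs
    by_cases hx : x ∈ Ql L
    · rw [indicator_of_mem hx]
      exact h.bd x
    · rw [indicator_of_notMem hx, norm_zero]
      exact zero_le_one
  · refine indicator_of_notMem (fun h => hx ?_) _
    exact ⟨⟨h.1.1.le, h.1.2.le⟩, ⟨h.2.1.le, h.2.2.le⟩⟩

/-- Decay for atoms. -/
theorem CD_Ab {a : ℝ} (ha0 : 0 ≤ a) (ha : a < 1 / 2) (A : ℝ) (V : ℝ≥0) (n : ℕ) :
    CD {f | ∃ g, Ab A V n g ∧ f = Pool.Agent.TH277.CB.Q2.indicator g} a := by
  set L : ℝ := max A 0 + 2 with hL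
  have hA0 : 0 ≤ max A 0 := le_max_right _ _
  have hAL : A ≤ max A 0 := le_max_left _ _
  have hb : a < (a + 1 / 2) / 2 := by linarith
  have hb2 : (a + 1 / 2) / 2 < 1 / 2 := by linarith
  have h1 : CD {f | ∃ F, Bv V F ∧ f = rs (Ql L) F} ((a + 1 / 2) / 2) :=
    CD_ray (by linarith) hb2 (by linarith) V
  obtain ⟨C, hC, h2⟩ := CD.poly h1 (by linarith) hb (by linarith : (0 : ℝ) ≤ L) (by
    rintro f ⟨Ω, hΩ, rfl⟩
    exact rs_Ql_Bd' hΩ) (4 + n)
  refine ⟨C, hC, ?_⟩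
  rintro f ⟨g, ⟨Ω, ζ, η, ν, c, hΩ, hζ1, hζ2, rfl⟩, rfl⟩ t ht
  set g : ℝ × ℝ → ℂ := (Pg ν c).indicator fun x => ch (η.1 * x.1 + η.2 * x.2) * Ω (x - ζ) with hg
  have e1 : Pool.Agent.TH277.CB.Q2.indicator g =ᵐ[volume] Qo.indicator g :=
    indicator_ae_eq_of_ae_eq_set Q2_ae
  rw [N4_congr e1]
  set w : ℂ := ch (η.1 * ζ.1 + η.2 * ζ.2) with hw
  set Ω' : ℝ × ℝ → ℂ := fun x => w * Ω x with hΩ'
  have hA' : Bv V Ω' := hΩ.cmul (ch_norm _)
  set P := Pg (Fin.append side ν) (Fin.append ![-1 - ζ.1, -1 + ζ.1, -1 - ζ.2, -1 + ζ.2]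
    fun i => c i - lf (ν i) ζ) with hP
  have e2 : N4 (Qo.indicator g) t = N4 (P.indicator (rs (Ql L) Ω')) t := by
    apply N4_trans ζ η
    intro x
    have hmem : x ∈ P ↔ (x + ζ ∈ Qo ∧ x + ζ ∈ Pg ν c) := by
      rw [hP, Pg_append, side_set, mem_inter_iff]
      have h3 : x ∈ Pg ν (fun i => c i - lf (ν i) ζ) ↔ x + ζ ∈ Pg ν c := by
        simp only [Pg, mem_ofPred_eq]
        apply forall_congr'
        intro i
        have h4 : lf (ν i) (x + ζ) = lf (ν i) x + lf (ν i) ζ := by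
          unfold lf
          simp only [Prod.fst_add, Prod.snd_add]
          ring
        rw [h4]
        constructor <;> intro h <;> linarith
      rw [h3]
      rfl
    by_cases hx : x ∈ P
    · obtain ⟨h3, h4⟩ := hmem.1 hx
      have h5 : x ∈ Ql L := by
        obtain ⟨⟨a1, a2⟩, ⟨a3, a4⟩⟩ := h3
        simp only [Prod.fst_add, Prod.snd_add] at a1 a2 a3 a4
        have b1 := abs_le.1 hζ1
        have b2 := abs_le.1 hζ2
        exact ⟨⟨by linarith [b1.2], by linarith [b1.1]⟩, ⟨by linarith [b2.2], by linarith [b2.1]⟩⟩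
      rw [indicator_of_mem h3, indicator_of_mem hx, hg, indicator_of_mem h4]
      unfold rs
      rw [indicator_of_mem h5]
      simp only [hΩ', hw, add_sub_cancel_right]
      rw [← mul_assoc, ← ch_add]
      congr 2
      simp only [Prod.fst_add, Prod.snd_add]
      ring
    · rw [indicator_of_notMem hx, mul_zero]
      by_cases h3 : x + ζ ∈ Qo
      · have h4 : x + ζ ∉ Pg ν c := fun h => hx (hmem.2 ⟨h3, h⟩)
        rw [indicator_of_mem h3, hg, indicator_of_notMem h4]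
      · rw [indicator_of_notMem h3]
  rw [e2]
  exact h2 _ ⟨rs (Ql L) Ω', ⟨Ω', hA', rfl⟩, _, _, rfl⟩ t ht

/-- The class of atoms. -/
theorem Cl_Ab (A : ℝ) (V : ℝ≥0) (n : ℕ) : Cl (Ab A V n) :=
  ⟨fun _ h x => h.bd x, fun _ h0 h1 => CD_Ab h0 h1 A V n⟩

end Pool.Agent.P8H98.HG
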